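import Mathlib

/-!
Vanishing in a box, in the form of linear functionals on the exponents.
-/

set_option autoImplicit false

namespace Pool.Agent.TH888.B2

open Finset Polynomial

/-- `∑ c X ^ E Y ^ F` vanishes at `(1, 1)` in the box `α × β` -/
def Van {ι : Type} [Fintype ι] (c : ι → ℚ) (E F : ι → ℕ) (α β : ℕ) : Prop :=
  ∀ f g : ℚ[X], f.degree < α → g.degree < β →
    ∑ i, c i * (f.eval (E i : ℚ) * g.eval (F i : ℚ)) = 0

/-- Newton's expansion -/
theorem newton {α : ℕ} {f : ℚ[X]} (hf : f.degree < α) :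
    ∃ φ : ℕ → ℚ, ∀ n : ℕ, f.eval (n : ℚ) = ∑ a ∈ range α, φ a * (n.choose a : ℚ) := by
  refine ⟨fun a => ((fwdDiff (1 : ℚ))^[a] f.eval) 0, fun n => ?_⟩
  have h1 := shift_eq_sum_fwdDiff_iter (1 : ℚ) f.eval n 0
  rw [zero_add, nsmul_eq_mul, mul_one] at h1
  rw [h1]
  have hz : ∀ a, α ≤ a → ((fwdDiff (1 : ℚ))^[a] f.eval) 0 = 0 := by
    intro a ha
    by_cases hf0 : f = 0
    · subst hf0
      rcases Nat.eq_zero_or_pos a with h0 | h0
      · subst h0
        simp
      · have h2 := Polynomial.fwdDiff_iter_eq_zero_of_degree_lt (P := (0 : ℚ[X])) (n := a)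
          (by simpa using h0)
        exact congrFun h2 0
    · have h2 := Polynomial.fwdDiff_iter_eq_zero_of_degree_lt (P := f) (n := a) (by
        rw [← Nat.cast_lt (α := WithBot ℕ), ← degree_eq_natDegree hf0]
        exact lt_of_lt_of_le hf (by exact_mod_cast ha))
      exact congrFun h2 0
  have h2 : ∑ a ∈ range (n + 1), n.choose a • ((fwdDiff (1 : ℚ))^[a] f.eval) 0 =
      ∑ a ∈ range (max (n + 1) α), n.choose a • ((fwdDiff (1 : ℚ))^[a] f.eval) 0 := by
    apply Finset.sum_subset (range_subset_range.mpr (le_max_left _ _))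
    intro a _ ha
    rw [mem_range, not_lt] at ha
    rw [Nat.choose_eq_zero_of_lt (by omega), zero_smul]
  have h3 : ∑ a ∈ range α, ((fwdDiff (1 : ℚ))^[a] f.eval) 0 * (n.choose a : ℚ) =
      ∑ a ∈ range (max (n + 1) α), ((fwdDiff (1 : ℚ))^[a] f.eval) 0 * (n.choose a : ℚ) := by
    apply Finset.sum_subset (range_subset_range.mpr (le_max_right _ _))
    intro a _ ha
    rw [mem_range, not_lt] at ha
    rw [hz a ha, zero_mul]
  rw [h2, h3]
  apply sum_congr rfl
  intro a _
  rw [nsmul_eq_mul, mul_comm]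

/-- the polynomial `X choose a` -/
theorem choosePoly (a : ℕ) : ∃ f : ℚ[X], f.degree < (a + 1 : ℕ) ∧
    ∀ n : ℕ, f.eval (n : ℚ) = (n.choose a : ℚ) := by
  refine ⟨C ((a.factorial : ℚ)⁻¹) * descPochhammer ℚ a, ?_, fun n => ?_⟩
  · have h1 : (C ((a.factorial : ℚ)⁻¹) * descPochhammer ℚ a).natDegree ≤ a := by
      have h2 := natDegree_C_mul_le ((a.factorial : ℚ)⁻¹) (descPochhammer ℚ a)
      rw [descPochhammer_natDegree] at h2
      exact h2
    exact lt_of_le_of_lt degree_le_natDegree (by exact_mod_cast Nat.lt_succ_of_le h1)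
  · rw [eval_mul, eval_C, descPochhammer_eval_eq_descFactorial, Nat.descFactorial_eq_factorial_mul_choose]
    have : (a.factorial : ℚ) ≠ 0 := by exact_mod_cast a.factorial_ne_zero
    push_cast
    field_simp

theorem van_of_choose {ι : Type} [Fintype ι] {c : ι → ℚ} {E F : ι → ℕ} {α β : ℕ}
    (h : ∀ a < α, ∀ b < β, ∑ i, c i * (((E i).choose a : ℚ) * ((F i).choose b : ℚ)) = 0) :
    Van c E F α β := by
  intro f g hf hg
  obtain ⟨φ, hφ⟩ := newton hf
  obtain ⟨ψ, hψ⟩ := newton hg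
  have h1 : ∀ i, c i * (f.eval (E i : ℚ) * g.eval (F i : ℚ)) = ∑ a ∈ range α, ∑ b ∈ range β,
      φ a * ψ b * (c i * (((E i).choose a : ℚ) * ((F i).choose b : ℚ))) := by
    intro i
    rw [hφ, hψ, sum_mul_sum, mul_sum]
    apply sum_congr rfl
    intro a _
    rw [mul_sum]
    apply sum_congr rfl
    intro b _
    ring
  simp_rw [h1]
  rw [sum_comm]
  apply sum_eq_zero
  intro a ha
  rw [sum_comm]
  apply sum_eq_zero
  intro b hb
  rw [← mul_sum, h a (mem_range.mp ha) b (mem_range.mp hb), mul_zero]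

theorem Van.choose {ι : Type} [Fintype ι] {c : ι → ℚ} {E F : ι → ℕ} {α β : ℕ}
    (h : Van c E F α β) {a b : ℕ} (ha : a < α) (hb : b < β) :
    ∑ i, c i * (((E i).choose a : ℚ) * ((F i).choose b : ℚ)) = 0 := by
  obtain ⟨f, hf, hfe⟩ := choosePoly a
  obtain ⟨g, hg, hge⟩ := choosePoly b
  have h1 := h f g (lt_of_lt_of_le hf (by exact_mod_cast ha)) (lt_of_lt_of_le hg (by exact_mod_cast hb))
  simp_rw [hfe, hge] at h1
  exact h1

/-- multiplication of the coefficients by binomials -/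
theorem Van.twist {ι : Type} [Fintype ι] {c : ι → ℚ} {E F : ι → ℕ} {α β : ℕ}
    (h : Van c E F α β) (a b : ℕ) :
    Van (fun i => c i * (((E i).choose a : ℚ) * ((F i).choose b : ℚ))) E F (α - a) (β - b) := by
  obtain ⟨f₀, hf₀, hfe⟩ := choosePoly a
  obtain ⟨g₀, hg₀, hge⟩ := choosePoly b
  intro f g hf hg
  have key : ∀ {P Q : ℚ[X]} {u γ : ℕ}, P.degree < (u + 1 : ℕ) → Q.degree < (γ - u : ℕ) →
      (P * Q).degree < (γ : ℕ) := by
    intro P Q u γ hP hQ
    by_cases hP0 : P = 0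
    · rw [hP0, zero_mul, degree_zero]; exact WithBot.bot_lt_coe _
    by_cases hQ0 : Q = 0
    · rw [hQ0, mul_zero, degree_zero]; exact WithBot.bot_lt_coe _
    rw [degree_eq_natDegree hP0, Nat.cast_lt] at hP
    rw [degree_eq_natDegree hQ0, Nat.cast_lt] at hQ
    rw [degree_mul, degree_eq_natDegree hP0, degree_eq_natDegree hQ0, ← Nat.cast_add, Nat.cast_lt]
    omega
  have h1 := h (f₀ * f) (g₀ * g) (key hf₀ hf) (key hg₀ hg)
  rw [← h1]
  apply sum_congr rfl
  intro i _
  rw [eval_mul, eval_mul, hfe, hge]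
  ring

/-- evaluation at `1 + v`, `1 + w` with nilpotent `v`, `w` -/
theorem eval_nil {R : Type} [CommRing R] {ι : Type} [Fintype ι] (c : ι → ℤ) (E F : ι → ℕ)
    {α β : ℕ}
    (h : ∀ a < α, ∀ b < β, ∑ i, c i * (((E i).choose a : ℤ) * ((F i).choose b : ℤ)) = 0)
    (v w : R) (hv : v ^ α = 0) (hw : w ^ β = 0) :
    ∑ i, (c i : R) * ((1 + v) ^ E i * (1 + w) ^ F i) = 0 := by
  have key : ∀ (x : R) (γ e : ℕ), x ^ γ = 0 →
      (1 + x) ^ e = ∑ a ∈ range γ, (e.choose a : R) * x ^ a := by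
    intro x γ e hx
    have h0 : (1 + x) ^ e = ∑ a ∈ range (e + 1), (e.choose a : R) * x ^ a := by
      rw [add_comm, add_pow]
      apply sum_congr rfl
      intro a _
      rw [one_pow, mul_one, mul_comm]
    rw [h0]
    have h2 : ∑ a ∈ range (e + 1), (e.choose a : R) * x ^ a =
        ∑ a ∈ range (max (e + 1) γ), (e.choose a : R) * x ^ a := by
      apply Finset.sum_subset (range_subset_range.mpr (le_max_left _ _))
      intro a _ ha
      rw [mem_range, not_lt] at ha
      rw [Nat.choose_eq_zero_of_lt (by omega), Nat.cast_zero, zero_mul]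
    have h3 : ∑ a ∈ range γ, (e.choose a : R) * x ^ a =
        ∑ a ∈ range (max (e + 1) γ), (e.choose a : R) * x ^ a := by
      apply Finset.sum_subset (range_subset_range.mpr (le_max_right _ _))
      intro a _ ha
      rw [mem_range, not_lt] at ha
      obtain ⟨d, rfl⟩ := Nat.exists_eq_add_of_le ha
      rw [pow_add, hx, zero_mul, mul_zero]
    rw [h2, h3]
  have h1 : ∀ i, (c i : R) * ((1 + v) ^ E i * (1 + w) ^ F i) = ∑ a ∈ range α, ∑ b ∈ range β,
      v ^ a * w ^ b * ((c i * (((E i).choose a : ℤ) * ((F i).choose b : ℤ)) : ℤ) : R) := by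
    intro i
    rw [key v α (E i) hv, key w β (F i) hw, sum_mul_sum, mul_sum]
    apply sum_congr rfl
    intro a _
    rw [mul_sum]
    apply sum_congr rfl
    intro b _
    push_cast
    ring
  simp_rw [h1]
  rw [sum_comm]
  apply sum_eq_zero
  intro a ha
  rw [sum_comm]
  apply sum_eq_zero
  intro b hb
  rw [← mul_sum, ← Int.cast_sum, h a (mem_range.mp ha) b (mem_range.mp hb), Int.cast_zero, mul_zero]

end Pool.Agent.TH888.B2
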