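import Mathlib
import Pool.Agent.TH888.B2.Van

/-!
The box ideal of polynomials in two variables in the form of linear functionals.
-/

set_option autoImplicit false

namespace Pool.Agent.TH888.B2

open Finset Polynomial

/-- `X ^ a ↦ f a` -/
noncomputable def L1 (f : ℚ[X]) : ℚ[X] →ₗ[ℚ] ℚ :=
  Polynomial.lsum (fun a : ℕ => (f.eval (a : ℚ)) • (LinearMap.id : ℚ →ₗ[ℚ] ℚ))

theorem L1_monomial (f : ℚ[X]) (a : ℕ) (z : ℚ) : L1 f (monomial a z) = z * f.eval (a : ℚ) := by
  unfold L1
  rw [Polynomial.lsum_apply, Polynomial.sum_monomial_index]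
  · simp [mul_comm]
  · simp

/-- `X ^ a Y ^ b ↦ f a * g b` -/
noncomputable def L2 (f g : ℚ[X]) : ℚ[X][X] →ₗ[ℚ] ℚ :=
  Polynomial.lsum (fun b : ℕ => (g.eval (b : ℚ)) • L1 f)

theorem L2_monomial (f g : ℚ[X]) (a b : ℕ) (z : ℚ) :
    L2 f g (monomial b (monomial a z)) = z * (f.eval (a : ℚ) * g.eval (b : ℚ)) := by
  unfold L2
  rw [Polynomial.lsum_apply, Polynomial.sum_monomial_index]
  · rw [LinearMap.smul_apply, L1_monomial, smul_eq_mul]; ring
  · simp

/-- vanishing in a box -/
def VP (P : ℚ[X][X]) (α β : ℕ) : Prop :=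
  ∀ f g : ℚ[X], f.degree < α → g.degree < β → L2 f g P = 0

theorem ind2 {p : ℚ[X][X] → Prop} (hadd : ∀ P Q, p P → p Q → p (P + Q))
    (hmon : ∀ (a b : ℕ) (z : ℚ), p (monomial b (monomial a z))) (P : ℚ[X][X]) : p P := by
  induction P using Polynomial.induction_on' with
  | add P Q hP hQ => exact hadd P Q hP hQ
  | monomial b R =>
    induction R using Polynomial.induction_on' with
    | add R S hR hS => rw [map_add]; exact hadd _ _ hR hS
    | monomial a z => exact hmon a b z

theorem shift_degree {f : ℚ[X]} {α : ℕ} (hf : f.degree < α) (a : ℚ) :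
    (f.comp (X + C a)).degree < α := by
  by_cases hf0 : f = 0
  · rw [hf0, zero_comp, degree_zero]; exact WithBot.bot_lt_coe _
  have h1 : (f.comp (X + C a)).natDegree = f.natDegree := by
    rw [natDegree_comp, natDegree_X_add_C, mul_one]
  refine lt_of_le_of_lt degree_le_natDegree ?_
  rw [h1, ← degree_eq_natDegree hf0]
  exact hf

theorem L2_mul_monomial (f g : ℚ[X]) (a b : ℕ) (z : ℚ) (P : ℚ[X][X]) :
    L2 f g (monomial b (monomial a z) * P) =
      z * L2 (f.comp (X + C (a : ℚ))) (g.comp (X + C (b : ℚ))) P := by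
  induction P using ind2 with
  | hadd P Q hP hQ => rw [mul_add, map_add, map_add, hP, hQ, mul_add]
  | hmon a' b' z' =>
    rw [monomial_mul_monomial, monomial_mul_monomial, L2_monomial, L2_monomial]
    simp only [eval_comp, eval_add, eval_X, eval_C]
    push_cast
    rw [add_comm (a : ℚ), add_comm (b : ℚ)]
    ring

theorem VP.mul_left {P : ℚ[X][X]} {α β : ℕ} (h : VP P α β) (G : ℚ[X][X]) : VP (G * P) α β := by
  induction G using ind2 with
  | hadd G H hG hH =>
    intro f g hf hg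
    rw [add_mul, map_add, hG f g hf hg, hH f g hf hg, add_zero]
  | hmon a b z =>
    intro f g hf hg
    rw [L2_mul_monomial, h _ _ (shift_degree hf _) (shift_degree hg _), mul_zero]

theorem VP.mono {P : ℚ[X][X]} {α β α' β' : ℕ} (h : VP P α β) (hα : α' ≤ α) (hβ : β' ≤ β) :
    VP P α' β' := fun f g hf hg =>
  h f g (lt_of_lt_of_le hf (by exact_mod_cast hα)) (lt_of_lt_of_le hg (by exact_mod_cast hβ))

theorem VP.sum {ι : Type} (s : Finset ι) (P : ι → ℚ[X][X]) {α β : ℕ} (h : ∀ i ∈ s, VP (P i) α β) :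
    VP (∑ i ∈ s, P i) α β := by
  intro f g hf hg
  rw [map_sum]
  exact sum_eq_zero fun i hi => h i hi f g hf hg

/-- Cramer's rule -/
theorem cramer {R : Type} [CommRing R] {r : ℕ} (M : Matrix (Fin r) (Fin r) R) (w : Fin r → R)
    (t : Fin r) : M.det * w t = ∑ b, M.adjugate t b * ∑ s, M b s * w s := by
  have h1 : M.adjugate.mulVec (M.mulVec w) = M.det • w := by
    rw [Matrix.mulVec_mulVec, Matrix.adjugate_mul, Matrix.smul_mulVec, Matrix.one_mulVec]
  have h2 := congrFun h1 t
  simp only [Pi.smul_apply, smul_eq_mul] at h2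
  rw [← h2]
  simp only [Matrix.mulVec, dotProduct]

end Pool.Agent.TH888.B2
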