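import Mathlib
import Pool.Agent.TH888.B2.Box

/-!
The determinant of the derived forms.
-/

set_option autoImplicit false

namespace Pool.Agent.TH888.B2

open Finset Polynomial

/-- bounded degrees and coefficients -/
def Rep (P : ℤ[X][X]) (n1 n2 H : ℕ) : Prop :=
  ∃ (ι : Type) (_ : Fintype ι) (z : ι → ℤ) (e1 e2 : ι → ℕ),
    P = ∑ a, monomial (e2 a) (monomial (e1 a) (z a)) ∧ (∀ a, e1 a ≤ n1) ∧ (∀ a, e2 a ≤ n2) ∧
      ∑ a, (z a).natAbs ≤ H

theorem Rep.mul {P Q : ℤ[X][X]} {n1 n2 H n1' n2' H' : ℕ} (hP : Rep P n1 n2 H)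
    (hQ : Rep Q n1' n2' H') : Rep (P * Q) (n1 + n1') (n2 + n2') (H * H') := by
  obtain ⟨ι, hι, z, e1, e2, rfl, h1, h2, h3⟩ := hP
  obtain ⟨κ, hκ, z', e1', e2', rfl, h1', h2', h3'⟩ := hQ
  refine ⟨ι × κ, inferInstance, fun a => z a.1 * z' a.2, fun a => e1 a.1 + e1' a.2,
    fun a => e2 a.1 + e2' a.2, ?_, fun a => Nat.add_le_add (h1 _) (h1' _),
    fun a => Nat.add_le_add (h2 _) (h2' _), ?_⟩
  · rw [sum_mul_sum, Fintype.sum_prod_type]
    apply sum_congr rfl
    intro a _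
    apply sum_congr rfl
    intro b _
    rw [monomial_mul_monomial, monomial_mul_monomial]
  · rw [Fintype.sum_prod_type]
    simp only [Int.natAbs_mul]
    rw [← sum_mul_sum]
    exact Nat.mul_le_mul h3 h3'

theorem Rep.add {P Q : ℤ[X][X]} {n1 n2 H H' : ℕ} (hP : Rep P n1 n2 H)
    (hQ : Rep Q n1 n2 H') : Rep (P + Q) n1 n2 (H + H') := by
  obtain ⟨ι, hι, z, e1, e2, rfl, h1, h2, h3⟩ := hP
  obtain ⟨κ, hκ, z', e1', e2', rfl, h1', h2', h3'⟩ := hQ
  refine ⟨ι ⊕ κ, inferInstance, Sum.elim z z', Sum.elim e1 e1', Sum.elim e2 e2', ?_, ?_, ?_, ?_⟩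
  · rw [Fintype.sum_sum_type]
    simp
  · rintro (a | a)
    · exact h1 a
    · exact h1' a
  · rintro (a | a)
    · exact h2 a
    · exact h2' a
  · rw [Fintype.sum_sum_type]
    exact Nat.add_le_add h3 h3'

theorem Rep.zero (n1 n2 : ℕ) : Rep 0 n1 n2 0 :=
  ⟨Empty, inferInstance, fun _ => 0, fun _ => 0, fun _ => 0, by simp, fun a => a.elim,
    fun a => a.elim, by simp⟩

theorem Rep.one : Rep 1 0 0 1 :=
  ⟨Unit, inferInstance, fun _ => 1, fun _ => 0, fun _ => 0, by simp, fun _ => le_rfl,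
    fun _ => le_rfl, by simp⟩

theorem Rep.unit_smul {P : ℤ[X][X]} {n1 n2 H : ℕ} (hP : Rep P n1 n2 H) (u : ℤˣ) :
    Rep (u • P) n1 n2 H := by
  obtain ⟨ι, hι, z, e1, e2, rfl, h1, h2, h3⟩ := hP
  refine ⟨ι, hι, fun a => u * z a, e1, e2, ?_, h1, h2, ?_⟩
  · rcases Int.units_eq_one_or u with rfl | rfl
    · simp
    · simp
  · simpa [Int.natAbs_mul] using h3

theorem Rep.prod {κ : Type} [DecidableEq κ] (s : Finset κ) (P : κ → ℤ[X][X]) {n1 n2 H : ℕ}
    (h : ∀ t ∈ s, Rep (P t) n1 n2 H) :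
    Rep (∏ t ∈ s, P t) (s.card * n1) (s.card * n2) (H ^ s.card) := by
  induction s using Finset.induction_on with
  | empty => simpa using Rep.one
  | insert a s ha ih =>
    rw [prod_insert ha, card_insert_of_notMem ha]
    have h1 := (h a (mem_insert_self _ _)).mul (ih fun t ht => h t (mem_insert_of_mem ht))
    have e1 : (s.card + 1) * n1 = n1 + s.card * n1 := by ring
    have e2 : (s.card + 1) * n2 = n2 + s.card * n2 := by ring
    have e3 : H ^ (s.card + 1) = H * H ^ s.card := by ring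
    rw [e1, e2, e3]
    exact h1

theorem Rep.sum {κ : Type} [DecidableEq κ] (s : Finset κ) (P : κ → ℤ[X][X]) {n1 n2 H : ℕ}
    (h : ∀ t ∈ s, Rep (P t) n1 n2 H) :
    Rep (∑ t ∈ s, P t) n1 n2 (s.card * H) := by
  induction s using Finset.induction_on with
  | empty => simpa using Rep.zero n1 n2
  | insert a s ha ih =>
    rw [sum_insert ha, card_insert_of_notMem ha]
    have h1 := (h a (mem_insert_self _ _)).add (ih fun t ht => h t (mem_insert_of_mem ht))
    have e3 : (s.card + 1) * H = H + s.card * H := by ring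
    rw [e3]
    exact h1

theorem Rep.coeff_eq {P : ℤ[X][X]} {n1 n2 H : ℕ} (hP : Rep P n1 n2 H) (l2 l1 : ℕ) :
    ((P.coeff l2).coeff l1).natAbs ≤ H ∧ (n2 < l2 → (P.coeff l2).coeff l1 = 0) ∧
      (n1 < l1 → (P.coeff l2).coeff l1 = 0) := by
  obtain ⟨ι, hι, z, e1, e2, rfl, h1, h2, h3⟩ := hP
  have key : ((∑ a, monomial (e2 a) (monomial (e1 a) (z a)) : ℤ[X][X]).coeff l2).coeff l1 =
      ∑ a, if e2 a = l2 then (if e1 a = l1 then z a else 0) else 0 := by
    rw [finsetSum_coeff, finsetSum_coeff]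
    apply sum_congr rfl
    intro a _
    rw [coeff_monomial]
    split_ifs with h h'
    · rw [coeff_monomial, if_pos h']
    · rw [coeff_monomial, if_neg h']
    · simp
  rw [key]
  refine ⟨?_, ?_, ?_⟩
  · refine (Int.natAbs_sum_le _ _).trans (le_trans (sum_le_sum fun a _ => ?_) h3)
    split_ifs <;> simp
  · intro h
    apply sum_eq_zero
    intro a _
    rw [if_neg]
    have := h2 a
    omega
  · intro h
    apply sum_eq_zero
    intro a _
    have h4 : e1 a ≠ l1 := by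
      have := h1 a
      omega
    rw [if_neg h4]
    simp

theorem Rep.repr {P : ℤ[X][X]} {n1 n2 H : ℕ} (hP : Rep P n1 n2 H) :
    P = ∑ l2 ∈ range (n2 + 1), ∑ l1 ∈ range (n1 + 1),
      monomial l2 (monomial l1 ((P.coeff l2).coeff l1)) := by
  ext l2 l1
  rw [finsetSum_coeff, finsetSum_coeff]
  rcases Nat.lt_or_ge n2 l2 with h | h
  · rw [(hP.coeff_eq l2 l1).2.1 h]
    symm
    apply sum_eq_zero
    intro a ha
    rw [mem_range] at ha
    rw [finsetSum_coeff, finsetSum_coeff]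
    apply sum_eq_zero
    intro b _
    rw [coeff_monomial, if_neg (by omega), coeff_zero]
  · rw [sum_eq_single l2]
    · rw [finsetSum_coeff, finsetSum_coeff]
      rcases Nat.lt_or_ge n1 l1 with h' | h'
      · rw [(hP.coeff_eq l2 l1).2.2 h']
        symm
        apply sum_eq_zero
        intro b hb
        rw [mem_range] at hb
        rw [coeff_monomial, if_pos rfl, coeff_monomial, if_neg (by omega)]
      · rw [sum_eq_single l1]
        · rw [coeff_monomial, if_pos rfl, coeff_monomial, if_pos rfl]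
        · intro b _ hb
          rw [coeff_monomial, if_pos rfl, coeff_monomial, if_neg hb]
        · intro hb
          rw [mem_range] at hb
          omega
    · intro a _ ha
      rw [finsetSum_coeff, finsetSum_coeff]
      apply sum_eq_zero
      intro b _
      rw [coeff_monomial, if_neg ha, coeff_zero]
    · intro ha
      rw [mem_range] at ha
      omega

theorem Rep.det {r : ℕ} (M : Matrix (Fin r) (Fin r) ℤ[X][X]) {n1 n2 H : ℕ}
    (h : ∀ b t, Rep (M b t) n1 n2 H) : Rep M.det (r * n1) (r * n2) (r.factorial * H ^ r) := by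
  classical
  rw [Matrix.det_apply]
  have h1 := Rep.sum (univ : Finset (Equiv.Perm (Fin r)))
    (fun σ => Equiv.Perm.sign σ • ∏ t, M (σ t) t) (n1 := r * n1) (n2 := r * n2) (H := H ^ r) (by
      intro σ _
      apply Rep.unit_smul
      have h2 := Rep.prod (univ : Finset (Fin r)) (fun t => M (σ t) t) (fun t _ => h (σ t) t)
      rw [card_univ, Fintype.card_fin] at h2
      exact h2)
  rw [card_univ, Fintype.card_perm, Fintype.card_fin] at h1
  exact h1

/-- the matrix of the derived forms -/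
noncomputable def Mx (q i k1 k2 : ℕ) {r : ℕ} (jj : Fin r → ℕ) (c : Fin r → ℕ → ℕ → ℤ) :
    Matrix (Fin r) (Fin r) ℤ[X][X] :=
  fun b t => ∑ l2 ∈ range (k2 + 1), ∑ l1 ∈ range (k1 + 1),
    monomial l2 (monomial l1 (c t l1 l2 * ((q * l2 + i * jj t : ℕ) : ℤ) ^ (b : ℕ)))

theorem Mx_coeff (q i k1 k2 : ℕ) {r : ℕ} (jj : Fin r → ℕ) (c : Fin r → ℕ → ℕ → ℤ) (b t : Fin r)
    (l2 : ℕ) : (Mx q i k1 k2 jj c b t).coeff l2 = if l2 ≤ k2 then
      (C ((q * l2 + i * jj t : ℕ) : ℤ)) ^ (b : ℕ) * ∑ l1 ∈ range (k1 + 1), monomial l1 (c t l1 l2)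
      else 0 := by
  unfold Mx
  rw [finsetSum_coeff]
  split_ifs with h
  · rw [sum_eq_single l2]
    · rw [finsetSum_coeff, mul_sum]
      apply sum_congr rfl
      intro l1 _
      rw [coeff_monomial, if_pos rfl, ← C_pow, C_mul_monomial, mul_comm]
    · intro a _ ha
      rw [finsetSum_coeff]
      apply sum_eq_zero
      intro l1 _
      rw [coeff_monomial, if_neg ha]
    · intro ha
      rw [mem_range] at ha
      omega
  · apply sum_eq_zero
    intro a ha
    rw [mem_range] at ha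
    rw [finsetSum_coeff]
    apply sum_eq_zero
    intro l1 _
    rw [coeff_monomial, if_neg (by omega)]

theorem Mx_rep (q i k1 k2 m Cb : ℕ) {r : ℕ} (jj : Fin r → ℕ) (c : Fin r → ℕ → ℕ → ℤ)
    (hiq : i ≤ q) (hq : 0 < q) (hr : r ≤ m + 1) (hjj : ∀ t, jj t ≤ m)
    (hc : ∀ t l1 l2, (c t l1 l2).natAbs ≤ Cb) (b t : Fin r) (hk : 1 ≤ k2 + m) :
    Rep (Mx q i k1 k2 jj c b t) k1 k2 ((k2 + 1) * ((k1 + 1) * (Cb * (q * (k2 + m)) ^ m))) := by
  classical
  unfold Mx
  have h1 := Rep.sum (range (k2 + 1)) (fun l2 => ∑ l1 ∈ range (k1 + 1),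
    monomial l2 (monomial l1 (c t l1 l2 * ((q * l2 + i * jj t : ℕ) : ℤ) ^ (b : ℕ))))
    (n1 := k1) (n2 := k2) (H := (k1 + 1) * (Cb * (q * (k2 + m)) ^ m)) (by
      intro l2 hl2
      have h2 := Rep.sum (range (k1 + 1)) (fun l1 =>
        monomial l2 (monomial l1 (c t l1 l2 * ((q * l2 + i * jj t : ℕ) : ℤ) ^ (b : ℕ))))
        (n1 := k1) (n2 := k2) (H := Cb * (q * (k2 + m)) ^ m) (by
          intro l1 hl1
          rw [mem_range] at hl1 hl2
          refine ⟨Unit, inferInstance, fun _ => c t l1 l2 * ((q * l2 + i * jj t : ℕ) : ℤ) ^ (b : ℕ),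
            fun _ => l1, fun _ => l2, by simp, fun _ => Nat.le_of_lt_succ hl1,
            fun _ => Nat.le_of_lt_succ hl2, ?_⟩
          rw [univ_unique, sum_singleton, Int.natAbs_mul, Int.natAbs_pow, Int.natAbs_natCast]
          apply Nat.mul_le_mul (hc _ _ _)
          have h3 : q * l2 + i * jj t ≤ q * (k2 + m) := by
            rw [mul_add]
            exact Nat.add_le_add (Nat.mul_le_mul_left _ (by omega)) (Nat.mul_le_mul hiq (hjj t))
          have h4 : 1 ≤ q * (k2 + m) := Nat.mul_pos hq hk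
          have h5 := b.isLt
          exact (Nat.pow_le_pow_left h3 _).trans (Nat.pow_le_pow_right h4 (by omega)))
      rw [card_range] at h2
      exact h2)
  rw [card_range] at h1
  exact h1

/-- the determinant does not vanish -/
theorem det_ne (q i k1 k2 m : ℕ) {r : ℕ} (jj : Fin r → ℕ) (c : Fin r → ℕ → ℕ → ℤ)
    (hqi : Nat.Coprime q i) (hmq : m < q) (hjj : ∀ t, jj t ≤ m)
    (hinj : Function.Injective jj)
    (hc : ∀ t, ∃ l1 l2, l1 ≤ k1 ∧ l2 ≤ k2 ∧ c t l1 l2 ≠ 0) : (Mx q i k1 k2 jj c).det ≠ 0 := by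
  classical
  -- the lowest coefficient
  have hν : ∀ t, ∃ ν, ν ≤ k2 ∧ (∑ l1 ∈ range (k1 + 1), monomial l1 (c t l1 ν) : ℤ[X]) ≠ 0 ∧
      ∀ l2 < ν, (∑ l1 ∈ range (k1 + 1), monomial l1 (c t l1 l2) : ℤ[X]) = 0 := by
    intro t
    have hex : ∃ ν, ν ≤ k2 ∧ (∑ l1 ∈ range (k1 + 1), monomial l1 (c t l1 ν) : ℤ[X]) ≠ 0 := by
      obtain ⟨l1, l2, h1, h2, h3⟩ := hc t
      refine ⟨l2, h2, fun h4 => h3 ?_⟩
      have h5 := congrArg (fun P : ℤ[X] => P.coeff l1) h4
      simp only [finsetSum_coeff, coeff_monomial, coeff_zero] at h5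
      rw [sum_ite_eq' (range (k1 + 1)) l1, if_pos (mem_range.mpr (by omega))] at h5
      exact h5
    refine ⟨Nat.find hex, (Nat.find_spec hex).1, (Nat.find_spec hex).2, fun l2 hl2 => ?_⟩
    have h1 := Nat.find_min hex hl2
    by_contra h2
    exact h1 ⟨by have := (Nat.find_spec hex).1; omega, h2⟩
  choose ν hν1 hν2 hν3 using hν
  have hdvd : ∀ b t, (X : ℤ[X][X]) ^ ν t ∣ Mx q i k1 k2 jj c b t := by
    intro b t
    rw [X_pow_dvd_iff]
    intro d hd
    rw [Mx_coeff, hν3 t d hd, mul_zero]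
    simp
  choose M' hM' using hdvd
  have hM'0 : ∀ b t, (M' b t).coeff 0 = (C ((q * ν t + i * jj t : ℕ) : ℤ)) ^ (b : ℕ) *
      ∑ l1 ∈ range (k1 + 1), monomial l1 (c t l1 (ν t)) := by
    intro b t
    have h1 := congrArg (fun P : ℤ[X][X] => P.coeff (ν t)) (hM' b t)
    simp only [Mx_coeff, if_pos (hν1 t)] at h1
    rw [h1, coeff_X_pow_mul', if_pos le_rfl, Nat.sub_self]
  have hdet : (Mx q i k1 k2 jj c).det = (∏ t, (X : ℤ[X][X]) ^ ν t) * (Matrix.of M').det := by
    rw [← Matrix.det_mul_row]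
    congr 1
    ext1 b t
    rw [Matrix.of_apply, Matrix.of_apply]
    exact hM' b t
  rw [hdet]
  refine mul_ne_zero (prod_ne_zero_iff.mpr fun t _ => pow_ne_zero _ X_ne_zero) ?_
  intro h0
  have h1 := congrArg (constantCoeff : ℤ[X][X] →+* ℤ[X]) h0
  rw [RingHom.map_det, map_zero] at h1
  have h2 : (constantCoeff : ℤ[X][X] →+* ℤ[X]).mapMatrix (Matrix.of M') =
      Matrix.of (fun b t => (∑ l1 ∈ range (k1 + 1), monomial l1 (c t l1 (ν t)) : ℤ[X]) *
        (Matrix.vandermonde (fun t => C ((q * ν t + i * jj t : ℕ) : ℤ))).transpose b t) := by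
    ext1 b t
    rw [RingHom.mapMatrix_apply, Matrix.map_apply, Matrix.of_apply, constantCoeff_apply, hM'0,
      Matrix.of_apply, Matrix.transpose_apply, Matrix.vandermonde_apply, mul_comm]
  rw [h2, Matrix.det_mul_row, Matrix.det_transpose] at h1
  rcases mul_eq_zero.mp h1 with h3 | h3
  · rw [prod_eq_zero_iff] at h3
    obtain ⟨t, _, ht⟩ := h3
    exact hν2 t ht
  · revert h3
    rw [imp_false, ← Ne, Matrix.det_vandermonde_ne_zero_iff]
    intro t s hts
    have h4 := C_injective hts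
    have h5 : q * ν t + i * jj t = q * ν s + i * jj s := by exact_mod_cast h4
    apply hinj
    have h6 : i * jj t ≡ i * jj s [MOD q] := by
      have h7 : q * ν t + i * jj t ≡ i * jj t [MOD q] := by
        simp [Nat.ModEq]
      have h8 : q * ν s + i * jj s ≡ i * jj s [MOD q] := by
        simp [Nat.ModEq]
      exact h7.symm.trans (h5 ▸ h8)
    have h10 := Nat.ModEq.cancel_left_of_coprime hqi h6
    exact Nat.ModEq.eq_of_lt_of_lt h10 (by have := hjj t; omega) (by have := hjj s; omega)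

end Pool.Agent.TH888.B2
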