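import Mathlib
import Pool.Agent.TH888.B2.Det
import Pool.Agent.H393R2.Roth

/-!
Roth's lemma in two variables for polynomials with bounded coefficients.
-/

set_option autoImplicit false

namespace Pool.Agent.TH888.B2

open Finset Polynomial

theorem sum_piFin2 (a b : ℕ) (G : ℕ → ℕ → ℝ) :
    ∑ x ∈ Fintype.piFinset (fun h : Fin 2 => range (![a, b] h)), G (x 0) (x 1) =
      ∑ x ∈ range a, ∑ y ∈ range b, G x y := by
  rw [← sum_product']
  refine sum_nbij' (fun x => (x 0, x 1)) (fun y => ![y.1, y.2]) ?_ ?_ ?_ ?_ ?_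
  · intro x hx
    rw [Fintype.mem_piFinset] at hx
    have h0 := hx 0
    have h1 := hx 1
    simp only [Matrix.cons_val_zero, Matrix.cons_val_one] at h0 h1
    exact mem_product.mpr ⟨h0, h1⟩
  · intro y hy
    rw [mem_product] at hy
    rw [Fintype.mem_piFinset]
    intro h
    fin_cases h
    · exact hy.1
    · exact hy.2
  · intro x _
    funext h
    fin_cases h
    · rfl
    · rfl
  · intro y _
    rfl
  · intro x _
    rfl

theorem roth_two (σ : ℝ) (hσ : 0 < σ) : ∃ ω : ℝ, 0 < ω ∧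
    ∀ (D : ℤ[X][X]) (n1 n2 Hb : ℕ) (R : ℝ), Rep D n1 n2 Hb → D ≠ 0 → 0 < n1 → 0 < n2 →
      (n1 : ℝ) ≤ ω * n2 → (n1 : ℝ) ≤ ω * R → (n2 : ℝ) ≤ ω * R →
      ∀ p1 q1 p2 q2 : ℤ, IsCoprime p1 q1 → IsCoprime p2 q2 → q1 ≠ 0 → q2 ≠ 0 → p1 ≠ 0 → p2 ≠ 0 →
        R ≤ n1 * Real.log (max |(p1 : ℝ)| |(q1 : ℝ)|) →
        R ≤ n2 * Real.log (max |(p2 : ℝ)| |(q2 : ℝ)|) →
        (Hb : ℝ) ≤ Real.exp (ω * R) →
        ∃ κ₁ κ₂ : ℕ, (κ₁ : ℝ) / n1 + (κ₂ : ℝ) / n2 < σ ∧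
          ∑ l2 ∈ range (n2 + 1), ∑ l1 ∈ range (n1 + 1),
            (((D.coeff l2).coeff l1 : ℤ) : ℚ) * ((p1 : ℚ) / q1) ^ l1 * ((p2 : ℚ) / q2) ^ l2 *
              ((l1.choose κ₁ : ℚ) * (l2.choose κ₂ : ℚ)) ≠ 0 := by
  classical
  obtain ⟨ω, hω, H⟩ := Pool.Agent.H393R2.roth_lemma 2 σ hσ
  refine ⟨ω, hω, ?_⟩
  intro D n1 n2 Hb R hD hD0 hn1 hn2 h12 h1R h2R p1 q1 p2 q2 hc1 hc2 hq1 hq2 hp1 hp2 hR1 hR2 hHb
  have hne : ∃ l2 l1, (D.coeff l2).coeff l1 ≠ 0 := by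
    by_contra hcon
    push Not at hcon
    apply hD0
    ext l2 l1
    rw [hcon l2 l1]
    simp
  have key := H ![n2, n1] R (by norm_num)
    (by intro h; fin_cases h <;> simpa)
    (by
      intro i j hij
      fin_cases i <;> fin_cases j
      · exact absurd hij (lt_irrefl _)
      · simpa using h12
      · exact absurd hij (by decide)
      · exact absurd hij (lt_irrefl _))
    (by intro h; fin_cases h <;> simpa)
    ![p2, p1] ![q2, q1]
    (by intro h; fin_cases h <;> simpa)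
    (by intro h; fin_cases h <;> simpa)
    (by intro h; fin_cases h <;> simpa)
    (fun a => (D.coeff (a 0)).coeff (a 1))
    (by
      obtain ⟨l2, l1, h⟩ := hne
      refine ⟨![l2, l1], ?_, by simpa using h⟩
      rw [Fintype.mem_piFinset]
      intro j
      fin_cases j
      · simp only [Fin.zero_eta, Matrix.cons_val_zero, mem_range]
        by_contra hcon
        exact h ((hD.coeff_eq l2 l1).2.1 (by omega))
      · show l1 ∈ range (n1 + 1)
        rw [mem_range]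
        by_contra hcon
        exact h ((hD.coeff_eq l2 l1).2.2 (by omega)))
    (by
      intro a _
      refine le_trans ?_ hHb
      have h1 := (hD.coeff_eq (a 0) (a 1)).1
      have h2 : |((D.coeff (a 0)).coeff (a 1) : ℤ)| ≤ (Hb : ℤ) := by
        rw [Int.abs_eq_natAbs]
        exact_mod_cast h1
      exact_mod_cast h2)
  obtain ⟨k, hk, hsum⟩ := key
  refine ⟨k 1, k 0, ?_, ?_⟩
  · rw [Fin.sum_univ_two] at hk
    simp only [Matrix.cons_val_zero, Matrix.cons_val_one] at hk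
    rw [add_comm]
    exact hk
  · intro h0
    apply hsum
    have hq1R : (q1 : ℝ) ≠ 0 := by exact_mod_cast hq1
    have hq2R : (q2 : ℝ) ≠ 0 := by exact_mod_cast hq2
    have hp1R : (p1 : ℝ) ≠ 0 := by exact_mod_cast hp1
    have hp2R : (p2 : ℝ) ≠ 0 := by exact_mod_cast hp2
    have h1 : ∑ l2 ∈ range (n2 + 1), ∑ l1 ∈ range (n1 + 1),
        (((D.coeff l2).coeff l1 : ℤ) : ℝ) * ((p1 : ℝ) / q1) ^ l1 * ((p2 : ℝ) / q2) ^ l2 *
          ((l1.choose (k 1) : ℝ) * (l2.choose (k 0) : ℝ)) = 0 := by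
      have h2 := congrArg (fun x : ℚ => (x : ℝ)) h0
      push_cast at h2
      exact h2
    have hpow : ∀ (x : ℝ), x ≠ 0 → ∀ a b : ℕ, ((a.choose b : ℕ) : ℝ) * x ^ (a - b) =
        (a.choose b : ℝ) * x ^ a * (x ^ b)⁻¹ := by
      intro x hx a b
      rcases Nat.lt_or_ge a b with h | h
      · rw [Nat.choose_eq_zero_of_lt h]; simp
      · rw [pow_sub₀ x hx h]; ring
    have h3 : ∀ a : Fin 2 → ℕ, (((D.coeff (a 0)).coeff (a 1) : ℤ) : ℝ) *
        ∏ h, (((a h).choose (k h) : ℝ) *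
          (((![p2, p1] h : ℤ) : ℝ) / ((![q2, q1] h : ℤ) : ℝ)) ^ (a h - k h)) =
        (((p1 : ℝ) / q1) ^ k 1)⁻¹ * (((p2 : ℝ) / q2) ^ k 0)⁻¹ *
          ((((D.coeff (a 0)).coeff (a 1) : ℤ) : ℝ) * ((p1 : ℝ) / q1) ^ a 1 *
            ((p2 : ℝ) / q2) ^ a 0 * (((a 1).choose (k 1) : ℝ) * ((a 0).choose (k 0) : ℝ))) := by
      intro a
      rw [Fin.prod_univ_two]
      simp only [Matrix.cons_val_zero, Matrix.cons_val_one]
      rw [hpow _ (div_ne_zero hp2R hq2R), hpow _ (div_ne_zero hp1R hq1R)]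
      ring
    rw [sum_congr rfl fun a _ => h3 a, ← mul_sum]
    have h4 := sum_piFin2 (n2 + 1) (n1 + 1) (fun l2 l1 =>
      (((D.coeff l2).coeff l1 : ℤ) : ℝ) * ((p1 : ℝ) / q1) ^ l1 * ((p2 : ℝ) / q2) ^ l2 *
          ((l1.choose (k 1) : ℝ) * (l2.choose (k 0) : ℝ)))
    have h5 : Fintype.piFinset (fun h : Fin 2 => range (![n2, n1] h + 1)) =
        Fintype.piFinset (fun h : Fin 2 => range (![n2 + 1, n1 + 1] h)) := by
      congr 1
      funext h
      fin_cases h <;> rfl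
    rw [h5, h4, h1, mul_zero]

end Pool.Agent.TH888.B2
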