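import Mathlib
import Pool.Agent.TH888.B2.Det

/-!
The determinant vanishes in a box if all derived forms vanish.
-/

set_option autoImplicit false

namespace Pool.Agent.TH888.B2

open Finset Polynomial

/-- the substitution `X ↦ ξ₁ X ^ q`, `Y ↦ ξ₂ Y ^ q` -/
noncomputable def sb (q : ℕ) (ξ₁ ξ₂ : ℚ) : ℤ[X][X] →+* ℚ[X][X] :=
  eval₂RingHom ((C : ℚ[X] →+* ℚ[X][X]).comp
    (eval₂RingHom ((C : ℚ →+* ℚ[X]).comp (Int.castRingHom ℚ)) (C ξ₁ * X ^ q))) (C (C ξ₂) * X ^ q)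

theorem sb_monomial (q : ℕ) (ξ₁ ξ₂ : ℚ) (l1 l2 : ℕ) (z : ℤ) :
    sb q ξ₁ ξ₂ (monomial l2 (monomial l1 z)) =
      monomial (q * l2) (monomial (q * l1) ((z : ℚ) * ξ₁ ^ l1 * ξ₂ ^ l2)) := by
  unfold sb
  rw [coe_eval₂RingHom, eval₂_monomial, RingHom.comp_apply, coe_eval₂RingHom, eval₂_monomial,
    RingHom.comp_apply, ← C_mul_X_pow_eq_monomial, ← C_mul_X_pow_eq_monomial]
  simp only [mul_pow, ← pow_mul, map_mul, map_pow, Int.coe_castRingHom]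
  ring

theorem det_van {q i k1 k2 α β : ℕ} {r : ℕ} (jj : Fin r → ℕ) (c : Fin r → ℕ → ℕ → ℤ)
    (ξ₁ ξ₂ W : ℚ) (hq : 0 < q) (hW : W ≠ 0)
    (H : ∀ f g : ℚ[X], f.degree < α → g.degree < β →
      ∑ s, ∑ l2 ∈ range (k2 + 1), ∑ l1 ∈ range (k1 + 1),
        ((c s l1 l2 : ℚ) * ξ₁ ^ l1 * ξ₂ ^ l2 * W ^ jj s) *
          (f.eval ((q * l1 + jj s : ℕ) : ℚ) * g.eval ((q * l2 + i * jj s : ℕ) : ℚ)) = 0)
    {n1 n2 Hb : ℕ} (hD : Rep (Mx q i k1 k2 jj c).det n1 n2 Hb) (t : Fin r) {κ₁ κ₂ : ℕ}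
    (h1 : κ₁ < α) (h2 : κ₂ + r ≤ β) :
    ∑ l2 ∈ range (n2 + 1), ∑ l1 ∈ range (n1 + 1),
      ((((Mx q i k1 k2 jj c).det.coeff l2).coeff l1 : ℤ) : ℚ) * ξ₁ ^ l1 * ξ₂ ^ l2 *
        ((l1.choose κ₁ : ℚ) * (l2.choose κ₂ : ℚ)) = 0 := by
  classical
  obtain ⟨M, hM⟩ : ∃ M, M = Mx q i k1 k2 jj c := ⟨_, rfl⟩
  obtain ⟨M', hM'⟩ : ∃ M' : Matrix (Fin r) (Fin r) ℚ[X][X], M' = (sb q ξ₁ ξ₂).mapMatrix M := ⟨_, rfl⟩
  obtain ⟨w, hw⟩ : ∃ w : Fin r → ℚ[X][X],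
      w = fun s => monomial (i * jj s) (monomial (jj s) (W ^ jj s)) := ⟨_, rfl⟩
  have hr : 0 < r := t.pos
  -- the derived forms
  have hΦ : ∀ b : Fin r, VP (∑ s, M' b s * w s) α (β - (r - 1)) := by
    intro b f g hf hg
    have e1 : ∑ s, M' b s * w s = ∑ s, ∑ l2 ∈ range (k2 + 1), ∑ l1 ∈ range (k1 + 1),
        monomial (q * l2 + i * jj s) (monomial (q * l1 + jj s)
          ((c s l1 l2 : ℚ) * ξ₁ ^ l1 * ξ₂ ^ l2 * W ^ jj s *
            ((q * l2 + i * jj s : ℕ) : ℚ) ^ (b : ℕ))) := by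
      apply sum_congr rfl
      intro s _
      rw [hM', hM, RingHom.mapMatrix_apply, Matrix.map_apply, Mx, map_sum, sum_mul, hw]
      apply sum_congr rfl
      intro l2 _
      rw [map_sum, sum_mul]
      apply sum_congr rfl
      intro l1 _
      rw [sb_monomial, monomial_mul_monomial, monomial_mul_monomial]
      congr 2
      push_cast
      ring
    have hg' : (g * X ^ (b : ℕ)).degree < ((β : ℕ) : WithBot ℕ) := by
      by_cases hg0 : g = 0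
      · rw [hg0, zero_mul, degree_zero]; exact WithBot.bot_lt_coe _
      rw [degree_mul, degree_X_pow, degree_eq_natDegree hg0]
      rw [degree_eq_natDegree hg0, Nat.cast_lt] at hg
      have := b.isLt
      exact_mod_cast (by omega : g.natDegree + (b : ℕ) < β)
    have h3 := H f (g * X ^ (b : ℕ)) hf hg'
    rw [e1, map_sum, ← h3]
    apply sum_congr rfl
    intro s _
    rw [map_sum]
    apply sum_congr rfl
    intro l2 _
    rw [map_sum]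
    apply sum_congr rfl
    intro l1 _
    rw [L2_monomial, eval_mul, eval_pow, eval_X]
    ring
  -- Cramer
  have hC : VP (M'.det * w t) α (β - (r - 1)) := by
    rw [cramer]
    exact VP.sum _ _ fun b _ => (hΦ b).mul_left _
  have hdet : M'.det = sb q ξ₁ ξ₂ M.det := by
    rw [hM', RingHom.map_det]
  obtain ⟨f₀, hf₀, hfe⟩ := choosePoly κ₁
  obtain ⟨g₀, hg₀, hge⟩ := choosePoly κ₂
  have hqR : (q : ℚ) ≠ 0 := by exact_mod_cast hq.ne'
  have hcomp : ∀ {f : ℚ[X]} {κ : ℕ} (j : ℚ), f.degree < (κ + 1 : ℕ) →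
      (f.comp (C ((q : ℚ)⁻¹) * (X - C j))).degree < (κ + 1 : ℕ) := by
    intro f κ j hf
    by_cases hf0 : f = 0
    · rw [hf0, zero_comp, degree_zero]; exact WithBot.bot_lt_coe _
    refine lt_of_le_of_lt degree_le_natDegree ?_
    rw [natDegree_comp]
    have h3 : (C ((q : ℚ)⁻¹) * (X - C j)).natDegree ≤ 1 := by
      refine (natDegree_C_mul_le _ _).trans ?_
      rw [natDegree_X_sub_C]
    rw [degree_eq_natDegree hf0, Nat.cast_lt] at hf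
    have h4 := Nat.mul_le_mul_left f.natDegree h3
    exact_mod_cast (by omega : f.natDegree * (C ((q : ℚ)⁻¹) * (X - C j)).natDegree < κ + 1)
  have h3 := hC (f₀.comp (C ((q : ℚ)⁻¹) * (X - C (jj t : ℚ))))
    (g₀.comp (C ((q : ℚ)⁻¹) * (X - C ((i * jj t : ℕ) : ℚ))))
    (lt_of_lt_of_le (hcomp _ hf₀) (by exact_mod_cast h1))
    (lt_of_lt_of_le (hcomp _ hg₀) (by exact_mod_cast (by omega : κ₂ + 1 ≤ β - (r - 1))))
  rw [← hM] at hD ⊢
  have h4 : M'.det * w t = ∑ l2 ∈ range (n2 + 1), ∑ l1 ∈ range (n1 + 1),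
      monomial (q * l2 + i * jj t) (monomial (q * l1 + jj t)
        ((((M.det.coeff l2).coeff l1 : ℤ) : ℚ) * ξ₁ ^ l1 * ξ₂ ^ l2 * W ^ jj t)) := by
    rw [hdet]
    conv_lhs => rw [hD.repr]
    rw [map_sum, sum_mul, hw]
    apply sum_congr rfl
    intro l2 _
    rw [map_sum, sum_mul]
    apply sum_congr rfl
    intro l1 _
    rw [sb_monomial, monomial_mul_monomial, monomial_mul_monomial]
  rw [h4, map_sum] at h3
  have h5 : W ^ jj t * ∑ l2 ∈ range (n2 + 1), ∑ l1 ∈ range (n1 + 1),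
      (((M.det.coeff l2).coeff l1 : ℤ) : ℚ) * ξ₁ ^ l1 * ξ₂ ^ l2 *
        ((l1.choose κ₁ : ℚ) * (l2.choose κ₂ : ℚ)) = 0 := by
    rw [← h3, mul_sum]
    apply sum_congr rfl
    intro l2 _
    rw [map_sum, mul_sum]
    apply sum_congr rfl
    intro l1 _
    rw [L2_monomial, eval_comp, eval_comp]
    simp only [eval_mul, eval_C, eval_sub, eval_X]
    have e1 : (q : ℚ)⁻¹ * (((q * l1 + jj t : ℕ) : ℚ) - (jj t : ℚ)) = (l1 : ℚ) := by
      push_cast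
      field_simp
      ring
    have e2 : (q : ℚ)⁻¹ * (((q * l2 + i * jj t : ℕ) : ℚ) - ((i * jj t : ℕ) : ℚ)) = (l2 : ℚ) := by
      push_cast
      field_simp
      ring
    rw [e1, e2, hfe, hge]
    ring
  rcases mul_eq_zero.mp h5 with h6 | h6
  · exact absurd h6 (pow_ne_zero _ hW)
  · exact h6

end Pool.Agent.TH888.B2
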