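import Mathlib
import Pool.Agent.TH888.B2.Zero
import Pool.Agent.TH888.B2.Roth2

/-!
The zero estimate: not all derived forms vanish at the point.
-/

set_option autoImplicit false

namespace Pool.Agent.TH888.B2

open Finset Polynomial

theorem Rep.mono {P : ℤ[X][X]} {n1 n2 H n1' n2' H' : ℕ} (hP : Rep P n1 n2 H) (h1 : n1 ≤ n1')
    (h2 : n2 ≤ n2') (h3 : H ≤ H') : Rep P n1' n2' H' := by
  obtain ⟨ι, hι, z, e1, e2, rfl, g1, g2, g3⟩ := hP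
  exact ⟨ι, hι, z, e1, e2, rfl, fun a => (g1 a).trans h1, fun a => (g2 a).trans h2, g3.trans h3⟩

theorem zero_est (σ : ℝ) (hσ : 0 < σ) : ∃ ω : ℝ, 0 < ω ∧
    ∀ (q i m k1 k2 α β Cc : ℕ) (c : Fin (m + 1) → ℕ → ℕ → ℤ) (p1 q1 p2 q2 : ℤ) (W : ℚ) (R : ℝ),
      0 < q → Nat.Coprime q i → i < q → m < q → 1 ≤ Cc → 1 ≤ k2 + m →
      (∃ j l1 l2, l1 ≤ k1 ∧ l2 ≤ k2 ∧ c j l1 l2 ≠ 0) →
      (∀ j l1 l2, (c j l1 l2).natAbs ≤ Cc) → W ≠ 0 →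
      IsCoprime p1 q1 → IsCoprime p2 q2 → q1 ≠ 0 → q2 ≠ 0 → p1 ≠ 0 → p2 ≠ 0 →
      ((k1 : ℝ) + 1) ≤ ω * (k2 + 1) → ((m : ℝ) + 1) * (k1 + 1) ≤ ω * R →
      ((m : ℝ) + 1) * (k2 + 1) ≤ ω * R →
      R ≤ ((m : ℝ) + 1) * (k1 + 1) * Real.log (max |(p1 : ℝ)| |(q1 : ℝ)|) →
      R ≤ ((m : ℝ) + 1) * (k2 + 1) * Real.log (max |(p2 : ℝ)| |(q2 : ℝ)|) →
      ((((m + 1).factorial * ((k2 + 1) * ((k1 + 1) * (Cc * (q * (k2 + m)) ^ m))) ^ (m + 1)) : ℕ) : ℝ) ≤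
        Real.exp (ω * R) →
      σ * (((m : ℝ) + 1) * (k1 + 1)) ≤ α → σ * (((m : ℝ) + 1) * (k2 + 1)) + (m + 1) ≤ β →
      ¬ (∀ a < α, ∀ b < β, ∑ x : Fin (m + 1) × Fin (k1 + 1) × Fin (k2 + 1),
        ((c x.1 x.2.1 x.2.2 : ℚ) * ((p1 : ℚ) / q1) ^ (x.2.1 : ℕ) * ((p2 : ℚ) / q2) ^ (x.2.2 : ℕ) *
          W ^ (x.1 : ℕ)) * (((q * (x.2.1 : ℕ) + (x.1 : ℕ)).choose a : ℚ) *
            ((q * (x.2.2 : ℕ) + i * (x.1 : ℕ)).choose b : ℚ)) = 0) := by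
  classical
  obtain ⟨ω, hω, HR⟩ := roth_two σ hσ
  refine ⟨ω, hω, ?_⟩
  intro q i m k1 k2 α β Cc c p1 q1 p2 q2 W R hq hi0 hiq hmq hCc hkm hne hcb hW hc1 hc2 hq1 hq2 hp1
    hp2 h12 h1R h2R hR1 hR2 hHb hα hβ hvan
  -- the classes which occur
  obtain ⟨J, hJ⟩ : ∃ J : Finset (Fin (m + 1)), J = univ.filter
      (fun j => ∃ l1 l2, l1 ≤ k1 ∧ l2 ≤ k2 ∧ c j l1 l2 ≠ 0) := ⟨_, rfl⟩
  have hJne : J.Nonempty := by
    obtain ⟨j, l1, l2, h⟩ := hne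
    exact ⟨j, by rw [hJ, mem_filter]; exact ⟨mem_univ _, l1, l2, h⟩⟩
  obtain ⟨r, hr⟩ : ∃ r, J.card = r := ⟨_, rfl⟩
  have hr0 : 0 < r := by rw [← hr]; exact card_pos.mpr hJne
  have hrm : r ≤ m + 1 := by
    rw [← hr]
    exact (card_le_univ J).trans (by simp)
  obtain ⟨em, hem⟩ : ∃ em : Fin r ↪o Fin (m + 1), em = J.orderEmbOfFin hr := ⟨_, rfl⟩
  have hemJ : ∀ t, em t ∈ J := fun t => by rw [hem]; exact J.orderEmbOfFin_mem hr t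
  obtain ⟨jj, hjj⟩ : ∃ jj : Fin r → ℕ, jj = fun t => ((em t : Fin (m + 1)) : ℕ) := ⟨_, rfl⟩
  obtain ⟨c', hc'⟩ : ∃ c' : Fin r → ℕ → ℕ → ℤ, c' = fun t => c (em t) := ⟨_, rfl⟩
  have hjjm : ∀ t, jj t ≤ m := fun t => by rw [hjj]; exact Nat.le_of_lt_succ (em t).isLt
  have hjinj : Function.Injective jj := by
    intro t s h
    rw [hjj] at h
    exact em.injective (Fin.ext h)
  obtain ⟨M, hM⟩ : ∃ M, M = Mx q i k1 k2 jj c' := ⟨_, rfl⟩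
  have hD0 : M.det ≠ 0 := by
    rw [hM]
    refine det_ne q i k1 k2 m jj c' hi0 hmq hjjm hjinj fun t => ?_
    have h1 := hemJ t
    rw [hJ, mem_filter] at h1
    obtain ⟨l1, l2, h2, h3, h4⟩ := h1.2
    exact ⟨l1, l2, h2, h3, by rw [hc']; exact h4⟩
  obtain ⟨Hm, hHm⟩ : ∃ Hm, Hm = (k2 + 1) * ((k1 + 1) * (Cc * (q * (k2 + m)) ^ m)) := ⟨_, rfl⟩
  have hHm1 : 1 ≤ Hm := by
    rw [hHm]
    have : 1 ≤ (q * (k2 + m)) ^ m := Nat.one_le_pow _ _ (Nat.mul_pos hq hkm)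
    exact Nat.mul_pos (Nat.succ_pos _) (Nat.mul_pos (Nat.succ_pos _) (Nat.mul_pos hCc this))
  have hRep : Rep M.det ((m + 1) * (k1 + 1)) ((m + 1) * (k2 + 1))
      ((m + 1).factorial * Hm ^ (m + 1)) := by
    rw [hM]
    refine (Rep.det _ (fun b t => Mx_rep q i k1 k2 m Cc jj c' hiq.le hq hrm hjjm
      (fun t l1 l2 => by rw [hc']; exact hcb _ _ _) b t hkm)).mono
      (Nat.mul_le_mul hrm (Nat.le_succ _)) (Nat.mul_le_mul hrm (Nat.le_succ _)) ?_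
    rw [← hHm]
    exact Nat.mul_le_mul (Nat.factorial_le hrm) (Nat.pow_le_pow_right hHm1 hrm)
  -- the identities in the form needed for the determinant
  have hH : ∀ f g : ℚ[X], f.degree < α → g.degree < β →
      ∑ s, ∑ l2 ∈ range (k2 + 1), ∑ l1 ∈ range (k1 + 1),
        ((c' s l1 l2 : ℚ) * ((p1 : ℚ) / q1) ^ l1 * ((p2 : ℚ) / q2) ^ l2 * W ^ jj s) *
          (f.eval ((q * l1 + jj s : ℕ) : ℚ) * g.eval ((q * l2 + i * jj s : ℕ) : ℚ)) = 0 := by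
    intro f g hf hg
    have h1 := van_of_choose (c := fun x : Fin (m + 1) × Fin (k1 + 1) × Fin (k2 + 1) =>
      ((c x.1 x.2.1 x.2.2 : ℚ) * ((p1 : ℚ) / q1) ^ (x.2.1 : ℕ) * ((p2 : ℚ) / q2) ^ (x.2.2 : ℕ) *
          W ^ (x.1 : ℕ))) (E := fun x => q * (x.2.1 : ℕ) + (x.1 : ℕ))
      (F := fun x => q * (x.2.2 : ℕ) + i * (x.1 : ℕ)) hvan f g hf hg
    obtain ⟨G, hG⟩ : ∃ G : Fin (m + 1) → ℚ, G = fun j => ∑ l2 ∈ range (k2 + 1),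
        ∑ l1 ∈ range (k1 + 1),
        ((c j l1 l2 : ℚ) * ((p1 : ℚ) / q1) ^ l1 * ((p2 : ℚ) / q2) ^ l2 * W ^ (j : ℕ)) *
          (f.eval ((q * l1 + (j : ℕ) : ℕ) : ℚ) * g.eval ((q * l2 + i * (j : ℕ) : ℕ) : ℚ)) := ⟨_, rfl⟩
    have h2 : ∑ j, G j = 0 := by
      rw [← h1, Fintype.sum_prod_type]
      apply sum_congr rfl
      intro j _
      rw [Fintype.sum_prod_type, hG, sum_comm]
      simp only
      rw [← Fin.sum_univ_eq_sum_range (fun l2 => ∑ l1 ∈ range (k1 + 1),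
        ((c j l1 l2 : ℚ) * ((p1 : ℚ) / q1) ^ l1 * ((p2 : ℚ) / q2) ^ l2 * W ^ (j : ℕ)) *
          (f.eval ((q * l1 + (j : ℕ) : ℕ) : ℚ) * g.eval ((q * l2 + i * (j : ℕ) : ℕ) : ℚ)))]
      apply sum_congr rfl
      intro l2 _
      rw [← Fin.sum_univ_eq_sum_range (fun l1 =>
        ((c j l1 l2 : ℚ) * ((p1 : ℚ) / q1) ^ l1 * ((p2 : ℚ) / q2) ^ (l2 : ℕ) * W ^ (j : ℕ)) *
          (f.eval ((q * l1 + (j : ℕ) : ℕ) : ℚ) * g.eval ((q * (l2 : ℕ) + i * (j : ℕ) : ℕ) : ℚ)))]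
    have h3 : ∑ s : Fin r, G (em s) = ∑ j, G j := by
      have h4 : ∑ s : Fin r, G (em s) = ∑ j ∈ J, G j := by
        rw [← Finset.map_orderEmbOfFin_univ J hr, sum_map]
        apply sum_congr rfl
        intro s _
        rw [hem]
        rfl
      rw [h4]
      apply sum_subset (subset_univ J)
      intro j _ hj
      rw [hG]
      apply sum_eq_zero
      intro l2 hl2
      apply sum_eq_zero
      intro l1 hl1
      rw [mem_range] at hl1 hl2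
      have h5 : c j l1 l2 = 0 := by
        by_contra h6
        apply hj
        rw [hJ, mem_filter]
        exact ⟨mem_univ _, l1, l2, by omega, by omega, h6⟩
      rw [h5]
      simp
    rw [← h2, ← h3]
    apply sum_congr rfl
    intro s _
    rw [hG, hc', hjj]
  have hn1 : ((((m + 1) * (k1 + 1) : ℕ)) : ℝ) = ((m : ℝ) + 1) * (k1 + 1) := by push_cast; ring
  have hn2 : ((((m + 1) * (k2 + 1) : ℕ)) : ℝ) = ((m : ℝ) + 1) * (k2 + 1) := by push_cast; ring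
  have hm0 : (0 : ℝ) < (m : ℝ) + 1 := by positivity
  obtain ⟨κ₁, κ₂, hκ, hsum⟩ := HR M.det ((m + 1) * (k1 + 1)) ((m + 1) * (k2 + 1))
    ((m + 1).factorial * Hm ^ (m + 1)) R hRep hD0 (by positivity) (by positivity)
    (by
      rw [hn1, hn2]
      calc ((m : ℝ) + 1) * (k1 + 1) ≤ ((m : ℝ) + 1) * (ω * (k2 + 1)) :=
            mul_le_mul_of_nonneg_left h12 hm0.le
        _ = _ := by ring)
    (by rw [hn1]; exact h1R) (by rw [hn2]; exact h2R) p1 q1 p2 q2 hc1 hc2 hq1 hq2 hp1 hp2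
    (by rw [hn1]; exact hR1) (by rw [hn2]; exact hR2) (by rw [hHm]; exact hHb)
  rw [hn1, hn2] at hκ
  have hκ1 : (κ₁ : ℝ) < α := by
    have h1 : (κ₁ : ℝ) / (((m : ℝ) + 1) * (k1 + 1)) < σ := by
      have : (0 : ℝ) ≤ (κ₂ : ℝ) / (((m : ℝ) + 1) * (k2 + 1)) := by positivity
      linarith
    rw [div_lt_iff₀ (by positivity)] at h1
    linarith
  have hκ2 : (κ₂ : ℝ) + (m + 1) < β := by
    have h1 : (κ₂ : ℝ) / (((m : ℝ) + 1) * (k2 + 1)) < σ := by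
      have : (0 : ℝ) ≤ (κ₁ : ℝ) / (((m : ℝ) + 1) * (k1 + 1)) := by positivity
      linarith
    rw [div_lt_iff₀ (by positivity)] at h1
    linarith
  have hκ1' : κ₁ < α := by exact_mod_cast hκ1
  have hκ2' : κ₂ + (m + 1) < β := by exact_mod_cast hκ2
  apply hsum
  rw [hM] at hRep ⊢
  exact det_van jj c' _ _ W hq hW hH hRep ⟨0, hr0⟩ hκ1' (by omega)

end Pool.Agent.TH888.B2
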