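import Mathlib

/-!
The forms in two variables: Siegel's lemma.
-/

set_option autoImplicit false

namespace Pool.Agent.TH888.B2

open Finset

theorem one_add_inv_pow {q : ℕ} (hq : 0 < q) : (1 + 1 / (q : ℝ)) ^ q ≤ 3 := by
  have hqR : (0 : ℝ) < q := by exact_mod_cast hq
  have h1 : 1 + 1 / (q : ℝ) ≤ Real.exp (1 / q) := by
    have := Real.add_one_le_exp (1 / (q : ℝ))
    linarith
  calc (1 + 1 / (q : ℝ)) ^ q ≤ (Real.exp (1 / q)) ^ q := pow_le_pow_left₀ (by positivity) h1 q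
    _ = Real.exp 1 := by
        rw [← Real.exp_nat_mul]
        congr 1
        field_simp
    _ ≤ 3 := by have := Real.exp_one_lt_d9; linarith

theorem choose_le {q e a k : ℕ} (hq : 0 < q) (he : e ≤ q * k) : e.choose a ≤ q ^ a * 3 ^ k := by
  have hqR : (0 : ℝ) < q := by exact_mod_cast hq
  rcases Nat.lt_or_ge e a with h | h
  · rw [Nat.choose_eq_zero_of_lt h]; exact Nat.zero_le _
  have h1 : (1 / (q : ℝ)) ^ a * (e.choose a : ℝ) ≤ (1 + 1 / (q : ℝ)) ^ e := by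
    have h2 := add_pow (1 / (q : ℝ)) 1 e
    rw [add_comm 1, h2]
    have h3 := single_le_sum (f := fun m => (1 / (q : ℝ)) ^ m * 1 ^ (e - m) * (e.choose m : ℝ))
      (s := range (e + 1)) (fun m _ => by positivity) (mem_range.mpr (by omega : a < e + 1))
    simp only [one_pow, mul_one] at h3 ⊢
    exact h3
  have h2 : (1 + 1 / (q : ℝ)) ^ e ≤ 3 ^ k := by
    calc (1 + 1 / (q : ℝ)) ^ e ≤ (1 + 1 / (q : ℝ)) ^ (q * k) :=
          pow_le_pow_right₀ (by have : 0 ≤ 1 / (q : ℝ) := by positivity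
                                linarith) he
      _ = ((1 + 1 / (q : ℝ)) ^ q) ^ k := by rw [pow_mul]
      _ ≤ 3 ^ k := pow_le_pow_left₀ (by positivity) (one_add_inv_pow hq) k
  have h3 : (e.choose a : ℝ) ≤ (q : ℝ) ^ a * 3 ^ k := by
    have h4 : (e.choose a : ℝ) = (q : ℝ) ^ a * ((1 / (q : ℝ)) ^ a * (e.choose a : ℝ)) := by
      rw [← mul_assoc, ← mul_pow]
      field_simp
      ring
    rw [h4]
    exact mul_le_mul_of_nonneg_left (h1.trans h2) (by positivity)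
  exact_mod_cast h3

attribute [local instance] Matrix.seminormedAddCommGroup

/-- the bound of the coefficients -/
def Cb (s q m k1 k2 : ℕ) : ℕ :=
  (2 * s ^ 2 * ((k1 + 1) * (k2 + 1))) * (q ^ (s * (k1 + 1) + s * (k2 + 1)) * 3 ^ (k1 + k2 + 2 * m))

/-- Siegel's lemma: the forms exist -/
theorem exists_form {s q i m k1 k2 : ℕ} (hs : 1 ≤ s) (hm : m + 1 = 2 * s ^ 2) (hq : 0 < q)
    (hiq : i ≤ q) : ∃ c : Fin (m + 1) → ℕ → ℕ → ℤ,
    (∃ j l1 l2, l1 ≤ k1 ∧ l2 ≤ k2 ∧ c j l1 l2 ≠ 0) ∧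
    (∀ j l1 l2, (c j l1 l2).natAbs ≤ Cb s q m k1 k2) ∧
    ∀ a < s * (k1 + 1), ∀ b < s * (k2 + 1),
      ∑ x : Fin (m + 1) × Fin (k1 + 1) × Fin (k2 + 1), c x.1 x.2.1 x.2.2 *
        (((q * (x.2.1 : ℕ) + (x.1 : ℕ)).choose a : ℤ) *
          ((q * (x.2.2 : ℕ) + i * (x.1 : ℕ)).choose b : ℤ)) = 0 := by
  classical
  obtain ⟨A, hA⟩ : ∃ A : Matrix (Fin (s * (k1 + 1)) × Fin (s * (k2 + 1)))
      (Fin (m + 1) × Fin (k1 + 1) × Fin (k2 + 1)) ℤ, A = Matrix.of (fun y x =>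
      (((q * (x.2.1 : ℕ) + (x.1 : ℕ)).choose (y.1 : ℕ) : ℤ) *
          ((q * (x.2.2 : ℕ) + i * (x.1 : ℕ)).choose (y.2 : ℕ) : ℤ))) := ⟨_, rfl⟩
  have hc1 : Fintype.card (Fin (s * (k1 + 1)) × Fin (s * (k2 + 1))) =
      s ^ 2 * ((k1 + 1) * (k2 + 1)) := by
    rw [Fintype.card_prod, Fintype.card_fin, Fintype.card_fin]; ring
  have hc2 : Fintype.card (Fin (m + 1) × Fin (k1 + 1) × Fin (k2 + 1)) =
      2 * s ^ 2 * ((k1 + 1) * (k2 + 1)) := by
    rw [Fintype.card_prod, Fintype.card_prod, Fintype.card_fin, Fintype.card_fin, Fintype.card_fin,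
      hm]
  have hpos : 0 < s ^ 2 * ((k1 + 1) * (k2 + 1)) := by positivity
  obtain ⟨t, ht0, htA, htn⟩ := Int.Matrix.exists_ne_zero_int_vec_norm_le A
    (by rw [hc1, hc2]; nlinarith) (by rw [hc1]; exact hpos)
  have hexp : ((Fintype.card (Fin (s * (k1 + 1)) × Fin (s * (k2 + 1))) : ℝ) /
      ((Fintype.card (Fin (m + 1) × Fin (k1 + 1) × Fin (k2 + 1)) : ℝ) -
        (Fintype.card (Fin (s * (k1 + 1)) × Fin (s * (k2 + 1))) : ℝ))) = 1 := by
    rw [hc1, hc2]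
    have h1 : (0 : ℝ) < ((s ^ 2 * ((k1 + 1) * (k2 + 1)) : ℕ) : ℝ) := by exact_mod_cast hpos
    have h2 : ((2 * s ^ 2 * ((k1 + 1) * (k2 + 1)) : ℕ) : ℝ) =
        2 * ((s ^ 2 * ((k1 + 1) * (k2 + 1)) : ℕ) : ℝ) := by push_cast; ring
    rw [h2, div_eq_one_iff_eq (by linarith)]
    ring
  rw [hexp, Real.rpow_one, hc2] at htn
  have hAn : ‖A‖ ≤ ((q ^ (s * (k1 + 1) + s * (k2 + 1)) * 3 ^ (k1 + k2 + 2 * m) : ℕ) : ℝ) := by
    rw [Matrix.norm_le_iff (by positivity)]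
    rintro ⟨a, b⟩ ⟨j, l1, l2⟩
    rw [hA, Matrix.of_apply]
    simp only
    have h1 := choose_le (q := q) (e := q * (l1 : ℕ) + (j : ℕ)) (a := a) (k := k1 + m) hq (by
      have := l1.isLt
      have h2 := j.isLt
      have h3 : (j : ℕ) ≤ q * m := (by omega : (j : ℕ) ≤ m).trans (Nat.le_mul_of_pos_left m hq)
      have h4 : q * (l1 : ℕ) ≤ q * k1 := Nat.mul_le_mul_left _ (by omega)
      rw [mul_add]
      omega)
    have h2 := choose_le (q := q) (e := q * (l2 : ℕ) + i * (j : ℕ)) (a := b) (k := k2 + m) hq (by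
      have := l2.isLt
      have h2 := j.isLt
      have h3 : i * (j : ℕ) ≤ q * m := Nat.mul_le_mul hiq (by omega)
      have h4 : q * (l2 : ℕ) ≤ q * k2 := Nat.mul_le_mul_left _ (by omega)
      rw [mul_add]
      omega)
    have h3 : (q * (l1 : ℕ) + (j : ℕ)).choose a * (q * (l2 : ℕ) + i * (j : ℕ)).choose b ≤
        q ^ (s * (k1 + 1) + s * (k2 + 1)) * 3 ^ (k1 + k2 + 2 * m) := by
      calc _ ≤ (q ^ (a : ℕ) * 3 ^ (k1 + m)) * (q ^ (b : ℕ) * 3 ^ (k2 + m)) := Nat.mul_le_mul h1 h2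
        _ ≤ (q ^ (s * (k1 + 1)) * 3 ^ (k1 + m)) * (q ^ (s * (k2 + 1)) * 3 ^ (k2 + m)) :=
            Nat.mul_le_mul (Nat.mul_le_mul_right _ (Nat.pow_le_pow_right hq a.isLt.le))
              (Nat.mul_le_mul_right _ (Nat.pow_le_pow_right hq b.isLt.le))
        _ = _ := by ring
    have h4 : ‖(((q * (l1 : ℕ) + (j : ℕ)).choose a : ℤ) *
        ((q * (l2 : ℕ) + i * (j : ℕ)).choose b : ℤ))‖ =
        (((q * (l1 : ℕ) + (j : ℕ)).choose a * (q * (l2 : ℕ) + i * (j : ℕ)).choose b : ℕ) : ℝ) := by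
      rw [Int.norm_eq_abs]
      push_cast
      rw [abs_of_nonneg (by positivity)]
    rw [h4]
    exact_mod_cast h3
  have hBound : ∀ x, (t x).natAbs ≤ Cb s q m k1 k2 := by
    intro x
    have h1 := (norm_le_pi_norm t x).trans htn
    have h2 : (1 : ℝ) ≤ ((q ^ (s * (k1 + 1) + s * (k2 + 1)) * 3 ^ (k1 + k2 + 2 * m) : ℕ) : ℝ) := by
      have : 1 ≤ q ^ (s * (k1 + 1) + s * (k2 + 1)) * 3 ^ (k1 + k2 + 2 * m) :=
        Nat.mul_pos (Nat.pow_pos hq) (by positivity)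
      exact_mod_cast this
    have h3 := h1.trans (mul_le_mul_of_nonneg_left (max_le h2 hAn) (Nat.cast_nonneg _))
    rw [Int.norm_eq_abs] at h3
    have h4 : |((t x : ℤ) : ℝ)| = (((t x).natAbs : ℕ) : ℝ) := by
      rw [← Int.cast_abs, Int.abs_eq_natAbs, Int.cast_natCast]
    rw [h4] at h3
    unfold Cb
    exact_mod_cast h3
  refine ⟨fun j l1 l2 => if h : l1 < k1 + 1 ∧ l2 < k2 + 1 then t (j, ⟨l1, h.1⟩, ⟨l2, h.2⟩) else 0,
    ?_, ?_, ?_⟩
  · obtain ⟨⟨j, l1, l2⟩, hx⟩ := Function.ne_iff.mp ht0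
    refine ⟨j, l1, l2, Nat.le_of_lt_succ l1.isLt, Nat.le_of_lt_succ l2.isLt, ?_⟩
    simp only [dif_pos (show (l1 : ℕ) < k1 + 1 ∧ (l2 : ℕ) < k2 + 1 from ⟨l1.isLt, l2.isLt⟩)]
    exact hx
  · intro j l1 l2
    by_cases h : l1 < k1 + 1 ∧ l2 < k2 + 1
    · simp only [dif_pos h]
      exact hBound _
    · simp only [dif_neg h]
      exact Nat.zero_le _
  · intro a ha b hb
    have h1 := congrFun htA (⟨a, ha⟩, ⟨b, hb⟩)
    rw [hA] at h1
    simp only [Matrix.mulVec, dotProduct, Matrix.of_apply, Pi.zero_apply] at h1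
    rw [← h1]
    apply sum_congr rfl
    rintro ⟨j, l1, l2⟩ _
    simp only [dif_pos (show (l1 : ℕ) < k1 + 1 ∧ (l2 : ℕ) < k2 + 1 from ⟨l1.isLt, l2.isLt⟩)]
    rw [mul_comm]

end Pool.Agent.TH888.B2
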