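import Mathlib
import Pool.Agent.TH888.B2.Van
import Pool.Agent.TH888.B2.Form

/-!
The value of a derived form: divisibility, size, and vanishing.
-/

set_option autoImplicit false

namespace Pool.Agent.TH888.B2

open Finset Polynomial

/-- the value of the derived form -/
def Xv (q i m k1 k2 : ℕ) (c : Fin (m + 1) → ℕ → ℕ → ℤ) (P1 Q1 P2 Q2 Pw Qw : ℤ) (a b : ℕ) : ℤ :=
  ∑ x : Fin (m + 1) × Fin (k1 + 1) × Fin (k2 + 1), c x.1 x.2.1 x.2.2 *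
    (((q * (x.2.1 : ℕ) + (x.1 : ℕ)).choose a : ℤ) *
      ((q * (x.2.2 : ℕ) + i * (x.1 : ℕ)).choose b : ℤ)) *
    (P1 ^ (x.2.1 : ℕ) * Q1 ^ (k1 - (x.2.1 : ℕ)) * (P2 ^ (x.2.2 : ℕ) * Q2 ^ (k2 - (x.2.2 : ℕ))) *
      (Pw ^ (x.1 : ℕ) * Qw ^ (m - (x.1 : ℕ))))

theorem twistZ {ι : Type} [Fintype ι] {c : ι → ℤ} {E F : ι → ℕ} {α β : ℕ}
    (h : ∀ a < α, ∀ b < β, ∑ i, c i * (((E i).choose a : ℤ) * ((F i).choose b : ℤ)) = 0)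
    (a b : ℕ) : ∀ a' < α - a, ∀ b' < β - b,
      ∑ i, (c i * (((E i).choose a : ℤ) * ((F i).choose b : ℤ))) *
        (((E i).choose a' : ℤ) * ((F i).choose b' : ℤ)) = 0 := by
  intro a' ha' b' hb'
  have h1 : Van (fun i => (c i : ℚ)) E F α β := by
    apply van_of_choose
    intro a ha b hb
    exact_mod_cast h a ha b hb
  have h2 := (h1.twist a b).choose ha' hb'
  exact_mod_cast h2

theorem ev_dvd {q i m k1 k2 α β : ℕ} {c : Fin (m + 1) → ℕ → ℕ → ℤ} {P1 Q1 P2 Q2 Pw Qw : ℤ}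
    (h : ∀ a < α, ∀ b < β,
      ∑ x : Fin (m + 1) × Fin (k1 + 1) × Fin (k2 + 1), c x.1 x.2.1 x.2.2 *
        (((q * (x.2.1 : ℕ) + (x.1 : ℕ)).choose a : ℤ) *
          ((q * (x.2.2 : ℕ) + i * (x.1 : ℕ)).choose b : ℤ)) = 0)
    (n : ℕ) (u t : ℤ) (a b : ℕ) (h1 : (n : ℤ) ∣ P1 - Q1 * u ^ q) (h2 : (n : ℤ) ∣ P2 - Q2 * t ^ q)
    (hw : (n : ℤ) ∣ Pw - Qw * (u * t ^ i)) (hu : (n : ℤ) ∣ (u - 1) ^ (α - a))
    (ht : (n : ℤ) ∣ (t - 1) ^ (β - b)) :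
    (n : ℤ) ∣ Xv q i m k1 k2 c P1 Q1 P2 Q2 Pw Qw a b := by
  rw [← ZMod.intCast_zmod_eq_zero_iff_dvd] at *
  push_cast at h1 h2 hw hu ht
  have g1 : (P1 : ZMod n) = Q1 * (u : ZMod n) ^ q := sub_eq_zero.mp h1
  have g2 : (P2 : ZMod n) = Q2 * (t : ZMod n) ^ q := sub_eq_zero.mp h2
  have g3 : (Pw : ZMod n) = Qw * ((u : ZMod n) * (t : ZMod n) ^ i) := sub_eq_zero.mp hw
  have h3 := eval_nil (R := ZMod n) (fun x : Fin (m + 1) × Fin (k1 + 1) × Fin (k2 + 1) =>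
    c x.1 x.2.1 x.2.2 * (((q * (x.2.1 : ℕ) + (x.1 : ℕ)).choose a : ℤ) *
          ((q * (x.2.2 : ℕ) + i * (x.1 : ℕ)).choose b : ℤ)))
    (fun x => q * (x.2.1 : ℕ) + (x.1 : ℕ)) (fun x => q * (x.2.2 : ℕ) + i * (x.1 : ℕ))
    (twistZ h a b) ((u : ZMod n) - 1) ((t : ZMod n) - 1) hu ht
  unfold Xv
  rw [Int.cast_sum]
  have h4 : ∀ x : Fin (m + 1) × Fin (k1 + 1) × Fin (k2 + 1),
      (((c x.1 x.2.1 x.2.2 * (((q * (x.2.1 : ℕ) + (x.1 : ℕ)).choose a : ℤ) *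
          ((q * (x.2.2 : ℕ) + i * (x.1 : ℕ)).choose b : ℤ)) *
        (P1 ^ (x.2.1 : ℕ) * Q1 ^ (k1 - (x.2.1 : ℕ)) * (P2 ^ (x.2.2 : ℕ) * Q2 ^ (k2 - (x.2.2 : ℕ))) *
          (Pw ^ (x.1 : ℕ) * Qw ^ (m - (x.1 : ℕ)))) : ℤ)) : ZMod n) =
      (Q1 : ZMod n) ^ k1 * (Q2 : ZMod n) ^ k2 * (Qw : ZMod n) ^ m *
        (((c x.1 x.2.1 x.2.2 * (((q * (x.2.1 : ℕ) + (x.1 : ℕ)).choose a : ℤ) *
          ((q * (x.2.2 : ℕ) + i * (x.1 : ℕ)).choose b : ℤ)) : ℤ) : ZMod n) *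
          ((1 + ((u : ZMod n) - 1)) ^ (q * (x.2.1 : ℕ) + (x.1 : ℕ)) *
            (1 + ((t : ZMod n) - 1)) ^ (q * (x.2.2 : ℕ) + i * (x.1 : ℕ)))) := by
    rintro ⟨j, l1, l2⟩
    simp only
    have hj : (j : ℕ) ≤ m := Nat.le_of_lt_succ j.isLt
    have hl1 : (l1 : ℕ) ≤ k1 := Nat.le_of_lt_succ l1.isLt
    have hl2 : (l2 : ℕ) ≤ k2 := Nat.le_of_lt_succ l2.isLt
    have e1 : (1 + ((u : ZMod n) - 1)) = u := by ring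
    have e2 : (1 + ((t : ZMod n) - 1)) = t := by ring
    have e3 : (Q1 : ZMod n) ^ k1 = (Q1 : ZMod n) ^ (l1 : ℕ) * (Q1 : ZMod n) ^ (k1 - (l1 : ℕ)) := by
      rw [← pow_add, Nat.add_sub_cancel' hl1]
    have e4 : (Q2 : ZMod n) ^ k2 = (Q2 : ZMod n) ^ (l2 : ℕ) * (Q2 : ZMod n) ^ (k2 - (l2 : ℕ)) := by
      rw [← pow_add, Nat.add_sub_cancel' hl2]
    have e5 : (Qw : ZMod n) ^ m = (Qw : ZMod n) ^ (j : ℕ) * (Qw : ZMod n) ^ (m - (j : ℕ)) := by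
      rw [← pow_add, Nat.add_sub_cancel' hj]
    rw [e1, e2, e3, e4, e5]
    push_cast
    rw [g1, g2, g3]
    ring
  rw [sum_congr rfl fun x _ => h4 x, ← mul_sum, h3, mul_zero]

theorem ev_bound {s q i m k1 k2 Cc : ℕ} {c : Fin (m + 1) → ℕ → ℕ → ℤ} {P1 Q1 P2 Q2 Pw Qw : ℤ}
    (hc : ∀ j l1 l2, (c j l1 l2).natAbs ≤ Cc) (hq : 0 < q) (hiq : i ≤ q) {h1 h2 hw : ℕ}
    (g1 : P1.natAbs ≤ h1) (g1' : Q1.natAbs ≤ h1) (g2 : P2.natAbs ≤ h2) (g2' : Q2.natAbs ≤ h2)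
    (g3 : Pw.natAbs ≤ hw) (g3' : Qw.natAbs ≤ hw) {a b : ℕ} (ha : a ≤ s * (k1 + 1))
    (hb : b ≤ s * (k2 + 1)) :
    (Xv q i m k1 k2 c P1 Q1 P2 Q2 Pw Qw a b).natAbs ≤
      ((m + 1) * ((k1 + 1) * (k2 + 1))) * (Cc *
        (q ^ (s * (k1 + 1) + s * (k2 + 1)) * 3 ^ (k1 + k2 + 2 * m)) * (h1 ^ k1 * h2 ^ k2 * hw ^ m)) := by
  unfold Xv
  refine (Int.natAbs_sum_le _ _).trans ?_
  have hcard : (univ : Finset (Fin (m + 1) × Fin (k1 + 1) × Fin (k2 + 1))).card =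
      (m + 1) * ((k1 + 1) * (k2 + 1)) := by
    rw [card_univ, Fintype.card_prod, Fintype.card_prod, Fintype.card_fin, Fintype.card_fin,
      Fintype.card_fin]
  rw [← hcard, ← smul_eq_mul]
  apply sum_le_card_nsmul
  rintro ⟨j, l1, l2⟩ _
  simp only
  have hj : (j : ℕ) ≤ m := Nat.le_of_lt_succ j.isLt
  have hl1 : (l1 : ℕ) ≤ k1 := Nat.le_of_lt_succ l1.isLt
  have hl2 : (l2 : ℕ) ≤ k2 := Nat.le_of_lt_succ l2.isLt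
  have f1 := choose_le (q := q) (e := q * (l1 : ℕ) + (j : ℕ)) (a := a) (k := k1 + m) hq (by
    have h3 : (j : ℕ) ≤ q * m := hj.trans (Nat.le_mul_of_pos_left m hq)
    have h4 : q * (l1 : ℕ) ≤ q * k1 := Nat.mul_le_mul_left _ hl1
    rw [mul_add]
    omega)
  have f2 := choose_le (q := q) (e := q * (l2 : ℕ) + i * (j : ℕ)) (a := b) (k := k2 + m) hq (by
    have h3 : i * (j : ℕ) ≤ q * m := Nat.mul_le_mul hiq hj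
    have h4 : q * (l2 : ℕ) ≤ q * k2 := Nat.mul_le_mul_left _ hl2
    rw [mul_add]
    omega)
  have f3 : (q * (l1 : ℕ) + (j : ℕ)).choose a * (q * (l2 : ℕ) + i * (j : ℕ)).choose b ≤
      q ^ (s * (k1 + 1) + s * (k2 + 1)) * 3 ^ (k1 + k2 + 2 * m) := by
    calc _ ≤ (q ^ a * 3 ^ (k1 + m)) * (q ^ b * 3 ^ (k2 + m)) := Nat.mul_le_mul f1 f2
      _ ≤ (q ^ (s * (k1 + 1)) * 3 ^ (k1 + m)) * (q ^ (s * (k2 + 1)) * 3 ^ (k2 + m)) :=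
          Nat.mul_le_mul (Nat.mul_le_mul_right _ (Nat.pow_le_pow_right hq ha))
            (Nat.mul_le_mul_right _ (Nat.pow_le_pow_right hq hb))
      _ = _ := by ring
  have pw : ∀ {P Q : ℤ} {H l k : ℕ}, P.natAbs ≤ H → Q.natAbs ≤ H → l ≤ k →
      (P ^ l * Q ^ (k - l)).natAbs ≤ H ^ k := by
    intro P Q H l k hP hQ hl
    rw [Int.natAbs_mul, Int.natAbs_pow, Int.natAbs_pow]
    calc P.natAbs ^ l * Q.natAbs ^ (k - l) ≤ H ^ l * H ^ (k - l) :=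
          Nat.mul_le_mul (Nat.pow_le_pow_left hP _) (Nat.pow_le_pow_left hQ _)
      _ = H ^ k := by rw [← pow_add, Nat.add_sub_cancel' hl]
  rw [Int.natAbs_mul, Int.natAbs_mul, Int.natAbs_mul, Int.natAbs_mul, Int.natAbs_natCast,
    Int.natAbs_natCast, Int.natAbs_mul (P1 ^ (l1 : ℕ) * Q1 ^ (k1 - (l1 : ℕ)))]
  exact Nat.mul_le_mul (Nat.mul_le_mul (hc _ _ _) f3)
    (Nat.mul_le_mul (Nat.mul_le_mul (pw g1 g1' hl1) (pw g2 g2' hl2)) (pw g3 g3' hj))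

theorem ev_zero {q i m k1 k2 : ℕ} {c : Fin (m + 1) → ℕ → ℕ → ℤ} {P1 Q1 P2 Q2 Pw Qw : ℤ}
    {a b : ℕ} (h : Xv q i m k1 k2 c P1 Q1 P2 Q2 Pw Qw a b = 0) (hQ1 : Q1 ≠ 0) (hQ2 : Q2 ≠ 0)
    (hQw : Qw ≠ 0) :
    ∑ x : Fin (m + 1) × Fin (k1 + 1) × Fin (k2 + 1),
        ((c x.1 x.2.1 x.2.2 : ℚ) * ((P1 : ℚ) / Q1) ^ (x.2.1 : ℕ) * ((P2 : ℚ) / Q2) ^ (x.2.2 : ℕ) *
          ((Pw : ℚ) / Qw) ^ (x.1 : ℕ)) * (((q * (x.2.1 : ℕ) + (x.1 : ℕ)).choose a : ℚ) *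
            ((q * (x.2.2 : ℕ) + i * (x.1 : ℕ)).choose b : ℚ)) = 0 := by
  have hQ1' : (Q1 : ℚ) ≠ 0 := by exact_mod_cast hQ1
  have hQ2' : (Q2 : ℚ) ≠ 0 := by exact_mod_cast hQ2
  have hQw' : (Qw : ℚ) ≠ 0 := by exact_mod_cast hQw
  have h1 : ((Xv q i m k1 k2 c P1 Q1 P2 Q2 Pw Qw a b : ℤ) : ℚ) = 0 := by rw [h]; simp
  have h2 : ((Q1 : ℚ) ^ k1 * (Q2 : ℚ) ^ k2 * (Qw : ℚ) ^ m) *
      ∑ x : Fin (m + 1) × Fin (k1 + 1) × Fin (k2 + 1),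
        ((c x.1 x.2.1 x.2.2 : ℚ) * ((P1 : ℚ) / Q1) ^ (x.2.1 : ℕ) * ((P2 : ℚ) / Q2) ^ (x.2.2 : ℕ) *
          ((Pw : ℚ) / Qw) ^ (x.1 : ℕ)) * (((q * (x.2.1 : ℕ) + (x.1 : ℕ)).choose a : ℚ) *
            ((q * (x.2.2 : ℕ) + i * (x.1 : ℕ)).choose b : ℚ)) = 0 := by
    rw [← h1, Xv, mul_sum]
    push_cast
    apply sum_congr rfl
    rintro ⟨j, l1, l2⟩ _
    simp only
    have hj : (j : ℕ) ≤ m := Nat.le_of_lt_succ j.isLt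
    have hl1 : (l1 : ℕ) ≤ k1 := Nat.le_of_lt_succ l1.isLt
    have hl2 : (l2 : ℕ) ≤ k2 := Nat.le_of_lt_succ l2.isLt
    have e3 : (Q1 : ℚ) ^ k1 = (Q1 : ℚ) ^ (l1 : ℕ) * (Q1 : ℚ) ^ (k1 - (l1 : ℕ)) := by
      rw [← pow_add, Nat.add_sub_cancel' hl1]
    have e4 : (Q2 : ℚ) ^ k2 = (Q2 : ℚ) ^ (l2 : ℕ) * (Q2 : ℚ) ^ (k2 - (l2 : ℕ)) := by
      rw [← pow_add, Nat.add_sub_cancel' hl2]
    have e5 : (Qw : ℚ) ^ m = (Qw : ℚ) ^ (j : ℕ) * (Qw : ℚ) ^ (m - (j : ℕ)) := by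
      rw [← pow_add, Nat.add_sub_cancel' hj]
    rw [e3, e4, e5, div_pow, div_pow, div_pow]
    field_simp
  rcases mul_eq_zero.mp h2 with h3 | h3
  · exact absurd h3 (mul_ne_zero (mul_ne_zero (pow_ne_zero _ hQ1') (pow_ne_zero _ hQ2'))
      (pow_ne_zero _ hQw'))
  · exact h3

end Pool.Agent.TH888.B2
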