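import Mathlib
import Pool.Agent.TH888.B2.Form

/-!
Logarithms of the bounds.
-/

set_option autoImplicit false

namespace Pool.Agent.TH888.B2

theorem log_three : Real.log 3 ≤ 2 := by
  have := Real.log_le_sub_one_of_pos (show (0 : ℝ) < 3 by norm_num)
  linarith

theorem log_Q {S q m k1 k2 : ℕ} (hS : 1 ≤ S) (hm : m + 1 = 2 * S ^ 2) (hq : 0 < q) (hk : k1 ≤ k2) :
    Real.log ((q ^ (S * (k1 + 1) + S * (k2 + 1)) * 3 ^ (k1 + k2 + 2 * m) : ℕ) : ℝ) ≤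
      14 * (S : ℝ) ^ 2 * (k2 + 1) * (1 + Real.log q) := by
  have hqR : (0 : ℝ) < q := by exact_mod_cast hq
  have hlq : 0 ≤ Real.log q := Real.log_nonneg (by exact_mod_cast hq)
  have hSR : (1 : ℝ) ≤ S := by exact_mod_cast hS
  have hkR : (k1 : ℝ) ≤ k2 := by exact_mod_cast hk
  have hk2 : (0 : ℝ) ≤ k2 := Nat.cast_nonneg _
  have hmR : (m : ℝ) ≤ 2 * (S : ℝ) ^ 2 := by
    have : (m : ℝ) + 1 = 2 * (S : ℝ) ^ 2 := by exact_mod_cast hm
    linarith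
  push_cast
  rw [Real.log_mul (by positivity) (by positivity), Real.log_pow, Real.log_pow]
  push_cast
  have h3 := log_three
  have h30 : 0 ≤ Real.log 3 := Real.log_nonneg (by norm_num)
  have hSS : (S : ℝ) ≤ (S : ℝ) ^ 2 := le_self_pow₀ hSR (by norm_num)
  have e1 : ((S : ℝ) * (k1 + 1) + S * (k2 + 1)) * Real.log q ≤
      (2 * (S : ℝ) ^ 2 * (k2 + 1)) * Real.log q := by
    apply mul_le_mul_of_nonneg_right _ hlq
    have : (S : ℝ) * (k1 + 1) ≤ S * (k2 + 1) := mul_le_mul_of_nonneg_left (by linarith) (by linarith)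
    have h5 : (S : ℝ) * (k2 + 1) ≤ (S : ℝ) ^ 2 * (k2 + 1) :=
      mul_le_mul_of_nonneg_right hSS (by linarith)
    linarith
  have e2 : ((k1 : ℝ) + k2 + 2 * m) * Real.log 3 ≤ (12 * (S : ℝ) ^ 2 * (k2 + 1)) * 1 := by
    have h4 : ((k1 : ℝ) + k2 + 2 * m) * Real.log 3 ≤ ((k1 : ℝ) + k2 + 2 * m) * 2 :=
      mul_le_mul_of_nonneg_left h3 (by positivity)
    have h6 : (k2 : ℝ) ≤ (S : ℝ) ^ 2 * k2 := le_mul_of_one_le_left hk2 (by nlinarith)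
    have h7 : (S : ℝ) ^ 2 ≤ (S : ℝ) ^ 2 * (k2 + 1) := le_mul_of_one_le_right (by positivity) (by linarith)
    nlinarith
  have e3 : (2 * (S : ℝ) ^ 2 * (k2 + 1)) * Real.log q ≤ 14 * (S : ℝ) ^ 2 * (k2 + 1) * Real.log q := by
    apply mul_le_mul_of_nonneg_right _ hlq
    have : 0 ≤ (S : ℝ) ^ 2 * (k2 + 1) := by positivity
    linarith
  have e4 : (12 * (S : ℝ) ^ 2 * (k2 + 1)) * 1 ≤ 14 * (S : ℝ) ^ 2 * (k2 + 1) := by
    have : 0 ≤ (S : ℝ) ^ 2 * (k2 + 1) := by positivity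
    linarith
  calc _ ≤ 14 * (S : ℝ) ^ 2 * (k2 + 1) * Real.log q + 14 * (S : ℝ) ^ 2 * (k2 + 1) := by linarith
    _ = _ := by ring

theorem log_U {S m k1 k2 : ℕ} (hS : 1 ≤ S) (hm : m + 1 = 2 * S ^ 2) (hk : k1 ≤ k2) :
    Real.log (((2 * S ^ 2) * ((k1 + 1) * (k2 + 1)) : ℕ) : ℝ) ≤ 4 * (S : ℝ) ^ 2 * (k2 + 1) := by
  have hSR : (1 : ℝ) ≤ S := by exact_mod_cast hS
  have hkR : (k1 : ℝ) ≤ k2 := by exact_mod_cast hk
  have hk2 : (0 : ℝ) ≤ k2 := Nat.cast_nonneg _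
  push_cast
  rw [Real.log_mul (by positivity) (by positivity),
    Real.log_mul (x := (k1 : ℝ) + 1) (by positivity) (by positivity)]
  have h1 := Real.log_le_sub_one_of_pos (show (0 : ℝ) < 2 * (S : ℝ) ^ 2 by positivity)
  have h2 := Real.log_le_sub_one_of_pos (show (0 : ℝ) < (k1 : ℝ) + 1 by positivity)
  have h3 := Real.log_le_sub_one_of_pos (show (0 : ℝ) < (k2 : ℝ) + 1 by positivity)
  have h7 : (S : ℝ) ^ 2 ≤ (S : ℝ) ^ 2 * (k2 + 1) := le_mul_of_one_le_right (by positivity) (by linarith)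
  have h6 : (k2 : ℝ) + 1 ≤ (S : ℝ) ^ 2 * (k2 + 1) :=
    le_mul_of_one_le_left (by linarith) (one_le_pow₀ hSR)
  linarith

theorem log_Cb {S q m k1 k2 : ℕ} (hS : 1 ≤ S) (hm : m + 1 = 2 * S ^ 2) (hq : 0 < q) (hk : k1 ≤ k2) :
    Real.log (Cb S q m k1 k2 : ℝ) ≤ 18 * (S : ℝ) ^ 2 * (k2 + 1) * (1 + Real.log q) := by
  have hqR : (0 : ℝ) < q := by exact_mod_cast hq
  have hlq : 0 ≤ Real.log q := Real.log_nonneg (by exact_mod_cast hq)
  have h1 := log_Q hS hm hq hk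
  have h2 := log_U hS hm hk
  unfold Cb
  rw [Nat.cast_mul, Real.log_mul (by positivity) (by positivity)]
  have h3 : 0 ≤ 4 * (S : ℝ) ^ 2 * (k2 + 1) * Real.log q := by positivity
  linarith

theorem log_all {S q m k1 k2 : ℕ} (hS : 1 ≤ S) (hm : m + 1 = 2 * S ^ 2) (hq : 0 < q) (hk : k1 ≤ k2) :
    Real.log (((m + 1) * ((k1 + 1) * (k2 + 1)) * (Cb S q m k1 k2 *
      (q ^ (S * (k1 + 1) + S * (k2 + 1)) * 3 ^ (k1 + k2 + 2 * m))) : ℕ) : ℝ) ≤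
        36 * (S : ℝ) ^ 2 * (k2 + 1) * (1 + Real.log q) := by
  have hqR : (0 : ℝ) < q := by exact_mod_cast hq
  have hlq : 0 ≤ Real.log q := Real.log_nonneg (by exact_mod_cast hq)
  have h1 := log_Q hS hm hq hk
  have h2 := log_U hS hm hk
  have h3 := log_Cb hS hm hq hk
  have hC : (0 : ℝ) < (Cb S q m k1 k2 : ℝ) := by
    unfold Cb
    have : 0 < (2 * S ^ 2 * ((k1 + 1) * (k2 + 1))) * (q ^ (S * (k1 + 1) + S * (k2 + 1)) *
      3 ^ (k1 + k2 + 2 * m)) := by positivity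
    exact_mod_cast this
  have hZ : (0 : ℝ) < ((q ^ (S * (k1 + 1) + S * (k2 + 1)) * 3 ^ (k1 + k2 + 2 * m) : ℕ) : ℝ) := by
    positivity
  have hV : (0 : ℝ) < ((2 * S ^ 2 * ((k1 + 1) * (k2 + 1)) : ℕ) : ℝ) := by
    have : 0 < 2 * S ^ 2 * ((k1 + 1) * (k2 + 1)) := by positivity
    exact_mod_cast this
  rw [hm, Nat.cast_mul, Nat.cast_mul (Cb S q m k1 k2), Real.log_mul hV.ne' (mul_pos hC hZ).ne',
    Real.log_mul hC.ne' hZ.ne']
  have h4 : 0 ≤ 4 * (S : ℝ) ^ 2 * (k2 + 1) * Real.log q := by positivity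
  linarith

theorem log_Hb {S q m k1 k2 : ℕ} (hS : 1 ≤ S) (hm : m + 1 = 2 * S ^ 2) (hq : 0 < q) (hk : k1 ≤ k2) :
    Real.log (((m + 1).factorial * ((k2 + 1) * ((k1 + 1) * (Cb S q m k1 k2 *
      (q * (k2 + m)) ^ m))) ^ (m + 1) : ℕ) : ℝ) ≤
        60 * (S : ℝ) ^ 6 * (k2 + 1) * (1 + Real.log q) := by
  have hqR : (0 : ℝ) < q := by exact_mod_cast hq
  have hlq : 0 ≤ Real.log q := Real.log_nonneg (by exact_mod_cast hq)
  have hSR : (1 : ℝ) ≤ S := by exact_mod_cast hS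
  have hkR : (k1 : ℝ) ≤ k2 := by exact_mod_cast hk
  have hk2 : (0 : ℝ) ≤ k2 := Nat.cast_nonneg _
  have hS1 : 1 ≤ S ^ 2 := Nat.one_le_pow _ _ hS
  have hm1 : 1 ≤ m := by omega
  have hmR' : (m : ℝ) + 1 = 2 * (S : ℝ) ^ 2 := by exact_mod_cast hm
  have hmR : (m : ℝ) ≤ 2 * (S : ℝ) ^ 2 := by linarith
  have hm0 : (0 : ℝ) ≤ m := Nat.cast_nonneg _
  have hmR1 : (1 : ℝ) ≤ m := by exact_mod_cast hm1
  have h3 := log_Cb hS hm hq hk
  have hC : (0 : ℝ) < (Cb S q m k1 k2 : ℝ) := by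
    unfold Cb
    have : 0 < (2 * S ^ 2 * ((k1 + 1) * (k2 + 1))) * (q ^ (S * (k1 + 1) + S * (k2 + 1)) *
      3 ^ (k1 + k2 + 2 * m)) := by positivity
    exact_mod_cast this
  have hkm : (0 : ℝ) < (k2 : ℝ) + m := by linarith
  obtain ⟨Y, hY⟩ : ∃ Y : ℝ, Y = (k2 + 1) * (1 + Real.log q) := ⟨_, rfl⟩
  have hY1 : (k2 : ℝ) + 1 ≤ Y := by rw [hY]; exact le_mul_of_one_le_right (by linarith) (by linarith)
  have hYq : Real.log q ≤ Y := by
    rw [hY]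
    have : (1 + Real.log q) ≤ (k2 + 1) * (1 + Real.log q) :=
      le_mul_of_one_le_left (by linarith) (by linarith)
    linarith
  have hY0 : 1 ≤ Y := by linarith
  have hfac : Real.log ((m + 1).factorial : ℝ) ≤ 4 * (S : ℝ) ^ 4 := by
    have h1 : ((m + 1).factorial : ℝ) ≤ ((m : ℝ) + 1) ^ (m + 1) := by
      have : (m + 1).factorial ≤ (m + 1) ^ (m + 1) := Nat.factorial_le_pow _
      exact_mod_cast this
    have h2 : Real.log ((m + 1).factorial : ℝ) ≤ ((m : ℝ) + 1) * Real.log ((m : ℝ) + 1) := by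
      have h4 := Real.log_le_log (by positivity) h1
      rw [Real.log_pow] at h4
      push_cast at h4
      exact h4
    have h4 := Real.log_le_sub_one_of_pos (show (0 : ℝ) < (m : ℝ) + 1 by positivity)
    rw [hmR'] at h2 h4
    have h5 : 2 * (S : ℝ) ^ 2 * Real.log (2 * (S : ℝ) ^ 2) ≤ 2 * (S : ℝ) ^ 2 * (2 * (S : ℝ) ^ 2) :=
      mul_le_mul_of_nonneg_left (by linarith) (by positivity)
    calc _ ≤ 2 * (S : ℝ) ^ 2 * (2 * (S : ℝ) ^ 2) := h2.trans h5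
      _ = _ := by ring
  have hin : Real.log (((k2 : ℝ) + 1) * (((k1 : ℝ) + 1) * ((Cb S q m k1 k2 : ℝ) *
      ((q : ℝ) * (k2 + m)) ^ m))) ≤ 28 * (S : ℝ) ^ 4 * Y := by
    rw [Real.log_mul (by positivity) (by positivity), Real.log_mul (by positivity) (by positivity),
      Real.log_mul hC.ne' (by positivity), Real.log_pow, Real.log_mul (by positivity) (by positivity)]
    have g1 := Real.log_le_sub_one_of_pos (show (0 : ℝ) < (k2 : ℝ) + 1 by positivity)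
    have g2 := Real.log_le_sub_one_of_pos (show (0 : ℝ) < (k1 : ℝ) + 1 by positivity)
    have g3 := Real.log_le_sub_one_of_pos hkm
    have hSS : 1 ≤ (S : ℝ) ^ 2 := one_le_pow₀ hSR
    have hS4 : (S : ℝ) ^ 4 = (S : ℝ) ^ 2 * (S : ℝ) ^ 2 := by ring
    have hS24 : (S : ℝ) ^ 2 ≤ (S : ℝ) ^ 4 := by rw [hS4]; exact le_mul_of_one_le_left (by positivity) hSS
    have hS4Y : Y ≤ (S : ℝ) ^ 4 * Y := le_mul_of_one_le_left (by linarith) (by linarith)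
    have g4 : 18 * (S : ℝ) ^ 2 * (k2 + 1) * (1 + Real.log q) ≤ 18 * ((S : ℝ) ^ 4 * Y) := by
      calc 18 * (S : ℝ) ^ 2 * (k2 + 1) * (1 + Real.log q) = 18 * ((S : ℝ) ^ 2 * Y) := by rw [hY]; ring
        _ ≤ 18 * ((S : ℝ) ^ 4 * Y) := by gcongr
    have g5 : (m : ℝ) * (Real.log q + Real.log ((k2 : ℝ) + m)) ≤ 8 * ((S : ℝ) ^ 4 * Y) := by
      have g6 : Real.log q + Real.log ((k2 : ℝ) + m) ≤ 4 * ((S : ℝ) ^ 2 * Y) := by
        have g7 : (m : ℝ) ≤ 2 * ((S : ℝ) ^ 2 * Y) := by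
          calc (m : ℝ) ≤ 2 * (S : ℝ) ^ 2 := hmR
            _ ≤ 2 * ((S : ℝ) ^ 2 * Y) := by
                have : (S : ℝ) ^ 2 ≤ (S : ℝ) ^ 2 * Y := le_mul_of_one_le_right (by positivity) hY0
                linarith
        have g8 : Y ≤ (S : ℝ) ^ 2 * Y := le_mul_of_one_le_left (by linarith) hSS
        linarith
      calc (m : ℝ) * (Real.log q + Real.log ((k2 : ℝ) + m)) ≤ m * (4 * ((S : ℝ) ^ 2 * Y)) :=
            mul_le_mul_of_nonneg_left g6 hm0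
        _ ≤ (2 * (S : ℝ) ^ 2) * (4 * ((S : ℝ) ^ 2 * Y)) :=
            mul_le_mul_of_nonneg_right hmR (by positivity)
        _ = 8 * ((S : ℝ) ^ 4 * Y) := by ring
    linarith
  push_cast
  rw [Real.log_mul (by positivity) (by positivity), Real.log_pow]
  push_cast
  have f1 : ((m : ℝ) + 1) * Real.log (((k2 : ℝ) + 1) * (((k1 : ℝ) + 1) * ((Cb S q m k1 k2 : ℝ) *
      ((q : ℝ) * (k2 + m)) ^ m))) ≤ 56 * ((S : ℝ) ^ 6 * Y) := by
    calc _ ≤ ((m : ℝ) + 1) * (28 * (S : ℝ) ^ 4 * Y) := mul_le_mul_of_nonneg_left hin (by positivity)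
      _ = _ := by rw [hmR']; ring
  have f2 : 4 * (S : ℝ) ^ 4 ≤ 4 * ((S : ℝ) ^ 6 * Y) := by
    have hSS : 1 ≤ (S : ℝ) ^ 2 := one_le_pow₀ hSR
    have : (S : ℝ) ^ 4 ≤ (S : ℝ) ^ 6 * Y := by
      calc (S : ℝ) ^ 4 ≤ (S : ℝ) ^ 4 * ((S : ℝ) ^ 2 * Y) :=
            le_mul_of_one_le_right (by positivity) (by nlinarith)
        _ = _ := by ring
    linarith
  calc _ ≤ 4 * ((S : ℝ) ^ 6 * Y) + 56 * ((S : ℝ) ^ 6 * Y) := add_le_add (hfac.trans f2) f1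
    _ = 60 * (S : ℝ) ^ 6 * (k2 + 1) * (1 + Real.log q) := by rw [hY]; ring

end Pool.Agent.TH888.B2
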