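import Mathlib
import Pool.Agent.TH888.B2.Form

/-!
The choice of the parameters.
-/

set_option autoImplicit false

namespace Pool.Agent.TH888.B2

/-- the inequalities for `x₁ = k₁ + 1`, `x₂ = k₂ + 1` -/
theorem par_basic {κ ω L h₁ lam : ℝ} {S K : ℕ} (hS : 1 ≤ S) (hω : 0 < ω) (hL : 0 < L)
    {Λ : ℝ} (hΛ2 : 2 ≤ Λ) (hΛS : 4 * (S : ℝ) ^ 2 ≤ Λ) (hΛω : 2 * S / ω ≤ Λ) (h1 : Λ * L ≤ h₁)
    (hlam : h₁ ≤ lam) {x₁ x₂ : ℝ} (hx1 : 2 * lam / (S * h₁) ≤ x₁) (hx1' : x₁ ≤ 2 * lam / (S * h₁) + 1)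
    (hx2 : 2 / S * (lam / L + 1) ≤ x₂) (hx2' : x₂ ≤ 2 / S * (lam / L + 1) + 1) :
    (2 * lam ≤ S * x₁ * h₁) ∧ ((x₁ - 1) * h₁ ≤ 2 * lam / S) ∧ ((x₂ - 1) * L ≤ 4 * lam / S) ∧
    (x₂ ≤ 5 * (lam / L)) ∧ x₁ ≤ x₂ ∧ x₁ ≤ ω * x₂ ∧ 1 ≤ x₂ ∧ 8 * S ≤ x₂ ∧
    2 * (lam / L + 1) ≤ S * x₂ := by
  have hSR : (1 : ℝ) ≤ S := by exact_mod_cast hS
  have hS0 : (0 : ℝ) < S := by linarith
  have hΛ0 : 0 < Λ := by linarith
  have hh : 0 < h₁ := lt_of_lt_of_le (by positivity) h1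
  have hlam0 : 0 < lam := lt_of_lt_of_le hh hlam
  obtain ⟨T, hT⟩ : ∃ T, T = lam / L := ⟨_, rfl⟩
  have hTL : T * L = lam := by rw [hT]; field_simp
  have hTΛ : Λ ≤ T := by
    rw [hT, le_div_iff₀ hL]; linarith
  have hT1 : 1 ≤ T := by linarith
  rw [← hT] at hx2 hx2' ⊢
  have hTS : 4 * (S : ℝ) ^ 2 ≤ T := hΛS.trans hTΛ
  have hSS : (S : ℝ) ≤ (S : ℝ) ^ 2 := le_self_pow₀ hSR (by norm_num)
  -- `2 lam / (S h₁) ≤ 2 T / (S Λ)`
  have e1 : 2 * lam / (S * h₁) ≤ T / S := by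
    rw [div_le_div_iff₀ (by positivity) hS0]
    have : 2 * lam ≤ T * h₁ := by
      calc 2 * lam = T * (2 * L) := by rw [← hTL]; ring
        _ ≤ T * h₁ := by
            apply mul_le_mul_of_nonneg_left _ (by linarith)
            nlinarith
    calc 2 * lam * S ≤ (T * h₁) * S := mul_le_mul_of_nonneg_right this hS0.le
      _ = T * (S * h₁) := by ring
  have e2 : 2 / S * (T + 1) = 2 * T / S + 2 / S := by ring
  have e3 : 1 ≤ T / S := by rw [le_div_iff₀ hS0]; nlinarith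
  have e4 : 2 * T / S = 2 * (T / S) := by ring
  have e5 : 0 < 2 / (S : ℝ) := by positivity
  refine ⟨?_, ?_, ?_, ?_, ?_, ?_, ?_, ?_, ?_⟩
  · rw [div_le_iff₀ (by positivity)] at hx1
    linarith
  · have h2 : x₁ - 1 ≤ 2 * lam / (S * h₁) := by linarith
    calc (x₁ - 1) * h₁ ≤ (2 * lam / (S * h₁)) * h₁ := mul_le_mul_of_nonneg_right h2 hh.le
      _ = 2 * lam / S := by field_simp
  · have h2 : x₂ - 1 ≤ 2 / S * (T + 1) := by linarith
    have h3 : (x₂ - 1) * L ≤ 2 / S * (T + 1) * L := mul_le_mul_of_nonneg_right h2 hL.le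
    have h4 : 2 / S * (T + 1) * L ≤ 2 / S * (T + T) * L := by gcongr
    calc (x₂ - 1) * L ≤ 2 / S * (T + T) * L := h3.trans h4
      _ = 4 * (T * L) / S := by ring
      _ = 4 * lam / S := by rw [hTL]
  · have h2 : 2 / (S : ℝ) ≤ 2 := by rw [div_le_iff₀ hS0]; linarith
    have h3 : 2 / (S : ℝ) * (T + 1) ≤ 2 * (T + 1) := mul_le_mul_of_nonneg_right h2 (by linarith)
    linarith
  · linarith
  · have h2 : 2 * S / ω ≤ T := hΛω.trans hTΛ
    rw [div_le_iff₀ hω] at h2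
    -- x₁ ≤ 2 lam/(S h₁) + 1 ≤ ...
    have h3 : 2 * lam / (S * h₁) ≤ ω * (T / S) := by
      rw [div_le_iff₀ (by positivity)]
      have h4 : 2 * S ≤ Λ * ω := by
        have := hΛω
        rwa [div_le_iff₀ hω] at this
      have h5 : 2 ≤ Λ * ω := by nlinarith
      calc 2 * lam = 2 * (T * L) := by rw [hTL]
        _ ≤ (Λ * ω) * (T * L) := mul_le_mul_of_nonneg_right h5 (by positivity)
        _ = ω * T * (Λ * L) := by ring
        _ ≤ ω * T * h₁ := mul_le_mul_of_nonneg_left h1 (by positivity)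
        _ = ω * (T / S) * (S * h₁) := by field_simp
    have h4 : 1 ≤ ω * (T / S) := by
      have : ω * (T / S) = (T * ω) / S := by ring
      rw [this, le_div_iff₀ hS0]
      linarith
    have h5 : ω * x₂ ≥ ω * (2 * (T / S)) := by
      apply mul_le_mul_of_nonneg_left _ hω.le
      linarith
    linarith
  · linarith
  · have h2 : 4 * (S : ℝ) ≤ T / S := by
      rw [le_div_iff₀ hS0]; nlinarith
    linarith
  · have h2 : S * (2 / S * (T + 1)) ≤ S * x₂ := mul_le_mul_of_nonneg_left hx2 hS0.le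
    have h3 : (S : ℝ) * (2 / S * (T + 1)) = 2 * (T + 1) := by field_simp
    linarith

end Pool.Agent.TH888.B2
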