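import Mathlib
import Pool.Agent.H374R2.W.UP

/-!
`q`-th roots modulo powers of `p`.
-/

set_option autoImplicit false

namespace Pool.Agent.TH888.B2

theorem root_t {p q : ℕ} (hp : p.Prime) (hpq : ¬ p ∣ q) (E : ℕ) {A₁ A₂ : ℤ}
    (hA : (p : ℤ) ∣ A₂ - A₁) (hA1 : ¬ (p : ℤ) ∣ A₁) :
    ∃ t : ℤ, (p : ℤ) ^ E ∣ A₂ - A₁ * t ^ q ∧ (p : ℤ) ∣ t - 1 := by
  have hpZ : Prime (p : ℤ) := Nat.prime_iff_prime_int.mp hp
  have hcop : IsCoprime A₁ ((p : ℤ) ^ E) :=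
    ((Prime.coprime_iff_not_dvd hpZ).mpr hA1).symm.pow_right
  obtain ⟨x, y, hxy⟩ := hcop
  obtain ⟨a, ha⟩ : ∃ a, a = x * A₂ := ⟨_, rfl⟩
  have ha1 : (p : ℤ) ^ E ∣ A₂ - A₁ * a := by
    refine ⟨A₂ * y, ?_⟩
    rw [ha]
    linear_combination (-A₂) * hxy
  rcases Nat.eq_zero_or_pos E with hE | hE
  · refine ⟨1, by rw [hE, pow_zero]; exact one_dvd _, by simp⟩
  have ha2 : (p : ℤ) ∣ a - 1 := by
    have h1 : (p : ℤ) ∣ A₂ - A₁ * a := (dvd_pow_self _ hE.ne').trans ha1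
    have h2 : (p : ℤ) ∣ A₁ * (a - 1) := by
      have h3 := dvd_sub hA h1
      have : A₂ - A₁ - (A₂ - A₁ * a) = A₁ * (a - 1) := by ring
      rwa [this] at h3
    exact (hpZ.dvd_or_dvd h2).resolve_left hA1
  have ha3 : (p : ℤ) ^ E ∣ a ^ p ^ E - 1 := by
    have h1 := dvd_sub_pow_of_dvd_sub (R := ℤ) (p := p) (a := a) (b := 1) ha2 E
    rw [one_pow] at h1
    exact (pow_dvd_pow _ (Nat.le_succ E)).trans h1
  obtain ⟨q', hq'⟩ : ∃ q', q * q' % p ^ E = 1 := by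
    have h1 : Nat.Coprime (p ^ E) q := Nat.Coprime.pow_left E ((Nat.Prime.coprime_iff_not_dvd hp).mpr hpq)
    have h2 : 1 < p ^ E := Nat.one_lt_pow hE.ne' hp.one_lt
    obtain ⟨x, hx⟩ := Nat.exists_mul_mod_eq_one_of_coprime h1.symm h2
    exact ⟨x, hx.2⟩
  obtain ⟨r, hr⟩ : ∃ r, q * q' = p ^ E * r + 1 := by
    refine ⟨q * q' / p ^ E, ?_⟩
    have := Nat.div_add_mod (q * q') (p ^ E)
    omega
  refine ⟨a ^ q', ?_, ?_⟩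
  · have h1 : (a ^ q') ^ q = a * (a ^ p ^ E) ^ r := by
      rw [← pow_mul, mul_comm q' q, hr, pow_add, pow_one, pow_mul]
      ring
    have h2 : (p : ℤ) ^ E ∣ (a ^ p ^ E) ^ r - 1 := by
      have := sub_dvd_pow_sub_pow (a ^ p ^ E) 1 r
      rw [one_pow] at this
      exact ha3.trans this
    rw [h1]
    have h3 : A₂ - A₁ * (a * (a ^ p ^ E) ^ r) = (A₂ - A₁ * a) - A₁ * a * ((a ^ p ^ E) ^ r - 1) := by
      ring
    rw [h3]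
    exact dvd_sub ha1 (Dvd.dvd.mul_left h2 _)
  · have := sub_dvd_pow_sub_pow a 1 q'
    rw [one_pow] at this
    exact ha2.trans this

theorem root_u {p q i : ℕ} (hp : p.Prime) (hpq : ¬ p ∣ q) (E e₁ : ℕ) {P₁ Q₁ P₂ Q₂ Pw Qw t : ℤ}
    (hQ1 : ¬ (p : ℤ) ∣ Q₁) (hQ2 : ¬ (p : ℤ) ∣ Q₂) (hQw : ¬ (p : ℤ) ∣ Qw)
    (ht : (p : ℤ) ^ E ∣ P₂ - Q₂ * t ^ q) (ht1 : (p : ℤ) ∣ t - 1)
    (hPw : (p : ℤ) ∣ Pw - Qw) (hP1 : (p : ℤ) ^ e₁ ∣ P₁ - Q₁)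
    (hmain : (p : ℤ) ^ E ∣ Pw ^ q * (Q₁ * Q₂ ^ i) - Qw ^ q * (P₁ * P₂ ^ i)) :
    ∃ u : ℤ, (p : ℤ) ^ E ∣ P₁ - Q₁ * u ^ q ∧ (p : ℤ) ^ E ∣ Pw - Qw * (u * t ^ i) ∧
      (p : ℤ) ^ (min e₁ E) ∣ u - 1 := by
  have hpZ : Prime (p : ℤ) := Nat.prime_iff_prime_int.mp hp
  rcases Nat.eq_zero_or_pos E with hE | hE
  · subst hE
    exact ⟨1, by simp, by simp, by simp⟩
  have htp : ¬ (p : ℤ) ∣ t := by
    intro h
    have h1 : (p : ℤ) ∣ 1 := by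
      have := dvd_sub h ht1
      rwa [sub_sub_cancel] at this
    exact hpZ.not_isUnit (isUnit_of_dvd_one h1)
  have hti : ¬ (p : ℤ) ∣ t ^ i := fun h => htp (hpZ.dvd_of_dvd_pow h)
  have hcop : IsCoprime (Qw * t ^ i) ((p : ℤ) ^ E) := by
    refine IsCoprime.pow_right ?_
    refine ((Prime.coprime_iff_not_dvd hpZ).mpr fun h => ?_).symm
    rcases hpZ.dvd_or_dvd h with h | h
    · exact hQw h
    · exact hti h
  obtain ⟨x, y, hxy⟩ := hcop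
  obtain ⟨u, hu⟩ : ∃ u, u = x * Pw := ⟨_, rfl⟩
  have hu1 : (p : ℤ) ^ E ∣ Pw - Qw * (u * t ^ i) := by
    refine ⟨Pw * y, ?_⟩
    rw [hu]
    linear_combination (-Pw) * hxy
  -- `P₁ ≡ Q₁ u ^ q`
  have hti1 : (p : ℤ) ∣ t ^ i - 1 := by
    have := sub_dvd_pow_sub_pow t 1 i
    rw [one_pow] at this
    exact ht1.trans this
  have hu2 : (p : ℤ) ^ E ∣ P₁ - Q₁ * u ^ q := by
    have e1 : (p : ℤ) ^ E ∣ Pw ^ q - (Qw * (u * t ^ i)) ^ q := hu1.trans (sub_dvd_pow_sub_pow _ _ q)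
    have e2 : (p : ℤ) ^ E ∣ P₂ ^ i - (Q₂ * t ^ q) ^ i := ht.trans (sub_dvd_pow_sub_pow _ _ i)
    have e3 : (Qw ^ q * Q₂ ^ i * (t ^ i) ^ q) * (P₁ - Q₁ * u ^ q) =
        (Pw ^ q - (Qw * (u * t ^ i)) ^ q) * (Q₁ * Q₂ ^ i) -
        (P₂ ^ i - (Q₂ * t ^ q) ^ i) * (Qw ^ q * P₁) -
        (Pw ^ q * (Q₁ * Q₂ ^ i) - Qw ^ q * (P₁ * P₂ ^ i)) := by
      have : (t ^ q) ^ i = (t ^ i) ^ q := by rw [← pow_mul, ← pow_mul, mul_comm]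
      rw [mul_pow, mul_pow, mul_pow, this]
      ring
    have e4 : (p : ℤ) ^ E ∣ (Qw ^ q * Q₂ ^ i * (t ^ i) ^ q) * (P₁ - Q₁ * u ^ q) := by
      rw [e3]
      exact dvd_sub (dvd_sub (Dvd.dvd.mul_right e1 _) (Dvd.dvd.mul_right e2 _)) hmain
    have e5 : IsCoprime ((p : ℤ) ^ E) (Qw ^ q * Q₂ ^ i * (t ^ i) ^ q) := by
      refine IsCoprime.pow_left ((Prime.coprime_iff_not_dvd hpZ).mpr fun h => ?_)
      rcases hpZ.dvd_or_dvd h with h | h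
      · rcases hpZ.dvd_or_dvd h with h | h
        · exact hQw (hpZ.dvd_of_dvd_pow h)
        · exact hQ2 (hpZ.dvd_of_dvd_pow h)
      · exact hti (hpZ.dvd_of_dvd_pow h)
    exact e5.dvd_of_dvd_mul_left e4
  refine ⟨u, hu2, hu1, ?_⟩
  -- `u ≡ 1 mod p`
  have hu3 : (p : ℤ) ∣ u - 1 := by
    have h1 : (p : ℤ) ∣ Pw - Qw * (u * t ^ i) := (dvd_pow_self _ hE.ne').trans hu1
    have h2 : (p : ℤ) ∣ Qw * (u - 1) := by
      have h3 := dvd_sub hPw h1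
      have h4 : Qw * (u - 1) = (Pw - Qw - (Pw - Qw * (u * t ^ i))) - (t ^ i - 1) * (Qw * u) := by ring
      rw [h4]
      exact dvd_sub h3 (Dvd.dvd.mul_right hti1 _)
    exact (hpZ.dvd_or_dvd h2).resolve_left hQw
  rcases Nat.eq_zero_or_pos (min e₁ E) with h0 | h0
  · rw [h0, pow_zero]; exact one_dvd _
  have hu4 : (p : ℤ) ^ (min e₁ E) ∣ u ^ q - 1 ^ q := by
    have h1 : (p : ℤ) ^ (min e₁ E) ∣ Q₁ * (u ^ q - 1) := by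
      have h2 := dvd_sub ((pow_dvd_pow (p : ℤ) (min_le_left e₁ E)).trans hP1)
        ((pow_dvd_pow (p : ℤ) (min_le_right e₁ E)).trans hu2)
      have h3 : P₁ - Q₁ - (P₁ - Q₁ * u ^ q) = Q₁ * (u ^ q - 1) := by ring
      rwa [h3] at h2
    have h2 : IsCoprime ((p : ℤ) ^ (min e₁ E)) Q₁ :=
      IsCoprime.pow_left ((Prime.coprime_iff_not_dvd hpZ).mpr hQ1)
    rw [one_pow]
    exact h2.dvd_of_dvd_mul_left h1
  refine Pool.Agent.H374R2.W.UP.dvd_sub_of_pow (q := q) (d := p) (w₁ := u) (w₂ := 1) ?_ ?_ ?_ hu4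
  · intro l hl hlp h
    rw [(Nat.prime_dvd_prime_iff_eq hl hp).mp hlp] at h
    exact hpq h
  · intro l hl hlp h
    rw [(Nat.prime_dvd_prime_iff_eq hl hp).mp hlp] at h
    have h1 : (p : ℤ) ∣ 1 := by
      have := dvd_sub h hu3
      rwa [sub_sub_cancel] at this
    exact hpZ.not_isUnit (isUnit_of_dvd_one h1)
  · intro l hl hlp
    rw [(Nat.prime_dvd_prime_iff_eq hl hp).mp hlp]
    exact hu3

end Pool.Agent.TH888.B2
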