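import Mathlib
import Pool.Agent.TH888.B2.Est
import Pool.Agent.TH888.B2.Ev
import Pool.Agent.TH888.B2.Root
import Pool.Agent.TH888.B2.Par
import Pool.Agent.TH888.B2.Logs

/-!
Two solutions with different bases `A₁ ≡ A₂` modulo a large prime `p` exclude each other.
-/

set_option autoImplicit false

namespace Pool.Agent.TH888.B2

open Finset Polynomial

/-- the height of a solution -/
def hh (q i A U V : ℕ) : ℕ := max (U ^ q) (A ^ i * V ^ q)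

/-- a solution of `U ^ q ≡ s A ^ i V ^ q` modulo a high power of `p` -/
structure SolA (κ : ℝ) (q p i : ℕ) (s : ℤ) (A U V : ℕ) : Prop where
  A0 : 0 < A
  U0 : 0 < U
  V0 : 0 < V
  Ap : ¬ p ∣ A
  Up : ¬ p ∣ U
  Vp : ¬ p ∣ V
  cop : Nat.Coprime U (A * V)
  good : ∃ y : ℕ, (p : ℤ) ^ y ∣ (U : ℤ) ^ q - s * (A : ℤ) ^ i * (V : ℤ) ^ q ∧
    κ * Real.log (hh q i A U V) ≤ y * Real.log p

/-- the reduced fraction `A₂ / A₁` has height at least `p` -/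
theorem ratio_height {p A₁ A₂ : ℕ} (hp : p.Prime) (hA1 : 0 < A₁) (hA2 : 0 < A₂) (hne : A₁ ≠ A₂)
    (hpA : ¬ p ∣ A₁) (h : (p : ℤ) ∣ (A₂ : ℤ) - A₁) :
    ∃ p2 q2 : ℤ, IsCoprime p2 q2 ∧ p2 ≠ 0 ∧ q2 ≠ 0 ∧ ((p2 : ℚ) / q2 = (A₂ : ℚ) / A₁) ∧
      Real.log p ≤ Real.log (max |(p2 : ℝ)| |(q2 : ℝ)|) := by
  obtain ⟨g, hg⟩ : ∃ g, g = Nat.gcd A₂ A₁ := ⟨_, rfl⟩
  have hg0 : 0 < g := by rw [hg]; exact Nat.gcd_pos_of_pos_left _ hA2
  obtain ⟨a2, ha2⟩ : g ∣ A₂ := by rw [hg]; exact Nat.gcd_dvd_left _ _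
  obtain ⟨a1, ha1⟩ : g ∣ A₁ := by rw [hg]; exact Nat.gcd_dvd_right _ _
  have hcop : Nat.Coprime a2 a1 := by
    have h1 := Nat.coprime_div_gcd_div_gcd (m := A₂) (n := A₁) (by rw [← hg]; exact hg0)
    rw [← hg] at h1
    rw [ha2, ha1, Nat.mul_div_cancel_left _ hg0, Nat.mul_div_cancel_left _ hg0] at h1
    exact h1
  have ha20 : 0 < a2 := Nat.pos_of_ne_zero fun h0 => by rw [h0, mul_zero] at ha2; omega
  have ha10 : 0 < a1 := Nat.pos_of_ne_zero fun h0 => by rw [h0, mul_zero] at ha1; omega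
  have hpZ : Prime (p : ℤ) := Nat.prime_iff_prime_int.mp hp
  have h1 : (p : ℤ) ∣ (a2 : ℤ) - a1 := by
    rw [ha2, ha1] at h
    push_cast at h
    rw [← mul_sub] at h
    refine (hpZ.dvd_or_dvd h).resolve_left fun h2 => hpA ?_
    rw [ha1]
    exact Dvd.dvd.mul_right (by exact_mod_cast h2) _
  have h2 : (a2 : ℤ) - a1 ≠ 0 := by
    intro h3
    apply hne
    rw [ha1, ha2]
    congr 1
    omega
  have h3 : p ≤ max a2 a1 := by
    have h4 := Int.le_of_dvd (abs_pos.mpr h2) ((dvd_abs _ _).mpr h1)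
    rcases le_total a2 a1 with h5 | h5
    · rw [max_eq_right h5]
      rw [abs_of_nonpos (by omega)] at h4
      omega
    · rw [max_eq_left h5]
      rw [abs_of_nonneg (by omega)] at h4
      omega
  refine ⟨a2, a1, Nat.isCoprime_iff_coprime.mpr hcop, by exact_mod_cast ha20.ne',
    by exact_mod_cast ha10.ne', ?_, ?_⟩
  · have hgQ : (g : ℚ) ≠ 0 := by exact_mod_cast hg0.ne'
    rw [ha2, ha1]
    push_cast
    rw [mul_div_mul_left _ _ hgQ]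
  · apply Real.log_le_log (by exact_mod_cast hp.pos)
    have h4 : |(((a2 : ℕ) : ℤ) : ℝ)| = (a2 : ℝ) := by
      rw [Int.cast_natCast, abs_of_nonneg (Nat.cast_nonneg _)]
    have h5 : |(((a1 : ℕ) : ℤ) : ℝ)| = (a1 : ℝ) := by
      rw [Int.cast_natCast, abs_of_nonneg (Nat.cast_nonneg _)]
    rw [h4, h5]
    exact_mod_cast h3

theorem half_le {lam h₁ X Y : ℝ} (b1 : 2 * lam ≤ X * h₁) (h : X ≤ 2 * Y) (hh : 0 ≤ h₁) :
    lam ≤ h₁ * Y := by
  have := mul_le_mul_of_nonneg_right h hh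
  linarith

theorem unique2_aux (κ : ℝ) (K : ℕ) (hκ0 : 0 < κ) (hκ1 : κ ≤ 1) :
    ∃ (Λ : ℝ) (q₀ : ℕ) (δ : ℝ), 0 < Λ ∧ 0 < δ ∧
      ∀ (N q p i A₁ A₂ U₁ V₁ U₂ V₂ : ℕ) (s : ℤ), 2 ≤ N → q₀ ≤ q →
        1 + Real.log q ≤ δ * Real.log N → p.Prime → ¬ p ∣ q → (N : ℝ) ^ κ < p → Nat.Coprime q i → i < q →
        (s = 1 ∨ s = -1) → A₁ ≤ N ^ K → A₂ ≤ N ^ K → A₁ ≠ A₂ → (p : ℤ) ∣ (A₂ : ℤ) - A₁ →
        SolA κ q p i s A₁ U₁ V₁ → SolA κ q p i s A₂ U₂ V₂ →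
        Λ * Real.log N ≤ Real.log (hh q i A₁ U₁ V₁) →
        Real.log (hh q i A₁ U₁ V₁) ≤ Real.log (hh q i A₂ U₂ V₂) →
        (p : ℤ) ∣ (U₂ : ℤ) * V₁ - V₂ * U₁ → False := by
  obtain ⟨S, hS1, hSκ⟩ : ∃ S : ℕ, 1 ≤ S ∧ 16 * ((K : ℝ) + 1) ≤ κ * S := by
    refine ⟨⌈16 * ((K : ℝ) + 1) / κ⌉₊ + 1, by omega, ?_⟩
    have h1 := Nat.le_ceil (16 * ((K : ℝ) + 1) / κ)
    rw [div_le_iff₀ hκ0] at h1
    push_cast
    nlinarith
  have hSR : (1 : ℝ) ≤ S := by exact_mod_cast hS1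
  have hS0 : (0 : ℝ) < S := by linarith
  obtain ⟨ω, hω, HZ⟩ := zero_est (1 / (8 * S)) (by positivity)
  obtain ⟨m, hm⟩ : ∃ m, m + 1 = 2 * S ^ 2 := by
    have : 1 ≤ S ^ 2 := Nat.one_le_pow _ _ hS1
    exact ⟨2 * S ^ 2 - 1, by omega⟩
  have hmR : (m : ℝ) + 1 = 2 * (S : ℝ) ^ 2 := by exact_mod_cast hm
  obtain ⟨δ, hδ⟩ : ∃ δ, δ = min (κ / (1440 * (S : ℝ) ^ 2)) (min (ω * κ / (75 * (S : ℝ) ^ 5))
    (2 * ω * κ / (5 * S))) := ⟨_, rfl⟩
  have hδ0 : 0 < δ := by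
    rw [hδ]
    exact lt_min (by positivity) (lt_min (by positivity) (by positivity))
  have hδ1 : δ ≤ κ / (1440 * (S : ℝ) ^ 2) := by rw [hδ]; exact min_le_left _ _
  have hδ2 : δ ≤ ω * κ / (75 * (S : ℝ) ^ 5) := by
    rw [hδ]; exact (min_le_right _ _).trans (min_le_left _ _)
  have hδ3 : δ ≤ 2 * ω * κ / (5 * S) := by
    rw [hδ]; exact (min_le_right _ _).trans (min_le_right _ _)
  obtain ⟨Λ, hΛ⟩ : ∃ Λ, Λ = 2 + 4 * (S : ℝ) ^ 2 + 2 * S / ω := ⟨_, rfl⟩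
  have hΛω0 : 0 < 2 * S / ω := by positivity
  have hΛ1 : 2 ≤ Λ := by rw [hΛ]; nlinarith
  have hΛ2 : 4 * (S : ℝ) ^ 2 ≤ Λ := by rw [hΛ]; linarith
  have hΛ3 : 2 * S / ω ≤ Λ := by rw [hΛ]; nlinarith
  refine ⟨Λ, ⌈16 * (S : ℝ) ^ 2 / κ⌉₊ + m + 1, δ, by linarith, hδ0, ?_⟩
  intro N q p i A₁ A₂ U₁ V₁ U₂ V₂ s hN hqq hlq hp hpq hNp hi0 hiq hs hA1 hA2 hne hpA S1 S2 hΛL h12
    hroot
  have hmq : m < q := by omega
  have hqpos : 0 < q := by omega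
  have hqR : (0 : ℝ) < q := by exact_mod_cast hqpos
  have hqS : 16 * (S : ℝ) ^ 2 ≤ κ * q := by
    have h1 := Nat.le_ceil (16 * (S : ℝ) ^ 2 / κ)
    have h2' : ⌈16 * (S : ℝ) ^ 2 / κ⌉₊ ≤ q := by omega
    have h2 : ((⌈16 * (S : ℝ) ^ 2 / κ⌉₊ : ℕ) : ℝ) ≤ q := Nat.cast_le.mpr h2'
    rw [div_le_iff₀ hκ0] at h1
    have h3 := mul_le_mul_of_nonneg_right h2 hκ0.le
    linarith
  have hlogq : 0 ≤ Real.log q := Real.log_nonneg (by exact_mod_cast hqpos)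
  obtain ⟨L, hL⟩ : ∃ L, L = Real.log N := ⟨_, rfl⟩
  have hNR : (1 : ℝ) < N := by exact_mod_cast (by omega : 1 < N)
  have hN0 : (0 : ℝ) < N := by linarith
  have hL0 : 0 < L := by rw [hL]; exact Real.log_pos hNR
  obtain ⟨h₁, hh₁⟩ : ∃ h₁, h₁ = Real.log (hh q i A₁ U₁ V₁) := ⟨_, rfl⟩
  obtain ⟨lam, hlam⟩ : ∃ lam, lam = Real.log (hh q i A₂ U₂ V₂) := ⟨_, rfl⟩
  obtain ⟨P, hP⟩ : ∃ P, P = Real.log p := ⟨_, rfl⟩
  have hpR : (0 : ℝ) < p := by exact_mod_cast hp.pos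
  have hPκ : κ * L ≤ P := by
    rw [hL, hP, ← Real.log_rpow hN0]
    exact Real.log_le_log (Real.rpow_pos_of_pos hN0 _) hNp.le
  have hP0 : 0 < P := lt_of_lt_of_le (by positivity) hPκ
  rw [← hL, ← hh₁] at hΛL
  rw [← hh₁, ← hlam] at h12
  rw [← hL] at hlq
  have hh0 : 0 < h₁ := lt_of_lt_of_le (by positivity) hΛL
  have hlam0 : 0 < lam := lt_of_lt_of_le hh0 h12
  -- the parameters
  obtain ⟨k1, hk1⟩ : ∃ k1, k1 + 1 = ⌈2 * lam / (S * h₁)⌉₊ :=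
    ⟨⌈2 * lam / (S * h₁)⌉₊ - 1, Nat.sub_add_cancel (Nat.ceil_pos.mpr (by positivity))⟩
  obtain ⟨k2, hk2⟩ : ∃ k2, k2 + 1 = ⌈2 / S * (lam / L + 1)⌉₊ :=
    ⟨⌈2 / S * (lam / L + 1)⌉₊ - 1, Nat.sub_add_cancel (Nat.ceil_pos.mpr (by positivity))⟩
  obtain ⟨E, hE⟩ : ∃ E, E = ⌈κ * lam / P⌉₊ := ⟨_, rfl⟩
  have hk1R : (k1 : ℝ) + 1 = (⌈2 * lam / (S * h₁)⌉₊ : ℝ) := by exact_mod_cast hk1
  have hk2R : (k2 : ℝ) + 1 = (⌈2 / S * (lam / L + 1)⌉₊ : ℝ) := by exact_mod_cast hk2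
  have hx1 : 2 * lam / (S * h₁) ≤ (k1 : ℝ) + 1 := by rw [hk1R]; exact Nat.le_ceil _
  have hx1' : (k1 : ℝ) + 1 ≤ 2 * lam / (S * h₁) + 1 := by
    rw [hk1R]; exact (Nat.ceil_lt_add_one (by positivity)).le
  have hx2 : 2 / S * (lam / L + 1) ≤ (k2 : ℝ) + 1 := by rw [hk2R]; exact Nat.le_ceil _
  have hx2' : (k2 : ℝ) + 1 ≤ 2 / S * (lam / L + 1) + 1 := by
    rw [hk2R]; exact (Nat.ceil_lt_add_one (by positivity)).le
  obtain ⟨b1, b2, b3, b4, b5, b6, b7, b8, b9⟩ := par_basic (κ := κ) (K := K) hS1 hω hL0 hΛ1 hΛ2 hΛ3 hΛL h12 hx1 hx1'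
    hx2 hx2'
  have hkk : k1 ≤ k2 := by
    have : (k1 : ℝ) ≤ k2 := by linarith
    exact_mod_cast this
  have hEle : κ * lam ≤ E * P := by
    rw [hE, ← div_le_iff₀ hP0]; exact Nat.le_ceil _
  -- an integer `n` with `κ lam ≤ n P` is at least `E`
  have hEint : ∀ n : ℕ, κ * lam ≤ n * P → E ≤ n := by
    intro n hn
    rw [hE, Nat.ceil_le, div_le_iff₀ hP0]
    exact hn
  obtain ⟨T, hT⟩ : ∃ T, T = lam / L := ⟨_, rfl⟩
  have hTL : T * L = lam := by rw [hT]; field_simp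
  rw [← hT] at b4 b9
  have hT0 : 0 < T := by rw [hT]; positivity
  -- the forms
  obtain ⟨c, hc0, hcb, hcv⟩ := exists_form (s := S) (q := q) (i := i) (m := m) (k1 := k1) (k2 := k2)
    hS1 hm hqpos hiq.le
  obtain ⟨y1, hy1d, hy1⟩ := S1.good
  obtain ⟨y2, hy2d, hy2⟩ := S2.good
  rw [← hh₁, ← hP] at hy1
  rw [← hlam, ← hP] at hy2
  have hpZ : Prime (p : ℤ) := Nat.prime_iff_prime_int.mp hp
  have nd : ∀ {x : ℕ}, ¬ p ∣ x → ¬ (p : ℤ) ∣ (x : ℤ) := fun h h' => h (by exact_mod_cast h')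
  have hsne : s ≠ 0 := by rcases hs with rfl | rfl <;> norm_num
  have hsabs : s.natAbs = 1 := by rcases hs with rfl | rfl <;> rfl
  obtain ⟨P₁, hP₁⟩ : ∃ P₁ : ℤ, P₁ = s * (A₁ : ℤ) ^ i * (V₁ : ℤ) ^ q := ⟨_, rfl⟩
  obtain ⟨Q₁, hQ₁⟩ : ∃ Q₁ : ℤ, Q₁ = (U₁ : ℤ) ^ q := ⟨_, rfl⟩
  obtain ⟨Pw, hPw⟩ : ∃ Pw : ℤ, Pw = (U₂ : ℤ) * V₁ := ⟨_, rfl⟩
  obtain ⟨Qw, hQw⟩ : ∃ Qw : ℤ, Qw = (V₂ : ℤ) * U₁ := ⟨_, rfl⟩
  rw [← hPw, ← hQw] at hroot
  have hQ1p : ¬ (p : ℤ) ∣ Q₁ := by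
    rw [hQ₁]; exact fun h => nd S1.Up (hpZ.dvd_of_dvd_pow h)
  have hQ2p : ¬ (p : ℤ) ∣ (A₁ : ℤ) := nd S1.Ap
  have hQwp : ¬ (p : ℤ) ∣ Qw := by
    rw [hQw]
    intro h
    rcases hpZ.dvd_or_dvd h with h | h
    · exact nd S2.Vp h
    · exact nd S1.Up h
  obtain ⟨t, ht, ht1⟩ := root_t (q := q) hp hpq E hpA hQ2p
  have hEy2 : E ≤ y2 := hEint y2 hy2
  have hmain : (p : ℤ) ^ E ∣ Pw ^ q * (Q₁ * (A₁ : ℤ) ^ i) - Qw ^ q * (P₁ * (A₂ : ℤ) ^ i) := by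
    have e1 : Pw ^ q * (Q₁ * (A₁ : ℤ) ^ i) - Qw ^ q * (P₁ * (A₂ : ℤ) ^ i) =
        ((V₁ : ℤ) ^ q * (U₁ : ℤ) ^ q * (A₁ : ℤ) ^ i) *
          ((U₂ : ℤ) ^ q - s * (A₂ : ℤ) ^ i * (V₂ : ℤ) ^ q) := by
      rw [hPw, hQw, hP₁, hQ₁]; ring
    rw [e1]
    exact Dvd.dvd.mul_left ((pow_dvd_pow _ hEy2).trans hy2d) _
  have hPQ : (p : ℤ) ^ y1 ∣ P₁ - Q₁ := by
    rw [hP₁, hQ₁, ← neg_sub]
    exact (dvd_neg).mpr hy1d
  obtain ⟨u, hu1, hu2, hu3⟩ := root_u hp hpq E y1 hQ1p hQ2p hQwp ht ht1 hroot hPQ hmain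
  -- all values vanish
  have hht1 : P₁.natAbs ≤ hh q i A₁ U₁ V₁ ∧ Q₁.natAbs ≤ hh q i A₁ U₁ V₁ := by
    constructor
    · rw [hP₁, Int.natAbs_mul, Int.natAbs_mul, hsabs, one_mul, Int.natAbs_pow, Int.natAbs_pow,
        Int.natAbs_natCast, Int.natAbs_natCast]
      exact le_max_right _ _
    · rw [hQ₁, Int.natAbs_pow, Int.natAbs_natCast]
      exact le_max_left _ _
  have hroot_le : ∀ {A U V : ℕ}, 0 < A → 0 < U → 0 < V →
      Real.log U ≤ Real.log (hh q i A U V) / q ∧ Real.log V ≤ Real.log (hh q i A U V) / q := by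
    intro A U V hA hU hV
    have hUR : (0 : ℝ) < U := by exact_mod_cast hU
    have hVR : (0 : ℝ) < V := by exact_mod_cast hV
    rw [le_div_iff₀ hqR, le_div_iff₀ hqR]
    constructor
    · have h1 : Real.log ((U : ℝ) ^ q) ≤ Real.log (hh q i A U V) := by
        apply Real.log_le_log (by positivity)
        exact_mod_cast (le_max_left (U ^ q) (A ^ i * V ^ q))
      rw [Real.log_pow] at h1
      linarith
    · have h1 : Real.log ((V : ℝ) ^ q) ≤ Real.log (hh q i A U V) := by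
        apply Real.log_le_log (by positivity)
        have h2 : V ^ q ≤ hh q i A U V :=
          (Nat.le_mul_of_pos_left _ (Nat.pow_pos hA)).trans (le_max_right _ _)
        exact_mod_cast h2
      rw [Real.log_pow] at h1
      linarith
  obtain ⟨hw, hhw⟩ : ∃ hw, hw = max (U₂ * V₁) (V₂ * U₁) := ⟨_, rfl⟩
  have hwpos : 0 < hw := by
    rw [hhw]; exact lt_of_lt_of_le (Nat.mul_pos S2.U0 S1.V0) (le_max_left _ _)
  have hwlog : Real.log hw ≤ 2 * lam / q := by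
    obtain ⟨f1, f2⟩ := hroot_le S1.A0 S1.U0 S1.V0
    obtain ⟨f3, f4⟩ := hroot_le S2.A0 S2.U0 S2.V0
    rw [← hh₁] at f1 f2
    rw [← hlam] at f3 f4
    have hU1 : (0 : ℝ) < U₁ := by exact_mod_cast S1.U0
    have hV1 : (0 : ℝ) < V₁ := by exact_mod_cast S1.V0
    have hU2 : (0 : ℝ) < U₂ := by exact_mod_cast S2.U0
    have hV2 : (0 : ℝ) < V₂ := by exact_mod_cast S2.V0
    have f5 : h₁ / q ≤ lam / q := div_le_div_of_nonneg_right h12 hqR.le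
    have f6 : 2 * lam / q = lam / q + lam / q := by ring
    rcases le_total (U₂ * V₁) (V₂ * U₁) with h | h
    · rw [hhw, max_eq_right h]
      push_cast
      rw [Real.log_mul hV2.ne' hU1.ne']
      linarith
    · rw [hhw, max_eq_left h]
      push_cast
      rw [Real.log_mul hU2.ne' hV1.ne']
      linarith
  obtain ⟨αz, hαz⟩ : ∃ αz, αz = S * (k1 + 1) / 2 + 1 := ⟨_, rfl⟩
  obtain ⟨βz, hβz⟩ : ∃ βz, βz = S * (k2 + 1) / 2 + 1 := ⟨_, rfl⟩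
  have hvanish : ∀ a < αz, ∀ b < βz, Xv q i m k1 k2 c P₁ Q₁ A₂ A₁ Pw Qw a b = 0 := by
    intro a ha b hb
    have ha2 : 2 * a ≤ S * (k1 + 1) := by omega
    have hb2 : 2 * b ≤ S * (k2 + 1) := by omega
    have ha3 : S * (k1 + 1) ≤ 2 * (S * (k1 + 1) - a) := by omega
    have hb3 : S * (k2 + 1) ≤ 2 * (S * (k2 + 1) - b) := by omega
    have ha4 : (S : ℝ) * (k1 + 1) ≤ 2 * ((S * (k1 + 1) - a : ℕ) : ℝ) := by exact_mod_cast ha3
    have hb4 : (S : ℝ) * (k2 + 1) ≤ 2 * ((S * (k2 + 1) - b : ℕ) : ℝ) := by exact_mod_cast hb3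
    have hapos : 0 < S * (k1 + 1) - a := by
      have : 0 < S * (k1 + 1) := by positivity
      omega
    -- divisibility
    have hdvd := ev_dvd (P1 := P₁) (Q1 := Q₁) (P2 := (A₂ : ℤ)) (Q2 := (A₁ : ℤ)) (Pw := Pw) (Qw := Qw)
      hcv (p ^ E) u t a b (by push_cast; exact hu1) (by push_cast; exact ht)
      (by push_cast; exact hu2)
      (by
        push_cast
        have e1 : (p : ℤ) ^ (min y1 E * (S * (k1 + 1) - a)) ∣ (u - 1) ^ (S * (k1 + 1) - a) := by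
          rw [pow_mul]; exact pow_dvd_pow_of_dvd hu3 _
        refine (pow_dvd_pow _ ?_).trans e1
        rcases le_total y1 E with h | h
        · rw [min_eq_left h]
          apply hEint
          push_cast
          have g1 : κ * lam ≤ κ * h₁ * ((S * (k1 + 1) - a : ℕ) : ℝ) := by
            have g2 : lam ≤ h₁ * ((S * (k1 + 1) - a : ℕ) : ℝ) :=
              half_le b1 ha4 hh0.le
            calc κ * lam ≤ κ * (h₁ * ((S * (k1 + 1) - a : ℕ) : ℝ)) :=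
                  mul_le_mul_of_nonneg_left g2 hκ0.le
              _ = _ := by ring
          calc κ * lam ≤ κ * h₁ * ((S * (k1 + 1) - a : ℕ) : ℝ) := g1
            _ ≤ (y1 * P) * ((S * (k1 + 1) - a : ℕ) : ℝ) :=
                mul_le_mul_of_nonneg_right hy1 (Nat.cast_nonneg _)
            _ = _ := by ring
        · rw [min_eq_right h]
          exact Nat.le_mul_of_pos_right _ hapos)
      (by
        push_cast
        have e1 : (p : ℤ) ^ (S * (k2 + 1) - b) ∣ (t - 1) ^ (S * (k2 + 1) - b) :=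
          pow_dvd_pow_of_dvd ht1 _
        refine (pow_dvd_pow _ ?_).trans e1
        apply hEint
        have g1 : T ≤ ((S * (k2 + 1) - b : ℕ) : ℝ) := by linarith
        calc κ * lam = T * (κ * L) := by rw [← hTL]; ring
          _ ≤ T * P := mul_le_mul_of_nonneg_left hPκ hT0.le
          _ ≤ _ := mul_le_mul_of_nonneg_right g1 hP0.le)
    -- size
    have hbd := ev_bound (s := S) (k1 := k1) (k2 := k2) (a := a) (b := b) (Pw := Pw) (Qw := Qw)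
      (P2 := (A₂ : ℤ)) (Q2 := (A₁ : ℤ)) hcb hqpos hiq.le hht1.1 hht1.2
      (show (A₂ : ℤ).natAbs ≤ N ^ K by rw [Int.natAbs_natCast]; exact hA2)
      (show (A₁ : ℤ).natAbs ≤ N ^ K by rw [Int.natAbs_natCast]; exact hA1)
      (show Pw.natAbs ≤ hw by
        rw [hPw, hhw, Int.natAbs_mul, Int.natAbs_natCast, Int.natAbs_natCast]; exact le_max_left _ _)
      (show Qw.natAbs ≤ hw by
        rw [hQw, hhw, Int.natAbs_mul, Int.natAbs_natCast, Int.natAbs_natCast]; exact le_max_right _ _)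
      (show a ≤ S * (k1 + 1) by omega) (show b ≤ S * (k2 + 1) by omega)
    obtain ⟨B1, hB1⟩ : ∃ B1, B1 = (m + 1) * ((k1 + 1) * (k2 + 1)) * (Cb S q m k1 k2 *
      (q ^ (S * (k1 + 1) + S * (k2 + 1)) * 3 ^ (k1 + k2 + 2 * m))) := ⟨_, rfl⟩
    have hB1pos : 0 < B1 := by
      have : 0 < Cb S q m k1 k2 := by unfold Cb; positivity
      rw [hB1]; positivity
    have hB1log : Real.log B1 ≤ 36 * (S : ℝ) ^ 2 * (k2 + 1) * (1 + Real.log q) := by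
      rw [hB1]; exact log_all hS1 hm hqpos hkk
    have hhpos : 0 < hh q i A₁ U₁ V₁ := lt_of_lt_of_le (Nat.pow_pos S1.U0) (le_max_left _ _)
    have hNK : 0 < N ^ K := by positivity
    have hbd' : (Xv q i m k1 k2 c P₁ Q₁ A₂ A₁ Pw Qw a b).natAbs ≤
        B1 * ((hh q i A₁ U₁ V₁) ^ k1 * (N ^ K) ^ k2 * hw ^ m) := by
      rw [hB1]
      calc _ ≤ _ := hbd
        _ = _ := by ring
    by_contra hX
    have hle : p ^ E ≤ (Xv q i m k1 k2 c P₁ Q₁ A₂ A₁ Pw Qw a b).natAbs := by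
      have := Int.natAbs_dvd_natAbs.mpr hdvd
      rw [Int.natAbs_natCast] at this
      exact Nat.le_of_dvd (Int.natAbs_pos.mpr hX) this
    have hle2 := hle.trans hbd'
    have hlog : (E : ℝ) * P ≤ Real.log B1 + (k1 * h₁ + k2 * (K * L) + m * Real.log hw) := by
      have h1 : Real.log (((p ^ E : ℕ) : ℝ)) ≤
          Real.log ((B1 * ((hh q i A₁ U₁ V₁) ^ k1 * (N ^ K) ^ k2 * hw ^ m) : ℕ) : ℝ) := by
        apply Real.log_le_log
        · exact_mod_cast Nat.pow_pos hp.pos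
        · exact_mod_cast hle2
      have hB1R : (0 : ℝ) < B1 := by exact_mod_cast hB1pos
      have hhR : (0 : ℝ) < (hh q i A₁ U₁ V₁ : ℝ) := by exact_mod_cast hhpos
      have hwR : (0 : ℝ) < hw := by exact_mod_cast hwpos
      push_cast at h1
      rw [Real.log_pow, Real.log_mul hB1R.ne' (by positivity), Real.log_mul (by positivity)
        (by positivity), Real.log_mul (by positivity) (by positivity), Real.log_pow, Real.log_pow,
        Real.log_pow, Real.log_pow, ← hP, ← hh₁, ← hL] at h1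
      exact h1
    -- the contradiction
    have g1 : 36 * (S : ℝ) ^ 2 * (k2 + 1) * (1 + Real.log q) ≤ κ * lam / 8 := by
      calc 36 * (S : ℝ) ^ 2 * (k2 + 1) * (1 + Real.log q)
          ≤ 36 * (S : ℝ) ^ 2 * (5 * T) * (δ * L) := by gcongr
        _ = 180 * (S : ℝ) ^ 2 * δ * lam := by rw [← hTL]; ring
        _ ≤ 180 * (S : ℝ) ^ 2 * (κ / (1440 * (S : ℝ) ^ 2)) * lam := by gcongr
        _ = κ * lam / 8 := by field_simp; ring
    have g2 : (k1 : ℝ) * h₁ ≤ 2 * lam / S := by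
      have : (k1 : ℝ) + 1 - 1 = k1 := by ring
      rwa [this] at b2
    have g3 : (k2 : ℝ) * (K * L) ≤ K * (4 * lam / S) := by
      have : (k2 : ℝ) + 1 - 1 = k2 := by ring
      rw [this] at b3
      calc (k2 : ℝ) * (K * L) = K * (k2 * L) := by ring
        _ ≤ K * (4 * lam / S) := mul_le_mul_of_nonneg_left b3 (Nat.cast_nonneg _)
    have g4 : (m : ℝ) * Real.log hw ≤ κ * lam / 4 := by
      have hm2 : (m : ℝ) ≤ 2 * (S : ℝ) ^ 2 := by linarith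
      calc (m : ℝ) * Real.log hw ≤ m * (2 * lam / q) :=
            mul_le_mul_of_nonneg_left hwlog (Nat.cast_nonneg _)
        _ ≤ (2 * (S : ℝ) ^ 2) * (2 * lam / q) := mul_le_mul_of_nonneg_right hm2 (by positivity)
        _ ≤ κ * lam / 4 := by
            rw [mul_div_assoc', div_le_div_iff₀ hqR (by norm_num)]
            have := mul_le_mul_of_nonneg_right hqS hlam0.le
            linarith
    have g5 : 2 * lam / S + K * (4 * lam / S) ≤ κ * lam / 4 := by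
      have : 2 * lam / S + K * (4 * lam / S) = (2 + 4 * K) * lam / S := by ring
      rw [this, div_le_div_iff₀ hS0 (by norm_num)]
      have h7 := mul_le_mul_of_nonneg_right hSκ hlam0.le
      have h8 : 0 ≤ (K : ℝ) * lam := mul_nonneg (Nat.cast_nonneg _) hlam0.le
      linarith
    have g6 : 0 < κ * lam := by positivity
    linarith
  -- the zero estimate
  obtain ⟨p2, q2, hpq2, hp20, hq20, hpqe, hpqlog⟩ := ratio_height hp S1.A0 S2.A0 hne S1.Ap hpA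
  have hcop1 : IsCoprime P₁ Q₁ := by
    have h1 : IsCoprime ((A₁ : ℤ) * V₁) (U₁ : ℤ) := by
      have := Nat.isCoprime_iff_coprime.mpr S1.cop.symm
      push_cast at this
      exact this
    have h2 : IsCoprime (A₁ : ℤ) (U₁ : ℤ) := h1.of_mul_left_left
    have h3 : IsCoprime (V₁ : ℤ) (U₁ : ℤ) := h1.of_mul_left_right
    have h4 : IsCoprime s (U₁ : ℤ) := by
      rcases hs with rfl | rfl
      · exact isCoprime_one_left
      · exact isCoprime_one_left.neg_left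
    rw [hP₁, hQ₁]
    exact ((h4.pow_right).mul_left ((h2.pow_left).pow_right)).mul_left ((h3.pow_left).pow_right)
  have hP1ne : P₁ ≠ 0 := by
    rw [hP₁]
    have h1 : (A₁ : ℤ) ≠ 0 := by exact_mod_cast S1.A0.ne'
    have h2 : (V₁ : ℤ) ≠ 0 := by exact_mod_cast S1.V0.ne'
    exact mul_ne_zero (mul_ne_zero hsne (pow_ne_zero _ h1)) (pow_ne_zero _ h2)
  have hQ1ne : Q₁ ≠ 0 := by
    rw [hQ₁]
    have h1 : (U₁ : ℤ) ≠ 0 := by exact_mod_cast S1.U0.ne'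
    exact pow_ne_zero _ h1
  have hPwne : Pw ≠ 0 := by
    rw [hPw]
    have h1 : (U₂ : ℤ) ≠ 0 := by exact_mod_cast S2.U0.ne'
    have h2 : (V₁ : ℤ) ≠ 0 := by exact_mod_cast S1.V0.ne'
    exact mul_ne_zero h1 h2
  have hQwne : Qw ≠ 0 := by
    rw [hQw]
    have h1 : (U₁ : ℤ) ≠ 0 := by exact_mod_cast S1.U0.ne'
    have h2 : (V₂ : ℤ) ≠ 0 := by exact_mod_cast S2.V0.ne'
    exact mul_ne_zero h2 h1
  have hA1ne : (A₁ : ℤ) ≠ 0 := by exact_mod_cast S1.A0.ne'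
  have hmax : Real.log (max |(P₁ : ℝ)| |(Q₁ : ℝ)|) = h₁ := by
    rw [hh₁]
    congr 1
    have e1 : |(P₁ : ℝ)| = ((A₁ ^ i * V₁ ^ q : ℕ) : ℝ) := by
      rw [← Int.cast_abs, Int.abs_eq_natAbs, hP₁, Int.natAbs_mul, Int.natAbs_mul, hsabs, one_mul,
        Int.natAbs_pow, Int.natAbs_pow, Int.natAbs_natCast, Int.natAbs_natCast, Int.cast_natCast]
    have e2 : |(Q₁ : ℝ)| = ((U₁ ^ q : ℕ) : ℝ) := by
      rw [← Int.cast_abs, Int.abs_eq_natAbs, hQ₁, Int.natAbs_pow, Int.natAbs_natCast,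
        Int.cast_natCast]
    rw [e1, e2, hh, Nat.cast_max, max_comm]
  have hRpos : 0 < 4 * S * κ * lam := by positivity
  have hCb1 : 1 ≤ Cb S q m k1 k2 := by
    have : 0 < Cb S q m k1 k2 := by unfold Cb; positivity
    exact this
  have hS2 : 1 ≤ S ^ 2 := Nat.one_le_pow _ _ hS1
  refine HZ q i m k1 k2 αz βz (Cb S q m k1 k2) c P₁ Q₁ p2 q2 ((Pw : ℚ) / Qw) (4 * S * κ * lam) hqpos hi0
    hiq hmq hCb1 (by omega) hc0 hcb ?_ hcop1 hpq2 hQ1ne hq20 hP1ne hp20 b6 ?_ ?_ ?_ ?_ ?_ ?_ ?_ ?_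
  · exact div_ne_zero (by exact_mod_cast hPwne) (by exact_mod_cast hQwne)
  · -- `(m + 1) (k1 + 1) ≤ ω R`
    rw [hmR]
    have h1 : 10 * (S : ℝ) ^ 2 * T ≤ ω * (4 * S * κ * lam) := by
      have h2 : 5 * S * 1 ≤ 2 * ω * κ * L := by
        have h3 : 1 ≤ δ * L := by linarith
        have h4 : δ * (5 * S) ≤ 2 * ω * κ := by
          rwa [le_div_iff₀ (by positivity)] at hδ3
        calc 5 * (S : ℝ) * 1 ≤ 5 * S * (δ * L) := by gcongr
          _ = (δ * (5 * S)) * L := by ring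
          _ ≤ 2 * ω * κ * L := mul_le_mul_of_nonneg_right h4 hL0.le
      calc 10 * (S : ℝ) ^ 2 * T = (5 * S * 1) * (2 * S * T) := by ring
        _ ≤ (2 * ω * κ * L) * (2 * S * T) := mul_le_mul_of_nonneg_right h2 (by positivity)
        _ = ω * (4 * S * κ * (T * L)) := by ring
        _ = _ := by rw [hTL]
    calc 2 * (S : ℝ) ^ 2 * (k1 + 1) ≤ 2 * (S : ℝ) ^ 2 * (5 * T) := by
          apply mul_le_mul_of_nonneg_left _ (by positivity)
          linarith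
      _ = 10 * (S : ℝ) ^ 2 * T := by ring
      _ ≤ _ := h1
  · rw [hmR]
    have h1 : 10 * (S : ℝ) ^ 2 * T ≤ ω * (4 * S * κ * lam) := by
      have h2 : 5 * S * 1 ≤ 2 * ω * κ * L := by
        have h3 : 1 ≤ δ * L := by linarith
        have h4 : δ * (5 * S) ≤ 2 * ω * κ := by
          rwa [le_div_iff₀ (by positivity)] at hδ3
        calc 5 * (S : ℝ) * 1 ≤ 5 * S * (δ * L) := by gcongr
          _ = (δ * (5 * S)) * L := by ring
          _ ≤ 2 * ω * κ * L := mul_le_mul_of_nonneg_right h4 hL0.le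
      calc 10 * (S : ℝ) ^ 2 * T = (5 * S * 1) * (2 * S * T) := by ring
        _ ≤ (2 * ω * κ * L) * (2 * S * T) := mul_le_mul_of_nonneg_right h2 (by positivity)
        _ = ω * (4 * S * κ * (T * L)) := by ring
        _ = _ := by rw [hTL]
    calc 2 * (S : ℝ) ^ 2 * (k2 + 1) ≤ 2 * (S : ℝ) ^ 2 * (5 * T) := by
          apply mul_le_mul_of_nonneg_left b4 (by positivity)
      _ = 10 * (S : ℝ) ^ 2 * T := by ring
      _ ≤ _ := h1
  · -- `R ≤ (m + 1) (k1 + 1) h₁`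
    rw [hmax, hmR]
    calc 4 * S * κ * lam ≤ 4 * S * 1 * lam := by gcongr
      _ = 2 * S * (2 * lam) := by ring
      _ ≤ 2 * S * (S * (k1 + 1) * h₁) := mul_le_mul_of_nonneg_left b1 (by positivity)
      _ = _ := by ring
  · rw [hmR]
    have h1 : T ≤ S * (k2 + 1) / 2 := by linarith
    calc 4 * S * κ * lam = 4 * S * T * (κ * L) := by rw [← hTL]; ring
      _ ≤ 4 * S * (S * (k2 + 1) / 2) * (κ * L) := by gcongr
      _ = 2 * (S : ℝ) ^ 2 * (k2 + 1) * (κ * L) := by ring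
      _ ≤ 2 * (S : ℝ) ^ 2 * (k2 + 1) * Real.log (max |(p2 : ℝ)| |(q2 : ℝ)|) := by
          apply mul_le_mul_of_nonneg_left _ (by positivity)
          rw [← hP] at hpqlog
          linarith
  · -- the coefficients
    have hHpos : 0 < (m + 1).factorial * ((k2 + 1) * ((k1 + 1) * (Cb S q m k1 k2 *
        (q * (k2 + m)) ^ m))) ^ (m + 1) := by
      have h0 : 0 < k2 + m := by omega
      have := (m + 1).factorial_pos
      positivity
    rw [← Real.log_le_iff_le_exp (by exact_mod_cast hHpos)]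
    refine (log_Hb hS1 hm hqpos hkk).trans ?_
    calc 60 * (S : ℝ) ^ 6 * (k2 + 1) * (1 + Real.log q) ≤ 60 * (S : ℝ) ^ 6 * (5 * T) * (δ * L) := by
          gcongr
      _ = 300 * (S : ℝ) ^ 6 * δ * lam := by rw [← hTL]; ring
      _ ≤ 300 * (S : ℝ) ^ 6 * (ω * κ / (75 * (S : ℝ) ^ 5)) * lam := by gcongr
      _ = ω * (4 * S * κ * lam) := by field_simp; ring
  · -- index in the first variable
    rw [hmR, hαz]
    have h1 : (S : ℝ) * (k1 + 1) ≤ 2 * ((S * (k1 + 1) / 2 + 1 : ℕ) : ℝ) := by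
      have : S * (k1 + 1) ≤ 2 * (S * (k1 + 1) / 2 + 1) := by omega
      exact_mod_cast this
    have h2 : 1 / (8 * (S : ℝ)) * (2 * (S : ℝ) ^ 2 * (k1 + 1)) = S * (k1 + 1) / 4 := by
      field_simp; ring
    rw [h2]
    have h3 : 0 ≤ (S : ℝ) * (k1 + 1) := by positivity
    linarith
  · rw [hmR, hβz]
    have h1 : (S : ℝ) * (k2 + 1) ≤ 2 * ((S * (k2 + 1) / 2 + 1 : ℕ) : ℝ) := by
      have : S * (k2 + 1) ≤ 2 * (S * (k2 + 1) / 2 + 1) := by omega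
      exact_mod_cast this
    have h2 : 1 / (8 * (S : ℝ)) * (2 * (S : ℝ) ^ 2 * (k2 + 1)) = S * (k2 + 1) / 4 := by
      field_simp; ring
    rw [h2]
    have h3 : 8 * (S : ℝ) ^ 2 ≤ S * (k2 + 1) := by
      have := mul_le_mul_of_nonneg_left b8 hS0.le
      calc 8 * (S : ℝ) ^ 2 = S * (8 * S) := by ring
        _ ≤ _ := this
    linarith
  · -- all derived forms vanish
    intro a ha b hb
    have h1 := ev_zero (hvanish a ha b hb) hQ1ne hA1ne hQwne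
    rw [← h1]
    apply sum_congr rfl
    intro x _
    rw [hpqe]
    simp only [Int.cast_natCast]

end Pool.Agent.TH888.B2
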