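import Mathlib
import Pool.Agent.TH888.B2.Uniq
import Pool.Agent.H374R2.W.Glue
import Pool.Agent.H374R2.V.Final

/-!
The number of `B` for given data, `p`-adic kind, with a free second base `A ≤ N ^ K` in a residue
class modulo `p`.
-/

set_option autoImplicit false

namespace Pool.Agent.TH888.B2

open Finset
open Pool.Agent.H374R2 (Fc.roots_le)
open Pool.Agent.H374R2.W (SolP ht unique_p)
open Pool.Agent.H374R2.V (HH)
open Pool.Agent.H374R2.V.CV (Dat natAbs_T)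
open Pool.Agent.H374R2.T (eq_of_pow_eq)

/-- the symmetric version -/
theorem unique2 (κ : ℝ) (K : ℕ) (hκ0 : 0 < κ) (hκ1 : κ ≤ 1) :
    ∃ (Λ : ℝ) (q₀ : ℕ) (δ : ℝ), 0 < Λ ∧ 0 < δ ∧
      ∀ (N q p i A₁ A₂ U₁ V₁ U₂ V₂ : ℕ) (s : ℤ), 2 ≤ N → q₀ ≤ q →
        1 + Real.log q ≤ δ * Real.log N → p.Prime → ¬ p ∣ q → (N : ℝ) ^ κ < p → Nat.Coprime q i → i < q →
        (s = 1 ∨ s = -1) → A₁ ≤ N ^ K → A₂ ≤ N ^ K → (p : ℤ) ∣ (A₂ : ℤ) - A₁ →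
        SolA κ q p i s A₁ U₁ V₁ → SolA κ q p i s A₂ U₂ V₂ →
        Λ * Real.log N ≤ Real.log (hh q i A₁ U₁ V₁) →
        Λ * Real.log N ≤ Real.log (hh q i A₂ U₂ V₂) →
        (p : ℤ) ∣ (U₂ : ℤ) * V₁ - V₂ * U₁ → A₁ = A₂ := by
  obtain ⟨Λ, q₀, δ, hΛ, hδ, H⟩ := unique2_aux κ K hκ0 hκ1
  refine ⟨Λ, q₀, δ, hΛ, hδ, ?_⟩
  intro N q p i A₁ A₂ U₁ V₁ U₂ V₂ s hN hqq hlq hp hpq hNp hi hiq hs hA1 hA2 hpA S1 S2 h1 h2 hr
  by_contra hne
  rcases le_total (Real.log (hh q i A₁ U₁ V₁)) (Real.log (hh q i A₂ U₂ V₂)) with h | h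
  · exact H N q p i A₁ A₂ U₁ V₁ U₂ V₂ s hN hqq hlq hp hpq hNp hi hiq hs hA1 hA2 hne hpA S1 S2 h1 h hr
  · refine H N q p i A₂ A₁ U₂ V₂ U₁ V₁ s hN hqq hlq hp hpq hNp hi hiq hs hA2 hA1 (Ne.symm hne) ?_
      S2 S1 h2 h ?_
    · rw [← dvd_neg, neg_sub]; exact hpA
    · have e : (U₁ : ℤ) * V₂ - V₁ * U₂ = -((U₂ : ℤ) * V₁ - V₂ * U₁) := by ring
      rw [e]
      exact (dvd_neg).mpr hr

/-- the data of one solution -/
structure DatQ (κ Λ : ℝ) (N K q i p : ℕ) (s σ : ℤ) (A B x' y U : ℕ) : Prop where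
  dat : Dat N q i p A B s σ x' y U
  A0 : 0 < A
  AK : A ≤ N ^ K
  good : κ * Real.log (ht q A U (q * x' + i)) ≤ y * Real.log p
  big : Λ * Real.log N ≤ Real.log (ht q A U (q * x' + i))

theorem hh_eq (q i A U x' : ℕ) : hh q i A U (A ^ x') = ht q A U (q * x' + i) := by
  unfold hh ht
  rw [← pow_mul, ← pow_add]
  congr 2
  ring

theorem DatQ.solA {κ Λ : ℝ} {N K q i p : ℕ} {s σ : ℤ} {A B x' y U : ℕ}
    (h : DatQ κ Λ N K q i p s σ A B x' y U) (hs : s = 1 ∨ s = -1) (hσ : σ = 1 ∨ σ = -1)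
    (hq : 0 < q) (hi : 0 < i) (hp : p.Prime) : SolA κ q p i s A U (A ^ x') := by
  have hd := h.dat
  have hpA : ¬ p ∣ A := fun h1 => hp.not_dvd_one (hd.cop ▸ Nat.dvd_gcd h1 hd.dB)
  have hUA : Nat.Coprime U A := by
    apply Nat.coprime_of_dvd
    intro l hl h2 h3
    exact hd.prime_cond hs hσ hq hl h2 (Or.inl (dvd_pow h3 (by omega)))
  refine ⟨h.A0, hd.U0, Nat.pow_pos h.A0, hpA, ?_, fun h1 => hpA (hp.dvd_of_dvd_pow h1), ?_, y, ?_, ?_⟩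
  · intro h1
    exact hd.prime_cond hs hσ hq hp h1 (Or.inr hd.dB)
  · exact hUA.mul_right (hUA.pow_right _)
  · have e : (U : ℤ) ^ q - s * (A : ℤ) ^ i * ((A ^ x' : ℕ) : ℤ) ^ q = σ * (B : ℤ) ^ y := by
      rw [← hd.eq]
      push_cast
      ring
    rw [e]
    exact (pow_dvd_pow_of_dvd (Int.natCast_dvd_natCast.mpr hd.dB) y).mul_left _
  · rw [hh_eq]
    exact h.good

theorem DatQ.solP {κ Λ : ℝ} {N K q i p : ℕ} {s σ : ℤ} {A B x' y U : ℕ}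
    (h : DatQ κ Λ N K q i p s σ A B x' y U) (hs : s = 1 ∨ s = -1) (hσ : σ = 1 ∨ σ = -1)
    (hq : 0 < q) (hp : p.Prime) (hl : 50 * (3 / κ + 1) * Real.log (10 ^ 8 * (q : ℝ) ^ 9) ≤
      Real.log (ht q A U (q * x' + i))) :
    SolP κ q p (s * (A : ℤ) ^ i) U (A ^ x') (σ * (B : ℤ) ^ y) :=
  Pool.Agent.H374R2.W.CP.dat_solP hs hσ hq h.A0 hp h.dat h.good hl

theorem log_ten8 : Real.log (10 ^ 8) ≤ 19 := by
  have h1 : Real.log ((10 : ℝ) ^ 8) ≤ Real.log ((2 : ℝ) ^ 27) :=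
    Real.log_le_log (by positivity) (by norm_num)
  have h2 : Real.log ((2 : ℝ) ^ 27) = 27 * Real.log 2 := by
    rw [Real.log_pow]; norm_num
  have := Real.log_two_lt_d9
  linarith

theorem large_of {κ Λ δ L lq H : ℝ} {q : ℕ} (hκ : 0 < κ) (hq : 0 < q) (hlq : lq = Real.log q)
    (hδ : 50 * (3 / κ + 1) * (19 * δ) ≤ Λ) (hL : 0 ≤ L) (h : 1 + lq ≤ δ * L) (hH : Λ * L ≤ H) :
    50 * (3 / κ + 1) * Real.log (10 ^ 8 * (q : ℝ) ^ 9) ≤ H := by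
  have hqR : (0 : ℝ) < q := by exact_mod_cast hq
  have hlq0 : 0 ≤ lq := by rw [hlq]; exact Real.log_nonneg (by exact_mod_cast hq)
  have e1 : Real.log (10 ^ 8 * (q : ℝ) ^ 9) ≤ 19 * (1 + lq) := by
    have e2 : Real.log ((q : ℝ) ^ 9) = 9 * lq := by rw [Real.log_pow, hlq]; norm_num
    rw [Real.log_mul (by norm_num) (by positivity), e2]
    have := log_ten8
    linarith
  have hG : 0 < 50 * (3 / κ + 1) := by positivity
  calc 50 * (3 / κ + 1) * Real.log (10 ^ 8 * (q : ℝ) ^ 9) ≤ 50 * (3 / κ + 1) * (19 * (1 + lq)) := by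
        gcongr
    _ ≤ 50 * (3 / κ + 1) * (19 * (δ * L)) := by gcongr
    _ = (50 * (3 / κ + 1) * (19 * δ)) * L := by ring
    _ ≤ Λ * L := mul_le_mul_of_nonneg_right hδ hL
    _ ≤ H := hH

/-- two data in the same class have the same `B` -/
theorem cls_unique (κ : ℝ) (K : ℕ) (hκ0 : 0 < κ) (hκ1 : κ ≤ 1) :
    ∃ (Λ : ℝ) (q₀ : ℕ) (δ : ℝ), 0 < Λ ∧ 0 < δ ∧
      ∀ (N q p i : ℕ) (s σ : ℤ), 2 ≤ N → IsPrimePow q → 100 / κ ^ 2 ≤ (q : ℝ) →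
        1 + Real.log q ≤ δ * Real.log N → p.Prime → ¬ p ∣ q → (N : ℝ) ^ κ < p →
        (i = 0 ∨ (Nat.Coprime q i ∧ i < q ∧ q₀ ≤ q)) →
        (s = 1 ∨ s = -1) → (σ = 1 ∨ σ = -1) →
        ∀ A B x' y U A' B' x'' y' U', DatQ κ Λ N K q i p s σ A B x' y U →
          DatQ κ Λ N K q i p s σ A' B' x'' y' U' → (p : ℤ) ∣ (A' : ℤ) - A →
          (p : ℤ) ∣ (U' : ℤ) * ((A ^ x' : ℕ) : ℤ) - ((A' ^ x'' : ℕ) : ℤ) * U → B = B' := by
  obtain ⟨Λ, q₀, δ₀, hΛ, hδ₀, H⟩ := unique2 κ K hκ0 hκ1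
  have hG : 0 < 50 * (3 / κ + 1) := by positivity
  refine ⟨Λ, max q₀ 2, min δ₀ (Λ / (50 * (3 / κ + 1) * 19)), hΛ, lt_min hδ₀ (by positivity), ?_⟩
  intro N q p i s σ hN hq hqκ hlq hp hpq hNp hi hs hσ A B x' y U A' B' x'' y' U' h h' hpA hroot
  have hq0 : 0 < q := hq.pos
  have hL0 : 0 < Real.log N := Real.log_pos (by exact_mod_cast (by omega : 1 < N))
  have hlq1 : 1 + Real.log q ≤ δ₀ * Real.log N :=
    hlq.trans (mul_le_mul_of_nonneg_right (min_le_left _ _) hL0.le)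
  obtain ⟨δ₁, hδ₁⟩ : ∃ δ₁, δ₁ = Λ / (50 * (3 / κ + 1) * 19) := ⟨_, rfl⟩
  have hlq2 : 1 + Real.log q ≤ δ₁ * Real.log N :=
    hlq.trans (mul_le_mul_of_nonneg_right (by rw [hδ₁]; exact min_le_right _ _) hL0.le)
  have hδΛ : 50 * (3 / κ + 1) * (19 * δ₁) ≤ Λ := by
    rw [hδ₁]
    apply le_of_eq
    field_simp
  have hl := large_of hκ0 hq0 rfl hδΛ hL0.le hlq2 h.big
  have hl' := large_of hκ0 hq0 rfl hδΛ hL0.le hlq2 h'.big
  have hP := h.solP hs hσ hq0 hp hl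
  have hP' := h'.solP hs hσ hq0 hp hl'
  -- same coefficient: the one-variable theorem
  have hsame : s * (A : ℤ) ^ i = s * (A' : ℤ) ^ i → B = B' := by
    intro he
    rw [← he] at hP'
    have hroot' : U * A' ^ x'' ≡ U' * A ^ x' [MOD p] := by
      rw [Nat.modEq_iff_dvd]
      have e : ((U' * A ^ x' : ℕ) : ℤ) - ((U * A' ^ x'' : ℕ) : ℤ) =
        (U' : ℤ) * ((A ^ x' : ℕ) : ℤ) - ((A' ^ x'' : ℕ) : ℤ) * U := by push_cast; ring
      rw [e]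
      exact hroot
    obtain ⟨e1, e2⟩ := unique_p hκ0 hκ1 hq hqκ hp hpq hP hP' hroot'
    have e3 := hP.eq
    rw [e1, e2, hP'.eq] at e3
    have e4 := congrArg Int.natAbs e3
    rw [natAbs_T hσ, natAbs_T hσ] at e4
    exact (eq_of_pow_eq h'.dat.B0 h.dat.B0 h'.dat.y0 h.dat.y0 h'.dat.np h.dat.np e4).symm
  rcases hi with hi | ⟨hi, hiq, hqq⟩
  · apply hsame
    rw [hi, pow_zero, pow_zero]
  · have hi0 : 0 < i := by
      rcases Nat.eq_zero_or_pos i with h0 | h0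
      · exfalso
        rw [h0, Nat.coprime_zero_right] at hi
        have := (le_max_right q₀ 2).trans hqq
        omega
      · exact h0
    have hAA : A = A' := by
      refine H N q p i A A' U (A ^ x') U' (A' ^ x'') s hN ((le_max_left _ _).trans hqq) hlq1 hp hpq hNp
        hi hiq hs h.AK h'.AK hpA (h.solA hs hσ hq0 hi0 hp) (h'.solA hs hσ hq0 hi0 hp) ?_ ?_ hroot
      · rw [hh_eq]; exact h.big
      · rw [hh_eq]; exact h'.big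
    apply hsame
    rw [hAA]

/-- The integers `B ≤ N` in a solution of the `p`-adic kind in the class of the data. -/
def SetQ (κ Λ : ℝ) (N K q i p α : ℕ) (s σ : ℤ) : Set ℕ :=
  {B | ∃ A x' y U : ℕ, A % p = α ∧ DatQ κ Λ N K q i p s σ A B x' y U}

theorem setQ_finite (κ Λ : ℝ) (N K q i p α : ℕ) (s σ : ℤ) : (SetQ κ Λ N K q i p α s σ).Finite := by
  refine (Set.finite_Icc 0 N).subset ?_
  rintro B ⟨A, x', y, U, _, h⟩
  exact ⟨Nat.zero_le _, h.dat.BN⟩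

theorem setQ_card (κ : ℝ) (K : ℕ) (hκ0 : 0 < κ) (hκ1 : κ ≤ 1) :
    ∃ (Λ : ℝ) (q₀ : ℕ) (δ : ℝ), 0 < Λ ∧ 0 < δ ∧
      ∀ (N q p i α : ℕ) (s σ : ℤ), 2 ≤ N → IsPrimePow q → 100 / κ ^ 2 ≤ (q : ℝ) →
        1 + Real.log q ≤ δ * Real.log N → p.Prime → ¬ p ∣ q → (N : ℝ) ^ κ < p →
        (i = 0 ∨ (Nat.Coprime q i ∧ i < q ∧ q₀ ≤ q)) →
        (s = 1 ∨ s = -1) → (σ = 1 ∨ σ = -1) → (SetQ κ Λ N K q i p α s σ).ncard ≤ q := by
  classical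
  obtain ⟨Λ, q₀, δ, hΛ, hδ, H⟩ := cls_unique κ K hκ0 hκ1
  refine ⟨Λ, q₀, δ, hΛ, hδ, ?_⟩
  intro N q p i α s σ hN hq hqκ hlq hp hpq hNp hi hs hσ
  have hq0 : 0 < q := hq.pos
  have : Fact p.Prime := ⟨hp⟩
  have hch : ∀ B : ℕ, ∃ t : ℕ × ℕ × ℕ × ℕ, B ∈ SetQ κ Λ N K q i p α s σ →
      t.1 % p = α ∧ DatQ κ Λ N K q i p s σ t.1 B t.2.1 t.2.2.1 t.2.2.2 := by
    intro B
    by_cases h : B ∈ SetQ κ Λ N K q i p α s σ
    · obtain ⟨A, x', y, U, h1, h2⟩ := h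
      exact ⟨(A, x', y, U), fun _ => ⟨h1, h2⟩⟩
    · exact ⟨(0, 0, 0, 0), fun h' => absurd h' h⟩
  choose t ht using hch
  have hAα : ∀ B ∈ SetQ κ Λ N K q i p α s σ, (((t B).1 : ℕ) : ZMod p) = (α : ZMod p) := by
    intro B hB
    rw [← (ht B hB).1, ZMod.natCast_mod]
  have hAl : ∀ B ∈ SetQ κ Λ N K q i p α s σ, (α : ZMod p) ≠ 0 := by
    intro B hB h0
    rw [← hAα B hB, ZMod.natCast_eq_zero_iff] at h0
    exact hp.not_dvd_one ((ht B hB).2.dat.cop ▸ Nat.dvd_gcd h0 (ht B hB).2.dat.dB)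
  have key : (SetQ κ Λ N K q i p α s σ).ncard ≤
      {u : ZMod p | u ^ q = ((s * (α : ℤ) ^ i : ℤ) : ZMod p)}.ncard := by
    apply Set.ncard_le_ncard_of_injOn
      (fun B => ((t B).2.2.2 : ZMod p) * ((α : ZMod p) ^ (t B).2.1)⁻¹)
    · intro B hB
      rw [Set.mem_ofPred_eq]
      have hD := (ht B hB).2.dat
      have h1 := congrArg (fun z : ℤ => (z : ZMod p)) hD.eq
      have h3 : (B : ZMod p) = 0 := (ZMod.natCast_eq_zero_iff _ _).mpr hD.dB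
      have h6 := hAα B hB
      push_cast at h1 ⊢
      rw [h3, zero_pow hD.y0.ne', mul_zero, sub_eq_zero, h6] at h1
      have h4 : (α : ZMod p) ^ (t B).2.1 ≠ 0 := pow_ne_zero _ (hAl B hB)
      rw [mul_pow, inv_pow, h1, pow_add, ← pow_mul, mul_comm (t B).2.1 q]
      have h5 : (α : ZMod p) ^ (q * (t B).2.1) ≠ 0 := pow_ne_zero _ (hAl B hB)
      field_simp
    · intro B hB B' hB' hBB
      have hD := (ht B hB).2
      have hD' := (ht B' hB').2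
      refine H N q p i s σ hN hq hqκ hlq hp hpq hNp hi hs hσ _ _ _ _ _ _ _ _ _ _ hD hD' ?_ ?_
      · have h1 := (ht B hB).1
        have h2 := (ht B' hB').1
        rw [← h2] at h1
        exact (Nat.modEq_iff_dvd).mp h1
      · rw [← ZMod.intCast_zmod_eq_zero_iff_dvd]
        push_cast
        rw [hAα B hB, hAα B' hB']
        have h2 : (α : ZMod p) ≠ 0 := hAl B hB
        have h3 : (α : ZMod p) ^ (t B).2.1 ≠ 0 := pow_ne_zero _ h2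
        have h4 : (α : ZMod p) ^ (t B').2.1 ≠ 0 := pow_ne_zero _ h2
        have h5 : ((t B).2.2.2 : ZMod p) * ((α : ZMod p) ^ (t B).2.1)⁻¹ =
            ((t B').2.2.2 : ZMod p) * ((α : ZMod p) ^ (t B').2.1)⁻¹ := hBB
        field_simp at h5
        rw [sub_eq_zero]
        linear_combination -h5
  exact key.trans (Fc.roots_le hp hq0 _)

end Pool.Agent.TH888.B2
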