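import Mathlib
import Pool.Agent.TH888.B2.Ev

/-!
The value of a derived form near the point `(1, 1)`: archimedean estimate.
-/

set_option autoImplicit false

namespace Pool.Agent.TH888.B2

open Finset Polynomial

theorem sum_choose_le (s : Finset ℕ) (e : ℕ) {v : ℝ} (hv : 0 ≤ v) :
    ∑ a ∈ s, (e.choose a : ℝ) * v ^ a ≤ (1 + v) ^ e := by
  have h0 : (1 + v) ^ e = ∑ a ∈ range (e + 1), (e.choose a : ℝ) * v ^ a := by
    rw [add_comm, add_pow]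
    apply sum_congr rfl
    intro a _
    rw [one_pow, mul_one, mul_comm]
  rw [h0]
  have h1 : ∑ a ∈ range (e + 1), (e.choose a : ℝ) * v ^ a =
      ∑ a ∈ s ∪ range (e + 1), (e.choose a : ℝ) * v ^ a := by
    apply Finset.sum_subset subset_union_right
    intro a _ ha
    rw [mem_range, not_lt] at ha
    rw [Nat.choose_eq_zero_of_lt (by omega), Nat.cast_zero, zero_mul]
  rw [h1]
  apply Finset.sum_le_sum_of_subset_of_nonneg subset_union_left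
  intro a _ _
  positivity

theorem trunc_bound {v v₀ : ℝ} (hv0 : 0 < v₀) (hv : |v| ≤ v₀) (e α : ℕ) :
    |(1 + v) ^ e - ∑ a ∈ range α, (e.choose a : ℝ) * v ^ a| ≤ (|v| / v₀) ^ α * (1 + v₀) ^ e ∧
    |∑ a ∈ range α, (e.choose a : ℝ) * v ^ a| ≤ (1 + v₀) ^ e := by
  constructor
  · have h0 : (1 + v) ^ e = ∑ a ∈ range (max (e + 1) α), (e.choose a : ℝ) * v ^ a := by
      have h1 : (1 + v) ^ e = ∑ a ∈ range (e + 1), (e.choose a : ℝ) * v ^ a := by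
        rw [add_comm, add_pow]
        apply sum_congr rfl
        intro a _
        rw [one_pow, mul_one, mul_comm]
      rw [h1]
      apply Finset.sum_subset (range_subset_range.mpr (le_max_left _ _))
      intro a _ ha
      rw [mem_range, not_lt] at ha
      rw [Nat.choose_eq_zero_of_lt (by omega), Nat.cast_zero, zero_mul]
    have hsub : range α ⊆ range (max (e + 1) α) := range_subset_range.mpr (le_max_right _ _)
    rw [h0, ← Finset.sum_sdiff hsub, add_sub_cancel_right]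
    refine (Finset.abs_sum_le_sum_abs _ _).trans ?_
    have h2 : ∀ a ∈ range (max (e + 1) α) \ range α, |(e.choose a : ℝ) * v ^ a| ≤
        (|v| / v₀) ^ α * ((e.choose a : ℝ) * v₀ ^ a) := by
      intro a ha
      rw [mem_sdiff, mem_range, mem_range, not_lt] at ha
      rw [abs_mul, abs_pow, Nat.abs_cast]
      have h3 : |v| ^ a = (|v| / v₀) ^ a * v₀ ^ a := by
        rw [← mul_pow, div_mul_cancel₀ _ hv0.ne']
      have h4 : (|v| / v₀) ^ a ≤ (|v| / v₀) ^ α :=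
        pow_le_pow_of_le_one (by positivity) (by rw [div_le_one hv0]; exact hv) ha.2
      calc (e.choose a : ℝ) * |v| ^ a = (|v| / v₀) ^ a * ((e.choose a : ℝ) * v₀ ^ a) := by
            rw [h3]; ring
        _ ≤ _ := mul_le_mul_of_nonneg_right h4 (by positivity)
    refine (Finset.sum_le_sum h2).trans ?_
    rw [← mul_sum]
    exact mul_le_mul_of_nonneg_left (sum_choose_le _ _ hv0.le) (by positivity)
  · refine (Finset.abs_sum_le_sum_abs _ _).trans ?_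
    have h2 : ∀ a ∈ range α, |(e.choose a : ℝ) * v ^ a| ≤ (e.choose a : ℝ) * v₀ ^ a := by
      intro a _
      rw [abs_mul, abs_pow, Nat.abs_cast]
      apply mul_le_mul_of_nonneg_left _ (Nat.cast_nonneg _)
      exact pow_le_pow_left₀ (abs_nonneg _) hv a
    exact (Finset.sum_le_sum h2).trans (sum_choose_le _ _ hv0.le)

theorem eval_small {ι : Type} [Fintype ι] (c : ι → ℤ) (E F : ι → ℕ)
    {α β : ℕ}
    (h : ∀ a < α, ∀ b < β, ∑ i, c i * (((E i).choose a : ℤ) * ((F i).choose b : ℤ)) = 0)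
    {v w v₀ M1 M2 Cc : ℝ} (hv0 : 0 < v₀) (hv : |v| ≤ v₀) (hw : |w| ≤ v₀)
    (hM1 : ∀ i, (1 + v₀) ^ E i ≤ M1) (hM2 : ∀ i, (1 + v₀) ^ F i ≤ M2) (hc : ∀ i, |(c i : ℝ)| ≤ Cc)
    (hM10 : 0 ≤ M1) (hM20 : 0 ≤ M2) (hCc : 0 ≤ Cc) :
    |∑ i, (c i : ℝ) * ((1 + v) ^ E i * (1 + w) ^ F i)| ≤
      (univ : Finset ι).card * (Cc * (M1 * M2 * ((|v| / v₀) ^ α + (|w| / v₀) ^ β))) := by
  obtain ⟨T, hT⟩ : ∃ T : ι → ℝ, T = fun i => ∑ a ∈ range α, ((E i).choose a : ℝ) * v ^ a := ⟨_, rfl⟩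
  obtain ⟨T', hT'⟩ : ∃ T' : ι → ℝ, T' = fun i => ∑ b ∈ range β, ((F i).choose b : ℝ) * w ^ b :=
    ⟨_, rfl⟩
  have hz : ∑ i, (c i : ℝ) * (T i * T' i) = 0 := by
    have h1 : ∀ i, (c i : ℝ) * (T i * T' i) = ∑ a ∈ range α, ∑ b ∈ range β,
        v ^ a * w ^ b * ((c i * (((E i).choose a : ℤ) * ((F i).choose b : ℤ)) : ℤ) : ℝ) := by
      intro i
      rw [hT, hT', sum_mul_sum, mul_sum]
      apply sum_congr rfl
      intro a _
      rw [mul_sum]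
      apply sum_congr rfl
      intro b _
      push_cast
      ring
    simp_rw [h1]
    rw [sum_comm]
    apply sum_eq_zero
    intro a ha
    rw [sum_comm]
    apply sum_eq_zero
    intro b hb
    rw [← mul_sum, ← Int.cast_sum, h a (mem_range.mp ha) b (mem_range.mp hb), Int.cast_zero, mul_zero]
  have hsplit : ∑ i, (c i : ℝ) * ((1 + v) ^ E i * (1 + w) ^ F i) =
      ∑ i, (c i : ℝ) * (((1 + v) ^ E i - T i) * (1 + w) ^ F i + T i * ((1 + w) ^ F i - T' i)) := by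
    rw [← sub_zero (∑ i, (c i : ℝ) * ((1 + v) ^ E i * (1 + w) ^ F i)), ← hz, ← sum_sub_distrib]
    apply sum_congr rfl
    intro i _
    ring
  rw [hsplit]
  refine (Finset.abs_sum_le_sum_abs _ _).trans ?_
  rw [← nsmul_eq_mul]
  apply Finset.sum_le_card_nsmul
  intro i _
  rw [abs_mul]
  have g1 := trunc_bound hv0 hv (E i) α
  have g2 := trunc_bound hv0 hw (F i) β
  have g3 : |(1 + w) ^ F i| ≤ M2 := by
    rw [abs_pow]
    refine le_trans (pow_le_pow_left₀ (abs_nonneg _) ?_ _) (hM2 i)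
    calc |1 + w| ≤ |(1 : ℝ)| + |w| := abs_add_le _ _
      _ ≤ 1 + v₀ := by rw [abs_one]; linarith
  have g4 : |(1 + v) ^ E i - T i| ≤ (|v| / v₀) ^ α * M1 := by
    rw [hT]
    exact g1.1.trans (mul_le_mul_of_nonneg_left (hM1 i) (by positivity))
  have g5 : |T i| ≤ M1 := by
    rw [hT]
    exact g1.2.trans (hM1 i)
  have g6 : |(1 + w) ^ F i - T' i| ≤ (|w| / v₀) ^ β * M2 := by
    rw [hT']
    exact g2.1.trans (mul_le_mul_of_nonneg_left (hM2 i) (by positivity))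
  apply mul_le_mul (hc i) _ (abs_nonneg _) hCc
  calc |((1 + v) ^ E i - T i) * (1 + w) ^ F i + T i * ((1 + w) ^ F i - T' i)|
      ≤ |(1 + v) ^ E i - T i| * |(1 + w) ^ F i| + |T i| * |(1 + w) ^ F i - T' i| := by
        refine (abs_add_le _ _).trans ?_
        rw [abs_mul, abs_mul]
    _ ≤ ((|v| / v₀) ^ α * M1) * M2 + M1 * ((|w| / v₀) ^ β * M2) := by
        apply add_le_add
        · exact mul_le_mul g4 g3 (abs_nonneg _) (by positivity)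
        · exact mul_le_mul g5 g6 (abs_nonneg _) (by positivity)
    _ = M1 * M2 * ((|v| / v₀) ^ α + (|w| / v₀) ^ β) := by ring

theorem one_add_inv_le {q e k : ℕ} (hq : 0 < q) (he : e ≤ q * k) :
    (1 + 1 / (q : ℝ)) ^ e ≤ 3 ^ k := by
  have hqR : (0 : ℝ) < q := by exact_mod_cast hq
  calc (1 + 1 / (q : ℝ)) ^ e ≤ (1 + 1 / (q : ℝ)) ^ (q * k) :=
        pow_le_pow_right₀ (by have : 0 < 1 / (q : ℝ) := by positivity
                              linarith) he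
    _ = ((1 + 1 / (q : ℝ)) ^ q) ^ k := by rw [pow_mul]
    _ ≤ 3 ^ k := pow_le_pow_left₀ (by positivity) (one_add_inv_pow hq) k

theorem ev_small {s q i m k1 k2 Cc α β : ℕ} {c : Fin (m + 1) → ℕ → ℕ → ℤ}
    {P1 Q1 P2 Q2 Pw Qw : ℤ}
    (h : ∀ a < α, ∀ b < β,
      ∑ x : Fin (m + 1) × Fin (k1 + 1) × Fin (k2 + 1), c x.1 x.2.1 x.2.2 *
        (((q * (x.2.1 : ℕ) + (x.1 : ℕ)).choose a : ℤ) *
          ((q * (x.2.2 : ℕ) + i * (x.1 : ℕ)).choose b : ℤ)) = 0)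
    (hc : ∀ j l1 l2, (c j l1 l2).natAbs ≤ Cc) (hq : 0 < q) (hiq : i ≤ q)
    {a b : ℕ} (ha : a ≤ s * (k1 + 1)) (hb : b ≤ s * (k2 + 1))
    {u t ρ η : ℝ} (hu0 : 0 < u) (ht0 : 0 < t)
    (h1 : (P1 : ℝ) = Q1 * u ^ q) (h2 : (P2 : ℝ) = Q2 * t ^ q)
    (hw : (Pw : ℝ) = Qw * (ρ * (u * t ^ i))) (huq : |u - 1| ≤ 1 / q) (htq : |t - 1| ≤ 1 / q)
    (hρ : ∀ j ≤ m, |ρ ^ j - 1| ≤ η) :
    |(Xv q i m k1 k2 c P1 Q1 P2 Q2 Pw Qw a b : ℝ)| ≤
      |(Q1 : ℝ) ^ k1 * (Q2 : ℝ) ^ k2 * (Qw : ℝ) ^ m| *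
      (((m + 1) * ((k1 + 1) * (k2 + 1)) : ℕ) * ((Cc * (q ^ (s * (k1 + 1) + s * (k2 + 1)) *
        3 ^ (k1 + k2 + 2 * m)) : ℕ) * (3 ^ (k1 + k2 + 2 * m) *
          ((q * |u - 1|) ^ (α - a) + (q * |t - 1|) ^ (β - b) + η)))) := by
  have hqR : (0 : ℝ) < q := by exact_mod_cast hq
  obtain ⟨c', hc'⟩ : ∃ c' : Fin (m + 1) × Fin (k1 + 1) × Fin (k2 + 1) → ℤ, c' = fun x =>
    c x.1 x.2.1 x.2.2 * (((q * (x.2.1 : ℕ) + (x.1 : ℕ)).choose a : ℤ) *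
          ((q * (x.2.2 : ℕ) + i * (x.1 : ℕ)).choose b : ℤ)) := ⟨_, rfl⟩
  have hcard : (univ : Finset (Fin (m + 1) × Fin (k1 + 1) × Fin (k2 + 1))).card =
      (m + 1) * ((k1 + 1) * (k2 + 1)) := by
    rw [card_univ, Fintype.card_prod, Fintype.card_prod, Fintype.card_fin, Fintype.card_fin,
      Fintype.card_fin]
  have hE : ∀ x : Fin (m + 1) × Fin (k1 + 1) × Fin (k2 + 1),
      q * (x.2.1 : ℕ) + (x.1 : ℕ) ≤ q * (k1 + m) := by
    intro x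
    have hj : (x.1 : ℕ) ≤ m := Nat.le_of_lt_succ x.1.isLt
    have hl1 : (x.2.1 : ℕ) ≤ k1 := Nat.le_of_lt_succ x.2.1.isLt
    have h3 : (x.1 : ℕ) ≤ q * m := hj.trans (Nat.le_mul_of_pos_left m hq)
    have h4 : q * (x.2.1 : ℕ) ≤ q * k1 := Nat.mul_le_mul_left _ hl1
    rw [mul_add]
    omega
  have hF : ∀ x : Fin (m + 1) × Fin (k1 + 1) × Fin (k2 + 1),
      q * (x.2.2 : ℕ) + i * (x.1 : ℕ) ≤ q * (k2 + m) := by
    intro x
    have hj : (x.1 : ℕ) ≤ m := Nat.le_of_lt_succ x.1.isLt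
    have hl1 : (x.2.2 : ℕ) ≤ k2 := Nat.le_of_lt_succ x.2.2.isLt
    have h3 : i * (x.1 : ℕ) ≤ q * m := Nat.mul_le_mul hiq hj
    have h4 : q * (x.2.2 : ℕ) ≤ q * k2 := Nat.mul_le_mul_left _ hl1
    rw [mul_add]
    omega
  obtain ⟨Cf, hCf⟩ : ∃ Cf : ℕ, Cf = Cc * (q ^ (s * (k1 + 1) + s * (k2 + 1)) * 3 ^ (k1 + k2 + 2 * m)) :=
    ⟨_, rfl⟩
  have hcb : ∀ x, |(c' x : ℝ)| ≤ Cf := by
    intro x
    rw [← Int.cast_abs, Int.abs_eq_natAbs, Int.cast_natCast, Nat.cast_le, hc']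
    simp only
    rw [Int.natAbs_mul, Int.natAbs_mul, Int.natAbs_natCast, Int.natAbs_natCast, hCf]
    have f1 := choose_le (q := q) (e := q * (x.2.1 : ℕ) + (x.1 : ℕ)) (a := a) (k := k1 + m) hq (hE x)
    have f2 := choose_le (q := q) (e := q * (x.2.2 : ℕ) + i * (x.1 : ℕ)) (a := b) (k := k2 + m) hq (hF x)
    apply Nat.mul_le_mul (hc _ _ _)
    calc _ ≤ (q ^ a * 3 ^ (k1 + m)) * (q ^ b * 3 ^ (k2 + m)) := Nat.mul_le_mul f1 f2
      _ ≤ (q ^ (s * (k1 + 1)) * 3 ^ (k1 + m)) * (q ^ (s * (k2 + 1)) * 3 ^ (k2 + m)) :=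
          Nat.mul_le_mul (Nat.mul_le_mul_right _ (Nat.pow_le_pow_right hq ha))
            (Nat.mul_le_mul_right _ (Nat.pow_le_pow_right hq hb))
      _ = q ^ (s * (k1 + 1) + s * (k2 + 1)) * 3 ^ (k1 + k2 + 2 * m) := by
          rw [pow_add]
          have e1 : k1 + k2 + 2 * m = (k1 + m) + (k2 + m) := by ring
          rw [e1, pow_add]
          ring
  have hM1 : ∀ x : Fin (m + 1) × Fin (k1 + 1) × Fin (k2 + 1),
      (1 + 1 / (q : ℝ)) ^ (q * (x.2.1 : ℕ) + (x.1 : ℕ)) ≤ 3 ^ (k1 + m) := fun x =>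
    one_add_inv_le hq (hE x)
  have hM2 : ∀ x : Fin (m + 1) × Fin (k1 + 1) × Fin (k2 + 1),
      (1 + 1 / (q : ℝ)) ^ (q * (x.2.2 : ℕ) + i * (x.1 : ℕ)) ≤ 3 ^ (k2 + m) := fun x =>
    one_add_inv_le hq (hF x)
  have hv0 : (0 : ℝ) < 1 / q := by positivity
  have hG := eval_small (ι := Fin (m + 1) × Fin (k1 + 1) × Fin (k2 + 1)) c'
    (fun x => q * (x.2.1 : ℕ) + (x.1 : ℕ)) (fun x => q * (x.2.2 : ℕ) + i * (x.1 : ℕ))
    (α := α - a) (β := β - b) (v := u - 1) (w := t - 1) (Cc := (Cf : ℝ)) (by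
      intro a' ha' b' hb'
      have := twistZ h a b a' ha' b' hb'
      rw [hc']
      exact this) hv0 huq htq hM1 hM2 hcb (by positivity) (by positivity) (Nat.cast_nonneg _)
  -- the main identity
  have hX : (Xv q i m k1 k2 c P1 Q1 P2 Q2 Pw Qw a b : ℝ) =
      (Q1 : ℝ) ^ k1 * (Q2 : ℝ) ^ k2 * (Qw : ℝ) ^ m *
        ((∑ x, (c' x : ℝ) * ((1 + (u - 1)) ^ (q * (x.2.1 : ℕ) + (x.1 : ℕ)) *
          (1 + (t - 1)) ^ (q * (x.2.2 : ℕ) + i * (x.1 : ℕ)))) +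
        ∑ x, (c' x : ℝ) * (((1 + (u - 1)) ^ (q * (x.2.1 : ℕ) + (x.1 : ℕ)) *
          (1 + (t - 1)) ^ (q * (x.2.2 : ℕ) + i * (x.1 : ℕ))) * (ρ ^ (x.1 : ℕ) - 1))) := by
    rw [← sum_add_distrib]
    unfold Xv
    push_cast
    rw [mul_sum]
    apply sum_congr rfl
    rintro ⟨j, l1, l2⟩ _
    simp only [hc']
    have hj : (j : ℕ) ≤ m := Nat.le_of_lt_succ j.isLt
    have hl1 : (l1 : ℕ) ≤ k1 := Nat.le_of_lt_succ l1.isLt
    have hl2 : (l2 : ℕ) ≤ k2 := Nat.le_of_lt_succ l2.isLt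
    have e1 : (1 + (u - 1)) = u := by ring
    have e2 : (1 + (t - 1)) = t := by ring
    have e3 : (Q1 : ℝ) ^ k1 = (Q1 : ℝ) ^ (l1 : ℕ) * (Q1 : ℝ) ^ (k1 - (l1 : ℕ)) := by
      rw [← pow_add, Nat.add_sub_cancel' hl1]
    have e4 : (Q2 : ℝ) ^ k2 = (Q2 : ℝ) ^ (l2 : ℕ) * (Q2 : ℝ) ^ (k2 - (l2 : ℕ)) := by
      rw [← pow_add, Nat.add_sub_cancel' hl2]
    have e5 : (Qw : ℝ) ^ m = (Qw : ℝ) ^ (j : ℕ) * (Qw : ℝ) ^ (m - (j : ℕ)) := by
      rw [← pow_add, Nat.add_sub_cancel' hj]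
    rw [e1, e2, e3, e4, e5]
    push_cast
    rw [h1, h2, hw]
    ring
  rw [hX, abs_mul]
  apply mul_le_mul_of_nonneg_left _ (abs_nonneg _)
  have hη0 : 0 ≤ η := (abs_nonneg _).trans (hρ 0 (Nat.zero_le _))
  have hsec : |∑ x, (c' x : ℝ) * (((1 + (u - 1)) ^ (q * (x.2.1 : ℕ) + (x.1 : ℕ)) *
          (1 + (t - 1)) ^ (q * (x.2.2 : ℕ) + i * (x.1 : ℕ))) * (ρ ^ (x.1 : ℕ) - 1))| ≤
      (((m + 1) * ((k1 + 1) * (k2 + 1)) : ℕ) : ℝ) * ((Cf : ℝ) * (3 ^ (k1 + m) * 3 ^ (k2 + m) * η)) := by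
    refine (Finset.abs_sum_le_sum_abs _ _).trans ?_
    rw [← hcard, ← nsmul_eq_mul]
    apply Finset.sum_le_card_nsmul
    intro x _
    rw [abs_mul]
    apply mul_le_mul (hcb x) _ (abs_nonneg _) (Nat.cast_nonneg _)
    rw [abs_mul, abs_mul]
    have g1 : |(1 + (u - 1)) ^ (q * (x.2.1 : ℕ) + (x.1 : ℕ))| ≤ 3 ^ (k1 + m) := by
      rw [abs_pow]
      refine le_trans (pow_le_pow_left₀ (abs_nonneg _) ?_ _) (hM1 x)
      calc |1 + (u - 1)| ≤ |(1 : ℝ)| + |u - 1| := abs_add_le _ _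
        _ ≤ 1 + 1 / q := by rw [abs_one]; linarith
    have g2 : |(1 + (t - 1)) ^ (q * (x.2.2 : ℕ) + i * (x.1 : ℕ))| ≤ 3 ^ (k2 + m) := by
      rw [abs_pow]
      refine le_trans (pow_le_pow_left₀ (abs_nonneg _) ?_ _) (hM2 x)
      calc |1 + (t - 1)| ≤ |(1 : ℝ)| + |t - 1| := abs_add_le _ _
        _ ≤ 1 + 1 / q := by rw [abs_one]; linarith
    have g3 := hρ (x.1 : ℕ) (Nat.le_of_lt_succ x.1.isLt)
    exact mul_le_mul (mul_le_mul g1 g2 (abs_nonneg _) (by positivity)) g3 (abs_nonneg _)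
      (by positivity)
  rw [hcard] at hG
  refine (abs_add_le _ _).trans ((add_le_add hG hsec).trans (le_of_eq ?_))
  have e1 : k1 + k2 + 2 * m = (k1 + m) + (k2 + m) := by ring
  have e2 : |u - 1| / (1 / (q : ℝ)) = q * |u - 1| := by field_simp
  have e3 : |t - 1| / (1 / (q : ℝ)) = q * |t - 1| := by field_simp
  rw [e2, e3, ← hCf, e1, pow_add]
  push_cast
  ring

end Pool.Agent.TH888.B2
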