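import Mathlib
import Pool.Agent.TH888.B2.Est
import Pool.Agent.TH888.B2.EvR
import Pool.Agent.TH888.B2.Par
import Pool.Agent.TH888.B2.Logs
import Pool.Agent.TH888.B2.Uniq

/-!
Two solutions of the real kind with close but different bases `A₁`, `A₂` exclude each other.
-/

set_option autoImplicit false

namespace Pool.Agent.TH888.B2

open Finset Polynomial

/-- a solution of `U ^ q - A ^ i V ^ q` small -/
structure SolB (κ : ℝ) (q i : ℕ) (A U V : ℕ) : Prop where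
  A0 : 0 < A
  U0 : 0 < U
  V0 : 0 < V
  cop : Nat.Coprime U (A * V)
  good : |(U : ℝ) ^ q - (A : ℝ) ^ i * (V : ℝ) ^ q| ≤ Real.exp ((1 - κ) * Real.log (hh q i A U V))

theorem near_one {κ X Y H h : ℝ} (hX : 0 < X) (hY : 0 < Y) (hH : H = max X Y) (hh : h = Real.log H)
    (hd : |X - Y| ≤ Real.exp ((1 - κ) * h)) (h2 : Real.log 2 ≤ κ * h) :
    |Y / X - 1| ≤ 2 * Real.exp (-(κ * h)) ∧ |X / Y - 1| ≤ 2 * Real.exp (-(κ * h)) := by
  have hH0 : 0 < H := by rw [hH]; exact lt_max_of_lt_left hX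
  have hHe : H = Real.exp h := by rw [hh, Real.exp_log hH0]
  have e1 : Real.exp ((1 - κ) * h) = H * Real.exp (-(κ * h)) := by
    rw [hHe, ← Real.exp_add]
    congr 1
    ring
  have e2 : Real.exp (-(κ * h)) ≤ 1 / 2 := by
    rw [Real.exp_neg, one_div]
    apply inv_anti₀ (by norm_num)
    calc (2 : ℝ) = Real.exp (Real.log 2) := (Real.exp_log (by norm_num)).symm
      _ ≤ _ := Real.exp_le_exp.mpr h2
  rw [e1] at hd
  have hb := abs_le.mp hd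
  have e3 : H * Real.exp (-(κ * h)) ≤ H / 2 := by
    calc H * Real.exp (-(κ * h)) ≤ H * (1 / 2) := mul_le_mul_of_nonneg_left e2 hH0.le
      _ = H / 2 := by ring
  have hXH : H / 2 ≤ X := by
    rcases le_total X Y with h | h
    · have : H = Y := by rw [hH, max_eq_right h]
      linarith [hb.1]
    · have : H = X := by rw [hH, max_eq_left h]
      linarith
  have hYH : H / 2 ≤ Y := by
    rcases le_total X Y with h | h
    · have : H = Y := by rw [hH, max_eq_right h]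
      linarith
    · have : H = X := by rw [hH, max_eq_left h]
      linarith [hb.2]
  have he0 := Real.exp_pos (-(κ * h))
  constructor
  · have e4 : Y / X - 1 = (Y - X) / X := by field_simp
    rw [e4, abs_div, abs_of_pos hX, div_le_iff₀ hX, abs_sub_comm]
    have : H / 2 * (2 * Real.exp (-(κ * h))) ≤ X * (2 * Real.exp (-(κ * h))) :=
      mul_le_mul_of_nonneg_right hXH (by positivity)
    linarith
  · have e4 : X / Y - 1 = (X - Y) / Y := by field_simp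
    rw [e4, abs_div, abs_of_pos hY, div_le_iff₀ hY]
    have : H / 2 * (2 * Real.exp (-(κ * h))) ≤ Y * (2 * Real.exp (-(κ * h))) :=
      mul_le_mul_of_nonneg_right hYH (by positivity)
    linarith

/-- `|u - 1| ≤ |u ^ j - 1| ≤ |u ^ q - 1|` -/
theorem abs_pow_sub_one_le {u : ℝ} (hu : 0 < u) {j q : ℕ} (hj : j ≤ q) :
    |u ^ j - 1| ≤ |u ^ q - 1| := by
  rcases le_total 1 u with h | h
  · have h1 : 1 ≤ u ^ j := one_le_pow₀ h
    have h2 : u ^ j ≤ u ^ q := pow_le_pow_right₀ h hj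
    rw [abs_of_nonneg (by linarith), abs_of_nonneg (by linarith)]
    linarith
  · have h1 : u ^ j ≤ 1 := pow_le_one₀ hu.le h
    have h2 : u ^ q ≤ u ^ j := pow_le_pow_of_le_one hu.le h hj
    rw [abs_of_nonpos (by linarith), abs_of_nonpos (by linarith)]
    linarith

/-- the reduced fraction `A₂ / A₁` close to `1` has a large height -/
theorem ratio_height_real {A₁ A₂ : ℕ} {ν : ℝ} (hν : 0 < ν) (hA1 : 0 < A₁) (hA2 : 0 < A₂)
    (hne : A₁ ≠ A₂) (h : |(A₂ : ℝ) - A₁| ≤ ν⁻¹ * A₁) :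
    ∃ p2 q2 : ℤ, IsCoprime p2 q2 ∧ p2 ≠ 0 ∧ q2 ≠ 0 ∧ ((p2 : ℚ) / q2 = (A₂ : ℚ) / A₁) ∧
      Real.log ν ≤ Real.log (max |(p2 : ℝ)| |(q2 : ℝ)|) := by
  obtain ⟨g, hg⟩ : ∃ g, g = Nat.gcd A₂ A₁ := ⟨_, rfl⟩
  have hg0 : 0 < g := by rw [hg]; exact Nat.gcd_pos_of_pos_left _ hA2
  obtain ⟨a2, ha2⟩ : g ∣ A₂ := by rw [hg]; exact Nat.gcd_dvd_left _ _
  obtain ⟨a1, ha1⟩ : g ∣ A₁ := by rw [hg]; exact Nat.gcd_dvd_right _ _
  have hcop : Nat.Coprime a2 a1 := by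
    have h1 := Nat.coprime_div_gcd_div_gcd (m := A₂) (n := A₁) (by rw [← hg]; exact hg0)
    rw [← hg] at h1
    rw [ha2, ha1, Nat.mul_div_cancel_left _ hg0, Nat.mul_div_cancel_left _ hg0] at h1
    exact h1
  have ha20 : 0 < a2 := Nat.pos_of_ne_zero fun h0 => by rw [h0, mul_zero] at ha2; omega
  have ha10 : 0 < a1 := Nat.pos_of_ne_zero fun h0 => by rw [h0, mul_zero] at ha1; omega
  have h2 : (a2 : ℤ) - a1 ≠ 0 := by
    intro h3
    apply hne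
    rw [ha1, ha2]
    congr 1
    omega
  have hgR : (0 : ℝ) < g := by exact_mod_cast hg0
  have h3 : (1 : ℝ) ≤ |(a2 : ℝ) - a1| := by
    have h4 := Int.one_le_abs h2
    exact_mod_cast h4
  have h5 : |(a2 : ℝ) - a1| ≤ ν⁻¹ * a1 := by
    rw [ha2, ha1] at h
    push_cast at h
    rw [← mul_sub, abs_mul, abs_of_pos hgR] at h
    have h6 : (g : ℝ) * |(a2 : ℝ) - a1| ≤ g * (ν⁻¹ * a1) := by
      calc (g : ℝ) * |(a2 : ℝ) - a1| ≤ ν⁻¹ * (g * a1) := h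
        _ = _ := by ring
    exact le_of_mul_le_mul_left h6 hgR
  have h7 : ν ≤ a1 := by
    have h8 : 1 ≤ ν⁻¹ * a1 := h3.trans h5
    rw [inv_mul_eq_div, le_div_iff₀ hν, one_mul] at h8
    exact h8
  refine ⟨a2, a1, Nat.isCoprime_iff_coprime.mpr hcop, by exact_mod_cast ha20.ne',
    by exact_mod_cast ha10.ne', ?_, ?_⟩
  · have hgQ : (g : ℚ) ≠ 0 := by exact_mod_cast hg0.ne'
    rw [ha2, ha1]
    push_cast
    rw [mul_div_mul_left _ _ hgQ]
  · apply Real.log_le_log hν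
    have h5 : |(((a1 : ℕ) : ℤ) : ℝ)| = (a1 : ℝ) := by
      rw [Int.cast_natCast, abs_of_nonneg (Nat.cast_nonneg _)]
    rw [h5]
    exact h7.trans (le_max_right _ _)

/-- the numerical part: the value is less than `1` -/
theorem real_num {κ lam h₁ L lh lB : ℝ} {k1 k2 K m : ℝ} (hlam : 0 < κ * lam)
    (g1 : lB ≤ κ * lam / 8) (g4 : m * lh ≤ κ * lam / 4) (g5 : k1 * h₁ + k2 * (K * L) ≤ κ * lam / 4) :
    (k1 * h₁ + k2 * (K * L) + m * lh) + 3 * lB + -(κ * lam) < 0 := by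
  linarith

theorem three_two_le {q s M : ℕ} (hq : 2 ≤ q) (hM : 1 ≤ M) :
    3 ^ M * (3 * (2 * q) ^ s) ≤ (q ^ s * 3 ^ M) * (q ^ s * 3 ^ M) := by
  have h1 : 2 ^ s ≤ q ^ s := Nat.pow_le_pow_left hq s
  have h2 : 3 ≤ 3 ^ M := Nat.le_self_pow (by omega) 3
  calc 3 ^ M * (3 * (2 * q) ^ s) = (3 * 2 ^ s) * (q ^ s * 3 ^ M) := by rw [mul_pow]; ring
    _ ≤ (3 ^ M * q ^ s) * (q ^ s * 3 ^ M) := Nat.mul_le_mul_right _ (Nat.mul_le_mul h2 h1)
    _ = _ := by ring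

theorem pow_exp_le {q x κ h lam : ℝ} {e s : ℕ} (hq : 1 ≤ q) (hx0 : 0 ≤ x)
    (hx : x ≤ 2 * Real.exp (-(κ * h))) (hκ : 0 ≤ κ) (he : e ≤ s) (hl : lam ≤ h * e) :
    (q * x) ^ e ≤ (2 * q) ^ s * Real.exp (-(κ * lam)) := by
  have h1 : q * x ≤ (2 * q) * Real.exp (-(κ * h)) := by
    calc q * x ≤ q * (2 * Real.exp (-(κ * h))) := mul_le_mul_of_nonneg_left hx (by linarith)
      _ = _ := by ring
  calc (q * x) ^ e ≤ ((2 * q) * Real.exp (-(κ * h))) ^ e :=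
        pow_le_pow_left₀ (by positivity) h1 e
    _ = (2 * q) ^ e * Real.exp (-(κ * h)) ^ e := mul_pow _ _ _
    _ ≤ (2 * q) ^ s * Real.exp (-(κ * lam)) := by
        apply mul_le_mul (pow_le_pow_right₀ (by linarith) he) _ (by positivity) (by positivity)
        rw [← Real.exp_nat_mul]
        apply Real.exp_le_exp.mpr
        have := mul_le_mul_of_nonneg_left hl hκ
        linarith

theorem unique2R_aux (κ : ℝ) (K : ℕ) (hκ0 : 0 < κ) (hκ1 : κ ≤ 1) :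
    ∃ (Λ : ℝ) (q₀ : ℕ) (δ : ℝ), 0 < Λ ∧ 0 < δ ∧
      ∀ (N q i A₁ A₂ U₁ V₁ U₂ V₂ : ℕ), 2 ≤ N → q₀ ≤ q →
        1 + Real.log q ≤ δ * Real.log N → Nat.Coprime q i → i < q →
        A₁ ≤ N ^ K → A₂ ≤ N ^ K → A₁ ≠ A₂ → |(A₂ : ℝ) - A₁| ≤ ((N : ℝ) ^ κ)⁻¹ * A₁ →
        SolB κ q i A₁ U₁ V₁ → SolB κ q i A₂ U₂ V₂ →
        Λ * Real.log N ≤ Real.log (hh q i A₁ U₁ V₁) →
        Real.log (hh q i A₁ U₁ V₁) ≤ Real.log (hh q i A₂ U₂ V₂) → False := by
  obtain ⟨S, hS1, hSκ⟩ : ∃ S : ℕ, 1 ≤ S ∧ 16 * ((K : ℝ) + 1) ≤ κ * S := by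
    refine ⟨⌈16 * ((K : ℝ) + 1) / κ⌉₊ + 1, by omega, ?_⟩
    have h1 := Nat.le_ceil (16 * ((K : ℝ) + 1) / κ)
    rw [div_le_iff₀ hκ0] at h1
    push_cast
    nlinarith
  have hSR : (1 : ℝ) ≤ S := by exact_mod_cast hS1
  have hS0 : (0 : ℝ) < S := by linarith
  obtain ⟨ω, hω, HZ⟩ := zero_est (1 / (8 * S)) (by positivity)
  obtain ⟨m, hm⟩ : ∃ m, m + 1 = 2 * S ^ 2 := by
    have : 1 ≤ S ^ 2 := Nat.one_le_pow _ _ hS1
    exact ⟨2 * S ^ 2 - 1, by omega⟩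
  have hmR : (m : ℝ) + 1 = 2 * (S : ℝ) ^ 2 := by exact_mod_cast hm
  obtain ⟨δ, hδ⟩ : ∃ δ, δ = min (κ / (1440 * (S : ℝ) ^ 2)) (min (ω * κ / (75 * (S : ℝ) ^ 5))
    (2 * ω * κ / (5 * S))) := ⟨_, rfl⟩
  have hδ0 : 0 < δ := by
    rw [hδ]
    exact lt_min (by positivity) (lt_min (by positivity) (by positivity))
  have hδ1 : δ ≤ κ / (1440 * (S : ℝ) ^ 2) := by rw [hδ]; exact min_le_left _ _
  have hδ2 : δ ≤ ω * κ / (75 * (S : ℝ) ^ 5) := by
    rw [hδ]; exact (min_le_right _ _).trans (min_le_left _ _)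
  have hδ3 : δ ≤ 2 * ω * κ / (5 * S) := by
    rw [hδ]; exact (min_le_right _ _).trans (min_le_right _ _)
  obtain ⟨Λ, hΛ⟩ : ∃ Λ, Λ = 2 + 4 * (S : ℝ) ^ 2 + 2 * S / ω := ⟨_, rfl⟩
  have hΛω0 : 0 < 2 * S / ω := by positivity
  have hΛ1 : 2 ≤ Λ := by rw [hΛ]; nlinarith
  have hΛ2 : 4 * (S : ℝ) ^ 2 ≤ Λ := by rw [hΛ]; linarith
  have hΛ3 : 2 * S / ω ≤ Λ := by rw [hΛ]; nlinarith
  refine ⟨Λ, ⌈16 * (S : ℝ) ^ 2 / κ⌉₊ + m + 1, δ, by linarith, hδ0, ?_⟩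
  intro N q i A₁ A₂ U₁ V₁ U₂ V₂ hN hqq hlq hi0 hiq hA1 hA2 hne hpA S1 S2 hΛL h12
  have hmq : m < q := by omega
  have hqpos : 0 < q := by omega
  have hqR : (0 : ℝ) < q := by exact_mod_cast hqpos
  have hqS : 16 * (S : ℝ) ^ 2 ≤ κ * q := by
    have h1 := Nat.le_ceil (16 * (S : ℝ) ^ 2 / κ)
    have h2' : ⌈16 * (S : ℝ) ^ 2 / κ⌉₊ ≤ q := by omega
    have h2 : ((⌈16 * (S : ℝ) ^ 2 / κ⌉₊ : ℕ) : ℝ) ≤ q := Nat.cast_le.mpr h2'
    rw [div_le_iff₀ hκ0] at h1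
    have h3 := mul_le_mul_of_nonneg_right h2 hκ0.le
    linarith
  have hlogq : 0 ≤ Real.log q := Real.log_nonneg (by exact_mod_cast hqpos)
  obtain ⟨L, hL⟩ : ∃ L, L = Real.log N := ⟨_, rfl⟩
  have hNR : (1 : ℝ) < N := by exact_mod_cast (by omega : 1 < N)
  have hN0 : (0 : ℝ) < N := by linarith
  have hL0 : 0 < L := by rw [hL]; exact Real.log_pos hNR
  obtain ⟨h₁, hh₁⟩ : ∃ h₁, h₁ = Real.log (hh q i A₁ U₁ V₁) := ⟨_, rfl⟩
  obtain ⟨lam, hlam⟩ : ∃ lam, lam = Real.log (hh q i A₂ U₂ V₂) := ⟨_, rfl⟩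
  rw [← hL, ← hh₁] at hΛL
  rw [← hh₁, ← hlam] at h12
  rw [← hL] at hlq
  have hh0 : 0 < h₁ := lt_of_lt_of_le (by positivity) hΛL
  have hlam0 : 0 < lam := lt_of_lt_of_le hh0 h12
  -- the parameters
  obtain ⟨k1, hk1⟩ : ∃ k1, k1 + 1 = ⌈2 * lam / (S * h₁)⌉₊ :=
    ⟨⌈2 * lam / (S * h₁)⌉₊ - 1, Nat.sub_add_cancel (Nat.ceil_pos.mpr (by positivity))⟩
  obtain ⟨k2, hk2⟩ : ∃ k2, k2 + 1 = ⌈2 / S * (lam / L + 1)⌉₊ :=
    ⟨⌈2 / S * (lam / L + 1)⌉₊ - 1, Nat.sub_add_cancel (Nat.ceil_pos.mpr (by positivity))⟩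
  have hk1R : (k1 : ℝ) + 1 = (⌈2 * lam / (S * h₁)⌉₊ : ℝ) := by exact_mod_cast hk1
  have hk2R : (k2 : ℝ) + 1 = (⌈2 / S * (lam / L + 1)⌉₊ : ℝ) := by exact_mod_cast hk2
  have hx1 : 2 * lam / (S * h₁) ≤ (k1 : ℝ) + 1 := by rw [hk1R]; exact Nat.le_ceil _
  have hx1' : (k1 : ℝ) + 1 ≤ 2 * lam / (S * h₁) + 1 := by
    rw [hk1R]; exact (Nat.ceil_lt_add_one (by positivity)).le
  have hx2 : 2 / S * (lam / L + 1) ≤ (k2 : ℝ) + 1 := by rw [hk2R]; exact Nat.le_ceil _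
  have hx2' : (k2 : ℝ) + 1 ≤ 2 / S * (lam / L + 1) + 1 := by
    rw [hk2R]; exact (Nat.ceil_lt_add_one (by positivity)).le
  obtain ⟨b1, b2, b3, b4, b5, b6, b7, b8, b9⟩ := par_basic (κ := κ) (K := K) hS1 hω hL0 hΛ1 hΛ2 hΛ3 hΛL h12 hx1 hx1'
    hx2 hx2'
  have hkk : k1 ≤ k2 := by
    have : (k1 : ℝ) ≤ k2 := by linarith
    exact_mod_cast this
  obtain ⟨T, hT⟩ : ∃ T, T = lam / L := ⟨_, rfl⟩
  have hTL : T * L = lam := by rw [hT]; field_simp
  rw [← hT] at b4 b9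
  have hT0 : 0 < T := by rw [hT]; positivity
  -- the forms
  obtain ⟨c, hc0, hcb, hcv⟩ := exists_form (s := S) (q := q) (i := i) (m := m) (k1 := k1) (k2 := k2)
    hS1 hm hqpos hiq.le
  obtain ⟨P₁, hP₁⟩ : ∃ P₁ : ℤ, P₁ = (A₁ : ℤ) ^ i * (V₁ : ℤ) ^ q := ⟨_, rfl⟩
  obtain ⟨Q₁, hQ₁⟩ : ∃ Q₁ : ℤ, Q₁ = (U₁ : ℤ) ^ q := ⟨_, rfl⟩
  obtain ⟨Pw, hPw⟩ : ∃ Pw : ℤ, Pw = (U₂ : ℤ) * V₁ := ⟨_, rfl⟩
  obtain ⟨Qw, hQw⟩ : ∃ Qw : ℤ, Qw = (V₂ : ℤ) * U₁ := ⟨_, rfl⟩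
  -- positivity
  have hA1R : (0 : ℝ) < A₁ := by exact_mod_cast S1.A0
  have hA2R : (0 : ℝ) < A₂ := by exact_mod_cast S2.A0
  have hU1R : (0 : ℝ) < U₁ := by exact_mod_cast S1.U0
  have hV1R : (0 : ℝ) < V₁ := by exact_mod_cast S1.V0
  have hU2R : (0 : ℝ) < U₂ := by exact_mod_cast S2.U0
  have hV2R : (0 : ℝ) < V₂ := by exact_mod_cast S2.V0
  have hq1 : (1 : ℝ) ≤ q := by exact_mod_cast hqpos
  have hδL : 1 ≤ δ * L := by linarith
  have hδκ : 1440 * δ ≤ κ := by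
    have h1 : δ * (1440 * (S : ℝ) ^ 2) ≤ κ := by
      rwa [le_div_iff₀ (by positivity)] at hδ1
    have h2 : (1 : ℝ) ≤ (S : ℝ) ^ 2 := one_le_pow₀ hSR
    have h3 : δ * 1440 ≤ δ * (1440 * (S : ℝ) ^ 2) := by
      apply mul_le_mul_of_nonneg_left _ hδ0.le
      linarith
    linarith
  have hκL : 1440 * (1 + Real.log q) ≤ κ * L := by
    calc 1440 * (1 + Real.log q) ≤ 1440 * (δ * L) := by linarith
      _ = (1440 * δ) * L := by ring
      _ ≤ κ * L := mul_le_mul_of_nonneg_right hδκ hL0.le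
  have hκh : κ * L * 2 ≤ κ * h₁ := by
    calc κ * L * 2 = κ * (2 * L) := by ring
      _ ≤ κ * h₁ := by
          apply mul_le_mul_of_nonneg_left _ hκ0.le
          exact (mul_le_mul_of_nonneg_right hΛ1 hL0.le).trans hΛL
  have hlog2 : Real.log 2 ≤ 1 := by have := Real.log_two_lt_d9; linarith
  have hκh1 : Real.log 2 ≤ κ * h₁ := by linarith
  have hκlam : κ * h₁ ≤ κ * lam := mul_le_mul_of_nonneg_left h12 hκ0.le
  have hκh2 : Real.log 2 ≤ κ * lam := by linarith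
  obtain ⟨n1, _⟩ := near_one (κ := κ) (X := (U₁ : ℝ) ^ q) (Y := (A₁ : ℝ) ^ i * (V₁ : ℝ) ^ q)
    (H := (hh q i A₁ U₁ V₁ : ℝ)) (h := h₁) (by positivity) (by positivity)
    (by unfold hh; push_cast; rfl) hh₁ (by rw [hh₁]; exact S1.good) hκh1
  obtain ⟨_, n2⟩ := near_one (κ := κ) (X := (U₂ : ℝ) ^ q) (Y := (A₂ : ℝ) ^ i * (V₂ : ℝ) ^ q)
    (H := (hh q i A₂ U₂ V₂ : ℝ)) (h := lam) (by positivity) (by positivity)
    (by unfold hh; push_cast; rfl) hlam (by rw [hlam]; exact S2.good) hκh2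
  -- the roots
  obtain ⟨t, ht0, htq⟩ : ∃ t : ℝ, 0 < t ∧ t ^ q = (A₂ : ℝ) / A₁ := by
    refine ⟨((A₂ : ℝ) / A₁) ^ ((q : ℝ)⁻¹), by positivity, ?_⟩
    rw [← Real.rpow_natCast, ← Real.rpow_mul (by positivity), inv_mul_cancel₀ hqR.ne', Real.rpow_one]
  obtain ⟨u, hu0, huq⟩ : ∃ u : ℝ, 0 < u ∧ u ^ q = (A₁ : ℝ) ^ i * (V₁ : ℝ) ^ q / (U₁ : ℝ) ^ q := by
    refine ⟨((A₁ : ℝ) ^ i * (V₁ : ℝ) ^ q / (U₁ : ℝ) ^ q) ^ ((q : ℝ)⁻¹), by positivity, ?_⟩
    rw [← Real.rpow_natCast, ← Real.rpow_mul (by positivity), inv_mul_cancel₀ hqR.ne', Real.rpow_one]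
  obtain ⟨ρ, hρ⟩ : ∃ ρ : ℝ, ρ = ((U₂ : ℝ) * V₁) / (V₂ * U₁) / (u * t ^ i) := ⟨_, rfl⟩
  have hρ0 : 0 < ρ := by rw [hρ]; positivity
  have hρq : ρ ^ q = (U₂ : ℝ) ^ q / ((A₂ : ℝ) ^ i * (V₂ : ℝ) ^ q) := by
    have e1 : (t ^ i) ^ q = ((A₂ : ℝ) / A₁) ^ i := by rw [← htq, ← pow_mul, ← pow_mul, mul_comm]
    rw [hρ, div_pow, div_pow, mul_pow, mul_pow, mul_pow, huq, e1, div_pow]
    field_simp
  have hu1 : |u - 1| ≤ 2 * Real.exp (-(κ * h₁)) := by
    have h1 := abs_pow_sub_one_le hu0 (Nat.succ_le_of_lt hqpos)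
    rw [Nat.succ_eq_add_one, zero_add, pow_one, huq] at h1
    exact h1.trans n1
  have hNκ : ((N : ℝ) ^ κ)⁻¹ = Real.exp (-(κ * L)) := by
    rw [hL, Real.rpow_def_of_pos hN0, Real.exp_neg, mul_comm]
  have ht1 : |t - 1| ≤ Real.exp (-(κ * L)) := by
    have h1 := abs_pow_sub_one_le ht0 (Nat.succ_le_of_lt hqpos)
    rw [Nat.succ_eq_add_one, zero_add, pow_one, htq] at h1
    refine h1.trans ?_
    have e1 : (A₂ : ℝ) / A₁ - 1 = (A₂ - A₁) / A₁ := by field_simp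
    rw [e1, abs_div, abs_of_pos hA1R, div_le_iff₀ hA1R, ← hNκ]
    exact hpA
  have hqe : Real.exp (-(κ * L)) ≤ 1 / (2 * q) := by
    rw [Real.exp_neg, one_div]
    apply inv_anti₀ (by positivity)
    rw [← Real.log_le_iff_le_exp (by positivity), Real.log_mul (by norm_num) hqR.ne']
    linarith
  have hqe2 : Real.exp (-(κ * h₁)) ≤ 1 / (2 * q) := by
    refine le_trans ?_ hqe
    apply Real.exp_le_exp.mpr
    have : 0 ≤ κ * L := by positivity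
    linarith
  have hqq2 : (2 : ℝ) * (1 / (2 * q)) = 1 / q := by field_simp
  have hu1q : |u - 1| ≤ 1 / q := by linarith
  have ht1q : |t - 1| ≤ 1 / q := by
    have : 0 < 1 / (2 * (q : ℝ)) := by positivity
    linarith
  have hρj : ∀ j ≤ m, |ρ ^ j - 1| ≤ 2 * Real.exp (-(κ * lam)) := by
    intro j hj
    refine (abs_pow_sub_one_le hρ0 (by omega : j ≤ q)).trans ?_
    rw [hρq]
    exact n2
  -- all values vanish
  have hht1 : P₁.natAbs ≤ hh q i A₁ U₁ V₁ ∧ Q₁.natAbs ≤ hh q i A₁ U₁ V₁ := by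
    constructor
    · rw [hP₁, Int.natAbs_mul, Int.natAbs_pow, Int.natAbs_pow,
        Int.natAbs_natCast, Int.natAbs_natCast]
      exact le_max_right _ _
    · rw [hQ₁, Int.natAbs_pow, Int.natAbs_natCast]
      exact le_max_left _ _
  have hroot_le : ∀ {A U V : ℕ}, 0 < A → 0 < U → 0 < V →
      Real.log U ≤ Real.log (hh q i A U V) / q ∧ Real.log V ≤ Real.log (hh q i A U V) / q := by
    intro A U V hA hU hV
    have hUR : (0 : ℝ) < U := by exact_mod_cast hU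
    have hVR : (0 : ℝ) < V := by exact_mod_cast hV
    rw [le_div_iff₀ hqR, le_div_iff₀ hqR]
    constructor
    · have h1 : Real.log ((U : ℝ) ^ q) ≤ Real.log (hh q i A U V) := by
        apply Real.log_le_log (by positivity)
        exact_mod_cast (le_max_left (U ^ q) (A ^ i * V ^ q))
      rw [Real.log_pow] at h1
      linarith
    · have h1 : Real.log ((V : ℝ) ^ q) ≤ Real.log (hh q i A U V) := by
        apply Real.log_le_log (by positivity)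
        have h2 : V ^ q ≤ hh q i A U V :=
          (Nat.le_mul_of_pos_left _ (Nat.pow_pos hA)).trans (le_max_right _ _)
        exact_mod_cast h2
      rw [Real.log_pow] at h1
      linarith
  obtain ⟨hw, hhw⟩ : ∃ hw, hw = max (U₂ * V₁) (V₂ * U₁) := ⟨_, rfl⟩
  have hwpos : 0 < hw := by
    rw [hhw]; exact lt_of_lt_of_le (Nat.mul_pos S2.U0 S1.V0) (le_max_left _ _)
  have hwlog : Real.log hw ≤ 2 * lam / q := by
    obtain ⟨f1, f2⟩ := hroot_le S1.A0 S1.U0 S1.V0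
    obtain ⟨f3, f4⟩ := hroot_le S2.A0 S2.U0 S2.V0
    rw [← hh₁] at f1 f2
    rw [← hlam] at f3 f4
    have hU1 : (0 : ℝ) < U₁ := by exact_mod_cast S1.U0
    have hV1 : (0 : ℝ) < V₁ := by exact_mod_cast S1.V0
    have hU2 : (0 : ℝ) < U₂ := by exact_mod_cast S2.U0
    have hV2 : (0 : ℝ) < V₂ := by exact_mod_cast S2.V0
    have f5 : h₁ / q ≤ lam / q := div_le_div_of_nonneg_right h12 hqR.le
    have f6 : 2 * lam / q = lam / q + lam / q := by ring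
    rcases le_total (U₂ * V₁) (V₂ * U₁) with h | h
    · rw [hhw, max_eq_right h]
      push_cast
      rw [Real.log_mul hV2.ne' hU1.ne']
      linarith
    · rw [hhw, max_eq_left h]
      push_cast
      rw [Real.log_mul hU2.ne' hV1.ne']
      linarith
  obtain ⟨αz, hαz⟩ : ∃ αz, αz = S * (k1 + 1) / 2 + 1 := ⟨_, rfl⟩
  obtain ⟨βz, hβz⟩ : ∃ βz, βz = S * (k2 + 1) / 2 + 1 := ⟨_, rfl⟩
  have hvanish : ∀ a < αz, ∀ b < βz, Xv q i m k1 k2 c P₁ Q₁ A₂ A₁ Pw Qw a b = 0 := by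
    intro a ha b hb
    have ha2 : 2 * a ≤ S * (k1 + 1) := by omega
    have hb2 : 2 * b ≤ S * (k2 + 1) := by omega
    have ha3 : S * (k1 + 1) ≤ 2 * (S * (k1 + 1) - a) := by omega
    have hb3 : S * (k2 + 1) ≤ 2 * (S * (k2 + 1) - b) := by omega
    have ha4 : (S : ℝ) * (k1 + 1) ≤ 2 * ((S * (k1 + 1) - a : ℕ) : ℝ) := by exact_mod_cast ha3
    have hb4 : (S : ℝ) * (k2 + 1) ≤ 2 * ((S * (k2 + 1) - b : ℕ) : ℝ) := by exact_mod_cast hb3
    have hapos : 0 < S * (k1 + 1) - a := by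
      have : 0 < S * (k1 + 1) := by positivity
      omega
    have hcast : (1 : ℝ) ≤ |(Xv q i m k1 k2 c P₁ Q₁ A₂ A₁ Pw Qw a b : ℝ)| ∨
        Xv q i m k1 k2 c P₁ Q₁ A₂ A₁ Pw Qw a b = 0 := by
      by_cases h0 : Xv q i m k1 k2 c P₁ Q₁ A₂ A₁ Pw Qw a b = 0
      · exact Or.inr h0
      · left
        have h1 := Int.one_le_abs h0
        exact_mod_cast h1
    refine hcast.resolve_left fun hX => ?_
    have has : a ≤ S * (k1 + 1) := by omega
    have hbs : b ≤ S * (k2 + 1) := by omega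
    have hev := ev_small (s := S) (P1 := P₁) (Q1 := Q₁) (P2 := (A₂ : ℤ)) (Q2 := (A₁ : ℤ)) (Pw := Pw)
      (Qw := Qw) hcv hcb hqpos hiq.le has hbs (u := u) (t := t) (ρ := ρ)
      (η := 2 * Real.exp (-(κ * lam))) hu0 ht0
      (by rw [huq, hP₁, hQ₁]; push_cast; field_simp)
      (by rw [htq]; push_cast; field_simp)
      (by rw [hρ, hPw, hQw]; push_cast; field_simp)
      hu1q ht1q hρj
    obtain ⟨B1, hB1⟩ : ∃ B1, B1 = (m + 1) * ((k1 + 1) * (k2 + 1)) * (Cb S q m k1 k2 *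
      (q ^ (S * (k1 + 1) + S * (k2 + 1)) * 3 ^ (k1 + k2 + 2 * m))) := ⟨_, rfl⟩
    have hCb0 : 0 < Cb S q m k1 k2 := by unfold Cb; positivity
    have hB1pos : 0 < B1 := by
      rw [hB1]; positivity
    have hB1log : Real.log B1 ≤ 36 * (S : ℝ) ^ 2 * (k2 + 1) * (1 + Real.log q) := by
      rw [hB1]; exact log_all hS1 hm hqpos hkk
    have hhpos : 0 < hh q i A₁ U₁ V₁ := lt_of_lt_of_le (Nat.pow_pos S1.U0) (le_max_left _ _)
    have hNK : 0 < N ^ K := by positivity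
    obtain ⟨e, he⟩ : ∃ e, e = Real.exp (-(κ * lam)) := ⟨_, rfl⟩
    have he0 : 0 < e := by rw [he]; exact Real.exp_pos _
    have hx1e : (q * |u - 1|) ^ (S * (k1 + 1) - a) ≤ (2 * (q : ℝ)) ^ (S * (k1 + 1) + S * (k2 + 1)) * e := by
      rw [he]
      refine pow_exp_le hq1 (abs_nonneg _) hu1 hκ0.le (by omega) ?_
      exact half_le b1 ha4 hh0.le
    have hx2e : (q * |t - 1|) ^ (S * (k2 + 1) - b) ≤ (2 * (q : ℝ)) ^ (S * (k1 + 1) + S * (k2 + 1)) * e := by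
      rw [he]
      refine pow_exp_le (h := L) hq1 (abs_nonneg _) ?_ hκ0.le (by omega) ?_
      · have := Real.exp_pos (-(κ * L))
        linarith
      · have g1 : T ≤ ((S * (k2 + 1) - b : ℕ) : ℝ) := by linarith
        calc lam = L * T := by rw [← hTL]; ring
          _ ≤ _ := mul_le_mul_of_nonneg_left g1 hL0.le
    have hx3e : 2 * e ≤ (2 * (q : ℝ)) ^ (S * (k1 + 1) + S * (k2 + 1)) * e := by
      apply mul_le_mul_of_nonneg_right _ he0.le
      calc (2 : ℝ) ≤ 2 * q := by linarith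
        _ = (2 * (q : ℝ)) ^ 1 := (pow_one _).symm
        _ ≤ _ := by
            apply pow_le_pow_right₀ (by linarith)
            have : 0 < S * (k1 + 1) := by positivity
            omega
    have hm1 : 1 ≤ m := by
      have : 1 ≤ S ^ 2 := Nat.one_le_pow _ _ hS1
      omega
    have hq2 : 2 ≤ q := by omega
    have hthree := three_two_le (q := q) (s := S * (k1 + 1) + S * (k2 + 1)) (M := k1 + k2 + 2 * m) hq2
      (by omega)
    have hqB : q ^ (S * (k1 + 1) + S * (k2 + 1)) * 3 ^ (k1 + k2 + 2 * m) ≤ B1 := by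
      rw [hB1]
      calc _ = 1 * (1 * (q ^ (S * (k1 + 1) + S * (k2 + 1)) * 3 ^ (k1 + k2 + 2 * m))) := by ring
        _ ≤ _ := Nat.mul_le_mul (by
              have : 0 < (m + 1) * ((k1 + 1) * (k2 + 1)) := by positivity
              exact this) (Nat.mul_le_mul_right _ hCb0)
    have hfac : (((m + 1) * ((k1 + 1) * (k2 + 1)) : ℕ) * ((Cb S q m k1 k2 * (q ^ (S * (k1 + 1) + S * (k2 + 1)) *
        3 ^ (k1 + k2 + 2 * m)) : ℕ) * (3 ^ (k1 + k2 + 2 * m) *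
          ((q * |u - 1|) ^ (S * (k1 + 1) - a) + (q * |t - 1|) ^ (S * (k2 + 1) - b) +
            2 * Real.exp (-(κ * lam))))) : ℝ) ≤ (B1 : ℝ) ^ 3 * e := by
      rw [← he]
      calc _ ≤ (((m + 1) * ((k1 + 1) * (k2 + 1)) : ℕ) * ((Cb S q m k1 k2 * (q ^ (S * (k1 + 1) + S * (k2 + 1)) *
            3 ^ (k1 + k2 + 2 * m)) : ℕ) * (3 ^ (k1 + k2 + 2 * m) *
              (3 * ((2 * (q : ℝ)) ^ (S * (k1 + 1) + S * (k2 + 1)) * e)))) : ℝ) := by
            gcongr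
            linarith
        _ = (B1 : ℝ) * (((3 ^ (k1 + k2 + 2 * m) * (3 * (2 * q) ^ (S * (k1 + 1) + S * (k2 + 1))) : ℕ) : ℝ)) *
              e := by
            rw [hB1]; push_cast; ring
        _ ≤ (B1 : ℝ) * ((((q ^ (S * (k1 + 1) + S * (k2 + 1)) * 3 ^ (k1 + k2 + 2 * m)) *
              (q ^ (S * (k1 + 1) + S * (k2 + 1)) * 3 ^ (k1 + k2 + 2 * m)) : ℕ) : ℝ)) * e := by
            apply mul_le_mul_of_nonneg_right _ he0.le
            apply mul_le_mul_of_nonneg_left _ (Nat.cast_nonneg _)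
            exact_mod_cast hthree
        _ ≤ (B1 : ℝ) * (((B1 * B1 : ℕ) : ℝ)) * e := by
            apply mul_le_mul_of_nonneg_right _ he0.le
            apply mul_le_mul_of_nonneg_left _ (Nat.cast_nonneg _)
            exact_mod_cast Nat.mul_le_mul hqB hqB
        _ = (B1 : ℝ) ^ 3 * e := by push_cast; ring
    have hden : |(Q₁ : ℝ) ^ k1 * ((A₁ : ℤ) : ℝ) ^ k2 * (Qw : ℝ) ^ m| ≤
        (hh q i A₁ U₁ V₁ : ℝ) ^ k1 * ((N : ℝ) ^ K) ^ k2 * (hw : ℝ) ^ m := by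
      rw [abs_mul, abs_mul, abs_pow, abs_pow, abs_pow]
      have e1 : |(Q₁ : ℝ)| ≤ (hh q i A₁ U₁ V₁ : ℝ) := by
        rw [← Int.cast_abs, Int.abs_eq_natAbs, Int.cast_natCast]
        exact_mod_cast hht1.2
      have e2 : |((A₁ : ℤ) : ℝ)| ≤ (N : ℝ) ^ K := by
        rw [Int.cast_natCast, abs_of_pos hA1R]
        exact_mod_cast hA1
      have e3 : |(Qw : ℝ)| ≤ (hw : ℝ) := by
        rw [hQw, Int.cast_mul, Int.cast_natCast, Int.cast_natCast, abs_of_pos (by positivity), hhw]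
        exact_mod_cast le_max_right _ _
      exact mul_le_mul (mul_le_mul (pow_le_pow_left₀ (abs_nonneg _) e1 _)
        (pow_le_pow_left₀ (abs_nonneg _) e2 _) (by positivity) (by positivity))
        (pow_le_pow_left₀ (abs_nonneg _) e3 _) (by positivity) (by positivity)
    have hfin : (1 : ℝ) ≤ ((hh q i A₁ U₁ V₁ : ℝ) ^ k1 * ((N : ℝ) ^ K) ^ k2 * (hw : ℝ) ^ m) *
        ((B1 : ℝ) ^ 3 * e) :=
      hX.trans (hev.trans (mul_le_mul hden hfac (by positivity) (by positivity)))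
    have hlog : 0 ≤ (k1 * h₁ + k2 * (K * L) + m * Real.log hw) + 3 * Real.log B1 + -(κ * lam) := by
      have h1 := Real.log_nonneg hfin
      have hB1R : (0 : ℝ) < B1 := by exact_mod_cast hB1pos
      have hhR : (0 : ℝ) < (hh q i A₁ U₁ V₁ : ℝ) := by exact_mod_cast hhpos
      have hwR : (0 : ℝ) < hw := by exact_mod_cast hwpos
      rw [Real.log_mul (by positivity) (by positivity), Real.log_mul (by positivity) (by positivity),
        Real.log_mul (by positivity) (by positivity), Real.log_mul (by positivity) (by positivity),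
        Real.log_pow, Real.log_pow, Real.log_pow, Real.log_pow, Real.log_pow, he, Real.log_exp,
        ← hh₁, ← hL] at h1
      push_cast at h1
      linarith
    -- the contradiction
    have g1 : 36 * (S : ℝ) ^ 2 * (k2 + 1) * (1 + Real.log q) ≤ κ * lam / 8 := by
      calc 36 * (S : ℝ) ^ 2 * (k2 + 1) * (1 + Real.log q)
          ≤ 36 * (S : ℝ) ^ 2 * (5 * T) * (δ * L) := by gcongr
        _ = 180 * (S : ℝ) ^ 2 * δ * lam := by rw [← hTL]; ring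
        _ ≤ 180 * (S : ℝ) ^ 2 * (κ / (1440 * (S : ℝ) ^ 2)) * lam := by gcongr
        _ = κ * lam / 8 := by field_simp; ring
    have g2 : (k1 : ℝ) * h₁ ≤ 2 * lam / S := by
      have : (k1 : ℝ) + 1 - 1 = k1 := by ring
      rwa [this] at b2
    have g3 : (k2 : ℝ) * (K * L) ≤ K * (4 * lam / S) := by
      have : (k2 : ℝ) + 1 - 1 = k2 := by ring
      rw [this] at b3
      calc (k2 : ℝ) * (K * L) = K * (k2 * L) := by ring
        _ ≤ K * (4 * lam / S) := mul_le_mul_of_nonneg_left b3 (Nat.cast_nonneg _)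
    have g4 : (m : ℝ) * Real.log hw ≤ κ * lam / 4 := by
      have hm2 : (m : ℝ) ≤ 2 * (S : ℝ) ^ 2 := by linarith
      calc (m : ℝ) * Real.log hw ≤ m * (2 * lam / q) :=
            mul_le_mul_of_nonneg_left hwlog (Nat.cast_nonneg _)
        _ ≤ (2 * (S : ℝ) ^ 2) * (2 * lam / q) := mul_le_mul_of_nonneg_right hm2 (by positivity)
        _ ≤ κ * lam / 4 := by
            rw [mul_div_assoc', div_le_div_iff₀ hqR (by norm_num)]
            have := mul_le_mul_of_nonneg_right hqS hlam0.le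
            linarith
    have g5 : 2 * lam / S + K * (4 * lam / S) ≤ κ * lam / 4 := by
      have : 2 * lam / S + K * (4 * lam / S) = (2 + 4 * K) * lam / S := by ring
      rw [this, div_le_div_iff₀ hS0 (by norm_num)]
      have h7 := mul_le_mul_of_nonneg_right hSκ hlam0.le
      have h8 : 0 ≤ (K : ℝ) * lam := mul_nonneg (Nat.cast_nonneg _) hlam0.le
      linarith
    have g6 : 0 < κ * lam := by positivity
    have g7 : (k1 : ℝ) * h₁ + k2 * (K * L) ≤ κ * lam / 4 := by linarith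
    have g8 := real_num g6 (hB1log.trans g1) g4 g7
    linarith
  -- the zero estimate
  obtain ⟨p2, q2, hpq2, hp20, hq20, hpqe, hpqlog⟩ := ratio_height_real (ν := (N : ℝ) ^ κ) (by positivity) S1.A0 S2.A0 hne hpA
  have hcop1 : IsCoprime P₁ Q₁ := by
    have h1 : IsCoprime ((A₁ : ℤ) * V₁) (U₁ : ℤ) := by
      have := Nat.isCoprime_iff_coprime.mpr S1.cop.symm
      push_cast at this
      exact this
    have h2 : IsCoprime (A₁ : ℤ) (U₁ : ℤ) := h1.of_mul_left_left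
    have h3 : IsCoprime (V₁ : ℤ) (U₁ : ℤ) := h1.of_mul_left_right
    rw [hP₁, hQ₁]
    exact ((h2.pow_left).pow_right).mul_left ((h3.pow_left).pow_right)
  have hP1ne : P₁ ≠ 0 := by
    rw [hP₁]
    have h1 : (A₁ : ℤ) ≠ 0 := by exact_mod_cast S1.A0.ne'
    have h2 : (V₁ : ℤ) ≠ 0 := by exact_mod_cast S1.V0.ne'
    exact mul_ne_zero (pow_ne_zero _ h1) (pow_ne_zero _ h2)
  have hQ1ne : Q₁ ≠ 0 := by
    rw [hQ₁]
    have h1 : (U₁ : ℤ) ≠ 0 := by exact_mod_cast S1.U0.ne'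
    exact pow_ne_zero _ h1
  have hPwne : Pw ≠ 0 := by
    rw [hPw]
    have h1 : (U₂ : ℤ) ≠ 0 := by exact_mod_cast S2.U0.ne'
    have h2 : (V₁ : ℤ) ≠ 0 := by exact_mod_cast S1.V0.ne'
    exact mul_ne_zero h1 h2
  have hQwne : Qw ≠ 0 := by
    rw [hQw]
    have h1 : (U₁ : ℤ) ≠ 0 := by exact_mod_cast S1.U0.ne'
    have h2 : (V₂ : ℤ) ≠ 0 := by exact_mod_cast S2.V0.ne'
    exact mul_ne_zero h2 h1
  have hA1ne : (A₁ : ℤ) ≠ 0 := by exact_mod_cast S1.A0.ne'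
  have hmax : Real.log (max |(P₁ : ℝ)| |(Q₁ : ℝ)|) = h₁ := by
    rw [hh₁]
    congr 1
    have e1 : |(P₁ : ℝ)| = ((A₁ ^ i * V₁ ^ q : ℕ) : ℝ) := by
      rw [← Int.cast_abs, Int.abs_eq_natAbs, hP₁, Int.natAbs_mul,
        Int.natAbs_pow, Int.natAbs_pow, Int.natAbs_natCast, Int.natAbs_natCast, Int.cast_natCast]
    have e2 : |(Q₁ : ℝ)| = ((U₁ ^ q : ℕ) : ℝ) := by
      rw [← Int.cast_abs, Int.abs_eq_natAbs, hQ₁, Int.natAbs_pow, Int.natAbs_natCast,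
        Int.cast_natCast]
    rw [e1, e2, hh, Nat.cast_max, max_comm]
  have hRpos : 0 < 4 * S * κ * lam := by positivity
  have hCb1 : 1 ≤ Cb S q m k1 k2 := by
    have : 0 < Cb S q m k1 k2 := by unfold Cb; positivity
    exact this
  have hS2 : 1 ≤ S ^ 2 := Nat.one_le_pow _ _ hS1
  refine HZ q i m k1 k2 αz βz (Cb S q m k1 k2) c P₁ Q₁ p2 q2 ((Pw : ℚ) / Qw) (4 * S * κ * lam) hqpos hi0
    hiq hmq hCb1 (by omega) hc0 hcb ?_ hcop1 hpq2 hQ1ne hq20 hP1ne hp20 b6 ?_ ?_ ?_ ?_ ?_ ?_ ?_ ?_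
  · exact div_ne_zero (by exact_mod_cast hPwne) (by exact_mod_cast hQwne)
  · -- `(m + 1) (k1 + 1) ≤ ω R`
    rw [hmR]
    have h1 : 10 * (S : ℝ) ^ 2 * T ≤ ω * (4 * S * κ * lam) := by
      have h2 : 5 * S * 1 ≤ 2 * ω * κ * L := by
        have h3 : 1 ≤ δ * L := by linarith
        have h4 : δ * (5 * S) ≤ 2 * ω * κ := by
          rwa [le_div_iff₀ (by positivity)] at hδ3
        calc 5 * (S : ℝ) * 1 ≤ 5 * S * (δ * L) := by gcongr
          _ = (δ * (5 * S)) * L := by ring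
          _ ≤ 2 * ω * κ * L := mul_le_mul_of_nonneg_right h4 hL0.le
      calc 10 * (S : ℝ) ^ 2 * T = (5 * S * 1) * (2 * S * T) := by ring
        _ ≤ (2 * ω * κ * L) * (2 * S * T) := mul_le_mul_of_nonneg_right h2 (by positivity)
        _ = ω * (4 * S * κ * (T * L)) := by ring
        _ = _ := by rw [hTL]
    calc 2 * (S : ℝ) ^ 2 * (k1 + 1) ≤ 2 * (S : ℝ) ^ 2 * (5 * T) := by
          apply mul_le_mul_of_nonneg_left _ (by positivity)
          linarith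
      _ = 10 * (S : ℝ) ^ 2 * T := by ring
      _ ≤ _ := h1
  · rw [hmR]
    have h1 : 10 * (S : ℝ) ^ 2 * T ≤ ω * (4 * S * κ * lam) := by
      have h2 : 5 * S * 1 ≤ 2 * ω * κ * L := by
        have h3 : 1 ≤ δ * L := by linarith
        have h4 : δ * (5 * S) ≤ 2 * ω * κ := by
          rwa [le_div_iff₀ (by positivity)] at hδ3
        calc 5 * (S : ℝ) * 1 ≤ 5 * S * (δ * L) := by gcongr
          _ = (δ * (5 * S)) * L := by ring
          _ ≤ 2 * ω * κ * L := mul_le_mul_of_nonneg_right h4 hL0.le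
      calc 10 * (S : ℝ) ^ 2 * T = (5 * S * 1) * (2 * S * T) := by ring
        _ ≤ (2 * ω * κ * L) * (2 * S * T) := mul_le_mul_of_nonneg_right h2 (by positivity)
        _ = ω * (4 * S * κ * (T * L)) := by ring
        _ = _ := by rw [hTL]
    calc 2 * (S : ℝ) ^ 2 * (k2 + 1) ≤ 2 * (S : ℝ) ^ 2 * (5 * T) := by
          apply mul_le_mul_of_nonneg_left b4 (by positivity)
      _ = 10 * (S : ℝ) ^ 2 * T := by ring
      _ ≤ _ := h1
  · -- `R ≤ (m + 1) (k1 + 1) h₁`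
    rw [hmax, hmR]
    calc 4 * S * κ * lam ≤ 4 * S * 1 * lam := by gcongr
      _ = 2 * S * (2 * lam) := by ring
      _ ≤ 2 * S * (S * (k1 + 1) * h₁) := mul_le_mul_of_nonneg_left b1 (by positivity)
      _ = _ := by ring
  · rw [hmR]
    have h1 : T ≤ S * (k2 + 1) / 2 := by linarith
    calc 4 * S * κ * lam = 4 * S * T * (κ * L) := by rw [← hTL]; ring
      _ ≤ 4 * S * (S * (k2 + 1) / 2) * (κ * L) := by gcongr
      _ = 2 * (S : ℝ) ^ 2 * (k2 + 1) * (κ * L) := by ring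
      _ ≤ 2 * (S : ℝ) ^ 2 * (k2 + 1) * Real.log (max |(p2 : ℝ)| |(q2 : ℝ)|) := by
          apply mul_le_mul_of_nonneg_left _ (by positivity)
          rw [Real.log_rpow hN0, ← hL] at hpqlog
          exact hpqlog
  · -- the coefficients
    have hHpos : 0 < (m + 1).factorial * ((k2 + 1) * ((k1 + 1) * (Cb S q m k1 k2 *
        (q * (k2 + m)) ^ m))) ^ (m + 1) := by
      have h0 : 0 < k2 + m := by omega
      have := (m + 1).factorial_pos
      positivity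
    rw [← Real.log_le_iff_le_exp (by exact_mod_cast hHpos)]
    refine (log_Hb hS1 hm hqpos hkk).trans ?_
    calc 60 * (S : ℝ) ^ 6 * (k2 + 1) * (1 + Real.log q) ≤ 60 * (S : ℝ) ^ 6 * (5 * T) * (δ * L) := by
          gcongr
      _ = 300 * (S : ℝ) ^ 6 * δ * lam := by rw [← hTL]; ring
      _ ≤ 300 * (S : ℝ) ^ 6 * (ω * κ / (75 * (S : ℝ) ^ 5)) * lam := by gcongr
      _ = ω * (4 * S * κ * lam) := by field_simp; ring
  · -- index in the first variable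
    rw [hmR, hαz]
    have h1 : (S : ℝ) * (k1 + 1) ≤ 2 * ((S * (k1 + 1) / 2 + 1 : ℕ) : ℝ) := by
      have : S * (k1 + 1) ≤ 2 * (S * (k1 + 1) / 2 + 1) := by omega
      exact_mod_cast this
    have h2 : 1 / (8 * (S : ℝ)) * (2 * (S : ℝ) ^ 2 * (k1 + 1)) = S * (k1 + 1) / 4 := by
      field_simp; ring
    rw [h2]
    have h3 : 0 ≤ (S : ℝ) * (k1 + 1) := by positivity
    linarith
  · rw [hmR, hβz]
    have h1 : (S : ℝ) * (k2 + 1) ≤ 2 * ((S * (k2 + 1) / 2 + 1 : ℕ) : ℝ) := by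
      have : S * (k2 + 1) ≤ 2 * (S * (k2 + 1) / 2 + 1) := by omega
      exact_mod_cast this
    have h2 : 1 / (8 * (S : ℝ)) * (2 * (S : ℝ) ^ 2 * (k2 + 1)) = S * (k2 + 1) / 4 := by
      field_simp; ring
    rw [h2]
    have h3 : 8 * (S : ℝ) ^ 2 ≤ S * (k2 + 1) := by
      have := mul_le_mul_of_nonneg_left b8 hS0.le
      calc 8 * (S : ℝ) ^ 2 = S * (8 * S) := by ring
        _ ≤ _ := this
    linarith
  · -- all derived forms vanish
    intro a ha b hb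
    have h1 := ev_zero (hvanish a ha b hb) hQ1ne hA1ne hQwne
    rw [← h1]
    apply sum_congr rfl
    intro x _
    rw [hpqe]
    simp only [Int.cast_natCast]

end Pool.Agent.TH888.B2
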