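import Mathlib
import Pool.Agent.TH888.B2.UniqR
import Pool.Agent.TH888.B2.Cls

/-!
The number of `B` for given data, real kind, with a free second base `A ≤ N ^ K` in a short interval.
-/

set_option autoImplicit false

namespace Pool.Agent.TH888.B2

open Finset
open Pool.Agent.H374R2.W (SolR ht unique_r)
open Pool.Agent.H374R2.V (HH)
open Pool.Agent.H374R2.V.CV (Dat natAbs_T)
open Pool.Agent.H374R2.T (eq_of_pow_eq)

/-- the symmetric version -/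
theorem unique2R (κ : ℝ) (K : ℕ) (hκ0 : 0 < κ) (hκ1 : κ ≤ 1) :
    ∃ (Λ : ℝ) (q₀ : ℕ) (δ : ℝ), 0 < Λ ∧ 0 < δ ∧
      ∀ (N q i A₁ A₂ U₁ V₁ U₂ V₂ : ℕ), 2 ≤ N → q₀ ≤ q →
        1 + Real.log q ≤ δ * Real.log N → Nat.Coprime q i → i < q →
        A₁ ≤ N ^ K → A₂ ≤ N ^ K → |(A₂ : ℝ) - A₁| ≤ ((N : ℝ) ^ κ)⁻¹ * A₁ →
        |(A₁ : ℝ) - A₂| ≤ ((N : ℝ) ^ κ)⁻¹ * A₂ →
        SolB κ q i A₁ U₁ V₁ → SolB κ q i A₂ U₂ V₂ →
        Λ * Real.log N ≤ Real.log (hh q i A₁ U₁ V₁) →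
        Λ * Real.log N ≤ Real.log (hh q i A₂ U₂ V₂) → A₁ = A₂ := by
  obtain ⟨Λ, q₀, δ, hΛ, hδ, H⟩ := unique2R_aux κ K hκ0 hκ1
  refine ⟨Λ, q₀, δ, hΛ, hδ, ?_⟩
  intro N q i A₁ A₂ U₁ V₁ U₂ V₂ hN hqq hlq hi hiq hA1 hA2 hc1 hc2 S1 S2 h1 h2
  by_contra hne
  rcases le_total (Real.log (hh q i A₁ U₁ V₁)) (Real.log (hh q i A₂ U₂ V₂)) with h | h
  · exact H N q i A₁ A₂ U₁ V₁ U₂ V₂ hN hqq hlq hi hiq hA1 hA2 hne hc1 S1 S2 h1 h
  · exact H N q i A₂ A₁ U₂ V₂ U₁ V₁ hN hqq hlq hi hiq hA2 hA1 (Ne.symm hne) hc2 S2 S1 h2 h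

/-- the data of one solution of the real kind -/
structure DatR (κ Λ : ℝ) (N K q i : ℕ) (σ : ℤ) (A B x' y U : ℕ) : Prop where
  dat : Dat N q i 1 A B 1 σ x' y U
  A0 : 0 < A
  AK : A ≤ N ^ K
  small : y * Real.log B ≤ (1 - κ) * Real.log (ht q A U (q * x' + i))
  big : Λ * Real.log N ≤ Real.log (ht q A U (q * x' + i))

theorem DatR.eq' {κ Λ : ℝ} {N K q i : ℕ} {σ : ℤ} {A B x' y U : ℕ}
    (h : DatR κ Λ N K q i σ A B x' y U) : (U : ℤ) ^ q - (A : ℤ) ^ (q * x' + i) = σ * (B : ℤ) ^ y := by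
  have := h.dat.eq
  rwa [one_mul] at this

theorem DatR.solB {κ Λ : ℝ} {N K q i : ℕ} {σ : ℤ} {A B x' y U : ℕ}
    (h : DatR κ Λ N K q i σ A B x' y U) (hσ : σ = 1 ∨ σ = -1)
    (hq : 0 < q) (hi : 0 < i) : SolB κ q i A U (A ^ x') := by
  have hd := h.dat
  have hUA : Nat.Coprime U A := by
    apply Nat.coprime_of_dvd
    intro l hl h2 h3
    exact hd.prime_cond (Or.inl rfl) hσ hq hl h2 (Or.inl (dvd_pow h3 (by omega)))
  refine ⟨h.A0, hd.U0, Nat.pow_pos h.A0, hUA.mul_right (hUA.pow_right _), ?_⟩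
  have e : (U : ℝ) ^ q - (A : ℝ) ^ i * ((A ^ x' : ℕ) : ℝ) ^ q = (σ : ℝ) * (B : ℝ) ^ y := by
    have h1 := congrArg (fun z : ℤ => (z : ℝ)) h.eq'
    push_cast at h1 ⊢
    rw [← h1]
    ring
  have hBR : (0 : ℝ) < B := by exact_mod_cast hd.B0
  have hσ1 : |(σ : ℝ)| = 1 := by rcases hσ with rfl | rfl <;> norm_num
  rw [e, abs_mul, hσ1, one_mul, abs_of_pos (by positivity), hh_eq,
    ← Real.log_le_iff_le_exp (by positivity), Real.log_pow]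
  exact h.small

theorem DatR.solR {κ Λ : ℝ} {N K q i : ℕ} {σ : ℤ} {A B x' y U : ℕ}
    (h : DatR κ Λ N K q i σ A B x' y U) (hσ : σ = 1 ∨ σ = -1)
    (hq : 0 < q) (hl : 50 * (3 / κ + 1) * Real.log (10 ^ 8 * (q : ℝ) ^ 9) ≤
      Real.log (ht q A U (q * x' + i))) :
    SolR κ q ((A : ℤ) ^ i) U (A ^ x') (σ * (B : ℤ) ^ y) :=
  Pool.Agent.H374R2.W.CR.toSol hq h.A0 hσ h.dat.B0 h.dat.cop h.dat.U0 h.eq' h.small hl

/-- two data in the same class have the same `B` -/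
theorem clsR_unique (κ : ℝ) (K : ℕ) (hκ0 : 0 < κ) (hκ1 : κ ≤ 1) :
    ∃ (Λ : ℝ) (q₀ : ℕ) (δ : ℝ), 0 < Λ ∧ 0 < δ ∧
      ∀ (N q i : ℕ) (σ : ℤ), 2 ≤ N → IsPrimePow q → 100 / κ ^ 2 ≤ (q : ℝ) →
        1 + Real.log q ≤ δ * Real.log N →
        (i = 0 ∨ (Nat.Coprime q i ∧ i < q ∧ q₀ ≤ q)) → (σ = 1 ∨ σ = -1) →
        ∀ A B x' y U A' B' x'' y' U', DatR κ Λ N K q i σ A B x' y U →
          DatR κ Λ N K q i σ A' B' x'' y' U' → |(A' : ℝ) - A| ≤ ((N : ℝ) ^ κ)⁻¹ * A →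
          |(A : ℝ) - A'| ≤ ((N : ℝ) ^ κ)⁻¹ * A' → B = B' := by
  obtain ⟨Λ, q₀, δ₀, hΛ, hδ₀, H⟩ := unique2R κ K hκ0 hκ1
  have hG : 0 < 50 * (3 / κ + 1) := by positivity
  refine ⟨Λ, max q₀ 2, min δ₀ (Λ / (50 * (3 / κ + 1) * 19)), hΛ, lt_min hδ₀ (by positivity), ?_⟩
  intro N q i σ hN hq hqκ hlq hi hσ A B x' y U A' B' x'' y' U' h h' hc1 hc2
  have hq0 : 0 < q := hq.pos
  have hL0 : 0 < Real.log N := Real.log_pos (by exact_mod_cast (by omega : 1 < N))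
  have hlq1 : 1 + Real.log q ≤ δ₀ * Real.log N :=
    hlq.trans (mul_le_mul_of_nonneg_right (min_le_left _ _) hL0.le)
  obtain ⟨δ₁, hδ₁⟩ : ∃ δ₁, δ₁ = Λ / (50 * (3 / κ + 1) * 19) := ⟨_, rfl⟩
  have hlq2 : 1 + Real.log q ≤ δ₁ * Real.log N :=
    hlq.trans (mul_le_mul_of_nonneg_right (by rw [hδ₁]; exact min_le_right _ _) hL0.le)
  have hδΛ : 50 * (3 / κ + 1) * (19 * δ₁) ≤ Λ := by
    rw [hδ₁]
    apply le_of_eq
    field_simp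
  have hl := large_of hκ0 hq0 rfl hδΛ hL0.le hlq2 h.big
  have hl' := large_of hκ0 hq0 rfl hδΛ hL0.le hlq2 h'.big
  have hP := h.solR hσ hq0 hl
  have hP' := h'.solR hσ hq0 hl'
  have hsame : (A : ℤ) ^ i = (A' : ℤ) ^ i → B = B' := by
    intro he
    rw [← he] at hP'
    obtain ⟨e1, e2⟩ := unique_r hκ0 hκ1 hq hqκ hP hP'
    have e3 := hP.eq
    rw [e1, e2, hP'.eq] at e3
    have e4 := congrArg Int.natAbs e3
    rw [natAbs_T hσ, natAbs_T hσ] at e4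
    exact (eq_of_pow_eq h'.dat.B0 h.dat.B0 h'.dat.y0 h.dat.y0 h'.dat.np h.dat.np e4).symm
  rcases hi with hi | ⟨hi, hiq, hqq⟩
  · apply hsame
    rw [hi, pow_zero, pow_zero]
  · have hi0 : 0 < i := by
      rcases Nat.eq_zero_or_pos i with h0 | h0
      · exfalso
        rw [h0, Nat.coprime_zero_right] at hi
        have := (le_max_right q₀ 2).trans hqq
        omega
      · exact h0
    have hAA : A = A' := by
      refine H N q i A A' U (A ^ x') U' (A' ^ x'') hN ((le_max_left _ _).trans hqq) hlq1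
        hi hiq h.AK h'.AK hc1 hc2 (h.solB hσ hq0 hi0) (h'.solB hσ hq0 hi0) ?_ ?_
      · rw [hh_eq]; exact h.big
      · rw [hh_eq]; exact h'.big
    apply hsame
    rw [hAA]

/-- the short interval of `A` -/
noncomputable def cl (κ : ℝ) (N A : ℕ) : ℕ := ⌊2 * (N : ℝ) ^ κ * Real.log A⌋₊

theorem cl_close {κ : ℝ} {N A A' : ℕ} (hκ : 0 < κ) (hN : 1 ≤ N) (hA : 0 < A) (hA' : 0 < A')
    (h : cl κ N A = cl κ N A') : |(A' : ℝ) - A| ≤ ((N : ℝ) ^ κ)⁻¹ * A := by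
  have hNR : (1 : ℝ) ≤ N := by exact_mod_cast hN
  have hν : 1 ≤ (N : ℝ) ^ κ := Real.one_le_rpow hNR hκ.le
  have hν0 : 0 < (N : ℝ) ^ κ := by linarith
  have hAR : (0 : ℝ) < A := by exact_mod_cast hA
  have hAR' : (0 : ℝ) < A' := by exact_mod_cast hA'
  obtain ⟨ν, hν'⟩ : ∃ ν, ν = (N : ℝ) ^ κ := ⟨_, rfl⟩
  rw [← hν'] at hν hν0 ⊢
  have e1 := Nat.floor_le (show 0 ≤ 2 * (N : ℝ) ^ κ * Real.log A by
    have := Real.log_natCast_nonneg A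
    positivity)
  have e2 := Nat.lt_floor_add_one (2 * (N : ℝ) ^ κ * Real.log A)
  have e3 := Nat.floor_le (show 0 ≤ 2 * (N : ℝ) ^ κ * Real.log A' by
    have := Real.log_natCast_nonneg A'
    positivity)
  have e4 := Nat.lt_floor_add_one (2 * (N : ℝ) ^ κ * Real.log A')
  unfold cl at h
  rw [← h] at e3 e4
  rw [← hν'] at e1 e2 e3 e4
  obtain ⟨d, hd⟩ : ∃ d, d = Real.log A' - Real.log A := ⟨_, rfl⟩
  have hd1 : 2 * ν * d < 1 := by rw [hd]; linarith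
  have hd2 : -1 < 2 * ν * d := by rw [hd]; linarith
  have hd3 : |d| ≤ ν⁻¹ / 2 := by
    rw [abs_le]
    constructor
    · rw [neg_le, ← sub_nonneg]
      have : ν⁻¹ / 2 - -d = (1 + 2 * ν * d) / (2 * ν) := by field_simp; ring
      rw [this]
      apply div_nonneg <;> linarith
    · rw [← sub_nonneg]
      have : ν⁻¹ / 2 - d = (1 - 2 * ν * d) / (2 * ν) := by field_simp
      rw [this]
      apply div_nonneg <;> linarith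
  have hν1 : ν⁻¹ ≤ 1 := inv_le_one_of_one_le₀ hν
  have hd4 : |d| ≤ 1 := by linarith
  have h5 := Real.abs_exp_sub_one_le hd4
  have h6 : (A' : ℝ) - A = A * (Real.exp d - 1) := by
    rw [hd, Real.exp_sub, Real.exp_log hAR, Real.exp_log hAR']
    field_simp
  rw [h6, abs_mul, abs_of_pos hAR, mul_comm]
  apply mul_le_mul_of_nonneg_right _ hAR.le
  linarith

/-- The integers `B ≤ N` in a solution of the real kind in the class of the data. -/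
def SetR' (κ Λ : ℝ) (N K q i α : ℕ) (σ : ℤ) : Set ℕ :=
  {B | ∃ A x' y U : ℕ, cl κ N A = α ∧ DatR κ Λ N K q i σ A B x' y U}

theorem setR'_finite (κ Λ : ℝ) (N K q i α : ℕ) (σ : ℤ) : (SetR' κ Λ N K q i α σ).Finite := by
  refine (Set.finite_Icc 0 N).subset ?_
  rintro B ⟨A, x', y, U, _, h⟩
  exact ⟨Nat.zero_le _, h.dat.BN⟩

theorem setR'_card (κ : ℝ) (K : ℕ) (hκ0 : 0 < κ) (hκ1 : κ ≤ 1) :
    ∃ (Λ : ℝ) (q₀ : ℕ) (δ : ℝ), 0 < Λ ∧ 0 < δ ∧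
      ∀ (N q i α : ℕ) (σ : ℤ), 2 ≤ N → IsPrimePow q → 100 / κ ^ 2 ≤ (q : ℝ) →
        1 + Real.log q ≤ δ * Real.log N →
        (i = 0 ∨ (Nat.Coprime q i ∧ i < q ∧ q₀ ≤ q)) → (σ = 1 ∨ σ = -1) →
        (SetR' κ Λ N K q i α σ).ncard ≤ 1 := by
  obtain ⟨Λ, q₀, δ, hΛ, hδ, H⟩ := clsR_unique κ K hκ0 hκ1
  refine ⟨Λ, q₀, δ, hΛ, hδ, ?_⟩
  intro N q i α σ hN hq hqκ hlq hi hσ
  rw [Set.ncard_le_one_iff (setR'_finite _ _ _ _ _ _ _ _)]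
  rintro B B' ⟨A, x', y, U, h1, h2⟩ ⟨A', x'', y', U', h1', h2'⟩
  exact H N q i σ hN hq hqκ hlq hi hσ _ _ _ _ _ _ _ _ _ _ h2 h2'
    (cl_close hκ0 (by omega) h2.A0 h2'.A0 (h1.trans h1'.symm))
    (cl_close hκ0 (by omega) h2'.A0 h2.A0 (h1'.trans h1.symm))

end Pool.Agent.TH888.B2
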