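import Mathlib
import Pool.Agent.TH888.B2.Cls
import Pool.Agent.TH888.B2.ClsR

/-!
The integers `B` of a large solution: union over the classes.
-/

set_option autoImplicit false

namespace Pool.Agent.TH888.B2

open Finset
open Pool.Agent.H374R2.W (ht)
open Pool.Agent.H374R2.V (ncard_le_of_cover)

theorem DatQ.mono {κ Λ Λ' : ℝ} {N K q i p : ℕ} {s σ : ℤ} {A B x' y U : ℕ}
    (h : DatQ κ Λ N K q i p s σ A B x' y U) (hΛ : Λ' ≤ Λ) (hN : 1 ≤ N) :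
    DatQ κ Λ' N K q i p s σ A B x' y U :=
  ⟨h.dat, h.A0, h.AK, h.good, le_trans (mul_le_mul_of_nonneg_right hΛ
    (Real.log_nonneg (by exact_mod_cast hN))) h.big⟩

theorem DatR.mono {κ Λ Λ' : ℝ} {N K q i : ℕ} {σ : ℤ} {A B x' y U : ℕ}
    (h : DatR κ Λ N K q i σ A B x' y U) (hΛ : Λ' ≤ Λ) (hN : 1 ≤ N) :
    DatR κ Λ' N K q i σ A B x' y U :=
  ⟨h.dat, h.A0, h.AK, h.small, le_trans (mul_le_mul_of_nonneg_right hΛ
    (Real.log_nonneg (by exact_mod_cast hN))) h.big⟩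

/-- common constants -/
theorem both_card (κ : ℝ) (K : ℕ) (hκ0 : 0 < κ) (hκ1 : κ ≤ 1) :
    ∃ (Λ : ℝ) (q₀ : ℕ) (δ : ℝ), 0 < Λ ∧ 0 < δ ∧
      (∀ (N q p i α : ℕ) (s σ : ℤ), 2 ≤ N → IsPrimePow q → 100 / κ ^ 2 ≤ (q : ℝ) →
        1 + Real.log q ≤ δ * Real.log N → p.Prime → ¬ p ∣ q → (N : ℝ) ^ κ < p →
        (i = 0 ∨ (Nat.Coprime q i ∧ i < q ∧ q₀ ≤ q)) →
        (s = 1 ∨ s = -1) → (σ = 1 ∨ σ = -1) → (SetQ κ Λ N K q i p α s σ).ncard ≤ q) ∧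
      (∀ (N q i α : ℕ) (σ : ℤ), 2 ≤ N → IsPrimePow q → 100 / κ ^ 2 ≤ (q : ℝ) →
        1 + Real.log q ≤ δ * Real.log N →
        (i = 0 ∨ (Nat.Coprime q i ∧ i < q ∧ q₀ ≤ q)) → (σ = 1 ∨ σ = -1) →
        (SetR' κ Λ N K q i α σ).ncard ≤ 1) := by
  obtain ⟨Λ₁, q₁, δ₁, hΛ₁, hδ₁, H₁⟩ := setQ_card κ K hκ0 hκ1
  obtain ⟨Λ₂, q₂, δ₂, hΛ₂, hδ₂, H₂⟩ := setR'_card κ K hκ0 hκ1
  refine ⟨max Λ₁ Λ₂, max q₁ q₂, min δ₁ δ₂, lt_max_of_lt_left hΛ₁, lt_min hδ₁ hδ₂, ?_, ?_⟩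
  · intro N q p i α s σ hN hq hqκ hlq hp hpq hNp hi hs hσ
    have hL0 : 0 ≤ Real.log N := Real.log_natCast_nonneg N
    refine le_trans (Set.ncard_le_ncard ?_ (setQ_finite κ Λ₁ N K q i p α s σ))
      (H₁ N q p i α s σ hN hq hqκ (hlq.trans (mul_le_mul_of_nonneg_right (min_le_left _ _) hL0)) hp
        hpq hNp (hi.imp id fun h => ⟨h.1, h.2.1, (le_max_left _ _).trans h.2.2⟩) hs hσ)
    rintro B ⟨A, x', y, U, h1, h2⟩
    exact ⟨A, x', y, U, h1, h2.mono (le_max_left _ _) (by omega)⟩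
  · intro N q i α σ hN hq hqκ hlq hi hσ
    have hL0 : 0 ≤ Real.log N := Real.log_natCast_nonneg N
    refine le_trans (Set.ncard_le_ncard ?_ (setR'_finite κ Λ₂ N K q i α σ))
      (H₂ N q i α σ hN hq hqκ (hlq.trans (mul_le_mul_of_nonneg_right (min_le_right _ _) hL0))
        (hi.imp id fun h => ⟨h.1, h.2.1, (le_max_right _ _).trans h.2.2⟩) hσ)
    rintro B ⟨A, x', y, U, h1, h2⟩
    exact ⟨A, x', y, U, h1, h2.mono (le_max_right _ _) (by omega)⟩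

/-- The integers `B` in a large solution of the `p`-adic kind. -/
def BadQ (κ Λ : ℝ) (N K qa qb Q P : ℕ) : Set ℕ :=
  {B | ∃ (q i p α : ℕ) (s σ : ℤ), IsPrimePow q ∧ qa ≤ q ∧ q ≤ Q ∧
    (i = 0 ∨ (Nat.Coprime q i ∧ i < q ∧ qb ≤ q)) ∧
    (s = 1 ∨ s = -1) ∧ (σ = 1 ∨ σ = -1) ∧ p.Prime ∧ p ≤ P ∧ Q < p ∧ (N : ℝ) ^ κ < p ∧ α < p ∧
    B ∈ SetQ κ Λ N K q i p α s σ}

/-- The integers `B` in a large solution of the real kind. -/
def BadR' (κ Λ : ℝ) (N K qa qb Q R : ℕ) : Set ℕ :=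
  {B | ∃ (q i α : ℕ) (σ : ℤ), IsPrimePow q ∧ qa ≤ q ∧ q ≤ Q ∧
    (i = 0 ∨ (Nat.Coprime q i ∧ i < q ∧ qb ≤ q)) ∧ (σ = 1 ∨ σ = -1) ∧ α < R ∧
    B ∈ SetR' κ Λ N K q i α σ}

theorem badQ_card {κ Λ δ : ℝ} {K qb : ℕ}
    (H : ∀ (N q p i α : ℕ) (s σ : ℤ), 2 ≤ N → IsPrimePow q → 100 / κ ^ 2 ≤ (q : ℝ) →
        1 + Real.log q ≤ δ * Real.log N → p.Prime → ¬ p ∣ q → (N : ℝ) ^ κ < p →
        (i = 0 ∨ (Nat.Coprime q i ∧ i < q ∧ qb ≤ q)) →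
        (s = 1 ∨ s = -1) → (σ = 1 ∨ σ = -1) → (SetQ κ Λ N K q i p α s σ).ncard ≤ q)
    {N qa Q P : ℕ} (hN : 2 ≤ N) (hqa : 100 / κ ^ 2 ≤ (qa : ℝ)) (hQ : 1 + Real.log Q ≤ δ * Real.log N) :
    (BadQ κ Λ N K qa qb Q P).Finite ∧
      (BadQ κ Λ N K qa qb Q P).ncard ≤ ((Q + 1) * ((Q + 1) * (P * (P * 4)))) * Q := by
  classical
  obtain ⟨J, hJ⟩ : ∃ J : Finset (ℕ × ℕ × ℕ × ℕ × ℤ × ℤ), J = (Finset.range (Q + 1) ×ˢ
    Finset.range (Q + 1) ×ˢ Finset.Icc 1 P ×ˢ Finset.range P ×ˢ ({1, -1} : Finset ℤ) ×ˢ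
      ({1, -1} : Finset ℤ)).filter (fun j => IsPrimePow j.1 ∧ qa ≤ j.1 ∧
      (j.2.1 = 0 ∨ (Nat.Coprime j.1 j.2.1 ∧ j.2.1 < j.1 ∧ qb ≤ j.1)) ∧
      j.2.2.1.Prime ∧ Q < j.2.2.1 ∧ (N : ℝ) ^ κ < j.2.2.1) := ⟨_, rfl⟩
  have hJc : J.card ≤ (Q + 1) * ((Q + 1) * (P * (P * 4))) := by
    rw [hJ]
    refine (Finset.card_filter_le _ _).trans (le_of_eq ?_)
    rw [Finset.card_product, Finset.card_product, Finset.card_product, Finset.card_product,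
      Finset.card_product, Finset.card_range, Finset.card_range, Nat.card_Icc, Nat.add_sub_cancel]
    congr 1
  have h := ncard_le_of_cover (K := Q) J
    (fun j => SetQ κ Λ N K j.1 j.2.1 j.2.2.1 j.2.2.2.1 j.2.2.2.2.1 j.2.2.2.2.2) (by
      rintro ⟨q, i, p, α, s, σ⟩ hj
      rw [hJ, Finset.mem_filter] at hj
      obtain ⟨hj1, hq, hqq, hi, hp, hQp, hNp⟩ := hj
      simp only [Finset.mem_product, Finset.mem_range, Finset.mem_Icc, Finset.mem_insert,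
        Finset.mem_singleton] at hj1
      simp only at hq hqq hi hp hQp hNp
      obtain ⟨hqQ', hi', ⟨hp0, hpP⟩, hα, hs, hσ⟩ := hj1
      have hqQ : q ≤ Q := by omega
      have hq0 : 0 < q := hq.pos
      have hpq : ¬ p ∣ q := by
        intro h
        have := Nat.le_of_dvd hq0 h
        omega
      have hqR : 100 / κ ^ 2 ≤ (q : ℝ) := hqa.trans (by exact_mod_cast hqq)
      have hlq : 1 + Real.log q ≤ δ * Real.log N := by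
        have h1 : Real.log q ≤ Real.log Q :=
          Real.log_le_log (by exact_mod_cast hq0) (by exact_mod_cast hqQ)
        linarith
      exact ⟨setQ_finite _ _ _ _ _ _ _ _ _ _,
        (H N q p i α s σ hN hq hqR hlq hp hpq hNp hi hs hσ).trans hqQ⟩)
    (BadQ κ Λ N K qa qb Q P) (by
      rintro B ⟨q, i, p, α, s, σ, hq, hqq, hqQ, hi, hs, hσ, hp, hpP, hQp, hNp, hα, hsol⟩
      refine ⟨(q, i, p, α, s, σ), ?_, hsol⟩
      rw [hJ, Finset.mem_filter]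
      refine ⟨?_, hq, hqq, hi, hp, hQp, hNp⟩
      simp only [Finset.mem_product, Finset.mem_range, Finset.mem_Icc, Finset.mem_insert,
        Finset.mem_singleton]
      have hiQ : i < Q + 1 := by
        rcases hi with h | ⟨_, h, _⟩ <;> omega
      exact ⟨by omega, hiQ, ⟨hp.one_lt.le, hpP⟩, by omega, hs, hσ⟩)
  exact ⟨h.1, h.2.trans (Nat.mul_le_mul_right _ hJc)⟩

theorem badR'_card {κ Λ δ : ℝ} {K qb : ℕ}
    (H : ∀ (N q i α : ℕ) (σ : ℤ), 2 ≤ N → IsPrimePow q → 100 / κ ^ 2 ≤ (q : ℝ) →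
        1 + Real.log q ≤ δ * Real.log N →
        (i = 0 ∨ (Nat.Coprime q i ∧ i < q ∧ qb ≤ q)) → (σ = 1 ∨ σ = -1) →
        (SetR' κ Λ N K q i α σ).ncard ≤ 1)
    {N qa Q R : ℕ} (hN : 2 ≤ N) (hqa : 100 / κ ^ 2 ≤ (qa : ℝ)) (hQ : 1 + Real.log Q ≤ δ * Real.log N) :
    (BadR' κ Λ N K qa qb Q R).Finite ∧
      (BadR' κ Λ N K qa qb Q R).ncard ≤ ((Q + 1) * ((Q + 1) * (R * 2))) * 1 := by
  classical
  obtain ⟨J, hJ⟩ : ∃ J : Finset (ℕ × ℕ × ℕ × ℤ), J = (Finset.range (Q + 1) ×ˢ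
    Finset.range (Q + 1) ×ˢ Finset.range R ×ˢ ({1, -1} : Finset ℤ)).filter
      (fun j => IsPrimePow j.1 ∧ qa ≤ j.1 ∧
      (j.2.1 = 0 ∨ (Nat.Coprime j.1 j.2.1 ∧ j.2.1 < j.1 ∧ qb ≤ j.1))) := ⟨_, rfl⟩
  have hJc : J.card ≤ (Q + 1) * ((Q + 1) * (R * 2)) := by
    rw [hJ]
    refine (Finset.card_filter_le _ _).trans (le_of_eq ?_)
    rw [Finset.card_product, Finset.card_product, Finset.card_product,
      Finset.card_range, Finset.card_range]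
    congr 1
  have h := ncard_le_of_cover (K := 1) J
    (fun j => SetR' κ Λ N K j.1 j.2.1 j.2.2.1 j.2.2.2) (by
      rintro ⟨q, i, α, σ⟩ hj
      rw [hJ, Finset.mem_filter] at hj
      obtain ⟨hj1, hq, hqq, hi⟩ := hj
      simp only [Finset.mem_product, Finset.mem_range, Finset.mem_insert,
        Finset.mem_singleton] at hj1
      simp only at hq hqq hi
      obtain ⟨hqQ', hi', hα, hσ⟩ := hj1
      have hqQ : q ≤ Q := by omega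
      have hq0 : 0 < q := hq.pos
      have hqR : 100 / κ ^ 2 ≤ (q : ℝ) := hqa.trans (by exact_mod_cast hqq)
      have hlq : 1 + Real.log q ≤ δ * Real.log N := by
        have h1 : Real.log q ≤ Real.log Q :=
          Real.log_le_log (by exact_mod_cast hq0) (by exact_mod_cast hqQ)
        linarith
      exact ⟨setR'_finite _ _ _ _ _ _ _ _, H N q i α σ hN hq hqR hlq hi hσ⟩)
    (BadR' κ Λ N K qa qb Q R) (by
      rintro B ⟨q, i, α, σ, hq, hqq, hqQ, hi, hσ, hα, hsol⟩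
      refine ⟨(q, i, α, σ), ?_, hsol⟩
      rw [hJ, Finset.mem_filter]
      refine ⟨?_, hq, hqq, hi⟩
      simp only [Finset.mem_product, Finset.mem_range, Finset.mem_insert,
        Finset.mem_singleton]
      have hiQ : i < Q + 1 := by
        rcases hi with h | ⟨_, h, _⟩ <;> omega
      exact ⟨by omega, hiQ, hα, hσ⟩)
  exact ⟨h.1, h.2.trans (Nat.mul_le_mul_right _ hJc)⟩

/-- reduction of the exponent: either it divides `x`, or it is coprime to `x` (for a new base) -/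
theorem reduce {qa qb q U A x : ℕ} (hqa : 2 ≤ qa) (hqab : qa ≤ qb) (hq : IsPrimePow q)
    (hqc : qa * qb ≤ q) (hU : 0 < U) :
    ∃ q' U' x' i g : ℕ, IsPrimePow q' ∧ q' ≤ q ∧ qa ≤ q' ∧
      (i = 0 ∨ (Nat.Coprime q' i ∧ i < q' ∧ qb ≤ q')) ∧ 0 < U' ∧ U' ^ q' = U ^ q ∧
      (A ^ g) ^ (q' * x' + i) = A ^ x ∧ 0 < g ∧ g ≤ qa := by
  have hq0 : 0 < q := hq.pos
  obtain ⟨g, hg⟩ : ∃ g, g = Nat.gcd q x := ⟨_, rfl⟩
  have hg0 : 0 < g := by rw [hg]; exact Nat.gcd_pos_of_pos_left _ hq0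
  obtain ⟨q₁, hq₁⟩ : g ∣ q := by rw [hg]; exact Nat.gcd_dvd_left _ _
  obtain ⟨x₁, hx₁⟩ : g ∣ x := by rw [hg]; exact Nat.gcd_dvd_right _ _
  have hq₁0 : 0 < q₁ := Nat.pos_of_ne_zero fun h => by rw [h, mul_zero] at hq₁; omega
  rcases Nat.lt_or_ge g qa with hcase | hcase
  · have hqb : qb ≤ q₁ := by
      by_contra hcon
      rw [not_le] at hcon
      have h1 : g * q₁ < qa * qb := Nat.mul_lt_mul'' hcase hcon
      omega
    have hcop : Nat.Coprime q₁ x₁ := by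
      have h1 := Nat.coprime_div_gcd_div_gcd (m := q) (n := x) (by rw [← hg]; exact hg0)
      rw [← hg] at h1
      rw [hq₁, hx₁, Nat.mul_div_cancel_left _ hg0, Nat.mul_div_cancel_left _ hg0] at h1
      exact h1
    refine ⟨q₁, U ^ g, x₁ / q₁, x₁ % q₁, g, hq.dvd ⟨g, by rw [hq₁]; ring⟩ (by omega), ?_, by omega,
      Or.inr ⟨?_, Nat.mod_lt _ hq₁0, hqb⟩, Nat.pow_pos hU, ?_, ?_, hg0, hcase.le⟩
    · rw [hq₁]; exact Nat.le_mul_of_pos_left _ hg0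
    · have h1 : Nat.gcd q₁ x₁ = Nat.gcd (x₁ % q₁) q₁ := Nat.gcd_rec q₁ x₁
      rw [Nat.Coprime, Nat.gcd_comm, ← h1]
      exact hcop
    · rw [← pow_mul, ← hq₁]
    · rw [Nat.div_add_mod, ← pow_mul, ← hx₁]
  · refine ⟨g, U ^ q₁, x₁, 0, 1, hq.dvd ⟨q₁, hq₁⟩ (by omega), ?_, hcase, Or.inl rfl, Nat.pow_pos hU,
      ?_, ?_, Nat.one_pos, by omega⟩
    · rw [hq₁]; exact Nat.le_mul_of_pos_right _ hq₁0
    · rw [← pow_mul, mul_comm, ← hq₁]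
    · rw [pow_one, add_zero, ← hx₁]

end Pool.Agent.TH888.B2
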