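import Mathlib
import Pool.Agent.TH888.B2.Bad
import Pool.Agent.H374R2.W.Final

/-!
Large solutions: assembly.
-/

set_option autoImplicit false

namespace Pool.Agent.TH888.B2

open Finset Filter Topology
open Pool.Agent.H374R2 (Gc.three_prime Gc.log_pow_le Gc.tendsto_log_nat T.TaskD2.perfect_powers)
open Pool.Agent.H374R2.W (ht Typ exists_q q_bound q_num prime_between)
open Pool.Agent.H374R2.V.CV (Dat)

/-- Solutions with typical `B` are in `BadQ` or in `BadR'`. -/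
theorem mem_bad2 {N K P₀ P Q R qa qb A B x y z C : ℕ} {κ₁ θ Λ : ℝ} (hκ0 : 0 < κ₁) (hκ1 : κ₁ ≤ 1)
    (hqa : 3 ≤ qa) (hqab : qa ≤ qb) (hN1 : 1 ≤ N) (hK : 1 ≤ K)
    (hQ : ∀ q : ℕ, q ≤ 10 ^ 9 * P₀ ^ 2 * (Nat.log 2 q + 1) ^ 2 * (Nat.log 2 (N ^ K) + 1) ^ 2 → q ≤ Q)
    (hQ1 : (qa * qb) ^ 2 ≤ Q) (hQ2 : 2 ^ (qa * qb) ≤ Q)
    (hP : ∀ p : ℕ, (p : ℝ) ≤ (N : ℝ) ^ θ → p ≤ P) (hQκ : (Q : ℝ) ≤ (N : ℝ) ^ κ₁)
    (hR : 2 * (N : ℝ) ^ (κ₁ / 2) * ((K * qa : ℕ) * Real.log N) < R)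
    (hA0 : 0 < A) (hAK : A ≤ N ^ K) (hB0 : 0 < B) (hBN : B ≤ N) (hAB : Nat.Coprime A B)
    (hB : Typ N P₀ κ₁ θ B) (hx : 0 < x) (hy : 0 < y) (hz : (qa * qb) ^ (qa * qb) ≤ z) (hC : 0 < C)
    (hbig : Λ * Real.log N ≤ Real.log ((max (C ^ z) (A ^ x) : ℕ) : ℝ))
    (h : A ^ x + B ^ y = C ^ z ∨ A ^ x + C ^ z = B ^ y ∨ B ^ y + C ^ z = A ^ x) :
    B ∈ BadQ (κ₁ / 2) Λ N (K * qa) qa qb Q P ∪ BadR' (κ₁ / 2) Λ N (K * qa) qa qb Q R := by
  obtain ⟨p, hp, hpl, hpu, hpB⟩ := hB.mid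
  obtain ⟨p', hp'P, hp', hp'3, hp'B⟩ := hB.three
  have hqab4 : 2 ≤ qa * qb := by
    have : 3 * 3 ≤ qa * qb := Nat.mul_le_mul hqa (hqa.trans hqab)
    omega
  obtain ⟨q, U, hqp, hqq, hU0, hUq, hqU⟩ := exists_q hqab4 hz hC
  have hq3 : 3 ≤ q := by
    have : 3 * 3 ≤ qa * qb := Nat.mul_le_mul hqa (hqa.trans hqab)
    omega
  obtain ⟨x₂, hx2, hAx, hx1⟩ : ∃ x₂ : ℕ, 0 < x₂ ∧ A ^ x₂ = A ^ x ∧ (A = 1 → q ∣ x₂) := by
    by_cases h1 : A = 1
    · exact ⟨q, by omega, by rw [h1]; simp, fun _ => dvd_rfl⟩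
    · exact ⟨x, hx, rfl, fun h2 => absurd h2 h1⟩
  obtain ⟨s, σ, hs, hσ, heq⟩ : ∃ s σ : ℤ, (s = 1 ∨ s = -1) ∧ (σ = 1 ∨ σ = -1) ∧
      (U : ℤ) ^ q - s * (A : ℤ) ^ x₂ = σ * (B : ℤ) ^ y := by
    have e1 : (U : ℤ) ^ q = (C : ℤ) ^ z := by exact_mod_cast hUq
    have e2 : (A : ℤ) ^ x₂ = (A : ℤ) ^ x := by exact_mod_cast hAx
    rw [e1, e2]
    rcases h with h | h | h
    · have h' : (A : ℤ) ^ x + (B : ℤ) ^ y = (C : ℤ) ^ z := by exact_mod_cast h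
      exact ⟨1, 1, Or.inl rfl, Or.inl rfl, by rw [← h']; ring⟩
    · have h' : (A : ℤ) ^ x + (C : ℤ) ^ z = (B : ℤ) ^ y := by exact_mod_cast h
      exact ⟨-1, 1, Or.inr rfl, Or.inl rfl, by rw [← h']; ring⟩
    · have h' : (B : ℤ) ^ y + (C : ℤ) ^ z = (A : ℤ) ^ x := by exact_mod_cast h
      exact ⟨1, -1, Or.inl rfl, Or.inr rfl, by rw [← h']; ring⟩
  have hBK : B ≤ N ^ K := hBN.trans (Nat.le_self_pow (by omega) N)
  have hqQ : q ≤ Q := by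
    rcases hqU with h4 | h4 | ⟨hqprime, hU2⟩
    · exact h4.trans hQ1
    · exact h4.trans hQ2
    · apply hQ
      have hp3' : 3 ≤ p' := by
        have := hp'.two_le
        rcases Nat.lt_or_ge p' 3 with h | h
        · have : p' = 2 := by omega
          subst this
          norm_num at hp'3
        · exact h
      exact q_bound hs hσ hqprime hq3 hA0 hAK hAB hB0 hBK hx2 hx1 hy hU2 hp'
        hp3' hp'P hp'B heq
  obtain ⟨q', U', x', i, g, hq', hq'q, hqaq', hi, hU'0, hU', hA', hg0, hgqa⟩ :=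
    reduce (U := U) (A := A) (x := x₂) (by omega : 2 ≤ qa) hqab hqp hqq hU0
  obtain ⟨A', hA'e⟩ : ∃ A', A' = A ^ g := ⟨_, rfl⟩
  rw [← hA'e] at hA'
  have hq'pos : 0 < q' := hq'.pos
  have hA'0 : 0 < A' := by rw [hA'e]; exact Nat.pow_pos hA0
  have hA'K : A' ≤ N ^ (K * qa) := by
    rw [hA'e, pow_mul]
    exact (Nat.pow_le_pow_left hAK g).trans (Nat.pow_le_pow_right (Nat.pow_pos hN1) hgqa)
  have hA'B : Nat.Coprime A' B := by rw [hA'e]; exact hAB.pow_left g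
  have heq' : (U' : ℤ) ^ q' - s * (A' : ℤ) ^ (q' * x' + i) = σ * (B : ℤ) ^ y := by
    rw [← heq]
    have e1 : (U' : ℤ) ^ q' = (U : ℤ) ^ q := by exact_mod_cast hU'
    have e2 : (A' : ℤ) ^ (q' * x' + i) = (A : ℤ) ^ x₂ := by exact_mod_cast hA'
    rw [e1, e2]
  have hHH : ht q' A' U' (q' * x' + i) = max (C ^ z) (A ^ x) := by
    unfold ht
    rw [hU', hA', hUq, hAx]
  obtain ⟨H, hHe⟩ : ∃ H, H = ht q' A' U' (q' * x' + i) := ⟨_, rfl⟩
  rw [← hHH, ← hHe] at hbig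
  -- sizes
  have hNR : (0 : ℝ) < N := by exact_mod_cast hN1
  have hBR : (0 : ℝ) < B := by exact_mod_cast hB0
  have hlogB : 0 ≤ Real.log B := Real.log_natCast_nonneg B
  have hH0 : 0 < H := by rw [hHe]; exact lt_of_lt_of_le (Nat.pow_pos hU'0) (le_max_left _ _)
  have hH0R : (0 : ℝ) < H := by exact_mod_cast hH0
  have hlogH : 0 ≤ Real.log H := Real.log_natCast_nonneg _
  have hκN : (N : ℝ) ^ (κ₁ / 2) ≤ (N : ℝ) ^ κ₁ :=
    Real.rpow_le_rpow_of_exponent_le (by exact_mod_cast hN1) (by linarith)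
  rcases le_or_gt (Real.log H) (2 * (y * Real.log B)) with hcase | hcase
  · left
    have hQp : Q < p := by
      have : (Q : ℝ) < p := hQκ.trans_lt hpl
      exact_mod_cast this
    refine ⟨q', i, p, A' % p, s, σ, hq', hqaq', hq'q.trans hqQ, hi, hs, hσ, hp, hP p hpu, hQp,
      hκN.trans_lt hpl, Nat.mod_lt _ hp.pos, A', x', y, U', rfl,
      ⟨⟨hy, hU'0, heq', hB0, hBN, hpB, hA'B, hB.np⟩, hA'0, hA'K, ?_, ?_⟩⟩
    · rw [← hHe]
      have h1 : κ₁ * Real.log N ≤ Real.log p := by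
        rw [← Real.log_rpow hNR]
        exact Real.log_le_log (Real.rpow_pos_of_pos hNR _) hpl.le
      have h2 : Real.log B ≤ Real.log N := Real.log_le_log hBR (by exact_mod_cast hBN)
      calc κ₁ / 2 * Real.log H ≤ κ₁ / 2 * (2 * (y * Real.log B)) := by gcongr
        _ = y * (κ₁ * Real.log B) := by ring
        _ ≤ y * (κ₁ * Real.log N) := by gcongr
        _ ≤ y * Real.log p := by gcongr
    · rw [← hHe]; exact hbig
  · right
    have hs1 : s = 1 := by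
      rcases hs with h1 | h1
      · exact h1
      · exfalso
        rw [h1] at heq'
        have h2 : U' ^ q' + A' ^ (q' * x' + i) ≤ B ^ y := by
          have hA1 : (0 : ℤ) ≤ (A' : ℤ) ^ (q' * x' + i) := by positivity
          have hU1 : (0 : ℤ) ≤ (U' : ℤ) ^ q' := by positivity
          have hB1 : (0 : ℤ) ≤ (B : ℤ) ^ y := by positivity
          have : (U' : ℤ) ^ q' + (A' : ℤ) ^ (q' * x' + i) ≤ (B : ℤ) ^ y := by
            rcases hσ with rfl | rfl <;> linarith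
          exact_mod_cast this
        have h3 : H ≤ B ^ y := by
          rw [hHe]
          unfold ht
          apply max_le <;> omega
        have h4 : Real.log H ≤ y * Real.log B := by
          rw [← Real.log_pow]
          apply Real.log_le_log hH0R
          exact_mod_cast h3
        have h5 : 0 ≤ y * Real.log B := by positivity
        linarith
    have hcl : cl (κ₁ / 2) N A' < R := by
      unfold cl
      rw [Nat.floor_lt (by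
        have := Real.log_natCast_nonneg A'
        positivity)]
      refine lt_of_le_of_lt ?_ hR
      apply mul_le_mul_of_nonneg_left _ (by positivity)
      have h1 : Real.log A' ≤ Real.log ((N : ℝ) ^ (K * qa)) := by
        apply Real.log_le_log (by exact_mod_cast hA'0)
        exact_mod_cast hA'K
      rw [Real.log_pow] at h1
      exact h1
    refine ⟨q', i, cl (κ₁ / 2) N A', σ, hq', hqaq', hq'q.trans hqQ, hi, hσ, hcl, A', x', y, U', rfl,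
      ⟨⟨hy, hU'0, ?_, hB0, hBN, one_dvd _, hA'B, hB.np⟩, hA'0, hA'K, ?_, ?_⟩⟩
    · rw [hs1] at heq'
      exact heq'
    · rw [← hHe]
      have h1 : (1 / 2 : ℝ) * Real.log H ≤ (1 - κ₁ / 2) * Real.log H := by
        apply mul_le_mul_of_nonneg_right _ hlogH
        linarith
      linarith
    · rw [← hHe]; exact hbig

/-- almost all integers are typical -/
theorem typ_count {ε θ : ℝ} (hε : 0 < ε) (hθ : 0 < θ) (hθ1 : θ ≤ 1) :
    ∃ κ₁ : ℝ, 0 < κ₁ ∧ κ₁ < θ ∧ ∃ P₀ N₀ : ℕ, ∀ N : ℕ, N₀ ≤ N →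
      {B : ℕ | 0 < B ∧ B ≤ N ∧ ¬ Typ N P₀ κ₁ θ B}.Finite ∧
      (({B : ℕ | 0 < B ∧ B ≤ N ∧ ¬ Typ N P₀ κ₁ θ B}.ncard : ℕ) : ℝ) ≤ ε * N := by
  obtain ⟨κ₁, hκ0, hκθ, N₁, hN₁⟩ := prime_between (ε := ε / 4) (θ := θ) (by positivity)
    hθ hθ1
  obtain ⟨P₀, N₂, hN₂⟩ := Gc.three_prime (ε := ε / 4) (by positivity)
  obtain ⟨N₃, hN₃⟩ := T.TaskD2.perfect_powers (ε := ε / 4) (by positivity)
  refine ⟨κ₁, hκ0, hκθ, P₀, max N₁ (max N₂ (max N₃ (⌈(8 / ε) ^ 2⌉₊ + 1))), fun N hN => ?_⟩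
  simp only [max_le_iff] at hN
  obtain ⟨g1, g2, g3, g6⟩ := hN
  have hNpos : 0 < N := by omega
  have hNR : (0 : ℝ) < N := by exact_mod_cast hNpos
  have hN1 : (1 : ℝ) ≤ N := by exact_mod_cast hNpos
  have k1 := hN₁ N g1
  have k2 := hN₂ N g2
  have k3 := hN₃ N g3
  set S : Set ℕ := {B | 0 < B ∧ B ≤ N ∧ ¬ Typ N P₀ κ₁ θ B} with hS
  have hSfin : S.Finite := (Set.finite_Icc 0 N).subset (fun B hB => ⟨Nat.zero_le _, hB.2.1⟩)
  set T1 : Set ℕ := {B : ℕ | 0 < B ∧ B ≤ N ∧ ∀ p : ℕ, p.Prime → (N : ℝ) ^ κ₁ < p →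
    (p : ℝ) ≤ (N : ℝ) ^ θ → ¬ p ∣ B} with hT1
  set T2 : Set ℕ := {B : ℕ | 0 < B ∧ B ≤ N ∧ ∀ p : ℕ, p ≤ P₀ → p.Prime → p % 4 = 3 → ¬ p ∣ B} with hT2
  set T3 : Set ℕ := {B : ℕ | 0 < B ∧ B ≤ N ∧ ∃ w k : ℕ, 2 ≤ k ∧ B = w ^ k} with hT3
  set T4 : Set ℕ := Set.Icc 0 (Nat.sqrt N) with hT4
  have hSsub : S ⊆ T1 ∪ (T2 ∪ (T3 ∪ T4)) := by
    rintro B ⟨hB0, hBN, hB⟩
    by_contra hcon
    simp only [Set.mem_union, not_or] at hcon
    obtain ⟨c1, c2, c3, c4⟩ := hcon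
    apply hB
    refine ⟨?_, ?_, ?_, ?_⟩
    · by_contra hn
      apply c1
      exact ⟨hB0, hBN, fun p hp hpl hpu hpB => hn ⟨p, hp, hpl, hpu, hpB⟩⟩
    · by_contra hn
      apply c2
      exact ⟨hB0, hBN, fun p hp hpp hp2 hpB => hn ⟨p, hp, hpp, hp2, hpB⟩⟩
    · intro hn
      exact c3 ⟨hB0, hBN, hn⟩
    · by_contra hn
      apply c4
      refine ⟨Nat.zero_le _, ?_⟩
      rw [Nat.le_sqrt', ]
      omega
  have hTfin : (T1 ∪ (T2 ∪ (T3 ∪ T4))).Finite := by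
    apply (Set.finite_Icc 0 N).subset
    intro B hB
    rcases hB with h | h | h | h
    · exact ⟨Nat.zero_le _, h.2.1⟩
    · exact ⟨Nat.zero_le _, h.2.1⟩
    · exact ⟨Nat.zero_le _, h.2.1⟩
    · exact ⟨Nat.zero_le _, h.2.trans (Nat.sqrt_le_self N)⟩
  have hT4card : (T4.ncard : ℝ) ≤ ε / 4 * N := by
    have h1 : T4.ncard = Nat.sqrt N + 1 := by
      rw [hT4, ← Finset.coe_Icc, Set.ncard_coe_finset, Nat.card_Icc]
      omega
    rw [h1]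
    push_cast
    have h2 : ((Nat.sqrt N : ℕ) : ℝ) ≤ Real.sqrt N := Real.nat_sqrt_le_real_sqrt
    have h3 : (8 / ε) ^ 2 ≤ (N : ℝ) := by
      have h4 : ⌈(8 / ε) ^ 2⌉₊ ≤ N := by omega
      exact (Nat.le_ceil _).trans (by exact_mod_cast h4)
    have h4 : 8 / ε ≤ Real.sqrt N := Real.le_sqrt_of_sq_le h3
    have h5 : Real.sqrt N * Real.sqrt N = N := Real.mul_self_sqrt hNR.le
    have h6 : (1 : ℝ) ≤ Real.sqrt N := by
      rw [Real.one_le_sqrt]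
      exact hN1
    have h7 : 8 ≤ Real.sqrt N * ε := by
      rw [div_le_iff₀ hε] at h4
      exact h4
    have h8 : 8 * Real.sqrt N ≤ ε * N := by
      calc 8 * Real.sqrt N ≤ (Real.sqrt N * ε) * Real.sqrt N := by gcongr
        _ = ε * (Real.sqrt N * Real.sqrt N) := by ring
        _ = ε * N := by rw [h5]
    linarith
  refine ⟨hSfin, ?_⟩
  have h1 := Set.ncard_le_ncard hSsub hTfin
  have h2 := Set.ncard_union_le T1 (T2 ∪ (T3 ∪ T4))
  have h3 := Set.ncard_union_le T2 (T3 ∪ T4)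
  have h4 := Set.ncard_union_le T3 T4
  have h6 : S.ncard ≤ T1.ncard + (T2.ncard + (T3.ncard + T4.ncard)) := by omega
  have h7 : (S.ncard : ℝ) ≤ T1.ncard + (T2.ncard + (T3.ncard + T4.ncard)) := by
    exact_mod_cast h6
  linarith

end Pool.Agent.TH888.B2
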