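import Mathlib
import Pool.Agent.TH888.B2.Large

/-!
Large solutions: the count.
-/

set_option autoImplicit false

namespace Pool.Agent.TH888.B2

open Finset Filter Topology
open Pool.Agent.H374R2 (Gc.three_prime Gc.log_pow_le Gc.tendsto_log_nat T.TaskD2.perfect_powers)
open Pool.Agent.H374R2.W (ht Typ exists_q q_bound q_num prime_between)

/-- The integers `B ≤ N` which occur in a large solution with some `A ≤ N ^ K` and `z ≥ Z₀`. -/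
def LargeB (N K : ℕ) (Λ : ℝ) (Z₀ : ℕ) : Set ℕ :=
  {B | 0 < B ∧ B ≤ N ∧ ∃ A x y z C : ℕ, 0 < A ∧ A ≤ N ^ K ∧ Nat.Coprime A B ∧ 0 < x ∧ 0 < y ∧
    Z₀ ≤ z ∧ 0 < C ∧ Λ * Real.log N ≤ Real.log ((max (C ^ z) (A ^ x) : ℕ) : ℝ) ∧
    (A ^ x + B ^ y = C ^ z ∨ A ^ x + C ^ z = B ^ y ∨ B ^ y + C ^ z = A ^ x)}

theorem largeB_finite (N K : ℕ) (Λ : ℝ) (Z₀ : ℕ) : (LargeB N K Λ Z₀).Finite :=
  (Set.finite_Icc 0 N).subset fun _ hB => ⟨Nat.zero_le _, hB.2.1⟩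

theorem log_pow_nat {N K : ℕ} (hN : 1 ≤ N) (hK : 1 ≤ K) :
    Nat.log 2 (N ^ K) + 1 ≤ K * (Nat.log 2 N + 1) := by
  have h1 : N < 2 ^ (Nat.log 2 N + 1) := Nat.lt_pow_succ_log_self (by norm_num) N
  have h2 : N ^ K < 2 ^ (K * (Nat.log 2 N + 1)) := by
    rw [mul_comm, pow_mul]
    exact Nat.pow_lt_pow_left h1 (by omega)
  have h3 := Nat.log_lt_of_lt_pow (Nat.pow_pos hN).ne' h2
  exact h3

theorem final_count {N P Q R : ℕ} {ε : ℝ} (hN : 1 ≤ N) (hε : 0 < ε)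
    (hQ : (Q : ℝ) + 1 ≤ (N : ℝ) ^ (1 / 12 : ℝ)) (hP : (P : ℝ) ≤ (N : ℝ) ^ (1 / 4 : ℝ))
    (hR : (R : ℝ) ≤ (N : ℝ) ^ (1 / 4 : ℝ)) (hN4 : 16 / ε ≤ (N : ℝ) ^ (1 / 4 : ℝ)) :
    ((((Q + 1) * ((Q + 1) * (P * (P * 4)))) * Q : ℕ) : ℝ) ≤ ε / 4 * N ∧
    ((((Q + 1) * ((Q + 1) * (R * 2))) * 1 : ℕ) : ℝ) ≤ ε / 4 * N := by
  have hNR : (1 : ℝ) ≤ N := by exact_mod_cast hN
  have hN0 : (0 : ℝ) < N := by linarith
  obtain ⟨w, hw⟩ : ∃ w, w = (N : ℝ) ^ (1 / 12 : ℝ) := ⟨_, rfl⟩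
  have hw1 : 1 ≤ w := by rw [hw]; exact Real.one_le_rpow hNR (by norm_num)
  have hw0 : 0 < w := by linarith
  have hw3 : (N : ℝ) ^ (1 / 4 : ℝ) = w ^ 3 := by
    rw [hw, ← Real.rpow_natCast, ← Real.rpow_mul hN0.le]
    norm_num
  have hw12 : (N : ℝ) = w ^ 12 := by
    rw [hw, ← Real.rpow_natCast, ← Real.rpow_mul hN0.le]
    norm_num
  rw [← hw] at hQ
  rw [hw3] at hP hR hN4
  rw [div_le_iff₀ hε] at hN4
  have hQ0 : (0 : ℝ) ≤ Q := Nat.cast_nonneg _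
  have hP0 : (0 : ℝ) ≤ P := Nat.cast_nonneg _
  have hR0 : (0 : ℝ) ≤ R := Nat.cast_nonneg _
  have hQ' : (Q : ℝ) ≤ w := by linarith
  have hfin : 4 * w ^ 9 ≤ ε / 4 * N := by
    rw [hw12]
    have h1 : 16 * w ^ 9 ≤ (w ^ 3 * ε) * w ^ 9 := mul_le_mul_of_nonneg_right hN4 (by positivity)
    have h2 : (w ^ 3 * ε) * w ^ 9 = ε * w ^ 12 := by ring
    linarith
  push_cast
  constructor
  · calc ((Q : ℝ) + 1) * ((Q + 1) * (P * (P * 4))) * Q ≤ w * (w * (w ^ 3 * (w ^ 3 * 4))) * w := by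
          gcongr
      _ = 4 * w ^ 9 := by ring
      _ ≤ _ := hfin
  · calc ((Q : ℝ) + 1) * ((Q + 1) * (R * 2)) * 1 ≤ w * (w * (w ^ 3 * 2)) * 1 := by gcongr
      _ = 2 * w ^ 5 := by ring
      _ ≤ 4 * w ^ 9 := by
          have h1 : w ^ 5 ≤ w ^ 9 := pow_le_pow_right₀ hw1 (by norm_num)
          have h2 : 0 < w ^ 5 := by positivity
          linarith
      _ ≤ _ := hfin

theorem large_main (K : ℕ) (hK : 1 ≤ K) (ε : ℝ) (hε : 0 < ε) :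
    ∃ (Λ : ℝ) (Z₀ N₀ : ℕ), 0 < Λ ∧ ∀ N : ℕ, N₀ ≤ N → ((LargeB N K Λ Z₀).ncard : ℝ) ≤ ε * N := by
  obtain ⟨κ₁, hκ0, hκθ, P₀, N₁, hN₁⟩ := typ_count (ε := ε / 2) (θ := 1 / 4) (by positivity)
    (by norm_num) (by norm_num)
  have hκ1 : κ₁ ≤ 1 := by linarith
  have hκ2 : 0 < κ₁ / 2 := by positivity
  have hκ2' : κ₁ / 2 ≤ 1 := by linarith
  obtain ⟨qa, hqa⟩ : ∃ qa, qa = ⌈100 / (κ₁ / 2) ^ 2⌉₊ + 3 := ⟨_, rfl⟩
  have hqaR : 100 / (κ₁ / 2) ^ 2 ≤ (qa : ℝ) := by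
    rw [hqa]
    push_cast
    have := Nat.le_ceil (100 / (κ₁ / 2) ^ 2)
    linarith
  have hqa3 : 3 ≤ qa := by omega
  obtain ⟨Λ, q₁, δ, hΛ, hδ, HQ, HR⟩ := both_card (κ₁ / 2) (K * qa) hκ2 hκ2'
  obtain ⟨qb, hqb⟩ : ∃ qb, qb = max q₁ qa := ⟨_, rfl⟩
  have hqab : qa ≤ qb := by rw [hqb]; exact le_max_right _ _
  have hq1b : q₁ ≤ qb := by rw [hqb]; exact le_max_left _ _
  obtain ⟨ν₀, hν₀⟩ := q_num (P₀ * K)
  obtain ⟨c₀, hc₀⟩ : ∃ c₀, c₀ = (qa * qb) ^ 2 + 2 ^ (qa * qb) := ⟨_, rfl⟩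
  obtain ⟨c, hc⟩ : ∃ c, c = min (min κ₁ (δ / 2)) (1 / 12) := ⟨_, rfl⟩
  have hc0 : 0 < c := by rw [hc]; exact lt_min (lt_min hκ0 (by positivity)) (by norm_num)
  have hc1 : c ≤ κ₁ := by rw [hc]; exact (min_le_left _ _).trans (min_le_left _ _)
  have hc2 : c ≤ δ / 2 := by rw [hc]; exact (min_le_left _ _).trans (min_le_right _ _)
  have hc3 : c ≤ 1 / 12 := by rw [hc]; exact min_le_right _ _
  have e1 := Gc.log_pow_le (k := 4) hc0 (show (0 : ℝ) < 82 + c₀ by positivity)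
  have e2 := Gc.log_pow_le (k := 1) (show (0 : ℝ) < 1 / 8 by norm_num)
    (show (0 : ℝ) < 2 * (K * qa : ℕ) + 1 by positivity)
  have e3 := Gc.log_pow_le (k := 0) (show (0 : ℝ) < 1 / 4 by norm_num)
    (show (0 : ℝ) < 16 / ε by positivity)
  obtain ⟨N₂, hN₂⟩ := eventually_atTop.mp (((e1.and e2).and e3).and
    ((Gc.tendsto_log_nat.eventually (eventually_ge_atTop (max 1 (max (ν₀ : ℝ) (2 / δ))))).and
      (eventually_ge_atTop 2)))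
  refine ⟨Λ, (qa * qb) ^ (qa * qb), max N₁ N₂, hΛ, fun N hN => ?_⟩
  obtain ⟨⟨⟨b1, b2⟩, b3⟩, b5, b6⟩ := hN₂ N ((le_max_right _ _).trans hN)
  rw [pow_zero, mul_one] at b3
  rw [pow_one] at b2
  obtain ⟨hTfin, hTc⟩ := hN₁ N ((le_max_left _ _).trans hN)
  have hN1' : 1 ≤ N := by omega
  have hNR : (0 : ℝ) < N := by exact_mod_cast hN1'
  have hN1 : (1 : ℝ) ≤ N := by exact_mod_cast hN1'
  obtain ⟨L, hL⟩ : ∃ L, L = Real.log N := ⟨_, rfl⟩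
  rw [← hL] at b1 b2 b5
  have hL1 : 1 ≤ L := (le_max_left _ _).trans b5
  have hLν : (ν₀ : ℝ) ≤ L := ((le_max_left _ _).trans (le_max_right _ _)).trans b5
  have hLδ : 2 / δ ≤ L := ((le_max_right _ _).trans (le_max_right _ _)).trans b5
  obtain ⟨ν, hν⟩ : ∃ ν, ν = Nat.log 2 N + 1 := ⟨_, rfl⟩
  have hνL : (ν : ℝ) ≤ 3 * L := by
    have e1 : (2 : ℝ) ^ (Nat.log 2 N) ≤ N := by exact_mod_cast Nat.pow_log_le_self 2 (by omega)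
    have e2 := Real.log_le_log (by positivity) e1
    rw [Real.log_pow, ← hL] at e2
    have e3 := Real.log_two_gt_d9
    have e4 : (Nat.log 2 N : ℝ) * (1 / 2) ≤ Nat.log 2 N * Real.log 2 := by
      apply mul_le_mul_of_nonneg_left _ (by positivity)
      linarith
    rw [hν]
    push_cast
    linarith
  have hNν : N < 2 ^ ν := by rw [hν]; exact Nat.lt_pow_succ_log_self (by norm_num) N
  have hLν' : L ≤ ν := by
    have e2 : (N : ℝ) < 2 ^ ν := by exact_mod_cast hNν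
    have e3 := Real.log_lt_log hNR e2
    rw [Real.log_pow, ← hL] at e3
    have e4 : Real.log 2 ≤ 1 := by have := Real.log_two_lt_d9; linarith
    calc L ≤ ν * Real.log 2 := e3.le
      _ ≤ ν * 1 := by gcongr
      _ = _ := by ring
  have hνν : ν₀ ≤ ν := by exact_mod_cast hLν.trans hLν'
  -- parameters
  obtain ⟨P, hP⟩ : ∃ P, P = ⌊(N : ℝ) ^ (1 / 4 : ℝ)⌋₊ := ⟨_, rfl⟩
  have hPle : (P : ℝ) ≤ (N : ℝ) ^ (1 / 4 : ℝ) := by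
    rw [hP]; exact Nat.floor_le (Real.rpow_nonneg hNR.le _)
  obtain ⟨Q, hQ⟩ : ∃ Q, Q = ν ^ 4 + c₀ := ⟨_, rfl⟩
  obtain ⟨R, hR⟩ : ∃ R, R = ⌊2 * (N : ℝ) ^ (κ₁ / 2) * ((K * qa : ℕ) * L)⌋₊ + 1 := ⟨_, rfl⟩
  have hQbd : ∀ q : ℕ, q ≤ 10 ^ 9 * P₀ ^ 2 * (Nat.log 2 q + 1) ^ 2 * (Nat.log 2 (N ^ K) + 1) ^ 2 →
      q ≤ Q := by
    intro q hq
    have h1 : (Nat.log 2 (N ^ K) + 1) ^ 2 ≤ (K * ν) ^ 2 := by
      rw [hν]
      exact Nat.pow_le_pow_left (log_pow_nat hN1' hK) 2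
    have h2 : q ≤ 10 ^ 9 * (P₀ * K) ^ 2 * (Nat.log 2 q + 1) ^ 2 * ν ^ 2 := by
      refine hq.trans ((Nat.mul_le_mul_left _ h1).trans (le_of_eq ?_))
      ring
    rw [hQ]
    exact (hν₀ ν q hνν h2).trans (Nat.le_add_right _ _)
  have hQ1 : (Q : ℝ) + 1 ≤ (N : ℝ) ^ c := by
    refine le_trans ?_ b1
    rw [hQ]
    push_cast
    have h1 : (ν : ℝ) ^ 4 ≤ 81 * L ^ 4 := by
      calc (ν : ℝ) ^ 4 ≤ (3 * L) ^ 4 := by gcongr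
        _ = 81 * L ^ 4 := by ring
    have h2 : (1 : ℝ) ≤ L ^ 4 := one_le_pow₀ hL1
    have h3 : (c₀ : ℝ) ≤ c₀ * L ^ 4 := le_mul_of_one_le_right (Nat.cast_nonneg _) h2
    linarith
  have hQ12 : (Q : ℝ) + 1 ≤ (N : ℝ) ^ (1 / 12 : ℝ) :=
    hQ1.trans (Real.rpow_le_rpow_of_exponent_le hN1 hc3)
  have hQκ : (Q : ℝ) ≤ (N : ℝ) ^ κ₁ := by
    have := hQ1.trans (Real.rpow_le_rpow_of_exponent_le hN1 hc1)
    linarith
  have hQ0 : 0 < Q := by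
    have : 0 < 2 ^ (qa * qb) := by positivity
    omega
  have hQR0 : (0 : ℝ) < Q := by exact_mod_cast hQ0
  have hlQ : 1 + Real.log Q ≤ δ * Real.log N := by
    rw [← hL]
    have h1 : (Q : ℝ) ≤ (N : ℝ) ^ (δ / 2) := by
      have := hQ1.trans (Real.rpow_le_rpow_of_exponent_le hN1 hc2)
      linarith
    have h2 := Real.log_le_log hQR0 h1
    rw [Real.log_rpow hNR, ← hL] at h2
    have h3 : 1 ≤ δ / 2 * L := by
      rw [div_le_iff₀ hδ] at hLδ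
      linarith
    linarith
  have hRle : (R : ℝ) ≤ (N : ℝ) ^ (1 / 4 : ℝ) := by
    have h0 : 0 ≤ 2 * (N : ℝ) ^ (κ₁ / 2) * ((K * qa : ℕ) * L) := by positivity
    have h1 := Nat.floor_le h0
    have h2 : (N : ℝ) ^ (κ₁ / 2) ≤ (N : ℝ) ^ (1 / 8 : ℝ) :=
      Real.rpow_le_rpow_of_exponent_le hN1 (by linarith)
    have h3 : (1 : ℝ) ≤ (N : ℝ) ^ (1 / 8 : ℝ) := Real.one_le_rpow hN1 (by norm_num)
    have h4 : (N : ℝ) ^ (1 / 4 : ℝ) = (N : ℝ) ^ (1 / 8 : ℝ) * (N : ℝ) ^ (1 / 8 : ℝ) := by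
      rw [← Real.rpow_add hNR]
      norm_num
    rw [hR, h4]
    push_cast
    push_cast at h1 b2
    calc (⌊2 * (N : ℝ) ^ (κ₁ / 2) * ((K : ℝ) * qa * L)⌋₊ : ℝ) + 1
        ≤ 2 * (N : ℝ) ^ (κ₁ / 2) * ((K : ℝ) * qa * L) + 1 := by linarith
      _ ≤ 2 * (N : ℝ) ^ (1 / 8 : ℝ) * ((K : ℝ) * qa * L) + (N : ℝ) ^ (1 / 8 : ℝ) * L := by
          apply add_le_add
          · gcongr
          · nlinarith
      _ = ((2 * ((K : ℝ) * qa) + 1) * L) * (N : ℝ) ^ (1 / 8 : ℝ) := by ring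
      _ ≤ (N : ℝ) ^ (1 / 8 : ℝ) * (N : ℝ) ^ (1 / 8 : ℝ) :=
          mul_le_mul_of_nonneg_right b2 (by positivity)
  have hRlt : 2 * (N : ℝ) ^ (κ₁ / 2) * ((K * qa : ℕ) * Real.log N) < R := by
    rw [← hL, hR]
    push_cast
    have := Nat.lt_floor_add_one (2 * (N : ℝ) ^ (κ₁ / 2) * (((K * qa : ℕ) : ℝ) * L))
    push_cast at this
    exact this
  obtain ⟨hQfin, k6⟩ := badQ_card (K := K * qa) (qb := qb) (Λ := Λ) (δ := δ) (κ := κ₁ / 2)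
    (fun N q p i α s σ h1 h2 h3 h4 h5 h6 h7 h8 h9 h10 => HQ N q p i α s σ h1 h2 h3 h4 h5 h6 h7
      (h8.imp id fun h => ⟨h.1, h.2.1, hq1b.trans h.2.2⟩) h9 h10)
    (N := N) (qa := qa) (Q := Q) (P := P) b6 hqaR hlQ
  obtain ⟨hRfin, k7⟩ := badR'_card (K := K * qa) (qb := qb) (Λ := Λ) (δ := δ) (κ := κ₁ / 2)
    (fun N q i α σ h1 h2 h3 h4 h8 h10 => HR N q i α σ h1 h2 h3 h4
      (h8.imp id fun h => ⟨h.1, h.2.1, hq1b.trans h.2.2⟩) h10)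
    (N := N) (qa := qa) (Q := Q) (R := R) b6 hqaR hlQ
  obtain ⟨f1, f2⟩ := final_count hN1' hε hQ12 hPle hRle b3
  have hsub : LargeB N K Λ ((qa * qb) ^ (qa * qb)) ⊆
      {B : ℕ | 0 < B ∧ B ≤ N ∧ ¬ Typ N P₀ κ₁ (1 / 4) B} ∪
        (BadQ (κ₁ / 2) Λ N (K * qa) qa qb Q P ∪ BadR' (κ₁ / 2) Λ N (K * qa) qa qb Q R) := by
    rintro B ⟨hB0, hBN, A, x, y, z, C, hA0, hAK, hAB, hx, hy, hz, hC, hbig, h⟩
    by_cases hB : Typ N P₀ κ₁ (1 / 4) B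
    · right
      exact mem_bad2 hκ0 hκ1 hqa3 hqab hN1' hK hQbd
        (by rw [hQ, hc₀]; exact (Nat.le_add_right _ _).trans (Nat.le_add_left _ _))
        (by rw [hQ, hc₀]; exact (Nat.le_add_left _ _).trans (Nat.le_add_left _ _)) (fun p hp => by rw [hP]; exact Nat.le_floor hp) hQκ hRlt hA0 hAK
        hB0 hBN hAB hB hx hy hz hC hbig h
    · left
      exact ⟨hB0, hBN, hB⟩
  have h1 := Set.ncard_le_ncard hsub (hTfin.union (hQfin.union hRfin))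
  have h2 := Set.ncard_union_le {B : ℕ | 0 < B ∧ B ≤ N ∧ ¬ Typ N P₀ κ₁ (1 / 4) B}
    (BadQ (κ₁ / 2) Λ N (K * qa) qa qb Q P ∪ BadR' (κ₁ / 2) Λ N (K * qa) qa qb Q R)
  have h3 := Set.ncard_union_le (BadQ (κ₁ / 2) Λ N (K * qa) qa qb Q P)
    (BadR' (κ₁ / 2) Λ N (K * qa) qa qb Q R)
  have h4 : ((LargeB N K Λ ((qa * qb) ^ (qa * qb))).ncard : ℝ) ≤
      ({B : ℕ | 0 < B ∧ B ≤ N ∧ ¬ Typ N P₀ κ₁ (1 / 4) B}.ncard : ℝ) +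
      ((BadQ (κ₁ / 2) Λ N (K * qa) qa qb Q P).ncard +
      (BadR' (κ₁ / 2) Λ N (K * qa) qa qb Q R).ncard) := by
    exact_mod_cast h1.trans (h2.trans (Nat.add_le_add_left h3 _))
  have k6' : ((BadQ (κ₁ / 2) Λ N (K * qa) qa qb Q P).ncard : ℝ) ≤ ε / 4 * N :=
    le_trans (by exact_mod_cast k6) f1
  have k7' : ((BadR' (κ₁ / 2) Λ N (K * qa) qa qb Q R).ncard : ℝ) ≤ ε / 4 * N :=
    le_trans (by exact_mod_cast k7) f2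
  linarith

end Pool.Agent.TH888.B2
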