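import Mathlib
import Pool.Agent.TH888.B1.FreeMain

/-!
Small solutions: the count.
-/

set_option autoImplicit false

namespace Pool.Agent.TH888.B2

open Finset Polynomial Filter Topology
open Pool.Agent.TH888.B1 (power_count polylog_rpow)

/-- the polynomial `s X ^ y + t W` -/
noncomputable def Fp (s t : ℤ) (y W : ℕ) : ℤ[X] := C s * X ^ y + C (t * W)

theorem fp_natDegree {s t : ℤ} {y W : ℕ} (hs : s = 1 ∨ s = -1) : (Fp s t y W).natDegree = y := by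
  unfold Fp
  rw [natDegree_add_C, natDegree_C_mul_X_pow]
  rcases hs with rfl | rfl <;> norm_num

theorem fp_not_power {s t : ℤ} {y W x : ℕ} (hs : s = 1 ∨ s = -1) (ht : t = 1 ∨ t = -1)
    (hy : 0 < y) (hW : 0 < W) (hx : 2 ≤ x) :
    ¬ ∃ G : ℚ[X], (Fp s t y W).map (Int.castRingHom ℚ) = G ^ x := by
  rintro ⟨G, hG⟩
  have hmap : (Fp s t y W).map (Int.castRingHom ℚ) = C (s : ℚ) * X ^ y + C ((t : ℚ) * W) := by
    unfold Fp
    rw [Polynomial.map_add, Polynomial.map_mul, Polynomial.map_pow, map_X, map_C, map_C]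
    simp
  have hdeg : ((Fp s t y W).map (Int.castRingHom ℚ)).natDegree = y := by
    rw [natDegree_map_eq_of_injective (Int.castRingHom ℚ).injective_int, fp_natDegree hs]
  have h1 : G ∣ (Fp s t y W).map (Int.castRingHom ℚ) := by
    rw [hG]; exact dvd_pow_self G (by omega)
  have h2 : G ∣ derivative ((Fp s t y W).map (Int.castRingHom ℚ)) := by
    rw [hG, derivative_pow]
    exact Dvd.dvd.mul_right (Dvd.dvd.mul_left (dvd_pow_self G (by omega)) _) _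
  have h3 : C (y : ℚ) * (Fp s t y W).map (Int.castRingHom ℚ) -
      X * derivative ((Fp s t y W).map (Int.castRingHom ℚ)) = C ((y : ℚ) * (t * W)) := by
    rw [hmap]
    obtain ⟨y', rfl⟩ : ∃ y', y = y' + 1 := ⟨y - 1, by omega⟩
    rw [derivative_add, derivative_C, derivative_C_mul_X_pow, Nat.add_sub_cancel]
    simp only [C_mul, map_natCast]
    ring
  have h4 : G ∣ C ((y : ℚ) * (t * W)) := by
    rw [← h3]
    exact dvd_sub (h1.mul_left _) (h2.mul_left _)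
  have hne : ((y : ℚ) * (t * W)) ≠ 0 := by
    have e1 : (y : ℚ) ≠ 0 := by exact_mod_cast hy.ne'
    have e2 : (W : ℚ) ≠ 0 := by exact_mod_cast hW.ne'
    have e3 : (t : ℚ) ≠ 0 := by rcases ht with rfl | rfl <;> norm_num
    exact mul_ne_zero e1 (mul_ne_zero e3 e2)
  have h5 : IsUnit G := isUnit_of_dvd_unit h4 (isUnit_C.mpr (isUnit_iff_ne_zero.mpr hne))
  have h6 : G.natDegree = 0 := natDegree_eq_zero_of_isUnit h5
  rw [hG, natDegree_pow, h6, mul_zero] at hdeg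
  omega

theorem fp_map_ne {s t : ℤ} {y W ℓ : ℕ} (hℓ : ℓ.Prime) (hs : s = 1 ∨ s = -1) (hy : 0 < y) :
    (Fp s t y W).map (Int.castRingHom (ZMod ℓ)) ≠ 0 := by
  have : Fact ℓ.Prime := ⟨hℓ⟩
  intro h
  have h1 := congrArg (fun P : (ZMod ℓ)[X] => P.coeff y) h
  simp only [coeff_map, coeff_zero] at h1
  have h2 : (Fp s t y W).coeff y = s := by
    unfold Fp
    rw [coeff_add, coeff_C_mul, coeff_X_pow, if_pos rfl, mul_one, coeff_C, if_neg hy.ne', add_zero]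
  rw [h2] at h1
  rcases hs with rfl | rfl
  · simp at h1
  · simp at h1

theorem fp_eval {s t : ℤ} {y W : ℕ} (n : ℤ) : (Fp s t y W).eval n = s * n ^ y + t * W := by
  unfold Fp
  simp

/-- The integers `B ≤ N` which occur in a small solution with `x ≥ 2`, `z ≥ Z₁`. -/
def SmallB (N Λ Z₁ : ℕ) : Set ℕ :=
  {B | 0 < B ∧ B ≤ N ∧ N ≤ B ^ 2 ∧ ∃ A x y z C : ℕ, 0 < A ∧ 2 ≤ x ∧ 0 < y ∧ Z₁ ≤ z ∧ 0 < C ∧
    A ^ x ≤ N ^ Λ ∧ C ^ z ≤ N ^ Λ ∧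
    (A ^ x + B ^ y = C ^ z ∨ A ^ x + C ^ z = B ^ y ∨ B ^ y + C ^ z = A ^ x)}

theorem smallB_finite (N Λ Z₁ : ℕ) : (SmallB N Λ Z₁).Finite :=
  (Set.finite_Icc 0 N).subset fun _ hB => ⟨Nat.zero_le _, hB.2.1⟩

/-- normal form of a small solution -/
theorem small_norm {N Λ M ν B : ℕ} (hN : 2 ≤ N) (hΛ : 1 ≤ Λ) (hν : N < 2 ^ ν)
    (hM : ∀ C : ℕ, C ^ 16 ≤ N → C ≤ M) (hM1 : 1 ≤ M) (hB : B ∈ SmallB N Λ (16 * Λ)) :
    ∃ C z x y w : ℕ, ∃ s t : ℤ, 1 ≤ C ∧ C ≤ M ∧ z ≤ ν * Λ ∧ 2 ≤ x ∧ x ≤ ν * Λ + 2 ∧ 0 < y ∧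
      y ≤ 2 * Λ + 2 ∧ (s = 1 ∨ s = -1) ∧ (t = 1 ∨ t = -1) ∧ w ≤ N ^ Λ ∧
      (w : ℤ) ^ x = (Fp s t y (C ^ z)).eval (B : ℤ) := by
  obtain ⟨hB0, hBN, hB2, A, x, y, z, C, hA, hx, hy, hz, hC, hAN, hCN, h⟩ := hB
  have hpow : ∀ {a e : ℕ}, 2 ≤ a → a ^ e ≤ N ^ Λ → e ≤ ν * Λ := by
    intro a e ha he
    have h1 : 2 ^ e ≤ a ^ e := Nat.pow_le_pow_left ha e
    have h2 : N ^ Λ ≤ (2 ^ ν) ^ Λ := Nat.pow_le_pow_left hν.le Λ
    rw [← pow_mul] at h2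
    exact (Nat.pow_le_pow_iff_right (by norm_num)).mp (h1.trans (he.trans h2))
  -- the base `C` and its exponent
  obtain ⟨z', hz', hCz⟩ : ∃ z', z' ≤ ν * Λ ∧ C ^ z' = C ^ z := by
    rcases Nat.lt_or_ge C 2 with h1 | h1
    · have : C = 1 := by omega
      subst this
      exact ⟨0, Nat.zero_le _, by simp⟩
    · exact ⟨z, hpow h1 hCN, rfl⟩
  have hCM : C ≤ M := by
    apply hM
    have h1 : (C ^ 16) ^ Λ ≤ N ^ Λ := by
      rw [← pow_mul]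
      exact (Nat.pow_le_pow_right hC hz).trans hCN
    exact (Nat.pow_le_pow_iff_left (by omega)).mp h1
  -- the base `A` and its exponent
  obtain ⟨x', hx'2, hx', hAx⟩ : ∃ x', 2 ≤ x' ∧ x' ≤ ν * Λ + 2 ∧ A ^ x' = A ^ x := by
    rcases Nat.lt_or_ge A 2 with h1 | h1
    · have : A = 1 := by omega
      subst this
      exact ⟨2, le_rfl, by omega, by simp⟩
    · exact ⟨x, hx, (hpow h1 hAN).trans (by omega), rfl⟩
  have hAle : A ≤ N ^ Λ := (Nat.le_self_pow (by omega) A).trans hAN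
  -- the exponent `y`
  have hy' : y ≤ 2 * Λ + 2 := by
    have h1 : B ^ y ≤ 2 * N ^ Λ := by
      rcases h with h | h | h <;> omega
    have h2 : B ^ y ≤ N ^ (Λ + 1) := by
      rw [pow_succ, mul_comm]
      exact h1.trans (Nat.mul_le_mul_right _ hN)
    have h3 : N ^ y ≤ N ^ (2 * (Λ + 1)) := by
      calc N ^ y ≤ (B ^ 2) ^ y := Nat.pow_le_pow_left hB2 y
        _ = (B ^ y) ^ 2 := by rw [← pow_mul, ← pow_mul, mul_comm]
        _ ≤ (N ^ (Λ + 1)) ^ 2 := Nat.pow_le_pow_left h2 2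
        _ = N ^ (2 * (Λ + 1)) := by rw [← pow_mul, mul_comm]
    have := (Nat.pow_le_pow_iff_right (by omega)).mp h3
    omega
  have e1 : (A : ℤ) ^ x' = (A : ℤ) ^ x := by exact_mod_cast hAx
  have e2 : ((C ^ z' : ℕ) : ℤ) = (C : ℤ) ^ z := by rw [hCz]; push_cast; rfl
  rcases h with h | h | h
  · have h' : (A : ℤ) ^ x + (B : ℤ) ^ y = (C : ℤ) ^ z := by exact_mod_cast h
    refine ⟨C, z', x', y, A, -1, 1, hC, hCM, hz', hx'2, hx', hy, hy', Or.inr rfl, Or.inl rfl, hAle, ?_⟩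
    rw [fp_eval, e1, e2, ← h']
    ring
  · have h' : (A : ℤ) ^ x + (C : ℤ) ^ z = (B : ℤ) ^ y := by exact_mod_cast h
    refine ⟨C, z', x', y, A, 1, -1, hC, hCM, hz', hx'2, hx', hy, hy', Or.inl rfl, Or.inr rfl, hAle, ?_⟩
    rw [fp_eval, e1, e2, ← h']
    ring
  · have h' : (B : ℤ) ^ y + (C : ℤ) ^ z = (A : ℤ) ^ x := by exact_mod_cast h
    refine ⟨C, z', x', y, A, 1, 1, hC, hCM, hz', hx'2, hx', hy, hy', Or.inl rfl, Or.inl rfl, hAle, ?_⟩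
    rw [fp_eval, e1, e2, ← h']
    ring

/-- the count with all parameters -/
theorem small_count {N Λ M ν a ℓ : ℕ} (hN : 2 ≤ N) (hΛ : 1 ≤ Λ) (hν : N < 2 ^ ν)
    (hM : ∀ C : ℕ, C ^ 16 ≤ N → C ≤ M) (hM1 : 1 ≤ M) (hℓ : ℓ.Prime) (hℓx : ν * Λ + 2 < ℓ)
    (hbig : N ^ a * N ^ Λ * (2 * (a + 1)) ^ 2 < ℓ ^ (2 * a + 1)) :
    (SmallB N Λ (16 * Λ)).ncard ≤ (M * ((ν * Λ + 1) * ((ν * Λ + 3) * ((2 * Λ + 3) * 4)))) *
      ((2 * Λ + 2) * (N / ℓ + 1) + ℓ * ((ν * Λ + 2) * ((ν * Λ + 2) * a + (2 * Λ + 2)))) := by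
  classical
  obtain ⟨J, hJ⟩ : ∃ J : Finset (ℕ × ℕ × ℕ × ℕ × ℤ × ℤ), J = (Icc 1 M ×ˢ range (ν * Λ + 1) ×ˢ
    range (ν * Λ + 3) ×ˢ range (2 * Λ + 3) ×ˢ ({1, -1} : Finset ℤ) ×ˢ
      ({1, -1} : Finset ℤ)).filter (fun j => 2 ≤ j.2.2.1 ∧ 0 < j.2.2.2.1) := ⟨_, rfl⟩
  have hJc : J.card ≤ M * ((ν * Λ + 1) * ((ν * Λ + 3) * ((2 * Λ + 3) * 4))) := by
    rw [hJ]
    refine (Finset.card_filter_le _ _).trans (le_of_eq ?_)
    rw [Finset.card_product, Finset.card_product, Finset.card_product, Finset.card_product,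
      Finset.card_product, Finset.card_range, Finset.card_range, Finset.card_range, Nat.card_Icc,
      Nat.add_sub_cancel]
    congr 1
  obtain ⟨Z, hZ⟩ : ∃ Z : (ℕ × ℕ × ℕ × ℕ × ℤ × ℤ) → Finset ℕ, Z = fun j => (Icc 1 N).filter
    (fun n : ℕ => ∃ w : ℤ, |w| ≤ ((N ^ Λ : ℕ) : ℤ) ∧
      w ^ j.2.2.1 = (Fp j.2.2.2.2.1 j.2.2.2.2.2 j.2.2.2.1 (j.1 ^ j.2.1)).eval (n : ℤ)) := ⟨_, rfl⟩
  have h1 : ∀ j ∈ J, (Z j).card ≤ (2 * Λ + 2) * (N / ℓ + 1) +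
      ℓ * ((ν * Λ + 2) * ((ν * Λ + 2) * a + (2 * Λ + 2))) := by
    rintro ⟨C, z, x, y, s, t⟩ hj
    rw [hJ, mem_filter] at hj
    simp only [mem_product, mem_range, mem_Icc, mem_insert, mem_singleton] at hj
    obtain ⟨⟨⟨hC1, hCM⟩, hz, hx, hy, hs, ht⟩, hx2, hy0⟩ := hj
    have hxℓ : ¬ ℓ ∣ x := fun h => by
      have := Nat.le_of_dvd (by omega) h
      omega
    have hW : 0 < C ^ z := Nat.pow_pos hC1
    have h8 := power_count (F := Fp s t y (C ^ z)) (D := 2 * Λ + 2) hℓ (by omega) hxℓ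
      (fp_not_power hs ht hy0 hW hx2) (by rw [fp_natDegree hs]; omega) (fp_map_ne hℓ hs hy0)
      (by omega : 1 ≤ N) (Nat.one_le_pow Λ N (by omega)) hbig (Z (C, z, x, y, s, t)) (by
        intro n hn
        simp only [hZ, mem_filter, mem_Icc] at hn
        exact ⟨hn.1.1, hn.1.2, hn.2⟩)
    refine h8.trans (Nat.add_le_add_left (Nat.mul_le_mul_left _ ?_) _)
    exact Nat.mul_le_mul (by omega) (Nat.add_le_add_right (Nat.mul_le_mul_right _ (by omega)) _)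
  have h2 : SmallB N Λ (16 * Λ) ⊆ ((J.biUnion Z : Finset ℕ) : Set ℕ) := by
    intro B hB
    obtain ⟨C, z, x, y, w, s, t, h3, h4, h5, h6, h7, h8, h9, hs, ht, h10, h11⟩ :=
      small_norm hN hΛ hν hM hM1 hB
    rw [mem_coe, mem_biUnion]
    refine ⟨(C, z, x, y, s, t), ?_, ?_⟩
    · rw [hJ, mem_filter]
      simp only [mem_product, mem_range, mem_Icc, mem_insert, mem_singleton]
      exact ⟨⟨⟨h3, h4⟩, by omega, by omega, by omega, hs, ht⟩, h6, h8⟩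
    · simp only [hZ, mem_filter, mem_Icc]
      refine ⟨⟨hB.1, hB.2.1⟩, w, ?_, h11⟩
      rw [abs_of_nonneg (Int.natCast_nonneg _)]
      exact_mod_cast h10
  have h3 := Set.ncard_le_ncard h2 (Finset.finite_toSet _)
  rw [Set.ncard_coe_finset] at h3
  exact h3.trans ((card_biUnion_le_card_mul _ _ _ h1).trans (Nat.mul_le_mul_right _ hJc))

/-- the auxiliary prime and the numbers -/
theorem small_main (Λ : ℕ) (hΛ : 1 ≤ Λ) : ∃ N₀ : ℕ, ∀ N : ℕ, N₀ ≤ N →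
    ((SmallB N Λ (16 * Λ)).ncard : ℝ) ≤ (N : ℝ) ^ (7 / 8 : ℝ) := by
  obtain ⟨a, ha⟩ : ∃ a, a = 2 * Λ + 1 := ⟨_, rfl⟩
  obtain ⟨D, hD⟩ : ∃ D, D = 2 * Λ + 3 := ⟨_, rfl⟩
  -- the constant of the polylogarithmic factor
  obtain ⟨c, hc⟩ : ∃ c, c = (D * (D * (D * 4))) * (2 * D + 4 * (D * (D * a + D))) := ⟨_, rfl⟩
  obtain ⟨L₁, hL₁⟩ := polylog_rpow c 4 (1 / 16) (by norm_num)
  have ht2 : Tendsto (fun N : ℕ => (N : ℝ) ^ (1 / 16 : ℝ)) atTop atTop :=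
    (tendsto_rpow_atTop (by norm_num)).comp tendsto_natCast_atTop_atTop
  obtain ⟨L₂, hL₂⟩ := eventually_atTop.mp (ht2.eventually_ge_atTop (((2 * (a + 1)) ^ 2 : ℕ) + 2))
  refine ⟨L₁ + L₂ + 2, fun N hN => ?_⟩
  have hpl := hL₁ N (by omega)
  have hv2 := hL₂ N (by omega)
  obtain ⟨v, hv⟩ : ∃ v, v = (N : ℝ) ^ (1 / 16 : ℝ) := ⟨_, rfl⟩
  rw [← hv] at hpl hv2
  have hNpos : 0 < N := by omega
  have hN0 : (0 : ℝ) < N := by exact_mod_cast hNpos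
  have hv1 : 2 ≤ v := by
    have : (0 : ℝ) ≤ (((2 * (a + 1)) ^ 2 : ℕ) : ℝ) := Nat.cast_nonneg _
    linarith
  have hv0 : 0 < v := by linarith
  have hv16 : (N : ℝ) = v ^ 16 := by
    rw [hv, ← Real.rpow_natCast, ← Real.rpow_mul hN0.le]
    norm_num
  have hv14 : (N : ℝ) ^ (7 / 8 : ℝ) = v ^ 14 := by
    rw [hv, ← Real.rpow_natCast, ← Real.rpow_mul hN0.le]
    norm_num
  obtain ⟨ν, hν⟩ : ∃ ν, ν = Nat.log 2 N + 1 := ⟨_, rfl⟩
  rw [← hν] at hpl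
  have hν1 : 1 ≤ ν := by omega
  have hνR : (1 : ℝ) ≤ ν := by exact_mod_cast hν1
  have hNν : N < 2 ^ ν := by rw [hν]; exact Nat.lt_pow_succ_log_self (by norm_num) N
  obtain ⟨M, hM⟩ : ∃ M, M = ⌊v⌋₊ := ⟨_, rfl⟩
  have hMle : (M : ℝ) ≤ v := by rw [hM]; exact Nat.floor_le hv0.le
  have hM1 : 1 ≤ M := by
    rw [hM]
    exact Nat.le_floor (by push_cast; linarith)
  have hMC : ∀ C : ℕ, C ^ 16 ≤ N → C ≤ M := by
    intro C hC
    rw [hM]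
    apply Nat.le_floor
    have h1 : (C : ℝ) ^ 16 ≤ v ^ 16 := by
      rw [← hv16]; exact_mod_cast hC
    exact le_of_pow_le_pow_left₀ (by norm_num) hv0.le h1
  -- the prime
  have hy0 : ⌈v ^ 12⌉₊ ≠ 0 := by
    have : 0 < ⌈v ^ 12⌉₊ := Nat.ceil_pos.mpr (by positivity)
    omega
  obtain ⟨ℓ, hℓ, hℓ1, hℓ2⟩ := Nat.exists_prime_lt_and_le_two_mul ⌈v ^ 12⌉₊ hy0
  have hℓv : v ^ 12 < ℓ := by
    have h1 := Nat.le_ceil (v ^ 12)
    have h2 : (⌈v ^ 12⌉₊ : ℝ) < ℓ := by exact_mod_cast hℓ1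
    linarith
  have hv12 : (1 : ℝ) ≤ v ^ 12 := one_le_pow₀ (by linarith)
  have hℓ4 : (ℓ : ℝ) ≤ 4 * v ^ 12 := by
    have h1 : (⌈v ^ 12⌉₊ : ℝ) < v ^ 12 + 1 := Nat.ceil_lt_add_one (by positivity)
    have h2 : (ℓ : ℝ) ≤ 2 * (⌈v ^ 12⌉₊ : ℝ) := by exact_mod_cast hℓ2
    linarith
  -- the polylogarithmic factor
  have hD1 : (ν * Λ + 3 : ℕ) ≤ D * ν := by
    rw [hD]
    nlinarith
  have hD1R : ((ν : ℝ) * Λ + 3) ≤ D * ν := by exact_mod_cast hD1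
  have hDR : (D : ℝ) = 2 * Λ + 3 := by rw [hD]; push_cast; ring
  have hDν : (D : ℝ) ≤ D * ν := le_mul_of_one_le_right (Nat.cast_nonneg _) hνR
  have hc1 : 1 ≤ c := by
    rw [hc]
    have : 0 < D := by omega
    exact Nat.succ_le_of_lt (by positivity)
  have hcR : (c : ℝ) = (D * (D * (D * 4))) * (2 * D + 4 * (D * (D * a + D))) := by
    rw [hc]; push_cast; ring
  have hc0 : (1 : ℝ) ≤ c := by exact_mod_cast hc1
  have hcν : (c : ℝ) * (ν : ℝ) ^ 4 ≤ v := hpl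
  have hℓx : ν * Λ + 2 < ℓ := by
    have h1 : ((ν * Λ + 3 : ℕ) : ℝ) ≤ c * (ν : ℝ) ^ 4 := by
      have h2 : (D : ℝ) ≤ c := by
        have h3 : D ≤ c := by
          have hDpos : 0 < D := by omega
          rw [hc]
          calc D = (D * (1 * (1 * 1))) * (1 + 0) := by ring
            _ ≤ (D * (D * (D * 4))) * (2 * D + 4 * (D * (D * a + D))) := by
                apply Nat.mul_le_mul
                · apply Nat.mul_le_mul_left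
                  exact Nat.mul_le_mul hDpos (Nat.mul_le_mul hDpos (by norm_num))
                · omega
        exact_mod_cast h3
      have h3 : (ν : ℝ) ≤ (ν : ℝ) ^ 4 := le_self_pow₀ hνR (by norm_num)
      push_cast
      exact hD1R.trans (mul_le_mul h2 h3 (by positivity) (by positivity))
    have h4 : v ≤ v ^ 12 := le_self_pow₀ (by linarith) (by norm_num)
    have h5 : ((ν * Λ + 3 : ℕ) : ℝ) < ℓ := by linarith
    have h6 : ν * Λ + 3 < ℓ := by exact_mod_cast h5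
    omega
  have hbig : N ^ a * N ^ Λ * (2 * (a + 1)) ^ 2 < ℓ ^ (2 * a + 1) := by
    have h1 : ((N : ℝ) ^ a * (N : ℝ) ^ Λ * (((2 * (a + 1)) ^ 2 : ℕ) : ℝ)) < (ℓ : ℝ) ^ (2 * a + 1) := by
      have h2 : (((2 * (a + 1)) ^ 2 : ℕ) : ℝ) ≤ v := by linarith
      calc (N : ℝ) ^ a * (N : ℝ) ^ Λ * (((2 * (a + 1)) ^ 2 : ℕ) : ℝ) ≤ (v ^ 16) ^ a * (v ^ 16) ^ Λ * v := by
            rw [hv16]
            gcongr
        _ = v ^ (16 * a + 16 * Λ + 1) := by rw [← pow_mul, ← pow_mul, ← pow_add, ← pow_succ]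
        _ < v ^ (12 * (2 * a + 1)) := pow_lt_pow_right₀ (by linarith) (by omega)
        _ = (v ^ 12) ^ (2 * a + 1) := by rw [← pow_mul]
        _ ≤ (ℓ : ℝ) ^ (2 * a + 1) := pow_le_pow_left₀ (by positivity) hℓv.le _
    exact_mod_cast h1
  have hcount := small_count (by omega : 2 ≤ N) hΛ hNν hMC hM1 hℓ hℓx hbig
  have hcountR : ((SmallB N Λ (16 * Λ)).ncard : ℝ) ≤
      ((M : ℝ) * (((ν : ℝ) * Λ + 1) * (((ν : ℝ) * Λ + 3) * ((2 * Λ + 3) * 4)))) *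
      ((2 * Λ + 2) * (((N / ℓ : ℕ) : ℝ) + 1) + ℓ * (((ν : ℝ) * Λ + 2) * (((ν : ℝ) * Λ + 2) * a + (2 * Λ + 2)))) := by
    exact_mod_cast hcount
  have hNℓ : ((N / ℓ : ℕ) : ℝ) ≤ v ^ 12 := by
    have h1 : ((N / ℓ : ℕ) : ℝ) ≤ (N : ℝ) / ℓ := Nat.cast_div_le
    have h2 : (N : ℝ) / ℓ ≤ N / v ^ 12 := div_le_div_of_nonneg_left hN0.le (by positivity) hℓv.le
    have h3 : (N : ℝ) / v ^ 12 = v ^ 4 := by
      rw [hv16]
      field_simp
    have h4 : v ^ 4 ≤ v ^ 12 := pow_le_pow_right₀ (by linarith) (by norm_num)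
    linarith
  have hΛ0 : (0 : ℝ) ≤ Λ := Nat.cast_nonneg _
  have hν0 : (0 : ℝ) ≤ ν := Nat.cast_nonneg _
  have hD0 : (0 : ℝ) ≤ D := Nat.cast_nonneg _
  have ha0 : (0 : ℝ) ≤ a := Nat.cast_nonneg _
  have hνΛ : (0 : ℝ) ≤ ν * Λ := by positivity
  rw [hv14]
  calc ((SmallB N Λ (16 * Λ)).ncard : ℝ) ≤ _ := hcountR
    _ ≤ (v * ((D * ν) * ((D * ν) * (D * 4)))) *
        (D * (v ^ 12 + v ^ 12) + (4 * v ^ 12) * ((D * ν) * ((D * ν) * a + D * ν))) := by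
        gcongr <;> linarith
    _ ≤ (v * ((D * ν) * ((D * ν) * (D * 4)))) *
        ((D * (v ^ 12 + v ^ 12) + (4 * v ^ 12) * (D * (D * a + D))) * ν ^ 2) := by
        apply mul_le_mul_of_nonneg_left _ (by positivity)
        have h1 : (1 : ℝ) ≤ ν ^ 2 := one_le_pow₀ hνR
        have h2 : D * (v ^ 12 + v ^ 12) ≤ D * (v ^ 12 + v ^ 12) * (ν : ℝ) ^ 2 :=
          le_mul_of_one_le_right (by positivity) h1
        have h3 : (4 * v ^ 12) * (((D : ℝ) * ν) * ((D * ν) * a + D * ν)) =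
            (4 * v ^ 12) * (D * (D * a + D)) * ν ^ 2 := by ring
        rw [h3]
        linarith
    _ = v ^ 13 * (c * (ν : ℝ) ^ 4) := by rw [hcR]; ring
    _ ≤ v ^ 13 * v := mul_le_mul_of_nonneg_left hcν (by positivity)
    _ = v ^ 14 := by ring

end Pool.Agent.TH888.B2
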