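import Mathlib
import Pool.Agent.TH888.B2.LargeMain
import Pool.Agent.TH888.B2.Small

/-!
All solutions with `z ≥ Z₀`: large and small ones together.
-/

set_option autoImplicit false

namespace Pool.Agent.TH888.B2

open Finset Filter Topology

/-- The integers `B ≤ N` which occur in a solution with some `A ≤ N ^ K`, `x ≥ 2` and `z ≥ Z₀`. -/
def AllB (N K Z₀ : ℕ) : Set ℕ :=
  {B | 0 < B ∧ B ≤ N ∧ ∃ A x y z C : ℕ, 0 < A ∧ A ≤ N ^ K ∧ Nat.Coprime A B ∧ 2 ≤ x ∧ 0 < y ∧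
    Z₀ ≤ z ∧ 0 < C ∧ (A ^ x + B ^ y = C ^ z ∨ A ^ x + C ^ z = B ^ y ∨ B ^ y + C ^ z = A ^ x)}

theorem sqrt_count {ε : ℝ} (hε : 0 < ε) {N : ℕ} (hN1 : 1 ≤ N) (hN : (2 / ε) ^ 2 ≤ (N : ℝ)) :
    ((Set.Icc 0 (Nat.sqrt N)).ncard : ℝ) ≤ ε * N := by
  have hNR : (0 : ℝ) < N := by exact_mod_cast hN1
  have h1 : (Set.Icc 0 (Nat.sqrt N)).ncard = Nat.sqrt N + 1 := by
    rw [← Finset.coe_Icc, Set.ncard_coe_finset, Nat.card_Icc]
    omega
  rw [h1]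
  push_cast
  have h2 : ((Nat.sqrt N : ℕ) : ℝ) ≤ Real.sqrt N := Real.nat_sqrt_le_real_sqrt
  have h4 : 2 / ε ≤ Real.sqrt N := Real.le_sqrt_of_sq_le hN
  have h5 : Real.sqrt N * Real.sqrt N = N := Real.mul_self_sqrt hNR.le
  have h6 : (1 : ℝ) ≤ Real.sqrt N := by
    rw [Real.one_le_sqrt]
    exact_mod_cast hN1
  have h7 : 2 ≤ Real.sqrt N * ε := by
    rw [div_le_iff₀ hε] at h4
    exact h4
  have h8 : 2 * Real.sqrt N ≤ ε * N := by
    calc 2 * Real.sqrt N ≤ (Real.sqrt N * ε) * Real.sqrt N := by gcongr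
      _ = ε * (Real.sqrt N * Real.sqrt N) := by ring
      _ = ε * N := by rw [h5]
  linarith

theorem all_main (K : ℕ) (ε : ℝ) (hε : 0 < ε) :
    ∃ Z₀ N₀ : ℕ, ∀ N : ℕ, N₀ ≤ N → ((AllB N K Z₀).ncard : ℝ) ≤ ε * N := by
  obtain ⟨Λ, Z₁, N₁, hΛ, H₁⟩ := large_main (max K 1) (le_max_right _ _) (ε / 3) (by positivity)
  obtain ⟨Λ', hΛ'⟩ : ∃ Λ', Λ' = ⌈Λ⌉₊ + 1 := ⟨_, rfl⟩
  obtain ⟨N₂, H₂⟩ := small_main Λ' (by omega)
  have ht : Tendsto (fun N : ℕ => (N : ℝ) ^ (1 / 8 : ℝ)) atTop atTop :=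
    (tendsto_rpow_atTop (by norm_num)).comp tendsto_natCast_atTop_atTop
  obtain ⟨N₃, H₃⟩ := eventually_atTop.mp (ht.eventually_ge_atTop (3 / ε))
  refine ⟨max Z₁ (16 * Λ'), N₁ + N₂ + N₃ + ⌈(2 / (ε / 3)) ^ 2⌉₊ + 2, fun N hN => ?_⟩
  have hN1 : 1 ≤ N := by omega
  have hNR : (1 : ℝ) ≤ N := by exact_mod_cast hN1
  have hN0 : (0 : ℝ) < N := by linarith
  have k1 := H₁ N (by omega)
  have k2 := H₂ N (by omega)
  have k3 := H₃ N (by omega)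
  have k4 := sqrt_count (ε := ε / 3) (by positivity) hN1
    ((Nat.le_ceil _).trans (by exact_mod_cast (by omega : ⌈(2 / (ε / 3)) ^ 2⌉₊ ≤ N)))
  have k2' : (N : ℝ) ^ (7 / 8 : ℝ) ≤ ε / 3 * N := by
    have h1 : (N : ℝ) = (N : ℝ) ^ (7 / 8 : ℝ) * (N : ℝ) ^ (1 / 8 : ℝ) := by
      rw [← Real.rpow_add hN0]
      norm_num
    have h2 : 3 / ε * (ε / 3) = 1 := by field_simp
    calc (N : ℝ) ^ (7 / 8 : ℝ) = (N : ℝ) ^ (7 / 8 : ℝ) * (3 / ε) * (ε / 3) := by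
          rw [mul_assoc, h2, mul_one]
      _ ≤ (N : ℝ) ^ (7 / 8 : ℝ) * (N : ℝ) ^ (1 / 8 : ℝ) * (ε / 3) := by gcongr
      _ = ε / 3 * N := by rw [← h1]; ring
  have hsub : AllB N K (max Z₁ (16 * Λ')) ⊆ LargeB N (max K 1) Λ Z₁ ∪
      (SmallB N Λ' (16 * Λ') ∪ Set.Icc 0 (Nat.sqrt N)) := by
    rintro B ⟨hB0, hBN, A, x, y, z, C, hA, hAK, hAB, hx, hy, hz, hC, h⟩
    have hAK' : A ≤ N ^ max K 1 := hAK.trans (Nat.pow_le_pow_right hN1 (le_max_left _ _))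
    by_cases hlarge : Λ * Real.log N ≤ Real.log ((max (C ^ z) (A ^ x) : ℕ) : ℝ)
    · left
      exact ⟨hB0, hBN, A, x, y, z, C, hA, hAK', hAB, by omega, hy, (le_max_left _ _).trans hz, hC,
        hlarge, h⟩
    · right
      by_cases hB2 : N ≤ B ^ 2
      · left
        rw [not_le] at hlarge
        have hmax : max (C ^ z) (A ^ x) ≤ N ^ Λ' := by
          have h0 : 0 < max (C ^ z) (A ^ x) := lt_max_of_lt_left (Nat.pow_pos hC)
          have h1 : ((max (C ^ z) (A ^ x) : ℕ) : ℝ) < (N : ℝ) ^ Λ := by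
            rw [← Real.log_rpow hN0] at hlarge
            exact (Real.log_lt_log_iff (by exact_mod_cast h0) (Real.rpow_pos_of_pos hN0 _)).mp hlarge
          have h2 : (N : ℝ) ^ Λ ≤ (N : ℝ) ^ ((Λ' : ℕ) : ℝ) := by
            apply Real.rpow_le_rpow_of_exponent_le hNR
            rw [hΛ']
            push_cast
            have := Nat.le_ceil Λ
            linarith
          rw [Real.rpow_natCast] at h2
          have h3 : ((max (C ^ z) (A ^ x) : ℕ) : ℝ) ≤ ((N ^ Λ' : ℕ) : ℝ) := by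
            push_cast at h1 h2 ⊢
            linarith
          exact_mod_cast h3
        exact ⟨hB0, hBN, hB2, A, x, y, z, C, hA, hx, hy, (le_max_right _ _).trans hz, hC,
          (le_max_right _ _).trans hmax, (le_max_left _ _).trans hmax, h⟩
      · right
        refine ⟨Nat.zero_le _, ?_⟩
        rw [Nat.le_sqrt']
        omega
  have hfin : (LargeB N (max K 1) Λ Z₁ ∪
      (SmallB N Λ' (16 * Λ') ∪ Set.Icc 0 (Nat.sqrt N))).Finite :=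
    (largeB_finite _ _ _ _).union ((smallB_finite _ _ _).union (Set.finite_Icc _ _))
  have h1 := Set.ncard_le_ncard hsub hfin
  have h2 := Set.ncard_union_le (LargeB N (max K 1) Λ Z₁)
    (SmallB N Λ' (16 * Λ') ∪ Set.Icc 0 (Nat.sqrt N))
  have h3 := Set.ncard_union_le (SmallB N Λ' (16 * Λ')) (Set.Icc 0 (Nat.sqrt N))
  have h4 : ((AllB N K (max Z₁ (16 * Λ'))).ncard : ℝ) ≤ (LargeB N (max K 1) Λ Z₁).ncard +
      ((SmallB N Λ' (16 * Λ')).ncard + (Set.Icc 0 (Nat.sqrt N)).ncard) := by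
    exact_mod_cast h1.trans (h2.trans (Nat.add_le_add_left h3 _))
  linarith

end Pool.Agent.TH888.B2
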