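import Mathlib
import Pool.Agent.TH888.B2.All
import Pool.Agent.TH888.B1.Fam

/-!
The bases `n` and `n + k` with all exponents: assembly.
-/

set_option autoImplicit false

namespace Pool.Agent.TH888.B2

open Finset Filter Topology
open Pool.Agent.H374R2 (T.TaskD2.perfect_powers)
open Pool.Agent.TH888.B1 (Exc exc_null Null)

/-- `n` and `n + k` are two bases of a primitive solution whose third exponent is at least `3` -/
def ExcAll (k : ℕ) : Set ℕ :=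
  {n | 0 < n ∧ Nat.Coprime n (n + k) ∧ ∃ x y z w : ℕ, 0 < x ∧ 0 < y ∧ 3 ≤ z ∧ 0 < w ∧
    (n ^ x + (n + k) ^ y = w ^ z ∨ n ^ x + w ^ z = (n + k) ^ y ∨ (n + k) ^ y + w ^ z = n ^ x)}

theorem not_power_of_squarefree {k w z : ℕ} (hk : Squarefree k) (hk2 : 2 ≤ k) (hz : 3 ≤ z)
    (h : w ^ z = k) : False := by
  have h1 : w * w ∣ k := by
    rw [← h, ← sq]
    exact pow_dvd_pow w (by omega)
  have h2 := hk w h1
  rw [Nat.isUnit_iff] at h2
  subst h2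
  rw [one_pow] at h
  omega

theorem excAll_sub {k N Z₀ : ℕ} (hk : Squarefree k) (hk2 : 2 ≤ k) :
    ExcAll k ∩ Set.Ioc 0 (0 + N) ⊆
      ((⋃ m ∈ Finset.Ico 3 Z₀, Exc k m) ∩ Set.Ioc 0 (0 + N)) ∪
      ({n | n + k ∈ AllB (N + k) 1 Z₀} ∪ (AllB (N + k) 1 Z₀ ∪
        {n | 2 * n + k ∈ {B : ℕ | 0 < B ∧ B ≤ 2 * N + k ∧ ∃ w l : ℕ, 2 ≤ l ∧ B = w ^ l}})) := by
  rintro n ⟨⟨hn, hcop, x, y, z, w, hx, hy, hz, hw, h⟩, hN⟩
  have hnN : n ≤ N := by have := hN.2; omega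
  by_cases hzZ : z < Z₀
  · left
    refine ⟨?_, hN⟩
    simp only [Set.mem_iUnion, Finset.mem_Ico, exists_prop]
    exact ⟨z, ⟨hz, hzZ⟩, hn, hcop, x, y, w, hx, hy, hw, h⟩
  · right
    rw [not_lt] at hzZ
    rcases Nat.lt_or_ge x 2 with hx2 | hx2
    · have hx1 : x = 1 := by omega
      subst hx1
      right
      rcases Nat.lt_or_ge y 2 with hy2 | hy2
      · have hy1 : y = 1 := by omega
        subst hy1
        right
        rw [pow_one, pow_one] at h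
        rcases h with h | h | h
        · refine ⟨by omega, by omega, w, z, by omega, ?_⟩
          rw [← h]; ring
        · exfalso
          exact not_power_of_squarefree hk hk2 hz (by omega : w ^ z = k)
        · exfalso
          have : 0 < w ^ z := Nat.pow_pos hw
          omega
      · left
        refine ⟨hn, by omega, n + k, y, 1, z, w, by omega, by rw [pow_one]; omega, hcop.symm, hy2,
          Nat.one_pos, hzZ, hw, ?_⟩
        rcases h with h | h | h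
        · left; rw [← h]; ring
        · right; right; exact h
        · right; left; exact h
    · left
      exact ⟨by omega, by omega, n, x, y, z, w, hn, by rw [pow_one]; omega, hcop, hx2, hy, hzZ, hw, h⟩

theorem allB_fin (N K Z₀ : ℕ) : (AllB N K Z₀).Finite :=
  (Set.finite_Icc 0 N).subset fun _ hB => ⟨Nat.zero_le _, hB.2.1⟩

theorem ncard_shift_le {S : Set ℕ} (hS : S.Finite) (f : ℕ → ℕ) (hf : Function.Injective f) :
    {n | f n ∈ S}.Finite ∧ {n | f n ∈ S}.ncard ≤ S.ncard := by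
  refine ⟨hS.preimage hf.injOn, ?_⟩
  exact Set.ncard_le_ncard_of_injOn f (fun n hn => hn) hf.injOn hS

theorem excAll_density {k : ℕ} (hk : Squarefree k) (hk2 : 2 ≤ k) (ε : ℝ) (hε : 0 < ε) :
    ∃ N₀ : ℕ, ∀ N : ℕ, N₀ ≤ N → ((ExcAll k ∩ Set.Ioc 0 N).ncard : ℝ) ≤ ε * N := by
  obtain ⟨Z₀, N₁, H₁⟩ := all_main 1 (ε / 8) (by positivity)
  have hnull : Null (⋃ m ∈ Finset.Ico 3 Z₀, Exc k m) := by
    refine Null.biUnion _ _ fun m hm => ?_
    rw [Finset.mem_Ico] at hm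
    exact exc_null hk hk2 hm.1
  obtain ⟨N₂, H₂⟩ := hnull (ε / 4) (by positivity)
  obtain ⟨N₃, H₃⟩ := T.TaskD2.perfect_powers (ε := ε / 12) (by positivity)
  refine ⟨N₁ + N₂ + N₃ + k + 1, fun N hN => ?_⟩
  have k1 := H₁ (N + k) (by omega)
  have k2 := H₂ N (by omega) 0
  have k3 := H₃ (2 * N + k) (by omega)
  have hfin1 := allB_fin (N + k) 1 Z₀
  have hfin3 : {B : ℕ | 0 < B ∧ B ≤ 2 * N + k ∧ ∃ w l : ℕ, 2 ≤ l ∧ B = w ^ l}.Finite :=
    (Set.finite_Icc 0 (2 * N + k)).subset fun B hB => ⟨Nat.zero_le _, hB.2.1⟩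
  obtain ⟨f1, c1⟩ := ncard_shift_le hfin1 (fun n => n + k) (fun a b h => by simpa using h)
  obtain ⟨f3, c3⟩ := ncard_shift_le hfin3 (fun n => 2 * n + k) (fun a b h => by
    have : 2 * a + k = 2 * b + k := h
    omega)
  have f2 : ((⋃ m ∈ Finset.Ico 3 Z₀, Exc k m) ∩ Set.Ioc 0 (0 + N)).Finite :=
    (Set.finite_Ioc 0 (0 + N)).subset Set.inter_subset_right
  have h0 := excAll_sub (N := N) (Z₀ := Z₀) hk hk2
  have h1 := Set.ncard_le_ncard h0 (f2.union (f1.union (hfin1.union f3)))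
  have h2 := Set.ncard_union_le ((⋃ m ∈ Finset.Ico 3 Z₀, Exc k m) ∩ Set.Ioc 0 (0 + N))
    ({n | n + k ∈ AllB (N + k) 1 Z₀} ∪ (AllB (N + k) 1 Z₀ ∪
        {n | 2 * n + k ∈ {B : ℕ | 0 < B ∧ B ≤ 2 * N + k ∧ ∃ w l : ℕ, 2 ≤ l ∧ B = w ^ l}}))
  have h3 := Set.ncard_union_le {n | n + k ∈ AllB (N + k) 1 Z₀} (AllB (N + k) 1 Z₀ ∪
        {n | 2 * n + k ∈ {B : ℕ | 0 < B ∧ B ≤ 2 * N + k ∧ ∃ w l : ℕ, 2 ≤ l ∧ B = w ^ l}})
  have h4 := Set.ncard_union_le (AllB (N + k) 1 Z₀)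
        {n | 2 * n + k ∈ {B : ℕ | 0 < B ∧ B ≤ 2 * N + k ∧ ∃ w l : ℕ, 2 ≤ l ∧ B = w ^ l}}
  have h5 : ((ExcAll k ∩ Set.Ioc 0 (0 + N)).ncard : ℝ) ≤
      ((⋃ m ∈ Finset.Ico 3 Z₀, Exc k m) ∩ Set.Ioc 0 (0 + N)).ncard + ((AllB (N + k) 1 Z₀).ncard +
        ((AllB (N + k) 1 Z₀).ncard +
          {B : ℕ | 0 < B ∧ B ≤ 2 * N + k ∧ ∃ w l : ℕ, 2 ≤ l ∧ B = w ^ l}.ncard)) := by
    have := h1.trans (h2.trans (Nat.add_le_add_left (h3.trans (Nat.add_le_add c1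
      (h4.trans (Nat.add_le_add_left c3 _)))) _))
    exact_mod_cast this
  rw [zero_add] at h5 k2
  have hkN : (k : ℝ) ≤ N := by exact_mod_cast (by omega : k ≤ N)
  push_cast at k1 k3
  have e1 : ε / 8 * ((N : ℝ) + k) ≤ ε / 4 * N := by
    have : ε / 8 * ((N : ℝ) + k) ≤ ε / 8 * (N + N) := by gcongr
    linarith
  have e2 : ε / 12 * (2 * (N : ℝ) + k) ≤ ε / 4 * N := by
    have : ε / 12 * (2 * (N : ℝ) + k) ≤ ε / 12 * (2 * N + N) := by gcongr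
    linarith
  linarith

end Pool.Agent.TH888.B2
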