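import Mathlib

/-!
The equation `(e ^ u) ^ 2 + (o ^ v) ^ 2 = w ^ 2`: elementary bound for the exponents.
-/

set_option autoImplicit false

namespace Pool.Agent.TH888.B2

/-- the parametrization -/
theorem pyth_nat {E O w : ℕ} (hE : 0 < E) (hO : 0 < O) (hcop : Nat.Coprime E O) (hE2 : 2 ∣ E)
    (hw : 0 < w) (h : E ^ 2 + O ^ 2 = w ^ 2) :
    ∃ a b : ℕ, 0 < b ∧ b < a ∧ Nat.Coprime a b ∧ (Nat.Coprime (a - b) (a + b)) ∧ E = 2 * (a * b) ∧
      O = (a - b) * (a + b) := by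
  have hOodd : O % 2 = 1 := by
    rcases Nat.mod_two_eq_zero_or_one O with h1 | h1
    · exfalso
      have h2 : 2 ∣ O := Nat.dvd_of_mod_eq_zero h1
      have h3 := Nat.dvd_gcd hE2 h2
      rw [hcop.gcd_eq_one] at h3
      omega
    · exact h1
  have hT : PythagoreanTriple (O : ℤ) (E : ℤ) (w : ℤ) := by
    unfold PythagoreanTriple
    have : (E : ℤ) ^ 2 + (O : ℤ) ^ 2 = (w : ℤ) ^ 2 := by exact_mod_cast h
    linear_combination this
  have hg : Int.gcd (O : ℤ) (E : ℤ) = 1 := by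
    rw [Int.gcd_natCast_natCast]
    exact hcop.symm
  obtain ⟨m, n, hx, hy, hz, hmn, hpar, hm0⟩ := hT.coprime_classification' hg (by omega)
    (by exact_mod_cast hw)
  have hE' : (0 : ℤ) < 2 * m * n := by rw [← hy]; exact_mod_cast hE
  have hm1 : 0 < m := by
    rcases lt_or_eq_of_le hm0 with h1 | h1
    · exact h1
    · exfalso; rw [← h1] at hE'; simp at hE'
  have hn1 : 0 < n := by
    have h2 : 0 < 2 * m := by linarith
    exact (mul_pos_iff_of_pos_left h2).mp hE'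
  obtain ⟨a, rfl⟩ := Int.eq_ofNat_of_zero_le hm1.le
  obtain ⟨b, rfl⟩ := Int.eq_ofNat_of_zero_le hn1.le
  have hO' : (0 : ℤ) < (a : ℤ) ^ 2 - (b : ℤ) ^ 2 := by rw [← hx]; exact_mod_cast hO
  have hab : b < a := by
    have h1 : (b : ℤ) ^ 2 < (a : ℤ) ^ 2 := by linarith
    have h2 : b ^ 2 < a ^ 2 := by exact_mod_cast h1
    exact lt_of_pow_lt_pow_left₀ 2 (Nat.zero_le _) h2
  have hcab : Nat.Coprime a b := by
    rw [Int.gcd_natCast_natCast] at hmn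
    exact hmn
  refine ⟨a, b, by exact_mod_cast hn1, hab, hcab, ?_, ?_, ?_⟩
  · apply Nat.coprime_of_dvd
    intro l hl h1 h2
    have hodd : ¬ 2 ∣ (a - b) := by
      rcases hpar with ⟨h3, h4⟩ | ⟨h3, h4⟩ <;> omega
    have hl2 : l ≠ 2 := fun h3 => hodd (h3 ▸ h1)
    have h3 : l ∣ 2 * a := by
      have : 2 * a = (a - b) + (a + b) := by omega
      rw [this]
      exact dvd_add h1 h2
    have h4 : l ∣ 2 * b := by
      have h5 : (a + b) = (a - b) + 2 * b := by omega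
      exact (Nat.dvd_add_right h1).mp (h5 ▸ h2)
    have hl2' : Nat.Coprime l 2 := (Nat.coprime_primes hl Nat.prime_two).mpr hl2
    have h5 := hl2'.dvd_of_dvd_mul_left h3
    have h6 := hl2'.dvd_of_dvd_mul_left h4
    have h7 := Nat.dvd_gcd h5 h6
    rw [hcab.gcd_eq_one] at h7
    exact hl.one_lt.ne' (Nat.dvd_one.mp h7)
  · have : (E : ℤ) = 2 * (a * b) := by rw [hy]; ring
    exact_mod_cast this
  · have h1 : (O : ℤ) = ((a - b : ℕ) : ℤ) * ((a + b : ℕ) : ℤ) := by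
      rw [hx, Nat.cast_sub hab.le]
      push_cast
      ring
    exact_mod_cast h1

theorem coprime_pow_parts {v x y o : ℕ} (hv : 0 < v) (hxy : Nat.Coprime x y) (h : o ^ v = x * y) :
    ∃ γ δ : ℕ, x = γ ^ v ∧ y = δ ^ v := by
  obtain ⟨γ, hγ⟩ := exists_eq_pow_of_mul_eq_pow (Nat.isUnit_iff.mpr hxy) h.symm
  obtain ⟨δ, hδ⟩ := exists_eq_pow_of_mul_eq_pow (Nat.isUnit_iff.mpr hxy.symm)
    (by rw [mul_comm]; exact h.symm)
  exact ⟨γ, δ, hγ, hδ⟩

theorem lte_bound {p δ γ v u : ℕ} (hp : p.Prime) (hp2 : p ≠ 2) (hpδ : ¬ p ∣ δ) (hpγ : ¬ p ∣ γ)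
    (hγδ : γ < δ) (hv : 0 < v) (h : p ^ u ∣ (δ ^ v) ^ 2 - (γ ^ v) ^ 2) :
    ∃ t s : ℕ, u ≤ t + s ∧ 2 ^ t ≤ δ ^ (2 * (p - 1)) ∧ 2 ^ s ≤ v := by
  have : Fact p.Prime := ⟨hp⟩
  obtain ⟨D, hD⟩ : ∃ D, D = δ ^ (2 * (p - 1)) := ⟨_, rfl⟩
  obtain ⟨G, hG⟩ : ∃ G, G = γ ^ (2 * (p - 1)) := ⟨_, rfl⟩
  have hp1 : 0 < p - 1 := by have := hp.two_le; omega
  have hGD : G < D := by
    rw [hG, hD]
    exact Nat.pow_lt_pow_left hγδ (by omega)
  have hfer : ∀ {a : ℕ}, ¬ p ∣ a → (a ^ (2 * (p - 1))) ≡ 1 [MOD p] := by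
    intro a ha
    have h1 : a ^ (p - 1) ≡ 1 [MOD p] := by
      have h2 := Nat.ModEq.pow_totient ((Nat.Prime.coprime_iff_not_dvd hp).mpr ha).symm
      rwa [Nat.totient_prime hp] at h2
    have h3 := h1.pow 2
    rw [one_pow, ← pow_mul, mul_comm (p - 1) 2] at h3
    exact h3
  have hpDG : p ∣ D - G := by
    rw [← Nat.modEq_iff_dvd' hGD.le, hG, hD]
    exact (hfer hpγ).trans (hfer hpδ).symm
  have hpD : ¬ p ∣ D := by
    rw [hD]
    exact fun h1 => hpδ (hp.dvd_of_dvd_pow h1)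
  have hval := padicValNat.pow_sub_pow (p := p) (hp.odd_of_ne_two hp2) hGD hpDG hpD hv.ne'
  have hdvd : (δ ^ v) ^ 2 - (γ ^ v) ^ 2 ∣ D ^ v - G ^ v := by
    have e1 : D ^ v = ((δ ^ v) ^ 2) ^ (p - 1) := by
      rw [hD, ← pow_mul, ← pow_mul, ← pow_mul]
      congr 1
      ring
    have e2 : G ^ v = ((γ ^ v) ^ 2) ^ (p - 1) := by
      rw [hG, ← pow_mul, ← pow_mul, ← pow_mul]
      congr 1
      ring
    rw [e1, e2]
    exact Nat.sub_dvd_pow_sub_pow _ _ _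
  have hne : D ^ v - G ^ v ≠ 0 := by
    have : G ^ v < D ^ v := Nat.pow_lt_pow_left hGD hv.ne'
    omega
  have hu : u ≤ padicValNat p (D ^ v - G ^ v) :=
    (padicValNat_dvd_iff_le hne).mp (h.trans hdvd)
  refine ⟨padicValNat p (D - G), padicValNat p v, by rw [← hval]; exact hu, ?_, ?_⟩
  · have h1 : p ^ padicValNat p (D - G) ≤ D - G := Nat.le_of_dvd (by omega) pow_padicValNat_dvd
    have h2 : 2 ^ padicValNat p (D - G) ≤ p ^ padicValNat p (D - G) :=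
      Nat.pow_le_pow_left hp.two_le _
    rw [← hD]
    omega
  · have h1 : p ^ padicValNat p v ≤ v := Nat.le_of_dvd hv pow_padicValNat_dvd
    exact (Nat.pow_le_pow_left hp.two_le _).trans h1

/-- the exponents are bounded -/
theorem sq_bound {e o u v w p ν P : ℕ} (he : 0 < e) (ho : 2 ≤ o) (hcop : Nat.Coprime e o)
    (hev : 2 ∣ e) (hu : 0 < u) (hv : 0 < v) (hw : 0 < w) (h : (e ^ u) ^ 2 + (o ^ v) ^ 2 = w ^ 2)
    (hp : p.Prime) (hp2 : p ≠ 2) (hpP : p ≤ P) (hpe : p ∣ e) (heo : e ≤ o ^ 2) (hoν : o < 2 ^ ν) :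
    u ≤ 4 * P * ν + 12 ∧ v ≤ 4 * u := by
  have hEO : Nat.Coprime (e ^ u) (o ^ v) := Nat.Coprime.pow _ _ hcop
  obtain ⟨a, b, hb0, hba, hab, hab', hE, hO⟩ := pyth_nat (Nat.pow_pos he) (Nat.pow_pos (by omega))
    hEO (dvd_pow hev hu.ne') hw h
  obtain ⟨γ, δ, hγ, hδ⟩ := coprime_pow_parts hv hab' hO
  have hγδ' : γ ^ v < δ ^ v := by rw [← hγ, ← hδ]; omega
  have hγδ : γ < δ := lt_of_pow_lt_pow_left₀ v (Nat.zero_le _) hγδ'
  have hoγδ : o = γ * δ := by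
    have h1 : o ^ v = (γ * δ) ^ v := by rw [hO, hγ, hδ, mul_pow]
    exact Nat.pow_left_injective hv.ne' h1
  -- `v ≤ 4 u`
  have hv4 : v ≤ 4 * u := by
    have h1 : a + b ≤ 2 * (a * b) := by
      have : a ≤ a * b := Nat.le_mul_of_pos_right _ hb0
      omega
    have h2 : o ^ v ≤ (e ^ u) ^ 2 := by
      rw [hO, hE, sq]
      exact Nat.mul_le_mul (by omega) h1
    have h3 : o ^ v ≤ o ^ (4 * u) := by
      calc o ^ v ≤ (e ^ u) ^ 2 := h2
        _ ≤ ((o ^ 2) ^ u) ^ 2 := Nat.pow_le_pow_left (Nat.pow_le_pow_left heo u) 2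
        _ = o ^ (4 * u) := by rw [← pow_mul, ← pow_mul]; congr 1; ring
    exact (Nat.pow_le_pow_iff_right (by omega)).mp h3
  refine ⟨?_, hv4⟩
  -- `p` does not divide `γ`, `δ`
  have hpo : ¬ p ∣ o := fun h1 => by
    have h2 := Nat.dvd_gcd hpe h1
    rw [hcop.gcd_eq_one] at h2
    exact hp.one_lt.ne' (Nat.dvd_one.mp h2)
  have hpγ : ¬ p ∣ γ := fun h1 => hpo (by rw [hoγδ]; exact h1.mul_right _)
  have hpδ : ¬ p ∣ δ := fun h1 => hpo (by rw [hoγδ]; exact h1.mul_left _)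
  -- `p ^ u` divides `a` or `b`
  have hpu : p ^ u ∣ a * b := by
    have h1 : p ^ u ∣ 2 * (a * b) := by rw [← hE]; exact pow_dvd_pow_of_dvd hpe u
    have h2 : Nat.Coprime (p ^ u) 2 :=
      Nat.Coprime.pow_left u ((Nat.coprime_primes hp Nat.prime_two).mpr hp2)
    exact h2.dvd_of_dvd_mul_left h1
  have hpab : p ^ u ∣ a ∨ p ^ u ∣ b := by
    by_cases h1 : p ∣ a
    · left
      have h2 : ¬ p ∣ b := fun h3 => by
        have h4 := Nat.dvd_gcd h1 h3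
        rw [hab.gcd_eq_one] at h4
        exact hp.one_lt.ne' (Nat.dvd_one.mp h4)
      exact (Nat.Coprime.pow_left u ((Nat.Prime.coprime_iff_not_dvd hp).mpr h2)).dvd_of_dvd_mul_right hpu
    · right
      exact (Nat.Coprime.pow_left u ((Nat.Prime.coprime_iff_not_dvd hp).mpr h1)).dvd_of_dvd_mul_left hpu
  have hdvd : p ^ u ∣ (δ ^ v) ^ 2 - (γ ^ v) ^ 2 := by
    have e1 : (δ ^ v) ^ 2 - (γ ^ v) ^ 2 = (δ ^ v + γ ^ v) * (δ ^ v - γ ^ v) := Nat.sq_sub_sq _ _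
    have e2 : δ ^ v + γ ^ v = 2 * a := by rw [← hδ, ← hγ]; omega
    have e3 : δ ^ v - γ ^ v = 2 * b := by rw [← hδ, ← hγ]; omega
    rw [e1, e2, e3]
    rcases hpab with h1 | h1
    · exact Dvd.dvd.mul_right (h1.mul_left 2) _
    · exact Dvd.dvd.mul_left (h1.mul_left 2) _
  obtain ⟨t, s, h1, h2, h3⟩ := lte_bound hp hp2 hpδ hpγ hγδ hv hdvd
  have hγ0 : 0 < γ := Nat.pos_of_ne_zero fun h0 => by rw [h0, zero_mul] at hoγδ; omega
  have hδo : δ ≤ o := by rw [hoγδ]; exact Nat.le_mul_of_pos_left _ hγ0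
  have ht : t ≤ 2 * P * ν := by
    have h4 : 2 ^ t ≤ 2 ^ (ν * (2 * (p - 1))) := by
      calc 2 ^ t ≤ δ ^ (2 * (p - 1)) := h2
        _ ≤ (2 ^ ν) ^ (2 * (p - 1)) := Nat.pow_le_pow_left (hδo.trans hoν.le) _
        _ = _ := by rw [← pow_mul]
    have h5 := (Nat.pow_le_pow_iff_right (by norm_num : 1 < 2)).mp h4
    calc t ≤ ν * (2 * (p - 1)) := h5
      _ ≤ ν * (2 * P) := Nat.mul_le_mul_left _ (by omega)
      _ = 2 * P * ν := by ring
  have hs4 : 2 ^ s ≤ 4 * (t + s) := h3.trans (hv4.trans (Nat.mul_le_mul_left _ h1))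
  have hs : s ≤ t + 6 := by
    by_contra hcon
    rw [not_le] at hcon
    have h6 : 6 < s := by omega
    have h7 : ∀ s : ℕ, 6 < s → 8 * s < 2 ^ s := by
      intro s hs
      induction s, hs using Nat.le_induction with
      | base => norm_num
      | succ m hm ih =>
        rw [pow_succ]
        have : 6 < m := hm
        omega
    have h8 := h7 s h6
    omega
  have e5 : 4 * P * ν = 2 * (2 * P * ν) := by ring
  omega

end Pool.Agent.TH888.B2
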