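import Mathlib
import Pool.Agent.TH888.B2.Sq
import Pool.Agent.TH888.B1.Fam
import Pool.Agent.TH888.B1.FreeMain
import Pool.Agent.H374R2.GcE

/-!
The bases `n` and `n + k` and a third exponent equal to `2`.
-/

set_option autoImplicit false

namespace Pool.Agent.TH888.B2

open Finset Polynomial Filter Topology
open Pool.Agent.H374R2.Beal Pool.Agent.H755R5.Kum
open Pool.Agent.H374R2 (Gc.three_prime)
open Pool.Agent.TH888.B1 (Null null_not_dvd neg_nonsq free_main ExcFree polylog_rpow)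

/-- `n` and `n + k` are two bases of a primitive solution with third exponent `2` and
`1 / x + 1 / y < 1 / 2` -/
def ExcSq (k : ℕ) : Set ℕ :=
  {n | 0 < n ∧ Nat.Coprime n (n + k) ∧ ∃ x y w : ℕ, 2 * (x + y) < x * y ∧ 0 < w ∧
    (n ^ x + (n + k) ^ y = w ^ 2 ∨ n ^ x + w ^ 2 = (n + k) ^ y ∨ (n + k) ^ y + w ^ 2 = n ^ x)}

/-- the exponents are even -/
theorem even_exps {k n x y w r r' : ℕ} (hr : r.Prime) (hr4 : 4 ∣ r - 1)
    (hnr : ¬ ∃ t : ZMod r, t ^ 2 = (k : ZMod r)) (hrn : r ∣ n) (hr' : r'.Prime) (hr4' : 4 ∣ r' - 1)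
    (hnr' : ¬ ∃ t : ZMod r', t ^ 2 = (k : ZMod r')) (hrn' : r' ∣ n + k) (hx : 0 < x) (hy : 0 < y)
    (h : n ^ x + (n + k) ^ y = w ^ 2 ∨ n ^ x + w ^ 2 = (n + k) ^ y ∨ (n + k) ^ y + w ^ 2 = n ^ x) :
    2 ∣ x ∧ 2 ∣ y := by
  have : Fact r.Prime := ⟨hr⟩
  have : Fact r'.Prime := ⟨hr'⟩
  have hsq : ∀ p : ℕ, p.Prime → 4 ∣ p - 1 → ∃ i : ZMod p, i ^ 2 = -1 := by
    intro p hp hp4
    have : Fact p.Prime := ⟨hp⟩
    have h2 : IsSquare (-1 : ZMod p) := by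
      rw [ZMod.exists_sq_eq_neg_one_iff]
      have := hp.two_le
      omega
    obtain ⟨i, hi⟩ := h2
    exact ⟨i, by rw [hi]; ring⟩
  obtain ⟨i, hi⟩ := hsq r hr hr4
  obtain ⟨i', hi'⟩ := hsq r' hr' hr4'
  have hnr'' := neg_nonsq hr' hi' hnr'
  have hn0 : (n : ZMod r) = 0 := (ZMod.natCast_eq_zero_iff n r).mpr hrn
  have hv0 : (n : ZMod r') + (k : ZMod r') = 0 := by
    have := (ZMod.natCast_eq_zero_iff (n + k) r').mpr hrn'
    push_cast at this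
    exact this
  have hn0' : (n : ZMod r') = -(k : ZMod r') := by linear_combination hv0
  rcases h with h | h | h
  · have h2 := congrArg (fun z : ℕ => (z : ZMod r)) h
    have h3 := congrArg (fun z : ℕ => (z : ZMod r')) h
    push_cast at h2 h3
    rw [hn0, zero_pow hx.ne', zero_add, zero_add] at h2
    rw [hv0, zero_pow hy.ne', add_zero, hn0'] at h3
    exact ⟨dvd_of_pow_isPow Nat.prime_two hnr'' (s := (w : ZMod r')) h3.symm,
      dvd_of_pow_isPow Nat.prime_two hnr (s := (w : ZMod r)) h2.symm⟩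
  · have h2 := congrArg (fun z : ℕ => (z : ZMod r)) h
    have h3 := congrArg (fun z : ℕ => (z : ZMod r')) h
    push_cast at h2 h3
    rw [hn0, zero_pow hx.ne', zero_add, zero_add] at h2
    rw [hv0, zero_pow hy.ne', hn0'] at h3
    exact ⟨dvd_of_pow_isPow Nat.prime_two hnr'' (s := i' * (w : ZMod r')) (by
        rw [mul_pow, hi']; linear_combination -h3),
      dvd_of_pow_isPow Nat.prime_two hnr (s := (w : ZMod r)) h2⟩
  · have h2 := congrArg (fun z : ℕ => (z : ZMod r)) h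
    have h3 := congrArg (fun z : ℕ => (z : ZMod r')) h
    push_cast at h2 h3
    rw [hn0, zero_pow hx.ne', zero_add] at h2
    rw [hv0, zero_pow hy.ne', zero_add, hn0'] at h3
    exact ⟨dvd_of_pow_isPow Nat.prime_two hnr'' (s := (w : ZMod r')) h3,
      dvd_of_pow_isPow Nat.prime_two hnr (s := i * (w : ZMod r)) (by
        rw [mul_pow, hi]; linear_combination -h2)⟩

/-- a prime `3 (mod 4)` does not divide a sum of two coprime squares -/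
theorem no_three {p a b c u x : ℕ} (hp : p.Prime) (hp3 : p % 4 = 3) (hpb : p ∣ b) (hcop : Nat.Coprime a b)
    (hu : 0 < u) (hx : 0 < x) (h : a ^ (2 * x) + c ^ 2 = b ^ u) : False := by
  have : Fact p.Prime := ⟨hp⟩
  have h1 := congrArg (fun z : ℕ => (z : ZMod p)) h
  have hb0 : (b : ZMod p) = 0 := (ZMod.natCast_eq_zero_iff b p).mpr hpb
  push_cast at h1
  rw [hb0, zero_pow hu.ne', mul_comm 2 x, pow_mul] at h1
  have ha : (a : ZMod p) ≠ 0 := by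
    intro h2
    have h3 : p ∣ a := (ZMod.natCast_eq_zero_iff a p).mp h2
    have h4 := Nat.dvd_gcd h3 hpb
    rw [hcop.gcd_eq_one] at h4
    exact hp.one_lt.ne' (Nat.dvd_one.mp h4)
  have h5 : (c : ZMod p) ^ 2 = -((a : ZMod p) ^ x) ^ 2 := by linear_combination h1
  exact ZMod.mod_four_ne_three_of_sq_eq_neg_sq' (pow_ne_zero x ha) h5 hp3

theorem odd_sum {a b w : ℕ} (ha : a % 2 = 1) (hb : b % 2 = 1) (h : a ^ 2 + b ^ 2 = w ^ 2) : False := by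
  have h1 : a ^ 2 % 4 = 1 := by
    have : a % 4 = 1 ∨ a % 4 = 3 := by omega
    rcases this with h | h <;> simp [Nat.pow_mod, h]
  have h2 : b ^ 2 % 4 = 1 := by
    have : b % 4 = 1 ∨ b % 4 = 3 := by omega
    rcases this with h | h <;> simp [Nat.pow_mod, h]
  have h3 : w ^ 2 % 4 = 0 ∨ w ^ 2 % 4 = 1 := by
    have : w % 4 = 0 ∨ w % 4 = 1 ∨ w % 4 = 2 ∨ w % 4 = 3 := by omega
    rcases this with h | h | h | h <;> simp [Nat.pow_mod, h]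
  omega

/-- the exponents are small -/
theorem sq_exps {k n u v w p p' ν P : ℕ} (hn : k + 2 ≤ n) (hcop : Nat.Coprime n (n + k)) (hu : 0 < u)
    (hv : 0 < v) (hw : 0 < w) (h : n ^ (2 * u) + (n + k) ^ (2 * v) = w ^ 2)
    (hp : p.Prime) (hp2 : p ≠ 2) (hpP : p ≤ P) (hpn : p ∣ n)
    (hp' : p'.Prime) (hp2' : p' ≠ 2) (hpP' : p' ≤ P) (hpn' : p' ∣ n + k) (hν : n + k < 2 ^ ν) :
    u ≤ 4 * (4 * P * ν + 12) ∧ v ≤ 4 * (4 * P * ν + 12) := by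
  have h' : (n ^ u) ^ 2 + ((n + k) ^ v) ^ 2 = w ^ 2 := by
    rw [← pow_mul, ← pow_mul, mul_comm u 2, mul_comm v 2]
    exact h
  by_cases h1 : 2 ∣ n
  · obtain ⟨g1, g2⟩ := sq_bound (e := n) (o := n + k) (by omega) (by omega) hcop h1 hu hv hw h' hp hp2
      hpP hpn (by nlinarith) hν
    constructor <;> omega
  · by_cases h2 : 2 ∣ n + k
    · obtain ⟨g1, g2⟩ := sq_bound (e := n + k) (o := n) (ν := ν) (by omega) (by omega) hcop.symm h2 hv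
        hu hw (by rw [add_comm]; exact h') hp' hp2' hpP' hpn' (by nlinarith) (by omega)
      constructor <;> omega
    · exfalso
      refine odd_sum (a := n ^ u) (b := (n + k) ^ v) (w := w) ?_ ?_ h'
      · exact Nat.odd_iff.mp ((Nat.odd_iff.mpr (by omega)).pow)
      · exact Nat.odd_iff.mp ((Nat.odd_iff.mpr (by omega)).pow)

/-- the integers in bad classes -/
theorem bad_classes {M : ℕ} {G : Finset ℕ} (hM : 0 < M) (hG : G ⊆ range M) {ε : ℝ}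
    (hGc : (1 - ε) * M ≤ (G.card : ℝ)) {N : ℕ} (hN : M ≤ N) (hε : 0 < ε) :
    {n : ℕ | 1 ≤ n ∧ n ≤ N ∧ ¬ n % M ∈ G}.Finite ∧
    (({n : ℕ | 1 ≤ n ∧ n ≤ N ∧ ¬ n % M ∈ G}.ncard : ℕ) : ℝ) ≤ 2 * ε * N := by
  classical
  have hfin : {n : ℕ | 1 ≤ n ∧ n ≤ N ∧ ¬ n % M ∈ G}.Finite :=
    (Set.finite_Icc 0 N).subset fun n hn => ⟨Nat.zero_le _, hn.2.1⟩
  refine ⟨hfin, ?_⟩
  have hsub : {n : ℕ | 1 ≤ n ∧ n ≤ N ∧ ¬ n % M ∈ G} ⊆
      (((range M \ G) ×ˢ range (N / M + 1)).image (fun j => j.1 + M * j.2) : Finset ℕ) := by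
    rintro n ⟨h1, h2, h3⟩
    rw [mem_coe, mem_image]
    refine ⟨(n % M, n / M), ?_, by simp only; exact Nat.mod_add_div n M⟩
    rw [Finset.mem_product]
    exact ⟨Finset.mem_sdiff.mpr ⟨Finset.mem_range.mpr (Nat.mod_lt _ hM), h3⟩,
      Finset.mem_range.mpr (Nat.lt_succ_of_le (Nat.div_le_div_right h2))⟩
  have h1 := Set.ncard_le_ncard hsub (Finset.finite_toSet _)
  rw [Set.ncard_coe_finset] at h1
  have h2 := h1.trans card_image_le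
  rw [card_product, card_range, card_sdiff_of_subset hG, card_range] at h2
  have h3 : (((M - G.card : ℕ)) : ℝ) ≤ ε * M := by
    have h4 : G.card ≤ M := by
      have := card_le_card hG
      rwa [card_range] at this
    rw [Nat.cast_sub h4]
    linarith
  have h4 : ((N / M + 1 : ℕ) : ℝ) ≤ 2 * (N / M) := by
    have hMR : (0 : ℝ) < M := by exact_mod_cast hM
    have h5 : ((N / M : ℕ) : ℝ) ≤ (N : ℝ) / M := Nat.cast_div_le
    have h6 : (1 : ℝ) ≤ (N : ℝ) / M := by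
      rw [le_div_iff₀ hMR, one_mul]
      exact_mod_cast hN
    push_cast
    linarith
  have hMR : (0 : ℝ) < M := by exact_mod_cast hM
  calc (({n : ℕ | 1 ≤ n ∧ n ≤ N ∧ ¬ n % M ∈ G}.ncard : ℕ) : ℝ)
      ≤ (((M - G.card) * (N / M + 1) : ℕ) : ℝ) := by exact_mod_cast h2
    _ = ((M - G.card : ℕ) : ℝ) * ((N / M + 1 : ℕ) : ℝ) := by push_cast; rfl
    _ ≤ (ε * M) * (2 * (N / M)) := mul_le_mul h3 h4 (Nat.cast_nonneg _) (by positivity)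
    _ = 2 * ε * N := by field_simp

/-- membership in the set of solutions with a small third base -/
theorem sq_mem_free {k n u v w : ℕ} {W : ℝ} (hn : 0 < n) (hcop : Nat.Coprime n (n + k)) (hu : 0 < u)
    (hv : 0 < v) (hw : 0 < w) (hxy : 2 * (2 * u + 2 * v) < 2 * u * (2 * v))
    (h : n ^ (2 * u) + (n + k) ^ (2 * v) = w ^ 2) (hW : (w : ℝ) ≤ W) :
    n ∈ ExcFree X (X + C (k : ℤ)) W := by
  refine ⟨2 * u, 2 * v, 2, 1, 1, w, by omega, by omega, by omega, by nlinarith, Or.inl rfl, Or.inl rfl,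
    ?_, ?_, by exact_mod_cast hw.ne', ?_, ?_, ?_⟩
  · simp; omega
  · simp only [eval_add, eval_X, eval_C]
    exact_mod_cast (by omega : n + k ≠ 0)
  · rw [Int.cast_natCast, abs_of_nonneg (Nat.cast_nonneg _)]
    exact hW
  · simp only [eval_add, eval_X, eval_C]
    exact_mod_cast Nat.isCoprime_iff_coprime.mpr hcop
  · simp only [eval_add, eval_X, eval_C]
    rw [one_mul, one_mul]
    exact_mod_cast h

theorem sq_sub {k N P₀ : ℕ} {W : ℝ} (hW : ∀ w u v n : ℕ, n ≤ N →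
      n ^ (2 * u) + (n + k) ^ (2 * v) = w ^ 2 →
      u ≤ 4 * (4 * P₀ * (Nat.log 2 (N + k) + 1) + 12) →
      v ≤ 4 * (4 * P₀ * (Nat.log 2 (N + k) + 1) + 12) → (w : ℝ) ≤ W) {G : Finset ℕ} {M : ℕ} :
    ExcSq k ∩ Set.Ioc 0 (0 + N) ⊆
      ((({n : ℕ | ∀ r ∈ {r : ℕ | (r.Prime ∧ 4 ∣ r - 1) ∧ ¬ ∃ t : ZMod r, t ^ 2 = (k : ZMod r)}, ¬ r ∣ n} ∪
        {n | n + k ∈ {n : ℕ | ∀ r ∈ {r : ℕ | (r.Prime ∧ 4 ∣ r - 1) ∧
          ¬ ∃ t : ZMod r, t ^ 2 = (k : ZMod r)}, ¬ r ∣ n}}) ∩ Set.Ioc 0 (0 + N)) ∪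
      ({B : ℕ | 0 < B ∧ B ≤ N + k ∧ ∀ p : ℕ, p ≤ P₀ → p.Prime → p % 4 = 3 → ¬ p ∣ B} ∪
      ({n | n + k ∈ {B : ℕ | 0 < B ∧ B ≤ N + k ∧ ∀ p : ℕ, p ≤ P₀ → p.Prime → p % 4 = 3 → ¬ p ∣ B}} ∪
      (Set.Icc 0 (k + 1) ∪
      ({n : ℕ | 1 ≤ n ∧ n ≤ N ∧ ¬ n % M ∈ G} ∪
      {n : ℕ | 1 ≤ n ∧ n ≤ N ∧ n % M ∈ G ∧ n ∈ ExcFree X (X + C (k : ℤ)) W}))))) := by
  rintro n ⟨⟨hn, hcop, x, y, w, hxy, hw, h⟩, hN⟩
  have hnN : n ≤ N := by have := hN.2; omega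
  by_contra hcon
  simp only [Set.mem_union, not_or] at hcon
  obtain ⟨c1, c2, c3, c4, c5, c6⟩ := hcon
  have hx : 0 < x := by
    rcases Nat.eq_zero_or_pos x with h0 | h0
    · subst h0; omega
    · exact h0
  have hy : 0 < y := by
    rcases Nat.eq_zero_or_pos y with h0 | h0
    · subst h0; omega
    · exact h0
  have c1' : ¬ (n ∈ {n : ℕ | ∀ r ∈ {r : ℕ | (r.Prime ∧ 4 ∣ r - 1) ∧
      ¬ ∃ t : ZMod r, t ^ 2 = (k : ZMod r)}, ¬ r ∣ n} ∨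
      n + k ∈ {n : ℕ | ∀ r ∈ {r : ℕ | (r.Prime ∧ 4 ∣ r - 1) ∧
        ¬ ∃ t : ZMod r, t ^ 2 = (k : ZMod r)}, ¬ r ∣ n}) := fun h1 => c1 ⟨h1, hN⟩
  simp only [Set.mem_ofPred_eq, not_or, not_forall, not_not, exists_prop] at c1'
  obtain ⟨⟨r, ⟨⟨hr, hr4⟩, hnr⟩, hrn⟩, ⟨r', ⟨⟨hr', hr4'⟩, hnr'⟩, hrn'⟩⟩ := c1'
  obtain ⟨⟨u, rfl⟩, ⟨v, rfl⟩⟩ := even_exps hr hr4 hnr hrn hr' hr4' hnr' hrn' hx hy h
  have c2' : ∃ p : ℕ, p ≤ P₀ ∧ p.Prime ∧ p % 4 = 3 ∧ p ∣ n := by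
    by_contra hne
    apply c2
    refine ⟨hn, by omega, fun p h1 h2 h3 h4 => hne ⟨p, h1, h2, h3, h4⟩⟩
  have c3' : ∃ p : ℕ, p ≤ P₀ ∧ p.Prime ∧ p % 4 = 3 ∧ p ∣ n + k := by
    by_contra hne
    apply c3
    refine ⟨by omega, by omega, fun p h1 h2 h3 h4 => hne ⟨p, h1, h2, h3, h4⟩⟩
  obtain ⟨p, hpP, hp, hp3, hpn⟩ := c2'
  obtain ⟨p', hpP', hp', hp3', hpn'⟩ := c3'
  have hkn : k + 2 ≤ n := by
    by_contra hne
    exact c4 ⟨Nat.zero_le _, by omega⟩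
  rcases h with h | h | h
  · obtain ⟨g1, g2⟩ := sq_exps (P := P₀) (ν := Nat.log 2 (N + k) + 1) hkn hcop (by omega) (by omega) hw h
      hp (by rintro rfl; omega) hpP hpn hp' (by rintro rfl; omega) hpP' hpn'
      (lt_of_le_of_lt (by omega) (Nat.lt_pow_succ_log_self (by norm_num) (N + k)))
    have hmem := sq_mem_free hn hcop (by omega) (by omega) hw hxy h (hW w u v n hnN h g1 g2)
    by_cases hG : n % M ∈ G
    · exact c6 ⟨hn, hnN, hG, hmem⟩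
    · exact c5 ⟨hn, hnN, hG⟩
  · exact no_three hp' hp3' hpn' hcop hy (by omega) h
  · exact no_three hp hp3 hpn hcop.symm hx (by omega) h

/-- the third base is at most `exp (polylog)` -/
theorem third_small {k n u v w ν U : ℕ} (hν : n + k < 2 ^ ν) (hu : u ≤ U) (hv : v ≤ U)
    (h : n ^ (2 * u) + (n + k) ^ (2 * v) = w ^ 2) :
    (w : ℝ) ≤ Real.exp ((2 * ν * U + 1 : ℕ) : ℝ) := by
  have h1 : n ^ (2 * u) ≤ 2 ^ (ν * (2 * U)) := by
    calc n ^ (2 * u) ≤ (2 ^ ν) ^ (2 * u) := Nat.pow_le_pow_left (by omega) _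
      _ ≤ (2 ^ ν) ^ (2 * U) := Nat.pow_le_pow_right (by positivity) (by omega)
      _ = _ := by rw [← pow_mul]
  have h2 : (n + k) ^ (2 * v) ≤ 2 ^ (ν * (2 * U)) := by
    calc (n + k) ^ (2 * v) ≤ (2 ^ ν) ^ (2 * v) := Nat.pow_le_pow_left (by omega) _
      _ ≤ (2 ^ ν) ^ (2 * U) := Nat.pow_le_pow_right (by positivity) (by omega)
      _ = _ := by rw [← pow_mul]
  have h3 : w ≤ 2 ^ (2 * ν * U + 1) := by
    calc w ≤ w ^ 2 := Nat.le_self_pow (by norm_num) w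
      _ ≤ 2 ^ (ν * (2 * U)) + 2 ^ (ν * (2 * U)) := by rw [← h]; exact Nat.add_le_add h1 h2
      _ = 2 ^ (2 * ν * U + 1) := by
          rw [pow_succ]
          have : ν * (2 * U) = 2 * ν * U := by ring
          rw [this]; ring
  calc (w : ℝ) ≤ ((2 ^ (2 * ν * U + 1) : ℕ) : ℝ) := by exact_mod_cast h3
    _ = (2 : ℝ) ^ (2 * ν * U + 1) := by push_cast; rfl
    _ ≤ Real.exp 1 ^ (2 * ν * U + 1) := by
        apply pow_le_pow_left₀ (by norm_num)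
        linarith [Real.exp_one_gt_d9]
    _ = Real.exp ((2 * ν * U + 1 : ℕ) : ℝ) := by rw [← Real.exp_nat_mul, mul_one]

theorem isCoprime_shift {k : ℕ} (hk : 0 < k) :
    IsCoprime ((X : ℤ[X]).map (Int.castRingHom ℚ)) ((X + C (k : ℤ)).map (Int.castRingHom ℚ)) := by
  have hkQ : (k : ℚ) ≠ 0 := by exact_mod_cast hk.ne'
  refine ⟨-C ((k : ℚ)⁻¹), C ((k : ℚ)⁻¹), ?_⟩
  rw [Polynomial.map_add, map_X, map_C]
  have e : C ((k : ℚ)⁻¹) * C ((Int.castRingHom ℚ) (k : ℤ)) = 1 := by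
    rw [← C_mul]
    simp [hkQ]
  linear_combination e

theorem excSq_density {k : ℕ} (hk0 : 0 < k) (hk : ¬ ∃ t : ℕ, t ^ 2 = k) (ε : ℝ) (hε : 0 < ε) :
    ∃ N₀ : ℕ, ∀ N : ℕ, N₀ ≤ N → ((ExcSq k ∩ Set.Ioc 0 N).ncard : ℝ) ≤ ε * N := by
  have h1 := null_not_dvd {r : ℕ | (r.Prime ∧ 4 ∣ r - 1) ∧ ¬ ∃ t : ZMod r, t ^ 2 = (k : ZMod r)}
    (fun r hr => hr.1.1) (nonsquare_density_four k hk0 hk)
  obtain ⟨N₁, H₁⟩ := (h1.union (h1.shift k)) (ε / 8) (by positivity)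
  obtain ⟨P₀, N₂, H₂⟩ := Gc.three_prime (ε := ε / 16) (by positivity)
  obtain ⟨c, hc, hfree⟩ := free_main
  have hf : 0 < (X : ℤ[X]).natDegree := by rw [natDegree_X]; norm_num
  have hg : 0 < (X + C (k : ℤ)).natDegree := by rw [natDegree_X_add_C]; norm_num
  obtain ⟨M, G, hM, hG, hGc, hfr⟩ := hfree X (X + C (k : ℤ)) hf hg (isCoprime_shift hk0) (ε / 16)
    (by positivity)
  obtain ⟨N₃, H₃⟩ := hfr (1 / 4) (by norm_num)
  obtain ⟨N₄, H₄⟩ := polylog_rpow (9 * (2 * (4 * (16 * P₀ + 12))) + 1) 2 (c (1 / 4))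
    (hc _ (by norm_num))
  have ht : Tendsto (fun N : ℕ => (N : ℝ) ^ (1 / 4 : ℝ)) atTop atTop :=
    (tendsto_rpow_atTop (by norm_num)).comp tendsto_natCast_atTop_atTop
  obtain ⟨N₅, H₅⟩ := eventually_atTop.mp (ht.eventually_ge_atTop (8 / ε))
  refine ⟨N₁ + N₂ + N₃ + N₄ + N₅ + M + k + ⌈8 * (k + 2) / ε⌉₊ + 2, fun N hN => ?_⟩
  have hN1 : 1 ≤ N := by omega
  have hN0 : (0 : ℝ) < N := by exact_mod_cast hN1
  have hN1R : (1 : ℝ) ≤ N := by exact_mod_cast hN1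
  have k1 := H₁ N (by omega) 0
  have k2 := H₂ N (by omega)
  have k3 := H₂ (N + k) (by omega)
  have k4 := H₃ N (by omega)
  have k5 := H₄ N (by omega)
  have k6 := H₅ N (by omega)
  obtain ⟨fbad, kbad⟩ := bad_classes (N := N) hM hG hGc (by omega) (by positivity : 0 < ε / 16)
  obtain ⟨W, hW⟩ : ∃ W, W = Real.exp ((N : ℝ) ^ c (1 / 4)) := ⟨_, rfl⟩
  rw [← hW] at k4
  have hWb : ∀ w u v n : ℕ, n ≤ N → n ^ (2 * u) + (n + k) ^ (2 * v) = w ^ 2 →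
      u ≤ 4 * (4 * P₀ * (Nat.log 2 (N + k) + 1) + 12) →
      v ≤ 4 * (4 * P₀ * (Nat.log 2 (N + k) + 1) + 12) → (w : ℝ) ≤ W := by
    intro w u v n hn h hu hv
    have h2 := third_small (ν := Nat.log 2 (N + k) + 1) (lt_of_le_of_lt (by omega)
      (Nat.lt_pow_succ_log_self (by norm_num) (N + k))) hu hv h
    refine h2.trans ?_
    rw [hW]
    apply Real.exp_le_exp.mpr
    refine le_trans ?_ k5
    have hlog : Nat.log 2 (N + k) + 1 ≤ 3 * (Nat.log 2 N + 1) := by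
      have h3 : N + k < 2 ^ (Nat.log 2 N + 2) := by
        have h4 : N < 2 ^ (Nat.log 2 N + 1) := Nat.lt_pow_succ_log_self (by norm_num) N
        rw [pow_succ]
        omega
      have h4 := Nat.log_lt_of_lt_pow (by omega : N + k ≠ 0) h3
      omega
    obtain ⟨ν, hν⟩ : ∃ ν, ν = Nat.log 2 N + 1 := ⟨_, rfl⟩
    obtain ⟨ν', hν'⟩ : ∃ ν', ν' = Nat.log 2 (N + k) + 1 := ⟨_, rfl⟩
    rw [← hν, ← hν'] at hlog
    rw [← hν, ← hν']
    have hν1 : 1 ≤ ν := by omega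
    have h5 : 2 * ν' * (4 * (4 * P₀ * ν' + 12)) + 1 ≤ (9 * (2 * (4 * (16 * P₀ + 12))) + 1) * ν ^ 2 := by
      have h6 : 4 * P₀ * ν' + 12 ≤ (16 * P₀ + 12) * (3 * ν) := by nlinarith
      calc 2 * ν' * (4 * (4 * P₀ * ν' + 12)) + 1 ≤
            2 * (3 * ν) * (4 * ((16 * P₀ + 12) * (3 * ν))) + 1 * ν ^ 2 := by
              apply Nat.add_le_add
              · exact Nat.mul_le_mul (Nat.mul_le_mul_left _ hlog) (Nat.mul_le_mul_left _ h6)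
              · rw [one_mul]; exact Nat.one_le_pow _ _ hν1
        _ = _ := by ring
    exact_mod_cast h5
  have h0 := sq_sub (k := k) (N := N) (P₀ := P₀) (W := W) hWb (G := G) (M := M)
  have f1 : ((({n : ℕ | ∀ r ∈ {r : ℕ | (r.Prime ∧ 4 ∣ r - 1) ∧ ¬ ∃ t : ZMod r, t ^ 2 = (k : ZMod r)}, ¬ r ∣ n} ∪
        {n | n + k ∈ {n : ℕ | ∀ r ∈ {r : ℕ | (r.Prime ∧ 4 ∣ r - 1) ∧
          ¬ ∃ t : ZMod r, t ^ 2 = (k : ZMod r)}, ¬ r ∣ n}}) ∩ Set.Ioc 0 (0 + N))).Finite :=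
    (Set.finite_Ioc 0 (0 + N)).subset Set.inter_subset_right
  have f2 : {B : ℕ | 0 < B ∧ B ≤ N + k ∧ ∀ p : ℕ, p ≤ P₀ → p.Prime → p % 4 = 3 → ¬ p ∣ B}.Finite :=
    (Set.finite_Icc 0 (N + k)).subset fun B hB => ⟨Nat.zero_le _, hB.2.1⟩
  have f3 : {n | n + k ∈ {B : ℕ | 0 < B ∧ B ≤ N + k ∧ ∀ p : ℕ, p ≤ P₀ → p.Prime → p % 4 = 3 →
      ¬ p ∣ B}}.Finite := f2.preimage (fun a _ b _ h => by simpa using h)
  have c3 : {n | n + k ∈ {B : ℕ | 0 < B ∧ B ≤ N + k ∧ ∀ p : ℕ, p ≤ P₀ → p.Prime → p % 4 = 3 →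
      ¬ p ∣ B}}.ncard ≤ {B : ℕ | 0 < B ∧ B ≤ N + k ∧ ∀ p : ℕ, p ≤ P₀ → p.Prime → p % 4 = 3 →
      ¬ p ∣ B}.ncard :=
    Set.ncard_le_ncard_of_injOn (fun n => n + k) (fun n hn => hn) (fun a _ b _ h => by simpa using h) f2
  have f4 : (Set.Icc 0 (k + 1)).Finite := Set.finite_Icc _ _
  have c4 : (Set.Icc 0 (k + 1)).ncard = k + 2 := by
    rw [← Finset.coe_Icc, Set.ncard_coe_finset, Nat.card_Icc]
    omega
  have f6 : {n : ℕ | 1 ≤ n ∧ n ≤ N ∧ n % M ∈ G ∧ n ∈ ExcFree X (X + C (k : ℤ)) W}.Finite :=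
    (Set.finite_Icc 0 N).subset fun B hB => ⟨Nat.zero_le _, hB.2.1⟩
  have g0 := Set.ncard_le_ncard h0 (f1.union (f2.union (f3.union (f4.union (fbad.union f6)))))
  have g1 := g0.trans ((Set.ncard_union_le _ _).trans (Nat.add_le_add_left
    ((Set.ncard_union_le _ _).trans (Nat.add_le_add_left
      ((Set.ncard_union_le _ _).trans (Nat.add_le_add c3
        ((Set.ncard_union_le _ _).trans (Nat.add_le_add_left
          (Set.ncard_union_le _ _) _)))) _)) _))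
  rw [c4, zero_add] at g1
  rw [zero_add] at k1
  have g2 := (Nat.cast_le (α := ℝ)).mpr g1
  push_cast at g2 k3
  have hkN : (k : ℝ) ≤ N := by exact_mod_cast (by omega : k ≤ N)
  have e3 : ε / 16 * ((N : ℝ) + k) ≤ ε / 8 * N := by
    have : ε / 16 * ((N : ℝ) + k) ≤ ε / 16 * (N + N) := by gcongr
    linarith
  have e4 : ((k : ℝ) + 2) ≤ ε / 8 * N := by
    have h5 : 8 * ((k : ℝ) + 2) / ε ≤ N := by
      refine (Nat.le_ceil _).trans ?_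
      exact_mod_cast (by omega : ⌈8 * ((k : ℝ) + 2) / ε⌉₊ ≤ N)
    rw [div_le_iff₀ hε] at h5
    linarith
  have e6 : (N : ℝ) ^ (1 / 2 + 1 / 4 : ℝ) ≤ ε / 8 * N := by
    have h5 : (N : ℝ) = (N : ℝ) ^ (1 / 2 + 1 / 4 : ℝ) * (N : ℝ) ^ (1 / 4 : ℝ) := by
      rw [← Real.rpow_add hN0]
      norm_num
    have h6 : 8 / ε * (ε / 8) = 1 := by field_simp
    calc (N : ℝ) ^ (1 / 2 + 1 / 4 : ℝ) = (N : ℝ) ^ (1 / 2 + 1 / 4 : ℝ) * (8 / ε) * (ε / 8) := by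
          rw [mul_assoc, h6, mul_one]
      _ ≤ (N : ℝ) ^ (1 / 2 + 1 / 4 : ℝ) * (N : ℝ) ^ (1 / 4 : ℝ) * (ε / 8) := by gcongr
      _ = ε / 8 * N := by rw [← h5]; ring
  have k4' := k4.trans e6
  linarith

end Pool.Agent.TH888.B2
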