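import Mathlib
import Pool.Agent.TH888.B2.Neigh
import Pool.Agent.TH888.B2.SqMain

/-!
The bases `n` and `n + k` in the Fermat-Catalan equation: all exponents.
-/

set_option autoImplicit false

namespace Pool.Agent.TH888.B2

theorem neigh_fc {k : ℕ} (hk : Squarefree k) (hk2 : 2 ≤ k) (ε : ℝ) (hε : 0 < ε) :
    ∃ N₀ : ℕ, ∀ N : ℕ, N₀ ≤ N → (({n : ℕ | 0 < n ∧ n ≤ N ∧ Nat.Coprime n k ∧ ∃ x y z w : ℕ,
      0 < x ∧ 0 < y ∧ 0 < w ∧ (3 ≤ z ∨ y * z + z * x + x * y < x * y * z) ∧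
      (n ^ x + (n + k) ^ y = w ^ z ∨ n ^ x + w ^ z = (n + k) ^ y ∨
        (n + k) ^ y + w ^ z = n ^ x)}.ncard : ℕ) : ℝ) ≤ ε * N := by
  have hsq : ¬ ∃ t : ℕ, t ^ 2 = k := by
    rintro ⟨t, rfl⟩
    have h1 := hk t (by rw [sq])
    rw [Nat.isUnit_iff] at h1
    subst h1
    norm_num at hk2
  obtain ⟨N₁, H₁⟩ := excAll_density hk hk2 (ε / 2) (by positivity)
  obtain ⟨N₂, H₂⟩ := excSq_density (by omega : 0 < k) hsq (ε / 2) (by positivity)
  refine ⟨N₁ + N₂, fun N hN => ?_⟩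
  have k1 := H₁ N (by omega)
  have k2 := H₂ N (by omega)
  have hsub : {n : ℕ | 0 < n ∧ n ≤ N ∧ Nat.Coprime n k ∧ ∃ x y z w : ℕ,
      0 < x ∧ 0 < y ∧ 0 < w ∧ (3 ≤ z ∨ y * z + z * x + x * y < x * y * z) ∧
      (n ^ x + (n + k) ^ y = w ^ z ∨ n ^ x + w ^ z = (n + k) ^ y ∨
        (n + k) ^ y + w ^ z = n ^ x)} ⊆ (ExcAll k ∩ Set.Ioc 0 N) ∪ (ExcSq k ∩ Set.Ioc 0 N) := by
    rintro n ⟨hn, hnN, hcop, x, y, z, w, hx, hy, hw, hz, h⟩
    have hcop' : Nat.Coprime n (n + k) := by simpa using hcop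
    by_cases hz3 : 3 ≤ z
    · left
      exact ⟨⟨hn, hcop', x, y, z, w, hx, hy, hz3, hw, h⟩, hn, hnN⟩
    · right
      have hz' := hz.resolve_left hz3
      have hz2 : z = 2 := by
        have h3 : z = 0 ∨ z = 1 ∨ z = 2 := by omega
        rcases h3 with h3 | h3 | h3
        · subst h3; simp at hz'
        · subst h3
          exfalso
          rw [mul_one, one_mul, mul_one] at hz'
          omega
        · exact h3
      subst hz2
      exact ⟨⟨hn, hcop', x, y, w, by nlinarith, hw, h⟩, hn, hnN⟩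
  have hfin : ((ExcAll k ∩ Set.Ioc 0 N) ∪ (ExcSq k ∩ Set.Ioc 0 N)).Finite :=
    ((Set.finite_Ioc 0 N).subset Set.inter_subset_right).union
      ((Set.finite_Ioc 0 N).subset Set.inter_subset_right)
  have h1 := Set.ncard_le_ncard hsub hfin
  have h2 := h1.trans (Set.ncard_union_le _ _)
  have h3 := (Nat.cast_le (α := ℝ)).mpr h2
  push_cast at h3
  linarith

end Pool.Agent.TH888.B2
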